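import Pool.Agent.Helper3.GT.DefsR

/-!
# The law of the 2-Selmer groups of the quadratic twists: definitions for the hand-in
-/

set_option autoImplicit false

namespace Pool.Agent.Helper54.GLR

open Polynomial Finset Pool.Agent.Helper3.HYR Pool.Agent.Helper3.GTR

universe u

/-- The 2-Selmer set of `y ^ 2 = h(x)` is contained in the union of at most `N` classes modulo squares (the
2-Selmer group, the set of these classes, has at most `N` elements). -/
def SelmerAtMost {k : Type u} [Field k] (h : k[X]) (N : ℕ) : Prop :=
  ∃ s : Finset (AdjoinRoot h)ˣ, s.card ≤ N ∧ ∀ z ∈ selmerSet h, ∃ y ∈ s, IsSquare (z * y)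

/-- The monic squarefree polynomials `D` of degree `m` such that for every `i` some simple branch point of
`f i` does not divide `D`. -/
def allowedTwists {F : Type} [Field F] {ι : Type} (f : ι → F[X][X]) (m : ℕ) : Set F[X] :=
  {D ∈ squarefreeMonic F m | ∀ i, ∃ P : F[X], SimpleBranch f i P ∧ ¬ P ∣ D}

/-- The weight `∏_{j = 1}^r 2 / (2 ^ j - 1)`. -/
noncomputable def weight (r : ℕ) : ℝ := ∏ j ∈ range r, 2 / (2 ^ (j + 1) - 1)

/-- The probability of the rank `r` in the law of Heath-Brown and of Poonen and Rains. -/
noncomputable def prob (r : ℕ) : ℝ := weight r / ∑' s, weight s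

end Pool.Agent.Helper54.GLR
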