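import Pool.Agent.Helper54.GL.StM
import Pool.Agent.Helper54.GL.DefsR
import Pool.Agent.Helper3.GT.Bridge

/-!
# GL: the definitions of the hand-in agree with the internal ones
-/

set_option autoImplicit false

namespace Pool.Agent.Helper54.GLR

open Polynomial Filter Finset Pool.Agent.Helper3.HYR Pool.Agent.Helper3.GTR
open Pool.Agent.Helper54.PT (Prm)
open Pool.Agent.Helper3 (HY.fK)

theorem prob_eq (r : ℕ) : prob r = GL.pr r := rfl

theorem selLE_iff {k : Type} [Field k] (h : k[X]) (N : ℕ) : SelmerAtMost h N ↔ GL.SelLE h N := by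
  refine exists_congr fun s => and_congr Iff.rfl (forall_congr' fun z => ?_)
  exact imp_congr (mem_selmerSet_iff h z) Iff.rfl

theorem simD_iff {F : Type} [Field F] {ι : Type} (f : ι → F[X][X]) (D : F[X]) :
    (∀ i, ∃ P : F[X], SimpleBranch f i P ∧ ¬ P ∣ D) ↔ GL.SimD f D := by
  classical
  refine forall_congr' fun i => ⟨?_, ?_⟩
  · rintro ⟨P, ⟨hP, h1, h2, h3⟩, h4⟩
    refine ⟨⟨normalize P, monic_normalize hP.ne_zero,
      (normalize_associated P).irreducible_iff.2 hP⟩, ?_, ?_, ?_, ?_⟩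
    · exact (normalize_associated P).dvd_iff_dvd_left.2 h1
    · exact fun h5 => h2 ((dvd_normalize 2).1 h5)
    · exact fun j hj h5 => h3 j hj ((normalize_associated P).dvd_iff_dvd_left.1 h5)
    · exact fun h5 => h4 ((normalize_associated P).dvd_iff_dvd_left.1 h5)
  · rintro ⟨P, h1, h2, h3, h4⟩
    exact ⟨P.1, ⟨P.2.2, h1, h2, h3⟩, h4⟩

theorem main_of (hM : GL.StGLX) (F : Type) [Field F] [Finite F] (h2 : (2 : F) ≠ 0) (ι : Type)
    [Fintype ι] [Nonempty ι] (g : ι → ℕ) (f : ι → F[X][X]) (hf : IsGenericFamily g f)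
    (r : ι → ℕ) (ε : ℝ) (hε : 0 < ε) :
    ∀ᶠ m : ℕ in atTop,
      (∏ i, ∑ j ∈ range (r i + 1), prob j - ε) * ((allowedTwists f m).ncard : ℝ) ≤
        ({D ∈ allowedTwists f m | ∀ i, SelmerAtMost (twist (f i) D) (2 ^ r i)}.ncard : ℝ) := by
  have := Fintype.ofFinite F
  refine (hM F h2 ι g f (hypF_of hf) r ε hε).mono fun m hm => ?_
  have h1 : allowedTwists f m = {D : F[X] | D.Monic ∧ Squarefree D ∧ D.natDegree = m ∧
      GL.SimD f D} := by
    ext D
    simp only [allowedTwists, squarefreeMonic, Set.mem_ofPred_eq, and_assoc]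
    refine and_congr Iff.rfl (and_congr Iff.rfl (and_congr Iff.rfl ?_))
    exact simD_iff f D
  have h2 : {D ∈ allowedTwists f m | ∀ i, SelmerAtMost (twist (f i) D) (2 ^ r i)} =
      {D : F[X] | D.Monic ∧ Squarefree D ∧ D.natDegree = m ∧ GL.SimD f D ∧
        ∀ i, GL.SelLE (HY.fK ((f i).scaleRoots D)) (2 ^ r i)} := by
    ext D
    simp only [allowedTwists, squarefreeMonic, Set.mem_ofPred_eq, and_assoc]
    refine and_congr Iff.rfl (and_congr Iff.rfl (and_congr Iff.rfl (and_congr ?_ ?_)))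
    · exact simD_iff f D
    · exact forall_congr' fun i => selLE_iff _ _
  rw [h2, h1]
  exact hm

end Pool.Agent.Helper54.GLR
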