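import Pool.Agent.Helper3.GT.AsmAll
import Pool.Agent.Helper54.GT.AllAB
import Pool.Agent.Helper54.GT.Fin

/-!
# GL: the facts proved in project GT
-/

set_option autoImplicit false

namespace Pool.Agent.Helper54.GL

open Pool.Agent.Helper3.GT

theorem tFIN : StFIN := hFIN (hSMALL hSI hSM hSZ)
theorem tOE : StOE := oe_all
theorem tINV : StINV := inv_of hSQP
theorem tL1 : StL1 := l1_of (hPI hSMO hNU)
theorem tL2 : StL2 := l2_of oe2_all
theorem tISOG : StISOG := Pool.Agent.Helper9.GTI.stISOG oe_all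
theorem tA1 : StA1 := Pool.Agent.Helper54.GT.eA1
theorem tCONTR : StCONTR := hCONTR tFIN hSG tOE tISOG tL2 hFAC
theorem tXH : StXH := hXH tFIN hSG tOE
theorem tRT : Pool.Agent.Helper54.GT.StRT := Pool.Agent.Helper54.GT.aRT

end Pool.Agent.Helper54.GL
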