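import Pool.Agent.Helper54.GL.StM

/-!
# GL module CG (helper84): the number of good primes of degree `k`
-/

set_option autoImplicit false

namespace Pool.Agent.Helper54.GL

open Polynomial Finset Filter Topology
open Pool.Agent.Helper54.PT (Prm prm mem_prm)
open Pool.Agent.Helper3.HY (fK RR LL kp red)
open Pool.Agent.Helper3.GT (Gd GdF HypF)
open Pool.Agent.Helper54.GT (kk et)

/-- Finite sets of primes of degree `k` dividing `r`. -/
theorem card_dvd_CG {F : Type} [Field F] (r : F[X]) (hr : r ≠ 0) (k : ℕ) (Q : Finset (Prm F))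
    (hQ : ∀ P ∈ Q, P.1.natDegree = k ∧ P.1 ∣ r) : k * Q.card ≤ r.natDegree := by
  have h1 : (∏ P ∈ Q, P.1) ∣ r := by
    refine Finset.prod_dvd_of_coprime ?_ fun P hP => (hQ P hP).2
    intro P _ P' _ hne
    have h2 : IsCoprime P.1 P'.1 := by
      rcases P.2.2.isCoprime_or_dvd P'.1 with h | h
      · exact h
      · exfalso
        apply hne
        apply Subtype.ext
        exact eq_of_monic_of_associated P.2.1 P'.2.1 (P.2.2.associated_of_dvd P'.2.2 h)
    exact h2
  have h2 := natDegree_le_of_dvd h1 hr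
  rw [natDegree_prod_of_monic _ _ fun P _ => P.2.1, Finset.sum_congr rfl fun P hP => (hQ P hP).1,
    Finset.sum_const, smul_eq_mul, mul_comm] at h2
  exact h2

theorem gCG (hRT : Pool.Agent.Helper54.GT.StRT) (hIRR : Pool.Agent.Helper3.GT.StIRR) : StCG := by
  intro F _ _ h2 ι _ g f hf
  classical
  set R : F[X] := ∏ i, (f i).discr with hR
  have hR0 : R ≠ 0 := by
    rw [hR]
    exact Finset.prod_ne_zero_iff.2 fun i _ => (hIRR F h2 ι g f hf i).2.2.2
  refine ⟨2 + R.natDegree, by positivity, ?_⟩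
  intro k hk
  obtain ⟨h1, hfin, hcard, h4⟩ := hRT F k hk
  set q : ℕ := Fintype.card F with hq
  -- all primes
  have hall : (q : ℝ) ^ k ≤ k * ((prm F k).card : ℝ) + 2 * Real.sqrt q ^ k := by
    have hsub : {t : kk F | t ^ q ^ k = t} ⊆
        (⋃ P ∈ prm F k, {t : kk F | et t P.1 = 0}) ∪
          {t : kk F | t ^ q ^ k = t ∧ ∀ P ∈ prm F k, et t P.1 ≠ 0} := by
      intro t ht
      by_cases h : ∀ P ∈ prm F k, et t P.1 ≠ 0
      · exact Or.inr ⟨ht, h⟩
      · push Not at h
        obtain ⟨P, hP, hP0⟩ := h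
        left
        simp only [Set.mem_iUnion, Set.mem_ofPred_eq]
        exact ⟨P, hP, hP0⟩
    have hfin' : ((⋃ P ∈ prm F k, {t : kk F | et t P.1 = 0}) ∪
          {t : kk F | t ^ q ^ k = t ∧ ∀ P ∈ prm F k, et t P.1 ≠ 0}).Finite := by
      refine Set.Finite.subset hfin ?_
      intro t ht
      rcases ht with ht | ht
      · simp only [Set.mem_iUnion, Set.mem_ofPred_eq] at ht
        obtain ⟨P, hP, hP0⟩ := ht
        exact ((h1 P hP).2 t hP0).1
      · exact ht.1
    have h5 : q ^ k ≤ k * (prm F k).card +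
        {t : kk F | t ^ q ^ k = t ∧ ∀ P ∈ prm F k, et t P.1 ≠ 0}.ncard := by
      calc q ^ k = {t : kk F | t ^ q ^ k = t}.ncard := hcard.symm
        _ ≤ _ := Set.ncard_le_ncard hsub hfin'
        _ ≤ _ := Set.ncard_union_le _ _
        _ ≤ _ := by
          refine Nat.add_le_add_right ?_ _
          refine (Finset.set_ncard_biUnion_le _ _).trans ?_
          rw [Finset.sum_congr rfl fun P hP => (h1 P hP).1, Finset.sum_const, smul_eq_mul,
            mul_comm]
    have h6 : (q : ℝ) ^ k ≤ k * ((prm F k).card : ℝ) +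
        ({t : kk F | t ^ q ^ k = t ∧ ∀ P ∈ prm F k, et t P.1 ≠ 0}.ncard : ℝ) := by
      exact_mod_cast h5
    linarith
  -- the bad primes
  have hbad : (k : ℝ) * (((prm F k).filter fun P => ¬ GdF f P).card : ℝ) ≤ R.natDegree := by
    have : k * ((prm F k).filter fun P => ¬ GdF f P).card ≤ R.natDegree := by
      apply card_dvd_CG R hR0
      intro P hP
      rw [Finset.mem_filter] at hP
      refine ⟨mem_prm.1 hP.1, ?_⟩
      obtain ⟨-, hP2⟩ := hP
      unfold GdF Gd at hP2
      push Not at hP2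
      obtain ⟨i, hi⟩ := hP2
      exact hi.trans (Finset.dvd_prod_of_mem _ (Finset.mem_univ i))
    exact_mod_cast this
  have hsplit : ((prm F k).card : ℝ) = (((prm F k).filter (GdF f)).card : ℝ) +
      (((prm F k).filter fun P => ¬ GdF f P).card : ℝ) := by
    rw [← Nat.cast_add, Finset.card_filter_add_card_filter_not]
  have hone : (1 : ℝ) ≤ Real.sqrt q ^ k := by
    apply one_le_pow₀
    rw [Real.one_le_sqrt]
    exact_mod_cast (Fintype.card_pos : 0 < Fintype.card F)
  have hdeg : (0 : ℝ) ≤ (R.natDegree : ℝ) := Nat.cast_nonneg _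
  rw [hsplit, mul_add] at hall
  nlinarith

end Pool.Agent.Helper54.GL
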