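import Pool.Agent.Helper54.GL.StM
import Pool.Agent.Helper3.GT.M_CRT

/-!
# GL: module CRT2
-/

set_option autoImplicit false

namespace Pool.Agent.Helper54.GL

open Polynomial Finset Filter Topology
open Pool.Agent.Helper54.PT (Prm prm)
open Pool.Agent.Helper3.HY (kp red)

open Pool.Agent.Helper3.GT.CRT in
theorem gCRT2 : StCRT2 := by
  classical
  intro F _ _ h2 B S U Δ e hSB
  choose E hE1 hE2 using exists_unit_cls h2 U
  choose E' hE1' hE2' using exists_unit_cls h2 Δ
  obtain ⟨D, hDm, hDe, hD⟩ := exists_monic (S ∪ B)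
    (fun P => if P ∈ S then P.1 * E P else E' P) e
  refine ⟨D, hDm, hDe, ?_, ?_⟩
  · intro P hP
    obtain ⟨c, hc⟩ := hD P (mem_union_left _ hP)
    rw [if_pos hP] at hc
    have h1 : D = P.1 * (E P + P.1 * c) := by linear_combination hc
    refine ⟨E P + P.1 * c, h1, ?_, ?_⟩
    · rw [dvd_add_left (dvd_mul_right _ _)]
      exact hE1 P
    · have : red P (E P + P.1 * c) = red P (E P) := by
        rw [map_add, map_mul, AdjoinRoot.mk_self, zero_mul, add_zero]
      rw [this]
      exact hE2 P
  · intro P hP
    have hPS : P ∉ S := fun h => (Finset.disjoint_left.1 hSB h) hP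
    obtain ⟨c, hc⟩ := hD P (mem_union_right _ hP)
    rw [if_neg hPS] at hc
    have h1 : D = E' P + P.1 * (P.1 * c) := by linear_combination hc
    constructor
    · rw [h1, dvd_add_left (dvd_mul_right _ _)]
      exact hE1' P
    · have : red P D = red P (E' P) := by
        rw [h1, map_add, map_mul, AdjoinRoot.mk_self, zero_mul, add_zero]
      rw [this]
      exact hE2' P

end Pool.Agent.Helper54.GL
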