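import Pool.Agent.Helper54.GL.StM
import Pool.Agent.Helper3.GT.M_CTR

/-!
# GL: module CTR2 (the averaged contraction, with a condition on `dgS S` only)
-/

set_option autoImplicit false

namespace Pool.Agent.Helper54.GL

open Polynomial Finset Filter Topology
open Pool.Agent.Helper54.PT (Prm prm IsAbsP IsAbsInf mem_prm)
open Pool.Agent.Helper3.HY (fK RR LL kp red TwAt selmerSet TType)
open Pool.Agent.Helper3.GT (Gd Bd GdF HypF facs TyI TyT Rp ep om SelS MS XS dgS GeoSn EvP)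
open Pool.Agent.Helper3.GT.CTR (card_bad Tr XS_eq rep)

open Classical in
theorem gCTR2 (hCONTR : Pool.Agent.Helper3.GT.StCONTR) (hFIN : Pool.Agent.Helper3.GT.StFIN)
    (hOE : Pool.Agent.Helper3.GT.StOE) (hFAC : Pool.Agent.Helper3.GT.StFAC)
    (hA1 : Pool.Agent.Helper3.GT.StA1) (hXH : Pool.Agent.Helper3.GT.StXH) : StCTR2 := by
  intro F _ _ h2 g hg f hm hd hgeo hsep hdisc hfact
  obtain ⟨ρ₁, C₁, hρ0, hρ1, hC₁, hA⟩ := hA1 F h2 g hg f hm hd hgeo
  obtain ⟨C₂, hFin⟩ := hFIN F f hm hsep hdisc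
  obtain ⟨B, hB⟩ := card_bad f
  have hq : (1 : ℝ) < Fintype.card F := by exact_mod_cast Fintype.one_lt_card (α := F)
  have hs1 : 1 < Real.sqrt (Fintype.card F) := by
    rw [Real.lt_sqrt (by norm_num)]
    linarith
  have hss : Real.sqrt (Fintype.card F) * Real.sqrt (Fintype.card F) = Fintype.card F :=
    Real.mul_self_sqrt (by linarith)
  have h2s : 1 ≤ Real.sqrt 2 := by
    rw [Real.one_le_sqrt]
    norm_num
  set q : ℝ := (Fintype.card F : ℝ) with hqdef
  set A : ℝ := Real.sqrt 2 ^ (2 * g) with hAdef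
  have hA0 : 0 ≤ A := by positivity
  have hρ1' : 0 < 1 - ρ₁ := by linarith
  have hK : 0 ≤ C₁ + A * B := by positivity
  set C₃ : ℝ := 2 * (C₁ + A * B) * ((C₂ : ℝ) + 1) / (1 - ρ₁) with hC₃
  have hC₃0 : 0 ≤ C₃ := by positivity
  refine ⟨1 + A + C₃, (1 + ρ₁) / 2, by linarith, by linarith, by linarith,
    fun k S D D' hS Q hQ => ?_⟩
  rcases Nat.eq_zero_or_pos k with hk0 | hk1
  · subst hk0
    have h1 : 0 ≤ (1 + ρ₁) / 2 := by linarith
    rw [Nat.cast_zero, zero_mul]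
    positivity
  have hkR : (0 : ℝ) < k := by exact_mod_cast hk1
  set W : Prm F → ℝ := fun P => Real.sqrt 2 ^ ((facs f P).card - 1) with hWdef
  have hW0 : ∀ P, 0 ≤ W P := fun P => by positivity
  have hWA : ∀ P, Gd f P → W P ≤ A := by
    intro P hP
    have h := (hFAC F h2 g hg f hm hd P hP).2.2.2.2.1
    exact pow_le_pow_right₀ h2s (by omega)
  set V := (hFin S D).1.toFinset with hVdef
  have hV : (V : Set ((LL f)ˣ ⧸ (powMonoidHom 2 : (LL f)ˣ →* (LL f)ˣ).range)) =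
      (QuotientGroup.mk : (LL f)ˣ → (LL f)ˣ ⧸ (powMonoidHom 2 : (LL f)ˣ →* (LL f)ˣ).range) ''
        SelS f S D := Set.Finite.coe_toFinset _
  have hM : MS f S D = V.card := by
    rw [MS, ← hV, Set.ncard_coe_finset]
  rcases Q.eq_empty_or_nonempty with hQe | ⟨P₀, hP₀⟩
  · rw [hQe, Finset.sum_empty, mul_zero]
    have : 0 ≤ (1 + ρ₁) / 2 := by linarith
    positivity
  have hMpos : 1 ≤ MS f S D := by
    have h := hXH F h2 g hg f hm hd hsep hdisc P₀ (hQ P₀ hP₀).2.1 S D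
    exact h.1.trans h.2.1
  have hMR : (1 : ℝ) ≤ MS f S D := by exact_mod_cast hMpos
  set s : ℝ := Real.sqrt (MS f S D) with hsdef
  have hsM : s * s = MS f S D := Real.mul_self_sqrt (by linarith)
  have hs1' : 1 ≤ s := by
    rw [hsdef, Real.one_le_sqrt]
    exact hMR
  -- the pointwise bound
  have hpt : ∀ P ∈ Q, Real.sqrt (MS f (insert P S) (D' P)) * s ≤ W P * XS f S D P := by
    intro P hP
    obtain ⟨-, hGd, hPS, hSel, E, hE, hPE⟩ := hQ P hP
    have h := hCONTR F h2 g hg f hm hd hsep hdisc P hGd S hPS E hPE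
    rw [← hE] at h
    have e1 : MS f S (D' P) = MS f S D := by rw [MS, MS, hSel]
    have e2 : XS f S (D' P) P = XS f S D P := by rw [XS, XS, hSel]
    rw [e1, e2] at h
    have h' : ((MS f (insert P S) (D' P) : ℝ)) * MS f S D ≤
        2 ^ ((facs f P).card - 1) * (XS f S D P : ℝ) ^ 2 := by exact_mod_cast h
    have h3 := Real.sqrt_le_sqrt h'
    rw [Real.sqrt_mul (Nat.cast_nonneg _), Real.sqrt_mul (by positivity),
      Real.sqrt_sq (Nat.cast_nonneg _)] at h3
    have h4 : Real.sqrt (2 ^ ((facs f P).card - 1)) = W P := by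
      have h5 : (2 : ℝ) ^ ((facs f P).card - 1) = (Real.sqrt 2 ^ ((facs f P).card - 1)) ^ 2 := by
        rw [← pow_mul, mul_comm, pow_mul, Real.sq_sqrt (by norm_num)]
      rw [h5, Real.sqrt_sq (by positivity)]
    rw [h4] at h3
    exact h3
  -- a single class
  have hcls : ∀ κ ∈ V, (k : ℝ) * ∑ P ∈ Q.filter (fun P => Tr f S D P κ), W P ≤
      (if κ = 1 then A * q ^ k else 0) + (1 + ρ₁) / 2 * q ^ k := by
    intro κ hκ
    have hqk : 0 ≤ (1 + ρ₁) / 2 * q ^ k := by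
      have : 0 ≤ (1 + ρ₁) / 2 := by linarith
      positivity
    by_cases hκ1 : κ = 1
    · rw [if_pos hκ1]
      have h1 : ∑ P ∈ Q.filter (fun P => Tr f S D P κ), W P ≤
          ∑ P ∈ prm F k, A := by
        refine (Finset.sum_le_sum fun P hP => hWA P (hQ P (Finset.mem_filter.1 hP).1).2.1).trans ?_
        refine Finset.sum_le_sum_of_subset_of_nonneg ?_ fun _ _ _ => hA0
        intro P hP
        exact mem_prm.2 (hQ P (Finset.mem_filter.1 hP).1).1
      rw [Finset.sum_const, nsmul_eq_mul] at h1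
      have h3 := Pool.Agent.Helper3.HY.Pf.card_prm_le (F := F) k hk1
      have h4 : (k : ℝ) * ∑ P ∈ Q.filter (fun P => Tr f S D P κ), W P ≤
          k * ((prm F k).card * A) := mul_le_mul_of_nonneg_left h1 hkR.le
      have h5 : (k : ℝ) * ((prm F k).card * A) ≤ A * q ^ k := by
        rw [← mul_assoc, mul_comm A]
        exact mul_le_mul_of_nonneg_right h3 hA0
      linarith
    · rw [if_neg hκ1, zero_add]
      have hκ' : κ ∈ (V : Set ((LL f)ˣ ⧸ (powMonoidHom 2 : (LL f)ˣ →* (LL f)ˣ).range)) := hκ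
      rw [hV] at hκ'
      obtain ⟨z, hz, rfl⟩ := hκ'
      obtain ⟨β, a, hβ, hRp, ha⟩ := (hFin S D).2 z hz
      obtain ⟨ha0, hnsq, hns⟩ := rep f S D z hz hκ1 β hβ a ha
      set c : ℕ := C₂ * (dgS S + 1) with hcdef
      set T := Q.filter (fun P => Tr f S D P (QuotientGroup.mk z)) with hTdef
      set T₁ := T.filter (fun P => ∀ ψ ∈ facs f P, AdjoinRoot.mk ψ (a.map (red P)) ≠ 0) with hT₁
      set T₂ := T.filter (fun P => ¬ ∀ ψ ∈ facs f P, AdjoinRoot.mk ψ (a.map (red P)) ≠ 0) with hT₂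
      have hsplit : ∑ P ∈ T, W P = ∑ P ∈ T₁, W P + ∑ P ∈ T₂, W P :=
        (Finset.sum_filter_add_sum_filter_not _ _ _).symm
      have hb1 : (k : ℝ) * ∑ P ∈ T₁, W P ≤ ρ₁ * q ^ k + C₁ * (c + 1) * Real.sqrt q ^ k := by
        refine hA c a hRp ha0 hnsq hns k T₁ fun P hP => ?_
        obtain ⟨hPT, hP1⟩ := Finset.mem_filter.1 hP
        obtain ⟨hPQ, z', ⟨hz', hep⟩, hzz⟩ := Finset.mem_filter.1 hPT
        have hGd := (hQ P hPQ).2.1
        refine ⟨(hQ P hPQ).1, hGd, fun ψ hψ => ⟨hP1 ψ hψ, ?_⟩⟩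
        obtain ⟨ho1, -, -, ho4⟩ := hOE F h2 g hg f hm hd hsep P hGd
        rw [← (ho4 ψ hψ a (hP1 ψ hψ)).2, ← ha]
        rw [QuotientGroup.eq] at hzz
        obtain ⟨u, hu⟩ := hzz
        rw [powMonoidHom_apply] at hu
        have h5 : z = z' * u ^ 2 := by rw [hu, mul_inv_cancel_left]
        have h6 : (z : LL f) = (z' : LL f) * ((u : LL f) * (u : LL f)) := by
          rw [h5, Units.val_mul, Units.val_pow_eq_pow_val, sq]
        rw [sq, (ho1 ψ hψ (z : LL f) (β * β) z.ne_zero (mul_ne_zero hβ hβ)).2,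
          (ho1 ψ hψ β β hβ hβ).2, CharTwo.add_self_eq_zero, add_zero, h6,
          (ho1 ψ hψ (z' : LL f) ((u : LL f) * u) z'.ne_zero (mul_ne_zero u.ne_zero u.ne_zero)).2,
          (ho1 ψ hψ (u : LL f) u u.ne_zero u.ne_zero).2, CharTwo.add_self_eq_zero, add_zero]
        exact hep ψ hψ
      have hb2 : (k : ℝ) * ∑ P ∈ T₂, W P ≤ A * (B * (c + 1)) := by
        have h5 : k * T₂.card ≤ B * (c + 1) := by
          refine hB c a hRp ha0 k T₂ fun P hP => ?_
          obtain ⟨hPT, hP1⟩ := Finset.mem_filter.1 hP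
          have hPQ := (Finset.mem_filter.1 hPT).1
          refine ⟨(hQ P hPQ).1, ?_⟩
          push Not at hP1
          obtain ⟨ψ, hψ, hψ0⟩ := hP1
          have h6 := ((hFAC F h2 g hg f hm hd P (hQ P hPQ).2.1).1 ψ).1 hψ
          exact ⟨ψ, h6.2.2, h6.2.1.not_isUnit, hψ0⟩
        have h6 : ∑ P ∈ T₂, W P ≤ T₂.card * A := by
          rw [← nsmul_eq_mul]
          refine Finset.sum_le_card_nsmul _ _ _ fun P hP => hWA P ?_
          exact (hQ P (Finset.mem_filter.1 (Finset.mem_filter.1 hP).1).1).2.1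
        have h7 : ((k * T₂.card : ℕ) : ℝ) ≤ ((B * (c + 1) : ℕ) : ℝ) := by exact_mod_cast h5
        push_cast at h7
        calc (k : ℝ) * ∑ P ∈ T₂, W P ≤ k * (T₂.card * A) := mul_le_mul_of_nonneg_left h6 hkR.le
          _ = (k * T₂.card) * A := by ring
          _ ≤ (B * (c + 1)) * A := mul_le_mul_of_nonneg_right h7 hA0
          _ = A * (B * (c + 1)) := by ring
      have hc1 : (c : ℝ) + 1 ≤ ((C₂ : ℝ) + 1) * (dgS S + 1) := by
        rw [hcdef]
        push_cast
        have h5 : (0 : ℝ) ≤ dgS S := Nat.cast_nonneg _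
        nlinarith
      have hkey : (C₁ + A * B) * (((C₂ : ℝ) + 1) * (dgS S + 1)) ≤
          (1 - ρ₁) / 2 * Real.sqrt q ^ k := by
        have h5 : C₃ * ((dgS S : ℝ) + 1) ≤ Real.sqrt q ^ k := by
          refine le_trans ?_ hS
          apply mul_le_mul_of_nonneg_right _ (by positivity)
          linarith
        have h6 : (1 - ρ₁) / 2 * (C₃ * ((dgS S : ℝ) + 1)) =
            (C₁ + A * B) * (((C₂ : ℝ) + 1) * (dgS S + 1)) := by
          rw [hC₃]
          field_simp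
        rw [← h6]
        exact mul_le_mul_of_nonneg_left h5 (by linarith)
      have hsk : 1 ≤ Real.sqrt q ^ k := one_le_pow₀ hs1.le
      have h8 : C₁ * (c + 1) * Real.sqrt q ^ k + A * (B * (c + 1)) ≤
          (1 - ρ₁) / 2 * q ^ k := by
        have h9 : (C₁ + A * B) * ((c : ℝ) + 1) ≤ (1 - ρ₁) / 2 * Real.sqrt q ^ k :=
          (mul_le_mul_of_nonneg_left hc1 hK).trans hkey
        have h10 : (C₁ + A * B) * ((c : ℝ) + 1) * Real.sqrt q ^ k ≤ (1 - ρ₁) / 2 * q ^ k := by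
          refine (mul_le_mul_of_nonneg_right h9 (by positivity)).trans ?_
          rw [mul_assoc, ← mul_pow, hss]
        have h11 : A * (B * ((c : ℝ) + 1)) * 1 ≤ A * (B * ((c : ℝ) + 1)) * Real.sqrt q ^ k :=
          mul_le_mul_of_nonneg_left hsk (by positivity)
        nlinarith
      rw [hsplit, mul_add]
      linarith
  -- summation
  have hsum : ∑ P ∈ Q, W P * (XS f S D P : ℝ) =
      ∑ κ ∈ V, ∑ P ∈ Q.filter (fun P => Tr f S D P κ), W P := by
    have h1 : ∀ P ∈ Q, W P * (XS f S D P : ℝ) = ∑ κ ∈ V, if Tr f S D P κ then W P else 0 := by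
      intro P _
      rw [XS_eq f S D V hV P, ← Finset.sum_filter, Finset.sum_const, nsmul_eq_mul, mul_comm]
    rw [Finset.sum_congr rfl h1, Finset.sum_comm]
    exact Finset.sum_congr rfl fun κ _ => (Finset.sum_filter _ _).symm
  have htot : (k : ℝ) * ∑ P ∈ Q, W P * (XS f S D P : ℝ) ≤
      A * q ^ k + MS f S D * ((1 + ρ₁) / 2 * q ^ k) := by
    rw [hsum, Finset.mul_sum]
    refine (Finset.sum_le_sum hcls).trans ?_
    rw [Finset.sum_add_distrib, Finset.sum_const, nsmul_eq_mul, hM]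
    gcongr
    rw [Finset.sum_ite_eq']
    split_ifs
    · exact le_rfl
    · positivity
  have hfin : ((k : ℝ) * ∑ P ∈ Q, Real.sqrt (MS f (insert P S) (D' P))) * s ≤
      A * q ^ k + MS f S D * ((1 + ρ₁) / 2 * q ^ k) := by
    refine le_trans ?_ htot
    rw [mul_assoc, Finset.sum_mul]
    exact mul_le_mul_of_nonneg_left (Finset.sum_le_sum hpt) hkR.le
  have hspos : 0 < s := by linarith
  have hgoal : (A * q ^ k + MS f S D * ((1 + ρ₁) / 2 * q ^ k)) ≤
      (q ^ k * ((1 + A + C₃) + (1 + ρ₁) / 2 * s)) * s := by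
    rw [← hsM]
    have h1 : 0 ≤ A * q ^ k * (s - 1) := by
      have : 0 ≤ s - 1 := by linarith
      positivity
    have h2 : 0 ≤ (1 + C₃) * q ^ k * s := by positivity
    have h3 : (q ^ k * ((1 + A + C₃) + (1 + ρ₁) / 2 * s)) * s -
        (A * q ^ k + (s * s) * ((1 + ρ₁) / 2 * q ^ k)) =
        A * q ^ k * (s - 1) + (1 + C₃) * q ^ k * s := by ring
    linarith
  exact le_of_mul_le_mul_right (hfin.trans hgoal) hspos

end Pool.Agent.Helper54.GL
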