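import Pool.Agent.Helper54.GL.StM
import Pool.Agent.Helper54.GT.A_DSC

set_option autoImplicit false

namespace Pool.Agent.Helper54.GL

open Polynomial Finset

private theorem sumIoi_DSR (n : ℕ) : (∑ i : Fin n, (Ioi i).card) * 2 = n * (n - 1) := by
  have h1 : ∀ i : Fin n, (Ioi i).card = n - 1 - (i : ℕ) := fun i => Fin.card_Ioi i
  simp_rw [h1]
  rw [Fin.sum_univ_eq_sum_range (fun i => n - 1 - i) n, Finset.sum_range_reflect (fun i => i) n,
    Finset.sum_range_id_mul_two]

private theorem vdm_DSR {B : Type} [Field B] (n : ℕ) (c : B) (τ : Fin n → B) :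
    (Matrix.vandermonde (fun b => c * τ b)).det ^ 2 =
      c ^ (n * (n - 1)) * (Matrix.vandermonde τ).det ^ 2 := by
  rw [Matrix.det_vandermonde, Matrix.det_vandermonde, ← sumIoi_DSR n, pow_mul, ← mul_pow]
  congr 1
  rw [← Finset.prod_pow_eq_pow_sum, ← Finset.prod_mul_distrib]
  refine Finset.prod_congr rfl fun i _ => ?_
  rw [← Finset.prod_const, ← Finset.prod_mul_distrib]
  refine Finset.prod_congr rfl fun j _ => ?_
  ring

private theorem scale_DSR {B : Type} [Field B] (n : ℕ) (c : B) (τ : Fin n → B) :
    (∏ b, (X - C (τ b))).scaleRoots c = ∏ b, (X - C (c * τ b)) := by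
  classical
  have key : ∀ s : Finset (Fin n), (∏ b ∈ s, (X - C (τ b))).scaleRoots c =
      ∏ b ∈ s, (X - C (c * τ b)) := by
    intro s
    induction s using Finset.induction_on with
    | empty =>
      rw [Finset.prod_empty, Finset.prod_empty]
      exact one_scaleRoots c
    | insert a s ha ih =>
      rw [Finset.prod_insert ha, Finset.prod_insert ha, mul_scaleRoots_of_noZeroDivisors, ih]
      congr 1
      ext k
      rw [coeff_scaleRoots, natDegree_X_sub_C]
      rcases k with _ | _ | k
      · simp [coeff_X, coeff_C]; ring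
      · simp [coeff_X]
      · simp [coeff_X]
  exact key univ

theorem gDSR : StDSR := by
  intro F _ f D hf hn
  classical
  let B := AlgebraicClosure (FractionRing F[X])
  let φ : F[X] →+* B := (algebraMap (FractionRing F[X]) B).comp (algebraMap F[X] (FractionRing F[X]))
  have hφ : Function.Injective φ :=
    (algebraMap (FractionRing F[X]) B).injective.comp (IsFractionRing.injective F[X] (FractionRing F[X]))
  have hsp : (f.map φ).Splits := IsAlgClosed.splits _
  have hmon : (f.map φ).Monic := hf.map φ
  obtain ⟨τ, hτ⟩ : ∃ τ : Fin f.natDegree → B, f.map φ = ∏ b, (X - C (τ b)) := by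
    have h1 : (f.map φ).roots.card = f.natDegree := by
      rw [← hsp.natDegree_eq_card_roots, hf.natDegree_map]
    have h2 := hsp.eq_prod_roots_of_monic hmon
    have key : ∀ (n : ℕ) (m : Multiset B), m.card = n →
        ∃ τ : Fin n → B, (m.map (fun x => X - C x)).prod = ∏ b, (X - C (τ b)) := by
      intro n
      induction n with
      | zero =>
        intro m hm
        rw [Multiset.card_eq_zero] at hm
        exact ⟨fun _ => 0, by rw [hm]; simp⟩
      | succ n ih =>
        intro m hm
        obtain ⟨a, ha⟩ := Multiset.card_pos_iff_exists_mem.1 (by omega : 0 < m.card)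
        obtain ⟨m', rfl⟩ := Multiset.exists_cons_of_mem ha
        rw [Multiset.card_cons] at hm
        obtain ⟨τ, hτ⟩ := ih m' (by omega)
        refine ⟨Fin.cons a τ, ?_⟩
        rw [Multiset.map_cons, Multiset.prod_cons, hτ, Fin.prod_univ_succ]
        simp
    obtain ⟨τ, hτ⟩ := key f.natDegree _ h1
    exact ⟨τ, h2.trans hτ⟩
  have h1 := Pool.Agent.Helper54.GT.aDSC F f B φ f.natDegree τ hf rfl hτ
  have hD : (f.scaleRoots D).map φ = ∏ b, (X - C (φ D * τ b)) := by
    rw [← scale_DSR, ← hτ, map_scaleRoots]
    rw [hf.leadingCoeff, map_one]; exact one_ne_zero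
  have h2 := Pool.Agent.Helper54.GT.aDSC F (f.scaleRoots D) B φ f.natDegree (fun b => φ D * τ b)
    ((monic_scaleRoots_iff D).2 hf) (natDegree_scaleRoots f D) hD
  rw [vdm_DSR] at h2
  rcases h1 with h1 | h1 <;> rcases h2 with h2 | h2 <;> rw [h1] at h2
  · left
    apply hφ
    rw [← h2, map_mul, map_pow]
  · right
    apply hφ
    rw [map_neg, map_mul, map_pow, h2, neg_neg]
  · right
    apply hφ
    rw [← h2, map_neg, map_mul, map_pow]
    ring
  · left
    apply hφ
    rw [map_mul, map_pow]
    linear_combination h2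

end Pool.Agent.Helper54.GL
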