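import Pool.Agent.Helper54.GL.StM

/-!
# GL: the main theorem for the twists prime to the discriminants
-/

set_option autoImplicit false

namespace Pool.Agent.Helper54.GL

open Polynomial Finset Filter Topology
open Pool.Agent.Helper54.PT (Prm prm IsAbsP IsAbsInf)
open Pool.Agent.Helper3.HY (fK RR LL kp red TwAt selmerSet TType)
open Pool.Agent.Helper3.GT (Gd Bd GdF HypF facs TyI TyT Rp ep om SelS MS XS dgS GeoSn EvP)

section aux

variable {F : Type} [Field F]

theorem dvd_prod_iff_GLM (S : Finset (Prm F)) (P : Prm F) :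
    P.1 ∣ ∏ Q ∈ S, Q.1 ↔ P ∈ S := by
  constructor
  · intro h
    obtain ⟨Q, hQ, hd⟩ := (P.2.2.prime.dvd_finsetProd_iff _).1 h
    have : P = Q := Subtype.ext
      (eq_of_monic_of_associated P.2.1 Q.2.1 (P.2.2.associated_of_dvd Q.2.2 hd))
    rwa [this]
  · exact fun h => Finset.dvd_prod_of_mem (fun Q : Prm F => Q.1) h

theorem prod_inj_GLM : Function.Injective fun S : Finset (Prm F) => ∏ Q ∈ S, Q.1 := by
  intro S T h
  ext P
  rw [← dvd_prod_iff_GLM S P, ← dvd_prod_iff_GLM T P]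
  simp only at h
  rw [h]

/-- A monic squarefree polynomial is a product of distinct primes. -/
theorem exists_prod_GLM {D : F[X]} (hm : D.Monic) (hs : Squarefree D) :
    ∃ S : Finset (Prm F), ∏ Q ∈ S, Q.1 = D := by
  classical
  have hD : D ≠ 0 := hm.ne_zero
  have hnd := (UniqueFactorizationMonoid.squarefree_iff_nodup_normalizedFactors hD).1 hs
  have hmem : ∀ p ∈ UniqueFactorizationMonoid.normalizedFactors D, p.Monic ∧ Irreducible p := by
    intro p hp
    have h1 := UniqueFactorizationMonoid.irreducible_of_normalized_factor p hp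
    have h2 := UniqueFactorizationMonoid.normalize_normalized_factor p hp
    refine ⟨?_, h1⟩
    rw [← h2]
    exact monic_normalize h1.ne_zero
  refine ⟨(UniqueFactorizationMonoid.normalizedFactors D).toFinset.attach.image
    (fun p => ⟨p.1, hmem p.1 (Multiset.mem_toFinset.1 p.2)⟩), ?_⟩
  rw [Finset.prod_image]
  · have h1 : ∏ p ∈ (UniqueFactorizationMonoid.normalizedFactors D).toFinset.attach, (p.1 : F[X]) =
        ∏ p ∈ (UniqueFactorizationMonoid.normalizedFactors D).toFinset, p :=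
      Finset.prod_attach _ fun p => p
    rw [h1, Finset.prod_eq_multiset_prod, Multiset.toFinset_val, hnd.dedup]
    simp only [Multiset.map_id']
    refine eq_of_monic_of_associated ?_ hm (UniqueFactorizationMonoid.prod_normalizedFactors hD)
    have h2 := monic_multiset_prod_of_monic (UniqueFactorizationMonoid.normalizedFactors D) id
      (fun p hp => (hmem p hp).1)
    simpa using h2
  · intro a _ b _ hab
    apply Subtype.ext
    exact congrArg (fun x : Prm F => x.1) hab

theorem natDegree_prod_GLM (S : Finset (Prm F)) : (∏ Q ∈ S, Q.1).natDegree = dgS S :=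
  natDegree_prod_of_monic _ _ fun Q _ => Q.2.1

theorem isCoprime_prod_GLM (S : Finset (Prm F)) (R : F[X]) :
    IsCoprime (∏ Q ∈ S, Q.1) R ↔ ∀ P ∈ S, ¬ P.1 ∣ R := by
  rw [IsCoprime.prod_left_iff]
  refine forall₂_congr fun P _ => ?_
  exact P.2.2.coprime_iff_not_dvd

end aux

theorem SelLE.mono_GLM {k : Type} [Field k] {h : k[X]} {N N' : ℕ} (hs : SelLE h N)
    (hN : N ≤ N') : SelLE h N' := by
  obtain ⟨s, h1, h2⟩ := hs
  exact ⟨s, h1.trans hN, h2⟩

/-- The number of elements of the Selmer group does not depend on the polynomial. -/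
theorem Mc_eq_GLM (h3 : StSC2) {F : Type} [Field F] [Fintype F] (hF : (2 : F) ≠ 0) {ι : Type}
    [Fintype ι] {g : ι → ℕ} {f : ι → F[X][X]} (hf : HypF g f)
    (hB : ∀ P : Prm F, P ∈ BB f ↔ ∃ i, Bd (f i) P) (hG : ∀ P : Prm F, GdF f P → P ∉ BB f)
    (S : Finset (Prm F)) (hS : ∀ P ∈ S, GdF f P) (i : ι) :
    Mc f i S (UU S) (DD (BB f) S) (dgS S) = MS (f i) S (∏ P ∈ S, P.1) := by
  obtain ⟨a1, _, a3⟩ := h3 F hF
  have hdis : Disjoint S (BB f) := Finset.disjoint_left.2 fun P hP => hG P (hS P hP)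
  have hb := a3 (BB f) S hdis
  have hex : ∃ D, HasB (BB f) S (UU S) (DD (BB f) S) (dgS S) D := ⟨_, hb⟩
  have hD : HasB (BB f) S (UU S) (DD (BB f) S) (dgS S)
      (Dch (BB f) S (UU S) (DD (BB f) S) (dgS S)) := by
    unfold Dch
    rw [dif_pos hex]
    exact hex.choose_spec
  have hne : f i ≠ 1 := by
    intro h
    have := hf.deg i
    rw [h, natDegree_one] at this
    omega
  have := a1 (f i) (hf.monic i) hne (BB f) S (UU S) (DD (BB f) S) (dgS S) _ _
    (fun P hP => (hB P).2 ⟨i, hP⟩) hD hb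
  unfold Mc MS
  rw [this]

theorem gGLM (hI : Pool.Agent.Helper3.GT.StIRR) (h1 : StLWI) (h2 : StLAW) (h3 : StSC2)
    (h4 : StSB2) (h5 : StSM) (h6 : StBBF) : StGLM := by
  classical
  intro F _ _ hF ι _ _ g f hf r ε hε
  obtain ⟨C, ρ, hL⟩ := h1 F hF ι g f hf
  obtain ⟨hB, hG, hW⟩ := h6 F hF ι g f hf
  have hSm := (h5 F hF).1
  filter_upwards [h2 F ι (BB f) (GdF f) (GIs f) (GTs g f) (kIc g) (kTc g) (Mc f) C ρ hL r ε hε]
    with m hm
  have hfin : ({D : F[X] | D.Monic ∧ Squarefree D ∧ D.natDegree = m ∧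
      ∀ i, IsCoprime D (f i).discr}).Finite :=
    (Pool.Agent.Helper54.PT.finite_natDegree_le F m).subset fun D hD => hD.2.2.1.le
  -- the right hand side
  have hR : (((SmF F m).filter fun S => (∀ P ∈ S, GdF f P) ∧
      ∀ i, Mc f i S (UU S) (DD (BB f) S) m ≤ 2 ^ r i).card) ≤
      {D : F[X] | D.Monic ∧ Squarefree D ∧ D.natDegree = m ∧ (∀ i, IsCoprime D (f i).discr) ∧
          ∀ i, SelLE (fK ((f i).scaleRoots D)) (2 ^ r i)}.ncard := by
    rw [← Set.ncard_coe_finset]
    refine Set.ncard_le_ncard_of_injOn (fun S : Finset (Prm F) => ∏ Q ∈ S, Q.1) ?_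
      prod_inj_GLM.injOn (hfin.subset fun D hD => ⟨hD.1, hD.2.1, hD.2.2.1, hD.2.2.2.1⟩)
    intro S hS
    rw [Finset.mem_coe, Finset.mem_filter, hSm] at hS
    obtain ⟨hSm', hSG, hSM⟩ := hS
    have hw := hW S S hSG Finset.subset_union_left
    refine ⟨hw.1, hw.2.1, (natDegree_prod_GLM S).trans hSm', fun i => ?_, fun i => ?_⟩
    · exact (isCoprime_prod_GLM S _).2 fun P hP => hSG P hP i
    · obtain ⟨i1, i2, i3, i4⟩ := hI F hF ι g f hf i
      haveI : Fact (Irreducible (fK (f i))) := ⟨i1⟩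
      have h7 := h4 F hF (g i) (hf.one_le i) (f i) (hf.monic i) (hf.deg i) i2 i4 S
        (fun P hP => hSG P hP i)
      refine h7.mono_GLM ?_
      rw [← Mc_eq_GLM h3 hF hf hB hG S hSG i, hSm']
      exact hSM i
  -- the left hand side
  have hA : {D : F[X] | D.Monic ∧ Squarefree D ∧ D.natDegree = m ∧
      ∀ i, IsCoprime D (f i).discr}.ncard ≤
      ((SmF F m).filter fun S => ∀ P ∈ S, GdF f P).card := by
    have hsub : {D : F[X] | D.Monic ∧ Squarefree D ∧ D.natDegree = m ∧
        ∀ i, IsCoprime D (f i).discr} ⊆ ((((SmF F m).filter fun S => ∀ P ∈ S, GdF f P).image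
          fun S : Finset (Prm F) => ∏ Q ∈ S, Q.1 : Finset F[X]) : Set F[X]) := by
      rintro D ⟨d1, d2, d3, d4⟩
      obtain ⟨S, rfl⟩ := exists_prod_GLM d1 d2
      rw [Finset.mem_coe, Finset.mem_image]
      refine ⟨S, ?_, rfl⟩
      rw [Finset.mem_filter, hSm]
      refine ⟨(natDegree_prod_GLM S).symm.trans d3, fun P hP i => ?_⟩
      exact (isCoprime_prod_GLM S _).1 (d4 i) P hP
    calc _ ≤ _ := Set.ncard_le_ncard hsub (Finset.finite_toSet _)
      _ ≤ _ := by
        rw [Set.ncard_coe_finset]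
        exact Finset.card_image_le
  -- conclusion
  rcases le_or_gt 0 (∏ i, ∑ j ∈ range (r i + 1), pr j - ε) with hp | hp
  · calc _ ≤ (∏ i, ∑ j ∈ range (r i + 1), pr j - ε) *
        (((SmF F m).filter fun S => ∀ P ∈ S, GdF f P).card : ℝ) :=
          mul_le_mul_of_nonneg_left (by exact_mod_cast hA) hp
      _ ≤ (((SmF F m).filter fun S => (∀ P ∈ S, GdF f P) ∧
          ∀ i, Mc f i S (UU S) (DD (BB f) S) m ≤ 2 ^ r i).card : ℝ) := by
          convert! hm
      _ ≤ _ := by exact_mod_cast hR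
  · exact (mul_nonpos_of_nonpos_of_nonneg hp.le (by positivity)).trans (by positivity)

end Pool.Agent.Helper54.GL
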