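import Pool.Agent.Helper54.GL.StM

/-!
# GL: module GLX, the main theorem for all `D`
-/

set_option autoImplicit false

namespace Pool.Agent.Helper54.GL

open Polynomial Finset Filter Topology
open Pool.Agent.Helper54.PT (Prm prm IsAbsP IsAbsInf)
open Pool.Agent.Helper3.HY (fK RR LL kp red TwAt selmerSet TType)
open Pool.Agent.Helper3.GT (Gd Bd GdF HypF facs TyI TyT Rp ep om SelS MS XS dgS GeoSn EvP)

namespace GLX

open Classical in
/-- The monic greatest common divisor. -/
noncomputable def G {F : Type} [Field F] (R D : F[X]) : F[X] := normalize (EuclideanDomain.gcd D R)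

variable {F : Type} [Field F]

open Classical in
theorem G_assoc (R D : F[X]) : Associated (G R D) (EuclideanDomain.gcd D R) :=
  normalize_associated _

open Classical in
theorem G_dvd_left (R D : F[X]) : G R D ∣ D :=
  (G_assoc R D).dvd.trans (EuclideanDomain.gcd_dvd_left D R)

open Classical in
theorem G_dvd_right (R D : F[X]) : G R D ∣ R :=
  (G_assoc R D).dvd.trans (EuclideanDomain.gcd_dvd_right D R)

open Classical in
theorem dvd_G {R D x : F[X]} (h1 : x ∣ D) (h2 : x ∣ R) : x ∣ G R D :=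
  (EuclideanDomain.dvd_gcd h1 h2).trans (G_assoc R D).symm.dvd

open Classical in
theorem G_monic {R : F[X]} (hR : R ≠ 0) (D : F[X]) : (G R D).Monic := by
  apply Polynomial.monic_normalize
  intro h
  exact hR (EuclideanDomain.gcd_eq_zero_iff.1 h).2

theorem G_eq {R d D₁ : F[X]} (hR : R ≠ 0) (hd : d.Monic) (hdR : d ∣ R) (hc : IsCoprime D₁ R) :
    G R (d * D₁) = d := by
  refine Polynomial.eq_of_monic_of_associated (G_monic hR _) hd (associated_of_dvd_dvd ?_ ?_)
  · have h1 : IsCoprime (G R (d * D₁)) D₁ :=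
      (hc.of_isCoprime_of_dvd_right (G_dvd_right R _)).symm
    exact h1.dvd_of_dvd_mul_right (G_dvd_left R _)
  · exact dvd_G (dvd_mul_right _ _) hdR

theorem split {R D : F[X]} (hR : R ≠ 0) (hD : D.Monic) (hs : Squarefree D) :
    ∃ D₁, D = G R D * D₁ ∧ D₁.Monic ∧ Squarefree D₁ ∧ IsCoprime D₁ R ∧ Squarefree (G R D) := by
  obtain ⟨D₁, h1⟩ := G_dvd_left R D
  have hs' := hs
  rw [h1, squarefree_mul_iff] at hs'
  have hm : D₁.Monic := (G_monic hR D).of_mul_monic_left (h1 ▸ hD)
  refine ⟨D₁, h1, hm, hs'.2.2, ?_, hs'.2.1⟩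
  rw [← isRelPrime_iff_isCoprime]
  intro c hc1 hc2
  exact hs'.1 (dvd_G (hc1.trans (h1 ▸ dvd_mul_left _ _)) hc2) hc1

theorem finite_natDegree_le [Finite F] (n : ℕ) : {D : F[X] | D.natDegree ≤ n}.Finite := by
  have : Function.Injective fun (D : {D : F[X] | D.natDegree ≤ n}) (i : Fin (n + 1)) =>
      (D : F[X]).coeff i := by
    intro D E h
    ext k
    by_cases hk : k ≤ n
    · exact congrFun h ⟨k, by omega⟩
    · rw [Polynomial.coeff_eq_zero_of_natDegree_lt, Polynomial.coeff_eq_zero_of_natDegree_lt]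
      · exact lt_of_le_of_lt E.2 (by omega)
      · exact lt_of_le_of_lt D.2 (by omega)
  exact Set.finite_coe_iff.1 (Finite.of_injective _ this)

/-- The monic squarefree divisors of `R` with simple primes left. -/
def DD0 {ι : Type} (f : ι → F[X][X]) (R : F[X]) : Set F[X] :=
  {d | d.Monic ∧ Squarefree d ∧ d ∣ R ∧ SimD f d}

theorem DD0_finite [Finite F] {ι : Type} (f : ι → F[X][X]) {R : F[X]} (hR : R ≠ 0) :
    (DD0 f R).Finite :=
  (finite_natDegree_le R.natDegree).subset fun _ hd =>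
    Polynomial.natDegree_le_of_dvd hd.2.2.1 hR

theorem SimD_iff {ι : Type} {f : ι → F[X][X]} {R : F[X]} (hfR : ∀ i, (f i).discr ∣ R)
    (D : F[X]) : SimD f D ↔ SimD f (G R D) := by
  refine forall_congr' fun i => exists_congr fun P => and_congr_right fun h1 =>
    and_congr_right fun _ => and_congr_right fun _ => not_congr ?_
  exact ⟨fun h => dvd_G h (h1.trans (hfR i)), fun h => h.trans (G_dvd_left R D)⟩

/-- The counting identity. -/
theorem count [Finite F] {ι : Type} [Fintype ι] (g : ι → ℕ) (f : ι → F[X][X]) (hm : ∀ i, (f i).Monic)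
    (hdeg : ∀ i, (f i).natDegree = 2 * g i + 1)
    (hDSR : StDSR) {R : F[X]} (hR : R ≠ 0) (hRf : R = ∏ i, (f i).discr)
    (Q : F[X] → Prop) {m : ℕ} (hmR : R.natDegree ≤ m) (T : Finset F[X])
    (hT : ∀ d, d ∈ T ↔ d ∈ DD0 f R) :
    {D : F[X] | D.Monic ∧ Squarefree D ∧ D.natDegree = m ∧ SimD f D ∧ Q D}.ncard =
      ∑ d ∈ T, {D₁ : F[X] | D₁.Monic ∧ Squarefree D₁ ∧ D₁.natDegree = m - d.natDegree ∧
        (∀ i, IsCoprime D₁ ((f i).scaleRoots d).discr) ∧ Q (d * D₁)}.ncard := by
  classical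
  have hfR : ∀ i, (f i).discr ∣ R := fun i => hRf ▸ Finset.dvd_prod_of_mem _ (Finset.mem_univ i)
  have hfin : {D : F[X] | D.Monic ∧ Squarefree D ∧ D.natDegree = m ∧ SimD f D ∧ Q D}.Finite :=
    (finite_natDegree_le m).subset fun D hD => hD.2.2.1.le
  rw [Set.ncard_eq_toFinset_card _ hfin]
  have hmaps : ∀ D ∈ hfin.toFinset, G R D ∈ T := by
    intro D hD
    rw [Set.Finite.mem_toFinset] at hD
    rw [hT]
    obtain ⟨D₁, -, -, -, -, h5⟩ := split hR hD.1 hD.2.1
    exact ⟨G_monic hR D, h5, G_dvd_right R D, (SimD_iff hfR D).1 hD.2.2.2.1⟩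
  rw [Finset.card_eq_sum_card_fiberwise hmaps]
  refine Finset.sum_congr rfl fun d hd => ?_
  obtain ⟨hdm, hds, hdR, hdS⟩ := (hT d).1 hd
  have hcop : ∀ D₁ : F[X], (∀ i, IsCoprime D₁ ((f i).scaleRoots d).discr) ↔ IsCoprime D₁ R := by
    intro D₁
    have hdis : ∀ i, IsCoprime D₁ ((f i).scaleRoots d).discr ↔
        IsCoprime D₁ (d ^ ((f i).natDegree * ((f i).natDegree - 1)) * (f i).discr) := by
      intro i
      rcases hDSR F (f i) d (hm i) (by rw [hdeg]; omega) with h | h
      · rw [h]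
      · rw [h]
        exact IsCoprime.neg_right_iff _ _
    constructor
    · intro h
      rw [hRf]
      refine IsCoprime.prod_right fun i _ => ?_
      exact ((hdis i).1 (h i)).of_mul_right_right
    · intro h i
      rw [hdis]
      exact IsCoprime.mul_right ((h.of_isCoprime_of_dvd_right hdR).pow_right)
        (h.of_isCoprime_of_dvd_right (hfR i))
  have himg : ((hfin.toFinset.filter fun D => G R D = d : Finset F[X]) : Set F[X]) =
      (fun D₁ => d * D₁) '' {D₁ : F[X] | D₁.Monic ∧ Squarefree D₁ ∧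
        D₁.natDegree = m - d.natDegree ∧
        (∀ i, IsCoprime D₁ ((f i).scaleRoots d).discr) ∧ Q (d * D₁)} := by
    ext D
    simp only [Finset.coe_filter, Set.Finite.mem_toFinset, Set.mem_ofPred_eq, Set.mem_image]
    constructor
    · rintro ⟨⟨h1, h2, h3, h4, h5⟩, h6⟩
      obtain ⟨D₁, e1, e2, e3, e4, e5⟩ := split hR h1 h2
      rw [h6] at e1
      refine ⟨D₁, ⟨e2, e3, ?_, (hcop D₁).2 e4, e1 ▸ h5⟩, e1.symm⟩
      rw [e1, hdm.natDegree_mul e2] at h3
      omega
    · rintro ⟨D₁, ⟨h1, h2, h3, h4, h5⟩, rfl⟩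
      have hc := (hcop D₁).1 h4
      have hGd : G R (d * D₁) = d := G_eq hR hdm hdR hc
      have hdeg' : d.natDegree ≤ m := (Polynomial.natDegree_le_of_dvd hdR hR).trans hmR
      refine ⟨⟨hdm.mul h1, ?_, ?_, ?_, h5⟩, hGd⟩
      · rw [squarefree_mul_iff]
        refine ⟨?_, hds, h2⟩
        rw [isRelPrime_iff_isCoprime]
        exact (hc.of_isCoprime_of_dvd_right hdR).symm
      · rw [hdm.natDegree_mul h1, h3]
        omega
      · rw [SimD_iff hfR, hGd]
        exact hdS
  rw [← Set.ncard_coe_finset, himg]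
  exact Set.ncard_image_of_injective _ (mul_right_injective₀ hdm.ne_zero)

end GLX

theorem gGLX (h1 : StGLM) (h2 : StHSR) (h3 : StDSR) (h4 : Pool.Agent.Helper3.GT.StIRR) :
    StGLX := by
  classical
  intro F _ _ hF ι _ _ g f hf r ε hε
  have hirr := h4 F hF ι g f hf
  set R : F[X] := ∏ i, (f i).discr with hRd
  have hR : R ≠ 0 := Finset.prod_ne_zero_iff.2 fun i _ => (hirr i).2.2.2
  have hfin := GLX.DD0_finite f hR
  set T := hfin.toFinset with hTd
  have hT : ∀ d, d ∈ T ↔ d ∈ GLX.DD0 f R := fun d => by rw [hTd, Set.Finite.mem_toFinset]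
  have hev : ∀ᶠ m : ℕ in atTop, ∀ d ∈ T,
      (∏ i, ∑ j ∈ range (r i + 1), pr j - ε) *
          ({D : F[X] | D.Monic ∧ Squarefree D ∧ D.natDegree = m - d.natDegree ∧
            ∀ i, IsCoprime D ((f i).scaleRoots d).discr}.ncard : ℝ) ≤
        ({D : F[X] | D.Monic ∧ Squarefree D ∧ D.natDegree = m - d.natDegree ∧
          (∀ i, IsCoprime D ((f i).scaleRoots d).discr) ∧
          ∀ i, SelLE (fK (((f i).scaleRoots d).scaleRoots D)) (2 ^ r i)}.ncard : ℝ) := by
    rw [Finset.eventually_all T]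
    intro d hd
    obtain ⟨hdm, hds, hdR, hdS⟩ := (hT d).1 hd
    have hyp := h2 F ι g f hf d hdm.ne_zero hdS
    exact (tendsto_sub_atTop_nat d.natDegree).eventually (h1 F hF ι g _ hyp r ε hε)
  filter_upwards [hev, eventually_ge_atTop R.natDegree] with m hm hmR
  have c1 := GLX.count g f hf.monic hf.deg h3 hR hRd (fun _ => True) hmR T hT
  have c2 := GLX.count g f hf.monic hf.deg h3 hR hRd
    (fun D => ∀ i, SelLE (fK ((f i).scaleRoots D)) (2 ^ r i)) hmR T hT
  simp only [and_true] at c1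
  simp only [Polynomial.scaleRoots_mul] at c2
  rw [c1, c2, Nat.cast_sum, Nat.cast_sum, Finset.mul_sum]
  exact Finset.sum_le_sum hm

end Pool.Agent.Helper54.GL
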