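import Pool.Agent.Helper54.GL.StM

/-!
# GL module GSR (helper84): the Galois group of the product of the `scaleRoots D`
-/

set_option autoImplicit false

namespace Pool.Agent.Helper54.GL

open Polynomial Finset
open Pool.Agent.Helper3.HY (fK)

theorem scaleRoots_isSplittingField_GSR {K : Type} [Field K] (L : Type) [Field L] [Algebra K L]
    (p : K[X]) [IsSplittingField K L p] (hp : p ≠ 0) {d : K} (hd : d ≠ 0) :
    IsSplittingField K L (p.scaleRoots d) := by
  have hlc : algebraMap K L p.leadingCoeff ≠ 0 := by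
    rw [Ne, map_eq_zero, leadingCoeff_eq_zero]; exact hp
  have hmap := map_scaleRoots p d (algebraMap K L) hlc
  have hd' : algebraMap K L d ≠ 0 := by rwa [Ne, map_eq_zero]
  refine ⟨?_, ?_⟩
  · rw [hmap]
    exact (IsSplittingField.splits L p).scaleRoots _
  · rw [eq_top_iff, ← IsSplittingField.adjoin_rootSet L p]
    refine Algebra.adjoin_le ?_
    intro x hx
    have h1 : algebraMap K L d * x ∈ (p.scaleRoots d).rootSet L := by
      rw [mem_rootSet'] at hx ⊢
      refine ⟨?_, ?_⟩
      · rw [hmap]
        exact scaleRoots_ne_zero hx.1 _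
      · exact scaleRoots_aeval_eq_zero hx.2
    have h2 : x = d⁻¹ • (algebraMap K L d * x) := by
      rw [Algebra.smul_def, map_inv₀, ← mul_assoc, inv_mul_cancel₀ hd', one_mul]
    rw [SetLike.mem_coe, h2]
    exact Subalgebra.smul_mem _ (Algebra.subset_adjoin h1) _

theorem card_gal_scaleRoots_GSR {K : Type} [Field K] (p : K[X]) (hp : p ≠ 0) {d : K}
    (hd : d ≠ 0) : Nat.card (p.scaleRoots d).Gal = Nat.card p.Gal := by
  have h := scaleRoots_isSplittingField_GSR p.SplittingField p hp hd
  have e : p.SplittingField ≃ₐ[K] (p.scaleRoots d).SplittingField :=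
    @IsSplittingField.algEquiv K p.SplittingField _ _ _ (p.scaleRoots d) h
  exact (Nat.card_congr (AlgEquiv.autCongr e).toEquiv).symm

theorem prod_scaleRoots_GSR {R : Type} [CommRing R] [IsDomain R] (ι : Type) (s : Finset ι)
    (f : ι → R[X]) (d : R) : ∏ i ∈ s, (f i).scaleRoots d = (∏ i ∈ s, f i).scaleRoots d := by
  classical
  induction s using Finset.induction_on with
  | empty => simp
  | insert a s ha ih =>
    rw [Finset.prod_insert ha, Finset.prod_insert ha, ih, mul_scaleRoots_of_noZeroDivisors]

theorem gGSR : StGSR := by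
  intro F _ ι _ f D hD hf
  set φ : F[X] →+* (AlgebraicClosure F)[X] :=
    mapRingHom (algebraMap F (AlgebraicClosure F)) with hφ
  have hφi : Function.Injective φ := by
    rw [hφ]
    exact map_injective _ (algebraMap F (AlgebraicClosure F)).injective
  have hmon : (∏ i, f i).Monic := monic_prod_of_monic _ _ fun i _ => hf i
  have h1 : (∏ i, (f i).scaleRoots D) = (∏ i, f i).scaleRoots D := prod_scaleRoots_GSR ι _ f D
  have h2 : ((∏ i, f i).scaleRoots D).map φ = ((∏ i, f i).map φ).scaleRoots (φ D) := by
    apply map_scaleRoots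
    rw [hmon.leadingCoeff, map_one]
    exact one_ne_zero
  have hmon2 : ((∏ i, f i).map φ).Monic := hmon.map _
  have h3 : fK (((∏ i, f i).map φ).scaleRoots (φ D)) =
      (fK ((∏ i, f i).map φ)).scaleRoots
        (algebraMap (AlgebraicClosure F)[X] (RatFunc (AlgebraicClosure F)) (φ D)) := by
    unfold fK
    apply map_scaleRoots
    rw [hmon2.leadingCoeff, map_one]
    exact one_ne_zero
  have hmon3 : (fK ((∏ i, f i).map φ)).Monic := hmon2.map _
  rw [h1, h2, h3]
  apply card_gal_scaleRoots_GSR _ hmon3.ne_zero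
  rw [Ne, map_eq_zero_iff _ (RatFunc.algebraMap_injective _), map_eq_zero_iff _ hφi]
  exact hD

end Pool.Agent.Helper54.GL
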