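import Pool.Agent.Helper54.GL.StM

/-! GL module M_HSR: the twisted family satisfies `HypF`. -/

set_option autoImplicit false

namespace Pool.Agent.Helper54.GL

open Polynomial Finset
open Pool.Agent.Helper54.PT (Prm)
open Pool.Agent.Helper3.HY (fK)
open Pool.Agent.Helper3.GT (HypF)

/-- Divisibility of the discriminant of the twist by a divisor prime to `D`. -/
private theorem dvd_iff_HSR {F : Type} [Field F] (h1 : StDSR) (f : F[X][X]) (D : F[X])
    (hm : f.Monic) (hd : 1 ≤ f.natDegree) (Q : F[X]) (hQ : IsCoprime Q D) :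
    Q ∣ (f.scaleRoots D).discr ↔ Q ∣ f.discr := by
  have key : Q ∣ D ^ (f.natDegree * (f.natDegree - 1)) * f.discr ↔ Q ∣ f.discr := by
    constructor
    · intro h
      exact (IsCoprime.pow_right hQ).dvd_of_dvd_mul_left h
    · intro h
      exact Dvd.dvd.mul_left h _
  rcases h1 F f D hm hd with h | h
  · rw [h]
    exact key
  · rw [h, dvd_neg]
    exact key

theorem gHSR (h1 : StDSR) (h2 : StGSR) : StHSR := by
  intro F _ ι _ g f hf D₀ hD hS
  have hdeg : ∀ i, 1 ≤ (f i).natDegree := by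
    intro i
    rw [hf.deg i]
    omega
  refine ⟨hf.one_le, ?_, ?_, ?_, ?_⟩
  · intro i
    exact (monic_scaleRoots_iff D₀).mpr (hf.monic i)
  · intro i
    show ((f i).scaleRoots D₀).natDegree = _
    rw [natDegree_scaleRoots]
    exact hf.deg i
  · rw [h2 F ι f D₀ hD hf.monic, hf.geo]
    refine Finset.prod_congr rfl fun i _ => ?_
    rw [natDegree_scaleRoots]
  · intro i
    obtain ⟨P, hP1, hP2, hP3, hP4⟩ := hS i
    have hirr : Irreducible P.1 := P.2.2
    have hcop : IsCoprime P.1 D₀ := (hirr.coprime_iff_not_dvd).mpr hP4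
    refine ⟨P, ?_, ?_, ?_⟩
    · exact (dvd_iff_HSR h1 (f i) D₀ (hf.monic i) (hdeg i) P.1 hcop).mpr hP1
    · intro h
      exact hP2 ((dvd_iff_HSR h1 (f i) D₀ (hf.monic i) (hdeg i) (P.1 ^ 2)
        (IsCoprime.pow_left hcop)).mp h)
    · intro j hj h
      exact hP3 j hj ((dvd_iff_HSR h1 (f j) D₀ (hf.monic j) (hdeg j) P.1 hcop).mp h)

end Pool.Agent.Helper54.GL
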