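import Pool.Agent.Helper54.GL.StM

/-!
# GL, module M_LWI: the Selmer groups satisfy the hypotheses of the law
-/

set_option autoImplicit false

namespace Pool.Agent.Helper54.GL

open Polynomial Finset Filter Topology
open Pool.Agent.Helper54.PT (Prm prm)
open Pool.Agent.Helper3.HY (fK RR LL kp red TwAt selmerSet TType)
open Pool.Agent.Helper3.GT (Gd Bd GdF HypF facs TyI TyT Rp ep om SelS MS XS dgS GeoSn EvP StIRR StFAC
  StSQF)
open Pool.Agent.Helper54.GT (Hyp0)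

theorem kIc_pos_LWI {ι : Type} [Fintype ι] (g : ι → ℕ) : 0 < kIc g :=
  Finset.prod_pos fun i _ => by positivity

theorem kTc_pos_LWI {ι : Type} [Fintype ι] (g : ι → ℕ) (hg : ∀ i, 1 ≤ g i) (i : ι) :
    0 < kTc g i := by
  have h : (0 : ℝ) < g i := by exact_mod_cast hg i
  exact mul_pos (by positivity) (Finset.prod_pos fun i _ => by positivity)

theorem kTc_le_LWI {ι : Type} [Fintype ι] (g : ι → ℕ) (hg : ∀ i, 1 ≤ g i) (i : ι) :
    kTc g i ≤ 2 * kIc g := by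
  classical
  have h : (1 : ℝ) ≤ g i := by exact_mod_cast hg i
  have h1 : kIc g = (2 * (g i : ℝ) + 1)⁻¹ * ∏ j ∈ univ.erase i, (2 * (g j : ℝ) + 1)⁻¹ :=
    (mul_prod_erase univ (fun j => (2 * (g j : ℝ) + 1)⁻¹) (mem_univ i)).symm
  have h2 : kTc g i = (2 * (g i : ℝ))⁻¹ * ∏ j ∈ univ.erase i, (2 * (g j : ℝ) + 1)⁻¹ := by
    unfold kTc
    congr 1
  rw [h1, h2, ← mul_assoc]
  refine mul_le_mul_of_nonneg_right ?_ (Finset.prod_nonneg fun i _ => by positivity)
  rw [inv_eq_one_div, inv_eq_one_div, mul_one_div, div_le_div_iff₀ (by positivity) (by positivity)]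
  linarith

theorem gLWI (hIRR : StIRR) (hFAC : StFAC) (hSQF : StSQF) (hBBF : StBBF) (hCRT : StCRT2)
    (hSC : StSC2) (hSTE : StSTE) (hPOW : StPOW) (hCTR : StCTR2) (hCG : StCG) (hCU : StCU)
    (hCNI : StCNI) (hSGI : StSGI) (hSM : StSM) : StLWI := by
  classical
  intro F _ _ h2 ι _ _ g f hf
  obtain ⟨hB1, hB2, -⟩ := hBBF F h2 ι g f hf
  have hirr := hIRR F h2 ι g f hf
  have hfact : ∀ i, Fact (Irreducible (fK (f i))) := fun i => ⟨(hirr i).1⟩
  have hH0 : Hyp0 g f := ⟨hf.one_le, hf.monic, hf.deg, hf.geo⟩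
  -- constants
  obtain ⟨C1, hC1, hcg⟩ := hCG F h2 ι g f hf
  obtain ⟨C2, hC2, hcni⟩ := hCNI F h2 ι g f hH0
  obtain ⟨C3, hC3, hsgi⟩ := hSGI F h2 ι g f hf
  choose C4 hC4 hcu using hCU F h2 ι g f hf
  have hpow := fun i => hPOW F (f i) (hf.monic i) (hirr i).2.1 (hirr i).2.2.2
  choose C5 hC5 using fun i => (hpow i).2
  have hctr' : ∀ i, ∃ C₀ ρ : ℝ, 1 ≤ C₀ ∧ 0 ≤ ρ ∧ ρ < 1 ∧
      ∀ (k : ℕ) (S : Finset (Prm F)) (D : F[X]) (D' : Prm F → F[X]),
      C₀ * (dgS S + 1) ≤ Real.sqrt (Fintype.card F) ^ k →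
      ∀ Q : Finset (Prm F), (∀ P ∈ Q, P.1.natDegree = k ∧ Gd (f i) P ∧ P ∉ S ∧
        SelS (f i) S (D' P) = SelS (f i) S D ∧ ∃ E, D' P = P.1 * E ∧ ¬ P.1 ∣ E) →
      (k : ℝ) * ∑ P ∈ Q, Real.sqrt (MS (f i) (insert P S) (D' P)) ≤
        (Fintype.card F : ℝ) ^ k * (C₀ + ρ * Real.sqrt (MS (f i) S D)) := fun i =>
    hCTR F h2 (g i) (hf.one_le i) (f i) (hf.monic i) (hf.deg i) (hirr i).2.2.1 (hirr i).2.1
      (hirr i).2.2.2
  choose C6 ρ6 hC6 hρ0 hρ1 hctr using hctr'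
  have hSTE' := fun i => hSTE F h2 (g i) (hf.one_le i) (f i) (hf.monic i) (hf.deg i) (hirr i).2.1
      (hirr i).2.2.2
  obtain ⟨i₀, -, hi₀⟩ := Finset.exists_max_image univ ρ6 Finset.univ_nonempty
  obtain ⟨C, hCdef⟩ : ∃ C : ℝ, C = 1 + C1 + C2 + C3 + ∑ i, C4 i + ∑ i, (C5 i : ℝ) + ∑ i, C6 i +
    ∑ i, (2 : ℝ) ^ (2 * g i) := ⟨_, rfl⟩
  have hs4 : ∀ i, C4 i ≤ ∑ i, C4 i := fun i =>
    Finset.single_le_sum (f := C4) (fun j _ => hC4 j) (mem_univ i)
  have hs5 : ∀ i, (C5 i : ℝ) ≤ ∑ i, (C5 i : ℝ) := fun i =>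
    Finset.single_le_sum (f := fun i => (C5 i : ℝ)) (fun j _ => Nat.cast_nonneg _) (mem_univ i)
  have hs6 : ∀ i, C6 i ≤ ∑ i, C6 i := fun i =>
    Finset.single_le_sum (f := C6) (fun j _ => by linarith [hC6 j]) (mem_univ i)
  have hs7 : ∀ i, (2 : ℝ) ^ (2 * g i) ≤ ∑ i, (2 : ℝ) ^ (2 * g i) := fun i =>
    Finset.single_le_sum (f := fun i => (2 : ℝ) ^ (2 * g i)) (fun j _ => by positivity) (mem_univ i)
  have h04 : 0 ≤ ∑ i, C4 i := Finset.sum_nonneg fun j _ => hC4 j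
  have h05 : 0 ≤ ∑ i, (C5 i : ℝ) := Finset.sum_nonneg fun j _ => Nat.cast_nonneg _
  have h06 : 0 ≤ ∑ i, C6 i := Finset.sum_nonneg fun j _ => by linarith [hC6 j]
  have h07 : 0 ≤ ∑ i, (2 : ℝ) ^ (2 * g i) := Finset.sum_nonneg fun j _ => by positivity
  have hCC1 : C1 ≤ C := by linarith
  have hCC2 : C2 ≤ C := by linarith
  have hCC3 : C3 ≤ C := by linarith
  have hCC4 : ∀ i, C4 i ≤ C := fun i => by linarith [hs4 i]
  have hCC5 : ∀ i, (C5 i : ℝ) ≤ C := fun i => by linarith [hs5 i]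
  have hCC6 : ∀ i, C6 i ≤ C := fun i => by linarith [hs6 i]
  have hCC7 : ∀ i, (2 : ℝ) ^ (2 * g i) ≤ C := fun i => by linarith [hs7 i]
  have hC01 : 1 ≤ C := by linarith
  have hsq0 : ∀ k : ℕ, 0 ≤ Real.sqrt (Fintype.card F) ^ k := fun k => by positivity
  -- the factors
  have hfac : ∀ i P, GdF f P → (TyI (f i) P → (facs (f i) P).card = 1) ∧
      (TyT (g i) (f i) P → (facs (f i) P).card = 2) := by
    intro i P hP
    obtain ⟨-, -, -, -, -, h3, h4⟩ := hFAC F h2 (g i) (hf.one_le i) (f i) (hf.monic i) (hf.deg i)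
      P (hP i)
    exact ⟨h3, h4⟩
  have hmemI : ∀ k P, P ∈ GIs f k ↔ P ∈ prm F k ∧ GdF f P ∧ ∀ i, TyI (f i) P := by
    intro k P
    simp only [GIs, Finset.mem_filter]
  have hmemT : ∀ i k P, P ∈ GTs g f i k ↔ P ∈ prm F k ∧ GdF f P ∧ TyT (g i) (f i) P ∧
      ∀ j, j ≠ i → TyI (f j) P := by
    intro i k P
    simp only [GTs, Finset.mem_filter]
  -- disjointness
  have hdis : ∀ S : Finset (Prm F), (∀ P ∈ S, GdF f P) → Disjoint S (BB f) := by
    intro S hS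
    rw [Finset.disjoint_left]
    intro P hP
    exact hB2 P (hS P hP)
  have hDch : ∀ S U Δ : Finset (Prm F), ∀ e, (∀ P ∈ S, GdF f P) →
      HasB (BB f) S U Δ e (Dch (BB f) S U Δ e) := by
    intro S U Δ e hS
    have h := hCRT F h2 (BB f) S U Δ e (hdis S hS)
    unfold Dch
    rw [dif_pos h]
    exact h.choose_spec
  have hne1 : ∀ i, f i ≠ 1 := by
    intro i h
    have := hf.deg i
    rw [h, natDegree_one] at this
    omega
  obtain ⟨hSC1, hSC2, -⟩ := hSC F h2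
  -- the key
  have key : ∀ i (S U Δ : Finset (Prm F)) (e : ℕ) (P : Prm F) (U' : Finset (Prm F)),
      (∀ P ∈ S, GdF f P) → U ⊆ S → GdF f P → P ∉ S → (U' = U ∨ U' = insert P U) →
      SelS (f i) S (Dch (BB f) (insert P S) U' Δ e) = SelS (f i) S (Dch (BB f) S U Δ e) ∧
        ∃ E, Dch (BB f) (insert P S) U' Δ e = P.1 * E ∧ ¬ P.1 ∣ E := by
    intro i S U Δ e P U' hS hU hP hPS hU'
    have h1 : HasB (BB f) (insert P S) U' Δ e (Dch (BB f) (insert P S) U' Δ e) := by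
      apply hDch
      intro R hR
      rcases Finset.mem_insert.1 hR with h | h
      · rw [h]; exact hP
      · exact hS R h
    obtain ⟨h3, h4⟩ := hSC2 (BB f) S U U' Δ P e _ hPS hU hU' h1
    exact ⟨hSC1 (f i) (hf.monic i) (hne1 i) (BB f) S U Δ e _ _ (fun R hR => (hB1 R).2 ⟨i, hR⟩)
      h3 (hDch S U Δ e hS), h4⟩
  have step : ∀ i (S U Δ : Finset (Prm F)) (e : ℕ) (P : Prm F) (U' : Finset (Prm F)),
      (∀ P ∈ S, GdF f P) → U ⊆ S → GdF f P → P ∉ S → (U' = U ∨ U' = insert P U) →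
      Mc f i (insert P S) U' Δ e ≤ 2 ^ (2 * g i) * Mc f i S U Δ e ∧
      ((facs (f i) P).card = 1 → Mc f i (insert P S) U' Δ e ≤ Mc f i S U Δ e) ∧
      ((facs (f i) P).card = 2 → Mc f i (insert P S) U' Δ e ≤ 2 * Mc f i S U Δ e ∧
        (2 * XS (f i) S (Dch (BB f) S U Δ e) P ≤ Mc f i S U Δ e →
          2 * Mc f i (insert P S) U' Δ e ≤ Mc f i S U Δ e)) := by
    intro i S U Δ e P U' hS hU hP hPS hU'
    obtain ⟨h3, h4⟩ := key i S U Δ e P U' hS hU hP hPS hU'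
    exact hSTE' i P (hP i) S hPS _ _ h3 h4
  refine ⟨C, ρ6 i₀, ?_⟩
  exact
  { odd := h2
    kI_pos := kIc_pos_LWI g
    kT_pos := kTc_pos_LWI g hf.one_le
    kT_le := kTc_le_LWI g hf.one_le
    one_le := hC01
    rho := ⟨hρ0 i₀, hρ1 i₀⟩
    subI := fun k P hP => ⟨((hmemI k P).1 hP).1, ((hmemI k P).1 hP).2.1⟩
    subT := fun i k P hP => ⟨((hmemT i k P).1 hP).1, ((hmemT i k P).1 hP).2.1⟩
    disI := by
      intro i k
      rw [Finset.disjoint_left]
      intro P hP hP'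
      obtain ⟨-, h3, h4⟩ := (hmemI k P).1 hP
      obtain ⟨-, -, h5, -⟩ := (hmemT i k P).1 hP'
      have h6 := (hfac i P h3).1 (h4 i)
      have h7 := (hfac i P h3).2 h5
      omega
    disT := by
      intro i j k hij
      rw [Finset.disjoint_left]
      intro P hP hP'
      obtain ⟨-, h3, h4, -⟩ := (hmemT i k P).1 hP
      obtain ⟨-, -, -, h5⟩ := (hmemT j k P).1 hP'
      have h6 := (hfac i P h3).1 (h5 i hij)
      have h7 := (hfac i P h3).2 h4
      omega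
    cntG := by
      intro k hk
      refine (hcg k hk).trans ?_
      gcongr
    cntI := by
      intro k hk
      exact (hcni k hk).1.trans (mul_le_mul_of_nonneg_right hCC2 (hsq0 k))
    cntT := by
      intro i k hk
      exact ((hcni k hk).2 i).trans (mul_le_mul_of_nonneg_right hCC2 (hsq0 k))
    sqf := by
      have hD0 : ∏ i, (f i).discr ≠ 0 := Finset.prod_ne_zero_iff.2 fun i _ => (hirr i).2.2.2
      obtain ⟨-, c, hc, hev⟩ := hSQF F h2 (∏ i, (f i).discr) hD0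
      refine ⟨c, hc, hev.mono fun m hm => hm.trans (le_of_eq ?_)⟩
      congr 1
      rw [← Set.ncard_coe_finset]
      congr 1
      ext S
      rw [Finset.mem_coe, Finset.mem_filter, (hSM F h2).1 m S]
      constructor
      · rintro ⟨h3, h4⟩
        refine ⟨h3, fun P hP i => ?_⟩
        intro h5
        exact h4 P hP (h5.trans (Finset.dvd_prod_of_mem _ (mem_univ i)))
      · rintro ⟨h3, h4⟩
        refine ⟨h3, fun P hP h5 => ?_⟩
        obtain ⟨i, -, h6⟩ := (P.2.2.prime.dvd_finsetProd_iff _).1 h5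
        exact h4 P hP i h6
    pow := by
      intro i S U Δ e _ _ _
      exact (hpow i).1 S _
    base := by
      intro i Δ e _
      have h3 : Mc f i ∅ ∅ Δ e ≤ C5 i := hC5 i _
      exact (by exact_mod_cast h3 : (Mc f i ∅ ∅ Δ e : ℝ) ≤ C5 i).trans (hCC5 i)
    step := by
      intro i S U Δ e P U' hS hU _ hP hPS hU'
      have h3 := (step i S U Δ e P U' hS hU hP hPS hU').1
      have h4 : (Mc f i (insert P S) U' Δ e : ℝ) ≤ 2 ^ (2 * g i) * Mc f i S U Δ e := by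
        exact_mod_cast h3
      exact h4.trans (mul_le_mul_of_nonneg_right (hCC7 i) (Nat.cast_nonneg _))
    ctr := by
      intro i S U Δ e k U' hS hU _ hC hU'
      have h3 : C6 i * (dgS S + 1) ≤ Real.sqrt (Fintype.card F) ^ k :=
        (mul_le_mul_of_nonneg_right (hCC6 i) (by positivity)).trans hC
      refine (hctr i k S (Dch (BB f) S U Δ e) (fun P => Dch (BB f) (insert P S) (U' P) Δ e) h3
        _ ?_).trans ?_
      · intro P hP
        obtain ⟨h4, h5, h6⟩ := Finset.mem_filter.1 hP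
        obtain ⟨h7, h8⟩ := key i S U Δ e P (U' P) hS hU h5 h6 (hU' P)
        exact ⟨((hSM F h2).2.2.2.1 k P).1 h4, h5 i, h6, h7, h8⟩
      · refine mul_le_mul_of_nonneg_left ?_ (by positivity)
        exact add_le_add (hCC6 i) (mul_le_mul_of_nonneg_right (hi₀ i (mem_univ i))
          (Real.sqrt_nonneg _))
    stI := by
      intro i S U Δ e k P hP hS hU _ hPS
      obtain ⟨-, h3, h4⟩ := (hmemI k P).1 hP
      have h5 := (hfac i P h3).1 (h4 i)
      exact ⟨(step i S U Δ e P U hS hU h3 hPS (Or.inl rfl)).2.1 h5,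
        (step i S U Δ e P (insert P U) hS hU h3 hPS (Or.inr rfl)).2.1 h5⟩
    stJ := by
      intro i j S U Δ e k hji P hP hS hU _ hPS
      obtain ⟨-, h3, -, h4⟩ := (hmemT i k P).1 hP
      have h5 := (hfac j P h3).1 (h4 j hji)
      exact ⟨(step j S U Δ e P U hS hU h3 hPS (Or.inl rfl)).2.1 h5,
        (step j S U Δ e P (insert P U) hS hU h3 hPS (Or.inr rfl)).2.1 h5⟩
    stT := by
      intro i S U Δ e k P hP hS hU _ hPS
      obtain ⟨-, h3, h4, -⟩ := (hmemT i k P).1 hP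
      have h5 := (hfac i P h3).2 h4
      exact ⟨((step i S U Δ e P U hS hU h3 hPS (Or.inl rfl)).2.2 h5).1,
        ((step i S U Δ e P (insert P U) hS hU h3 hPS (Or.inr rfl)).2.2 h5).1⟩
    cntU := by
      intro i S U Δ e k hk hS hU hΔ
      obtain ⟨T, hT1, hT2, hT3, hT4⟩ := hcu i S U Δ (Dch (BB f) S U Δ e) k hk hS hU hΔ
      refine ⟨T, hT1, ?_, ?_, ?_⟩
      · intro P hP hPS hPT
        obtain ⟨-, h3, h4, -⟩ := (hmemT i k P).1 hP
        have h5 := (hfac i P h3).2 h4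
        have h6 := hT2 P hP hPS hPT
        exact ⟨((step i S U Δ e P U hS hU h3 hPS (Or.inl rfl)).2.2 h5).2 h6,
          ((step i S U Δ e P (insert P U) hS hU h3 hPS (Or.inr rfl)).2.2 h5).2 h6⟩
      · refine hT3.trans (add_le_add le_rfl ?_)
        exact mul_le_mul_of_nonneg_right (mul_le_mul_of_nonneg_right (hCC4 i) (by positivity))
          (hsq0 k)
      · refine hT4.trans (add_le_add le_rfl ?_)
        exact mul_le_mul_of_nonneg_right (mul_le_mul_of_nonneg_right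
          (mul_le_mul_of_nonneg_right (hCC4 i) (by positivity)) (by positivity)) (hsq0 k)
    sgI := by
      intro S U Δ k hk hS hU hΔ
      refine (hsgi S U Δ k hk hS hU hΔ).1.trans ?_
      exact mul_le_mul_of_nonneg_right (mul_le_mul_of_nonneg_right
          (mul_le_mul_of_nonneg_right hCC3 (by positivity)) (by positivity)) (hsq0 k)
    sgT := by
      intro i S U Δ k hk hS hU hΔ
      refine ((hsgi S U Δ k hk hS hU hΔ).2 i).trans ?_
      exact mul_le_mul_of_nonneg_right (mul_le_mul_of_nonneg_right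
          (mul_le_mul_of_nonneg_right hCC3 (by positivity)) (by positivity)) (hsq0 k) }

end Pool.Agent.Helper54.GL
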