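import Pool.Agent.Helper54.GL.StM
import Pool.Agent.Helper3.GT.M_FIN

/-!
# GL, M_POW: the order of the Selmer group is a power of two; bounded for the empty set
-/

set_option autoImplicit false

namespace Pool.Agent.Helper54.GL

open Polynomial Finset Filter Topology
open Pool.Agent.Helper54.PT (Prm prm IsAbsP IsAbsInf)
open Pool.Agent.Helper3.HY (fK RR LL kp red TwAt selmerSet TType)
open Pool.Agent.Helper3.GT (Gd Bd GdF HypF facs TyI TyT Rp ep om SelS MS XS dgS GeoSn EvP)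

/-- A finite group of exponent two. -/
private theorem pow_POW {G : Type} [CommGroup G] (N : Subgroup G) (hN : ∀ z : G, z ^ 2 ∈ N)
    (H : Subgroup G) (hfin : ((QuotientGroup.mk : G → G ⧸ N) '' (H : Set G)).Finite) :
    ∃ x : ℕ, ((QuotientGroup.mk : G → G ⧸ N) '' (H : Set G)).ncard = 2 ^ x := by
  have hcoe : ((H.map (QuotientGroup.mk' N) : Subgroup (G ⧸ N)) : Set (G ⧸ N)) =
      (QuotientGroup.mk : G → G ⧸ N) '' (H : Set G) := by
    rw [Subgroup.coe_map]; rfl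
  rw [← hcoe] at hfin ⊢
  haveI : Finite (H.map (QuotientGroup.mk' N) : Subgroup (G ⧸ N)) := hfin.to_subtype
  haveI : Fact (Nat.Prime 2) := ⟨Nat.prime_two⟩
  have hp : IsPGroup 2 (H.map (QuotientGroup.mk' N) : Subgroup (G ⧸ N)) := by
    rintro ⟨x, hx⟩
    obtain ⟨z, hz, rfl⟩ := hx
    refine ⟨1, ?_⟩
    apply Subtype.ext
    show (QuotientGroup.mk' N z) ^ 2 ^ 1 = 1
    rw [pow_one, ← map_pow]
    exact (QuotientGroup.eq_one_iff _).2 (hN z)
  obtain ⟨x, hx⟩ := IsPGroup.iff_card.1 hp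
  refine ⟨x, ?_⟩
  rw [← hx]
  exact (Nat.card_coe_set_eq _).symm

/-- (POW) -/
theorem gPOW (h1 : Pool.Agent.Helper3.GT.StFIN) (h2 : Pool.Agent.Helper3.GT.StSG) : StPOW := by
  classical
  intro F _ _ f hm hs hd _
  obtain ⟨C, hC⟩ := h1 F f hm hs hd
  refine ⟨?_, {a : F[X][X] | Rp f (C * (0 + 1)) a}.ncard, ?_⟩
  · intro S D
    obtain ⟨H, hH, -⟩ := h2 F f hm S D
    have hfin := (hC S D).1
    rw [← hH] at hfin
    obtain ⟨x, hx⟩ := pow_POW (powMonoidHom 2 : (LL f)ˣ →* (LL f)ˣ).range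
      (fun z => ⟨z, by rw [powMonoidHom_apply]⟩) H hfin
    refine ⟨x, ?_⟩
    rw [MS, ← hH]
    exact hx
  · intro D
    have hfinR : {a : F[X][X] | Rp f (C * (0 + 1)) a}.Finite :=
      Pool.Agent.Helper3.GT.FINaux.finite_Rp f _
    set G : F[X][X] → (LL f)ˣ ⧸ (powMonoidHom 2 : (LL f)ˣ →* (LL f)ˣ).range := fun a =>
      if h : algebraMap (RR f) (LL f) (AdjoinRoot.mk f a) ≠ 0 then
        (QuotientGroup.mk (Units.mk0 _ h) : (LL f)ˣ ⧸ (powMonoidHom 2 : (LL f)ˣ →* (LL f)ˣ).range)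
      else 1 with hG
    have hsub : (QuotientGroup.mk : (LL f)ˣ → (LL f)ˣ ⧸ (powMonoidHom 2 : (LL f)ˣ →* (LL f)ˣ).range) ''
        SelS f ∅ D ⊆ G '' {a : F[X][X] | Rp f (C * (0 + 1)) a} := by
      rintro _ ⟨z, hz, rfl⟩
      obtain ⟨β, a, hβ, ha, h⟩ := (hC ∅ D).2 z hz
      have h0 : algebraMap (RR f) (LL f) (AdjoinRoot.mk f a) ≠ 0 := by
        rw [← h]
        exact mul_ne_zero z.ne_zero (pow_ne_zero 2 hβ)
      have ha' : Rp f (C * (0 + 1)) a := by
        have hdg : dgS (∅ : Finset (Prm F)) = 0 := by rw [dgS, sum_empty]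
        rw [hdg] at ha
        exact ha
      refine ⟨a, ha', ?_⟩
      simp only [hG]
      rw [dif_pos h0, eq_comm, QuotientGroup.eq]
      refine ⟨Units.mk0 β hβ, ?_⟩
      ext
      simp only [powMonoidHom_apply, Units.val_pow_eq_pow_val, Units.val_mk0, Units.val_mul]
      rw [← h, ← mul_assoc, Units.inv_mul, one_mul]
    calc MS f ∅ D ≤ (G '' {a : F[X][X] | Rp f (C * (0 + 1)) a}).ncard :=
          Set.ncard_le_ncard hsub (hfinR.image _)
      _ ≤ _ := Set.ncard_image_le hfinR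

end Pool.Agent.Helper54.GL
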