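import Pool.Agent.Helper54.GL.StM
import Pool.Agent.Helper54.HL.M_Trans
import Pool.Agent.Helper54.HL.M_TR
import Pool.Agent.Helper92.TW.C7

/-!
# GL, M_SB2: transport of the Selmer group of the twist
-/

set_option autoImplicit false

namespace Pool.Agent.Helper54.GL

open Polynomial Finset Filter Topology
open Pool.Agent.Helper54.PT (Prm prm IsAbsP IsAbsInf)
open Pool.Agent.Helper3.HY (fK RR LL kp red TwAt twGroup baseChange selmerSet TType)
open Pool.Agent.Helper3.GT (Gd Bd GdF HypF facs TyI TyT Rp ep om SelS MS XS dgS GeoSn EvP)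

/-- The isomorphism with the twisted conditions. -/
private theorem iso_SB2 (F : Type) [Field F] [Fintype F] (g : ℕ) (f : F[X][X]) (D : F[X])
    (hf : f.Monic) (hdeg : f.natDegree = 2 * g + 1) (hD : D ≠ 0) :
    ∃ Φ : (AdjoinRoot (fK (f.scaleRoots D)))ˣ ≃* (LL f)ˣ, ∀ z ∈ selmerSet (fK (f.scaleRoots D)),
      IsSquare (Algebra.norm (RatFunc F) ((Φ z : (LL f)ˣ) : LL f)) ∧
        ∀ v : AbsoluteValue (RatFunc F) ℝ, v.IsNontrivial → TwAt f D v (Φ z) := by
  set D' : RatFunc F := algebraMap F[X] (RatFunc F) D with hD'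
  have hD0 : D' ≠ 0 := by
    rw [hD', Ne, FaithfulSMul.algebraMap_eq_zero_iff]; exact hD
  have hs : fK (f.scaleRoots D) = (fK f).scaleRoots D' := by
    rw [fK, Polynomial.map_scaleRoots]
    rw [hf.leadingCoeff, map_one]; exact one_ne_zero
  rw [hs]
  have hfm : (fK f).Monic := hf.map _
  have hfd : (fK f).natDegree = 2 * g + 1 := by rw [hf.natDegree_map, hdeg]
  have h := Pool.Agent.Helper54.HL.hTR
  obtain ⟨φ, hφ, -⟩ := h (RatFunc F) (fK f) D' hD0
  refine ⟨Units.mapEquiv (φ : AdjoinRoot ((fK f).scaleRoots D') ≃* LL f), fun z hz => ⟨?_, fun v hv => ?_⟩⟩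
  · have h2 : Algebra.norm (RatFunc F) (φ (z : AdjoinRoot ((fK f).scaleRoots D'))) =
        Algebra.norm (RatFunc F) (z : AdjoinRoot ((fK f).scaleRoots D')) :=
      Algebra.norm_eq_of_algEquiv φ _
    show IsSquare (Algebra.norm (RatFunc F) (φ (z : AdjoinRoot ((fK f).scaleRoots D'))))
    rw [h2]
    exact hz.1
  · set j : RatFunc F →+* v.Completion := algebraMap (RatFunc F) v.Completion with hj
    have hjD : j D' ≠ 0 := by rw [Ne, map_eq_zero]; exact hD0
    have hsv : ((fK f).scaleRoots D').map j = ((fK f).map j).scaleRoots (j D') := by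
      rw [Polynomial.map_scaleRoots]
      rw [hfm.leadingCoeff, map_one]; exact one_ne_zero
    have hv' := h v.Completion ((fK f).map j) (j D') hjD
    rw [← hsv] at hv'
    obtain ⟨ψ, hψ, hψ'⟩ := hv'
    have h4 := Pool.Agent.Helper54.HL.group_Trans ((fK f).map j) (j D')
      (((fK f).scaleRoots D').map j) ψ
      (fun z hz => hψ' g (hfm.map j) (by rw [hfm.natDegree_map, hfd]) z hz) _ (hz.2 v hv)
    have h5 : Units.map ((ψ : AdjoinRoot (((fK f).scaleRoots D').map j) →+*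
          AdjoinRoot ((fK f).map j)) : AdjoinRoot (((fK f).scaleRoots D').map j) →*
          AdjoinRoot ((fK f).map j))
        (Units.map (baseChange j ((fK f).scaleRoots D') :
          AdjoinRoot ((fK f).scaleRoots D') →* _) z) =
        Units.map (baseChange j (fK f) : LL f →* _)
          (Units.mapEquiv (φ : AdjoinRoot ((fK f).scaleRoots D') ≃* LL f) z) := by
      refine Units.ext ?_
      exact Pool.Agent.Helper54.HL.comm_Trans j (fK f) ((fK f).scaleRoots D') D' φ hφ ψ hψ z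
    show Units.map (baseChange j (fK f) : LL f →* _)
      (Units.mapEquiv (φ : AdjoinRoot ((fK f).scaleRoots D') ≃* LL f) z) ∈
        twGroup ((fK f).map j) (j D')
    rw [← h5]
    exact h4

/-- (SB2) -/
theorem gSB2 (h1 : Pool.Agent.Helper3.GT.StL1) (h2 : Pool.Agent.Helper3.GT.StSG)
    (h3 : Pool.Agent.Helper3.GT.StFIN) : StSB2 := by
  classical
  intro F _ _ hF g hg f hm hd hs hdisc _ S hS
  have hD0 : (∏ P ∈ S, P.1) ≠ 0 := Finset.prod_ne_zero_iff.2 fun P _ => P.2.2.ne_zero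
  obtain ⟨Φ, hΦ⟩ := iso_SB2 F g f (∏ P ∈ S, P.1) hm hd hD0
  have hsel : ∀ z ∈ selmerSet (fK (f.scaleRoots (∏ P ∈ S, P.1))),
      Φ z ∈ SelS f S (∏ P ∈ S, P.1) := by
    intro z hz
    obtain ⟨hn, hv⟩ := hΦ z hz
    refine ⟨hn, ?_, ?_, ?_⟩
    · intro P hPS hPB
      obtain ⟨v, hvn, hvP⟩ := Pool.Agent.Helper54.PT.exists_absP P
      refine h1 F hF g hg f hm hd hs P hPB (∏ P ∈ S, P.1) ?_ v hvn hvP (Φ z) (hv v hvn)
      intro hdvd
      obtain ⟨Q, hQ, hPQ⟩ := (Irreducible.prime P.2.2).exists_mem_finset_dvd hdvd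
      have h1 : P.1 = Q.1 := eq_of_monic_of_associated P.2.1 Q.2.1
        ((Irreducible.dvd_irreducible_iff_associated P.2.2 Q.2.2).1 hPQ)
      exact hPS (by rw [Subtype.ext h1]; exact hQ)
    · intro P _ v hvn _
      exact hv v hvn
    · intro v hvn _
      exact hv v hvn
  obtain ⟨C, hC⟩ := h3 F f hm hs hdisc
  have hfin := (hC S (∏ P ∈ S, P.1)).1
  set A := (QuotientGroup.mk : (LL f)ˣ → (LL f)ˣ ⧸ (powMonoidHom 2 : (LL f)ˣ →* (LL f)ˣ).range) ''
    SelS f S (∏ P ∈ S, P.1) with hA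
  refine ⟨hfin.toFinset.image fun c => Φ.symm c.out, ?_, ?_⟩
  · refine card_image_le.trans ?_
    rw [MS, ← hA, Set.ncard_eq_toFinset_card _ hfin]
  · intro z hz
    have hc : (QuotientGroup.mk (Φ z) : (LL f)ˣ ⧸ (powMonoidHom 2 : (LL f)ˣ →* (LL f)ˣ).range) ∈ A :=
      ⟨Φ z, hsel z hz, rfl⟩
    refine ⟨_, mem_image_of_mem _ (hfin.mem_toFinset.2 hc), ?_⟩
    have h4 : (QuotientGroup.mk (Φ z) : (LL f)ˣ ⧸ (powMonoidHom 2 : (LL f)ˣ →* (LL f)ˣ).range) =
        QuotientGroup.mk (Quotient.out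
          (QuotientGroup.mk (Φ z) : (LL f)ˣ ⧸ (powMonoidHom 2 : (LL f)ˣ →* (LL f)ˣ).range)) :=
      (Quotient.out_eq _).symm
    rw [QuotientGroup.eq] at h4
    obtain ⟨w, hw⟩ := h4
    rw [powMonoidHom_apply] at hw
    refine ⟨z * Φ.symm w, ?_⟩
    apply Φ.injective
    rw [map_mul, map_mul, map_mul, MulEquiv.apply_symm_apply, MulEquiv.apply_symm_apply]
    have hq := inv_mul_eq_iff_eq_mul.1 hw.symm
    rw [hq, pow_two, mul_mul_mul_comm, mul_assoc]

end Pool.Agent.Helper54.GL
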