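import Pool.Agent.Helper54.GL.StM

/-!
# GL: the Selmer set depends on the class only (SC2)
-/

set_option autoImplicit false

namespace Pool.Agent.Helper54.GL

open Polynomial Finset
open Pool.Agent.Helper54.PT (Prm prm IsAbsP IsAbsInf)
open Pool.Agent.Helper3.HY (fK RR LL kp red TwAt selmerSet TType)
open Pool.Agent.Helper3.GT (Gd Bd GdF HypF facs TyI TyT Rp ep om SelS MS XS dgS GeoSn EvP)

namespace SC2aux

variable {F : Type} [Field F]

theorem finite_kp [Fintype F] (P : Prm F) : Finite (kp P) := by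
  have h := (P.2.1).finite_adjoinRoot
  have h2 := h
  exact Module.finite_of_finite F

theorem sq_mul {k : Type} [Field k] [Finite k] (h2 : (2 : k) ≠ 0) {a b : k} (ha : a ≠ 0)
    (hb : b ≠ 0) (h : IsSquare a ↔ IsSquare b) : IsSquare (a * b) := by
  classical
  have := Fintype.ofFinite k
  by_cases h1 : IsSquare a
  · exact h1.mul (h.1 h1)
  · have h3 : ¬ IsSquare b := fun hb => h1 (h.2 hb)
    have hc : ringChar k ≠ 2 := by
      intro hc
      apply h2
      have : ((ringChar k : ℕ) : k) = 0 := ringChar.Nat.cast_ringChar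
      rw [hc] at this
      exact_mod_cast this
    rw [← quadraticChar_one_iff_isSquare (mul_ne_zero ha hb), map_mul,
      (quadraticChar_neg_one_iff_not_isSquare).2 h1, (quadraticChar_neg_one_iff_not_isSquare).2 h3]
    norm_num

theorem two_ne (h2 : (2 : F) ≠ 0) (P : Prm F) : (2 : kp P) ≠ 0 := by
  have : Fact (Irreducible P.1) := ⟨P.2.2⟩
  intro h
  apply h2
  have h3 : (AdjoinRoot.of P.1) (2 : F) = (AdjoinRoot.of P.1) 0 := by
    rw [map_ofNat, map_zero]; exact h
  exact AdjoinRoot.coe_injective' h3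

theorem red_sq [Fintype F] (h2 : (2 : F) ≠ 0) (P : Prm F) {E E' : F[X]} (hE : ¬ P.1 ∣ E)
    (hE' : ¬ P.1 ∣ E') (h : IsSquare (red P E) ↔ IsSquare (red P E')) :
    IsSquare (red P (E * E')) := by
  have : Fact (Irreducible P.1) := ⟨P.2.2⟩
  have := finite_kp P
  rw [map_mul]
  apply sq_mul (two_ne h2 P)
  · rwa [Ne, AdjoinRoot.mk_eq_zero]
  · rwa [Ne, AdjoinRoot.mk_eq_zero]
  · exact h

theorem sub [Fintype F] (h2 : (2 : F) ≠ 0) (hINV : Pool.Agent.Helper3.GT.StINV) (f : F[X][X])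
    (hm : f.Monic) (h1 : f ≠ 1) (B S U Δ : Finset (Prm F)) (e : ℕ) (D D' : F[X])
    (hBd : ∀ P, Bd f P → P ∈ B) (hD : HasB B S U Δ e D)
    (hD' : HasB B S U Δ e D') : SelS f S D ⊆ SelS f S D' := by
  obtain ⟨hfin, hinf⟩ := hINV F h2 f hm h1
  rintro z ⟨hz1, hz2, hz3, hz4⟩
  refine ⟨hz1, hz2, ?_, ?_⟩
  · intro P hP v hv hvP
    by_cases hPS : P ∈ S
    · obtain ⟨E, hE, hPE, hsq⟩ := hD.2.2.1 P hPS
      obtain ⟨E', hE', hPE', hsq'⟩ := hD'.2.2.1 P hPS
      have h3 := hz3 P hP v hv hvP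
      have := hfin P 1 E E' hPE hPE' (red_sq h2 P hPE hPE' (hsq.trans hsq'.symm)) v hv hvP z
      rw [pow_one, ← hE, ← hE'] at this
      exact this h3
    · have hB : Bd f P := by tauto
      obtain ⟨hPD, hs⟩ := hD.2.2.2 P (hBd P hB)
      obtain ⟨hPD', hs'⟩ := hD'.2.2.2 P (hBd P hB)
      have := hfin P 0 D D' hPD hPD' (red_sq h2 P hPD hPD' (hs.trans hs'.symm)) v hv hvP z
      rw [pow_zero, one_mul, one_mul] at this
      exact this (hz3 P hP v hv hvP)
  · intro v hv hvI
    exact hinf D D' hD.1 hD'.1 (hD.2.1.trans hD'.2.1.symm) v hv hvI z (hz4 v hv hvI)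

theorem eq_of_dvd {P Q : Prm F} (h : P.1 ∣ Q.1) : P = Q := by
  apply Subtype.ext
  exact eq_of_monic_of_associated P.2.1 Q.2.1 (P.2.2.associated_of_dvd Q.2.2 h)

theorem not_dvd_prod {P : Prm F} {T : Finset (Prm F)} (h : P ∉ T) : ¬ P.1 ∣ ∏ R ∈ T, R.1 := by
  intro hd
  obtain ⟨R, hR, hPR⟩ := (P.2.2.prime.dvd_finset_prod_iff _).1 hd
  exact h (eq_of_dvd hPR ▸ hR)

theorem monic_prod (T : Finset (Prm F)) : (∏ R ∈ T, R.1).Monic :=
  monic_prod_of_monic _ _ fun R _ => R.2.1

theorem natDegree_prod (T : Finset (Prm F)) : (∏ R ∈ T, R.1).natDegree = dgS T := by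
  rw [natDegree_prod_of_monic _ _ fun R _ => R.2.1]
  rfl

end SC2aux

theorem gSC2 (h1 : Pool.Agent.Helper3.GT.StINV) : StSC2 := by
  intro F _ _ h2
  refine ⟨?_, ?_, ?_⟩
  · intro f hm hf1 B S U Δ e D D' hBd hD hD'
    exact Set.Subset.antisymm (SC2aux.sub h2 h1 f hm hf1 B S U Δ e D D' hBd hD hD')
      (SC2aux.sub h2 h1 f hm hf1 B S U Δ e D' D hBd hD' hD)
  · intro B S U U' Δ P e D hP hU hU' h
    classical
    obtain ⟨hm, hd, hS, hB⟩ := h
    refine ⟨⟨hm, hd, ?_, hB⟩, ?_⟩
    · intro Q hQ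
      obtain ⟨E, h1, h2, h3⟩ := hS Q (by
        rw [Finset.mem_insert]; exact Or.inr hQ)
      refine ⟨E, h1, h2, ?_⟩
      rw [h3]
      have hQP : Q ≠ P := fun h => hP (h ▸ hQ)
      rcases hU' with rfl | rfl
      · exact Iff.rfl
      · rw [Finset.mem_insert]
        constructor
        · intro h hQU
          exact h (Or.inr hQU)
        · rintro h (h4 | h4)
          · exact hQP h4
          · exact h h4
    · obtain ⟨E, h1, h2, -⟩ := hS P (by
        rw [Finset.mem_insert]; exact Or.inl rfl)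
      exact ⟨E, h1, h2⟩
  · intro B S hSB
    classical
    refine ⟨SC2aux.monic_prod S, ?_, ?_, ?_⟩
    · rw [SC2aux.natDegree_prod]
    · intro P hP
      refine ⟨∏ R ∈ S.erase P, R.1, ?_, SC2aux.not_dvd_prod (Finset.notMem_erase P S), ?_⟩
      · exact (Finset.mul_prod_erase S (fun R : Prm F => R.1) hP).symm
      · unfold UU
        rw [Finset.mem_filter, not_and, not_not]
        constructor
        · intro h _
          convert h
        · intro h
          convert h hP
    · intro P hP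
      have hPS : P ∉ S := fun h => (Finset.disjoint_left.1 hSB h) hP
      refine ⟨SC2aux.not_dvd_prod hPS, ?_⟩
      unfold DD
      rw [Finset.mem_filter, not_and, not_not]
      constructor
      · intro h _
        exact h
      · intro h
        exact h hP

end Pool.Agent.Helper54.GL
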