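import Pool.Agent.Helper54.GL.StM

set_option autoImplicit false

namespace Pool.Agent.Helper54.GL

open Polynomial Finset Filter Topology
open Pool.Agent.Helper54.PT (Prm prm IsAbsP IsAbsInf)
open Pool.Agent.Helper3.HY (fK RR LL kp red TwAt selmerSet TType)
open Pool.Agent.Helper3.GT (Gd Bd GdF HypF facs TyI TyT Rp ep om SelS MS XS dgS GeoSn EvP)

theorem gSTE (h1 : Pool.Agent.Helper3.GT.StCONTR) (h2 : Pool.Agent.Helper3.GT.StXH)
    (h3 : Pool.Agent.Helper3.GT.StFAC) : StSTE := by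
  intro F _ _ hF g hg f hf hdeg hsep hdis _ P hP S hPS D D' hSel hE
  obtain ⟨E, rfl, hPE⟩ := hE
  have c1 := h1 F hF g hg f hf hdeg hsep hdis P hP S hPS E hPE
  obtain ⟨x1, x2, _⟩ := h2 F hF g hg f hf hdeg hsep hdis P hP S D
  obtain ⟨_, _, _, f1, f2, _, _⟩ := h3 F hF g hg f hf hdeg P hP
  have hMS : MS f S (P.1 * E) = MS f S D := by
    unfold MS
    rw [hSel]
  have hXS : XS f S (P.1 * E) P = XS f S D P := by
    unfold XS
    rw [hSel]
  rw [hMS, hXS] at c1
  set M' := MS f (insert P S) (P.1 * E) with hM'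
  set M := MS f S D with hM
  set X := XS f S D P with hX
  have hMpos : 0 < M := by omega
  have hX2 : X ^ 2 ≤ M * M := by
    rw [sq]
    exact Nat.mul_le_mul x2 x2
  have gen : ∀ c : ℕ, 2 ^ ((facs f P).card - 1) ≤ c → M' ≤ c * M := by
    intro c hc
    have : M' * M ≤ (c * M) * M := by
      calc M' * M ≤ 2 ^ ((facs f P).card - 1) * X ^ 2 := c1
        _ ≤ c * (M * M) := Nat.mul_le_mul hc hX2
        _ = (c * M) * M := by ring
    exact Nat.le_of_mul_le_mul_right this hMpos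
  refine ⟨gen _ (Nat.pow_le_pow_right (by norm_num) (by omega)), ?_, ?_⟩
  · intro hm
    have := gen 1 (by rw [hm]; norm_num)
    omega
  · intro hm
    refine ⟨gen 2 (by rw [hm]; norm_num), ?_⟩
    intro h2X
    rw [hm] at c1
    have h4 : 2 * M' * M ≤ M * M := by
      calc 2 * M' * M = 2 * (M' * M) := by ring
        _ ≤ 2 * (2 ^ (2 - 1) * X ^ 2) := Nat.mul_le_mul_left _ c1
        _ = (2 * X) * (2 * X) := by ring
        _ ≤ M * M := Nat.mul_le_mul h2X h2X
    exact Nat.le_of_mul_le_mul_right h4 hMpos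

end Pool.Agent.Helper54.GL
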