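import Pool.Agent.Helper54.GL.K_KA

/-!
# GL: the numerical value of the probability of rank zero
-/

set_option autoImplicit false

namespace Pool.Agent.Helper54.GL

open Finset

theorem cr_succ_Num (r : ℕ) : cr (r + 1) = cr r * (2 / (2 ^ (r + 1) - 1)) := by
  rw [cr, prod_range_succ, ← cr]

theorem num_Num : (2097 / 10000 : ℝ) < pr 0 := by
  obtain ⟨hpos, hsum, -⟩ := gKA
  have h1 : ∀ r, 2 ≤ r → cr (r + 1) ≤ cr r * (1 / 2) := by
    intro r hr
    rw [cr_succ_Num]
    refine mul_le_mul_of_nonneg_left ?_ (hpos r).le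
    have h2 : (2 : ℝ) ^ 3 ≤ 2 ^ (r + 1) := pow_le_pow_right₀ (by norm_num) (by omega)
    rw [div_le_div_iff₀ (by linarith) (by norm_num)]
    linarith
  have h2 : ∀ j, cr (j + 7) ≤ cr 7 * (1 / 2) ^ j := by
    intro j
    induction j with
    | zero => simp
    | succ j ih =>
      have := h1 (j + 7) (by omega)
      rw [show j + 1 + 7 = j + 7 + 1 by ring, pow_succ]
      nlinarith
  have hg : Summable fun j : ℕ => cr 7 * (1 / 2 : ℝ) ^ j :=
    (summable_geometric_of_lt_one (by norm_num) (by norm_num)).mul_left _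
  have h3 : ∑' j, cr (j + 7) ≤ cr 7 * 2 := by
    refine (Summable.tsum_le_tsum h2 ((summable_nat_add_iff 7).2 hsum) hg).trans ?_
    rw [tsum_mul_left, tsum_geometric_of_lt_one (by norm_num) (by norm_num)]
    norm_num
  have h4 := hsum.sum_add_tsum_nat_add 7
  have e0 : cr 0 = 1 := by simp [cr]
  have e1 : cr 1 = 2 := by rw [cr_succ_Num, e0]; norm_num
  have e2 : cr 2 = 4 / 3 := by rw [cr_succ_Num, e1]; norm_num
  have e3 : cr 3 = 8 / 21 := by rw [cr_succ_Num, e2]; norm_num
  have e4 : cr 4 = 16 / 315 := by rw [cr_succ_Num, e3]; norm_num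
  have e5 : cr 5 = 32 / 9765 := by rw [cr_succ_Num, e4]; norm_num
  have e6 : cr 6 = 64 / 615195 := by rw [cr_succ_Num, e5]; norm_num
  have e7 : cr 7 = 128 / 78129765 := by rw [cr_succ_Num, e6]; norm_num
  have h5 : ∑ i ∈ range 7, cr i = 1 + 2 + 4 / 3 + 8 / 21 + 16 / 315 + 32 / 9765 + 64 / 615195 := by
    simp only [sum_range_succ, range_zero, sum_empty, e0, e1, e2, e3, e4, e5, e6]
    norm_num
  have h6 : ∑' r, cr r < 10000 / 2097 := by
    rw [← h4, h5]
    rw [e7] at h3
    refine lt_of_le_of_lt (add_le_add_right h3 _) ?_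
    norm_num
  have h7 : 0 < ∑' r, cr r := by
    refine lt_of_lt_of_le (hpos 0) (hsum.le_tsum 0 fun j _ => (hpos j).le)
  rw [pr, e0, lt_div_iff₀ h7]
  calc (2097 / 10000 : ℝ) * ∑' r, cr r < 2097 / 10000 * (10000 / 2097) :=
        mul_lt_mul_of_pos_left h6 (by norm_num)
    _ = 1 := by norm_num

end Pool.Agent.Helper54.GL
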