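import Pool.Agent.Helper54.GL.StQ
import Pool.Agent.Helper3.GT.M_IRR

/-!
# GL, module (BBF): the bad primes
-/

set_option autoImplicit false

namespace Pool.Agent.Helper54.GL

open Polynomial Finset Filter Topology
open Pool.Agent.Helper54.PT (Prm prm IsAbsP IsAbsInf)
open Pool.Agent.Helper3.HY (fK RR LL kp red TwAt selmerSet TType)
open Pool.Agent.Helper3.GT (Gd Bd GdF HypF facs TyI TyT Rp ep om SelS MS XS dgS GeoSn EvP)

theorem prm_eq_of_dvd_BBF {F : Type} [Field F] {P Q : Prm F} (h : P.1 ∣ Q.1) : P = Q := by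
  apply Subtype.ext
  exact eq_of_monic_of_associated P.2.1 Q.2.1 (P.2.2.associated_of_dvd Q.2.2 h)

theorem mem_of_dvd_prod_BBF {F : Type} [Field F] {W : Finset (Prm F)} {P : Prm F}
    (h : P.1 ∣ ∏ v ∈ W, v.1) : P ∈ W := by
  obtain ⟨v, hv, hv'⟩ := (Prime.dvd_finsetProd_iff P.2.2.prime _).1 h
  rw [prm_eq_of_dvd_BBF hv']
  exact hv

theorem finite_dvd_BBF {F : Type} [Field F] [Finite F] {d : F[X]} (hd : d ≠ 0) :
    {P : Prm F | P.1 ∣ d}.Finite := by
  refine (Set.Finite.preimage (f := fun P : Prm F => P.1) (Subtype.val_injective.injOn)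
    (Pool.Agent.Helper54.PT.finite_natDegree_le F d.natDegree)).subset ?_
  intro P hP
  exact natDegree_le_of_dvd hP hd

theorem gBBF : StBBF := by
  classical
  intro F _ _ h2 ι _ g f hf
  have hfin : {P : Prm F | ∃ i, Bd (f i) P}.Finite := by
    have : {P : Prm F | ∃ i, Bd (f i) P} ⊆ ⋃ i, {P : Prm F | P.1 ∣ (f i).discr} := by
      rintro P ⟨i, hi⟩
      exact Set.mem_iUnion.2 ⟨i, (dvd_pow_self P.1 two_ne_zero).trans hi⟩
    exact (Set.finite_iUnion fun i => finite_dvd_BBF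
      (Pool.Agent.Helper3.GT.hIRR F h2 ι g f hf i).2.2.2).subset this
  have h1 : ∀ P : Prm F, P ∈ BB f ↔ ∃ i, Bd (f i) P := by
    intro P
    rw [BB, dif_pos hfin, Set.Finite.mem_toFinset]
    rfl
  have h3 : ∀ P : Prm F, GdF f P → P ∉ BB f := by
    intro P hP hPB
    obtain ⟨i, hi⟩ := (h1 P).1 hPB
    exact hP i ((dvd_pow_self P.1 two_ne_zero).trans hi)
  refine ⟨h1, h3, fun S W hS hW => ?_⟩
  have hmon : (∏ v ∈ W, v.1).Monic := monic_prod_of_monic _ _ fun v _ => v.2.1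
  refine ⟨hmon, ?_, ?_, ?_, ?_, fun P hP => mem_of_dvd_prod_BBF hP⟩
  · refine Finset.squarefree_prod_of_pairwise_isCoprime ?_ fun v _ => v.2.2.squarefree
    intro v _ w _ hvw
    exact ((v.2.2.isCoprime_or_dvd w.1).resolve_right fun h =>
      hvw (prm_eq_of_dvd_BBF h)).isRelPrime
  · rintro ⟨v, hv⟩ h
    have h4 := Finset.dvd_prod_of_mem (fun v : Prm F => v.1) hv
    rw [h] at h4
    exact v.2.2.not_isUnit (isUnit_of_dvd_one h4)
  · intro i
    obtain ⟨P, hP1, hP2, hP3⟩ := hf.simple i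
    refine ⟨P, hP1, hP2, hP3, fun h => ?_⟩
    rcases Finset.mem_union.1 (hW (mem_of_dvd_prod_BBF h)) with h5 | h5
    · exact hS P h5 i hP1
    · obtain ⟨j, hj⟩ := (h1 P).1 h5
      by_cases hji : j = i
      · subst hji
        exact hP2 hj
      · exact hP3 j hji ((dvd_pow_self P.1 two_ne_zero).trans hj)
  · rw [natDegree_prod_of_monic _ _ fun v _ => v.2.1]
    calc ∑ v ∈ W, v.1.natDegree ≤ ∑ v ∈ S ∪ BB f, v.1.natDegree :=
          Finset.sum_le_sum_of_subset hW
      _ ≤ dgS S + dgS (BB f) := by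
          rw [dgS, dgS, ← Finset.sum_union_inter]
          exact Nat.le_add_right _ _

end Pool.Agent.Helper54.GL
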