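import Pool.Agent.Helper54.GL.StQ
import Pool.Agent.Helper54.GT.AllAB

/-!
# GL, module Q_CN3: counting with the square roots of the `d a(τ_b)`
-/

set_option autoImplicit false

namespace Pool.Agent.Helper54.GL

open Polynomial Finset Filter Topology
open Pool.Agent.Helper54.PT (Prm prm)
open Pool.Agent.Helper3.HY (fK RR LL kp red TType)
open Pool.Agent.Helper3.GT (Gd GdF HypF facs TyI TyT Rp GeoSn)
open Pool.Agent.Helper54.GT

private lemma z2_CN3 (v : ZMod 2) : v = 0 ∨ v = 1 := by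
  revert v; decide

private lemma v1_CN3 : (1 : ZMod 2).val = 1 := by decide

private lemma aa_CN3 : (1 + 1 : ZMod 2) = 0 := by decide

private lemma pw_CN3 {k : Type} [Field k] (r : k) (v v' : ZMod 2) :
    r ^ v.val * r ^ v'.val = (r ^ 2) ^ (v.val * v'.val) * r ^ (v + v').val := by
  rcases z2_CN3 v with rfl | rfl <;> rcases z2_CN3 v' with rfl | rfl <;>
    simp [v1_CN3, aa_CN3]
  ring

private lemma sa_CN3 {k : Type} [Field k] (x y : ZMod 2) :
    ((-1 : k)) ^ (x + y).val = (-1) ^ x.val * (-1) ^ y.val := by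
  rcases z2_CN3 x with rfl | rfl <;> rcases z2_CN3 y with rfl | rfl <;>
    simp [v1_CN3, aa_CN3]

private lemma sm_CN3 {k : Type} [Field k] (x y : ZMod 2) :
    (((-1 : k)) ^ x.val) ^ y.val = (-1) ^ (x * y).val := by
  rcases z2_CN3 x with rfl | rfl <;> rcases z2_CN3 y with rfl | rfl <;>
    simp [v1_CN3]

private lemma ss_CN3 {k : Type} [Field k] {J : Type} (S : Finset J) (x : J → ZMod 2) :
    ∏ b ∈ S, ((-1 : k)) ^ (x b).val = (-1) ^ (∑ b ∈ S, x b).val := by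
  classical
  induction S using Finset.induction_on with
  | empty => simp
  | insert j S hj ih => rw [prod_insert hj, sum_insert hj, sa_CN3, ih]

private lemma sing_CN3 {k : Type} [Field k] {n : ℕ} (w : Fin n → k) (b : Fin n) :
    ∏ x, w x ^ ((Pi.single b 1 : Fin n → ZMod 2) x).val = w b := by
  classical
  rw [Finset.prod_eq_single b]
  · simp [v1_CN3]
  · intro x _ hx
    simp [hx]
  · intro h
    exact absurd (mem_univ _) h

private noncomputable def Ph_CN3 {F : Type} [Field F] {ι : Type} {g : ι → ℕ} {i₀ : ι}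
    (y : kk F × (∀ i, Fin (2 * g i + 1) → kk F) × (Fin (2 * g i₀ + 1) → kk F)) :
    kk F × (∀ i, Fin (2 * g i + 1) → kk F) × ((Fin (2 * g i₀ + 1) → ZMod 2) → kk F) :=
  (y.1, y.2.1, fun v => ∏ b, y.2.2 b ^ (v b).val)

/-- well defined -/
private lemma maps_CN3 {F : Type} [Field F] [Fintype F] {ι : Type} [Fintype ι] {g : ι → ℕ}
    (f : ι → F[X][X]) (i₀ : ι) (a : F[X][X])
    (σ : ∀ i, Equiv.Perm (Fin (2 * g i + 1))) (ε : Fin (2 * g i₀ + 1) → ZMod 2) (Q : ℕ) :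
    Set.MapsTo Ph_CN3 (X3 f i₀ a σ ε Q)
      (TupF f i₀ a (fun b => b) ⊤ (fun σ => σ i₀) σ (fun v => ∑ b, ε b * v (σ i₀ b)) Q) := by
  classical
  rintro ⟨t, τ, r⟩ ⟨⟨ht, hf, hi, hτ⟩, hr0, hr2, hrQ⟩
  simp only at ht hf hi hτ hr0 hr2 hrQ
  refine ⟨⟨hf, hi, ?_, ?_, ?_, ?_⟩, ht, hτ, ?_⟩
  · intro x
    simp only [Ph_CN3]
    rw [← hr2 x]
    exact pow_ne_zero 2 (hr0 x)
  · intro v hv
    exact absurd trivial hv
  · simp only [Ph_CN3]
    simp
  · intro v _ v' _
    simp only [Ph_CN3]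
    rw [← prod_mul_distrib, ← prod_mul_distrib]
    apply prod_congr rfl
    intro b _
    rw [← hr2 b, Pi.add_apply]
    exact pw_CN3 _ _ _
  · intro v _
    simp only [Ph_CN3]
    rw [← prod_pow]
    have h1 : ∀ b, (r b ^ (v (σ i₀ b)).val) ^ Q =
        (-1) ^ (ε b * v (σ i₀ b)).val * r (σ i₀ b) ^ (v (σ i₀ b)).val := by
      intro b
      rw [← pow_mul, mul_comm, pow_mul, hrQ b, mul_pow, sm_CN3]
    rw [prod_congr rfl (fun b _ => h1 b), prod_mul_distrib, ss_CN3,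
      Equiv.prod_comp (σ i₀) (fun b => r b ^ (v b).val)]

private lemma inj_CN3 {F : Type} [Field F] {ι : Type} {g : ι → ℕ} (i₀ : ι) :
    Function.Injective (Ph_CN3 (F := F) (g := g) (i₀ := i₀)) := by
  classical
  rintro ⟨t, τ, r⟩ ⟨t', τ', r'⟩ h
  simp only [Ph_CN3, Prod.mk.injEq] at h
  obtain ⟨rfl, rfl, h⟩ := h
  have : r = r' := by
    funext b
    have h1 := congrFun h (Pi.single b 1)
    rwa [sing_CN3, sing_CN3] at h1
  rw [this]

/-- a multiplicative function which is trivial on generators is trivial -/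
private lemma triv_CN3 {k : Type} [Field k] {n : ℕ} (κ : (Fin n → ZMod 2) → k)
    (h0 : κ 0 = 1) (hm : ∀ v v', κ (v + v') = κ v * κ v') (hg : ∀ b, κ (Pi.single b 1) = 1)
    (v : Fin n → ZMod 2) : κ v = 1 := by
  classical
  have key : ∀ S : Finset (Fin n), κ (∑ b ∈ S, Pi.single b (v b)) = 1 := by
    intro S
    induction S using Finset.induction_on with
    | empty => simpa using h0
    | insert j S hj ih =>
      rw [sum_insert hj, hm, ih, mul_one]
      rcases z2_CN3 (v j) with h | h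
      · rw [h, Pi.single_zero, h0]
      · rw [h, hg]
  have := key univ
  rwa [Finset.univ_sum_single v] at this

/-- surjectivity -/
private lemma surj_CN3 {F : Type} [Field F] [Fintype F] {ι : Type} [Fintype ι] {g : ι → ℕ}
    (f : ι → F[X][X]) (i₀ : ι) (a : F[X][X])
    (σ : ∀ i, Equiv.Perm (Fin (2 * g i + 1))) (ε : Fin (2 * g i₀ + 1) → ZMod 2) (Q : ℕ) :
    Set.SurjOn Ph_CN3 (X3 f i₀ a σ ε Q)
      (TupF f i₀ a (fun b => b) ⊤ (fun σ => σ i₀) σ (fun v => ∑ b, ε b * v (σ i₀ b)) Q) := by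
  classical
  rintro ⟨t, τ, c⟩ ⟨⟨hf, hi, hα, -, hc0, hcc⟩, ht, hτ, hQ⟩
  simp only at hf hi hα hc0 hcc ht hτ hQ
  obtain ⟨r, hr⟩ : ∃ r : Fin (2 * g i₀ + 1) → kk F, ∀ b, r b = c (Pi.single b 1) :=
    ⟨_, fun b => rfl⟩
  have hr2 : ∀ b, r b ^ 2 = av t a (τ i₀ b) := by
    intro b
    have h1 := hcc (Pi.single b 1) trivial (Pi.single b 1) trivial
    have h3 : (Pi.single b 1 + Pi.single b 1 : Fin (2 * g i₀ + 1) → ZMod 2) = 0 := by
      rw [← Pi.single_add, aa_CN3, Pi.single_zero]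
    rw [h3, hc0, mul_one] at h1
    rw [hr, pow_two, h1]
    have h4 : ∀ x, av t a (τ i₀ x) ^ (((Pi.single b 1 : Fin (2 * g i₀ + 1) → ZMod 2) x).val *
        ((Pi.single b 1 : Fin (2 * g i₀ + 1) → ZMod 2) x).val) =
        av t a (τ i₀ x) ^ ((Pi.single b 1 : Fin (2 * g i₀ + 1) → ZMod 2) x).val := by
      intro x
      rcases z2_CN3 ((Pi.single b 1 : Fin (2 * g i₀ + 1) → ZMod 2) x) with h | h <;>
        simp [h, v1_CN3]
    rw [prod_congr rfl fun x _ => h4 x]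
    exact sing_CN3 (fun x => av t a (τ i₀ x)) b
  have hr0 : ∀ b, r b ≠ 0 := by
    intro b h
    apply hα b
    rw [← hr2 b, h]
    simp
  have hcn : ∀ v : Fin (2 * g i₀ + 1) → ZMod 2, ∏ b, r b ^ (v b).val ≠ 0 := by
    intro v
    exact prod_ne_zero_iff.2 fun b _ => pow_ne_zero _ (hr0 b)
  have hcr : ∀ v, c v = ∏ b, r b ^ (v b).val := by
    intro v
    have := triv_CN3 (n := 2 * g i₀ + 1) (fun v => c v / ∏ b, r b ^ (v b).val) (by simp [hc0]) (by
      intro v v'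
      have h1 := hcc v trivial v' trivial
      have h3 : (∏ b, r b ^ (v b).val) * (∏ b, r b ^ (v' b).val) =
          (∏ x, av t a (τ i₀ x) ^ ((v x).val * (v' x).val)) * ∏ b, r b ^ ((v + v') b).val := by
        rw [← prod_mul_distrib, ← prod_mul_distrib]
        apply prod_congr rfl
        intro b _
        rw [← hr2 b, Pi.add_apply]
        exact pw_CN3 _ _ _
      rw [div_mul_div_comm, h1, h3, mul_div_mul_left]
      exact prod_ne_zero_iff.2 fun b _ => pow_ne_zero _ (hα b)) (by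
      intro b
      rw [sing_CN3, ← hr, div_self (hr0 b)]) v
    exact (div_eq_one_iff_eq (hcn v)).1 this
  refine ⟨⟨t, τ, r⟩, ⟨⟨ht, hf, hi, hτ⟩, hr0, hr2, ?_⟩, ?_⟩
  · intro b
    have h1 := hQ (Pi.single (σ i₀ b) 1) trivial
    have h3 : (fun x => (Pi.single (σ i₀ b) 1 : Fin (2 * g i₀ + 1) → ZMod 2) (σ i₀ x)) =
        Pi.single b 1 := by
      funext x
      simp only [Pi.single_apply, (σ i₀).injective.eq_iff]
    have h4 : ∑ x, ε x * (Pi.single (σ i₀ b) 1 : Fin (2 * g i₀ + 1) → ZMod 2) (σ i₀ x) = ε b := by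
      have : ∀ x, (Pi.single (σ i₀ b) 1 : Fin (2 * g i₀ + 1) → ZMod 2) (σ i₀ x) =
          (Pi.single b 1 : Fin (2 * g i₀ + 1) → ZMod 2) x := fun x => congrFun h3 x
      simp only [this]
      simp [Pi.single_apply]
    rw [h3, h4, ← hr, ← hr] at h1
    exact h1
  · simp only [Ph_CN3, Prod.mk.injEq, true_and]
    funext v
    exact (hcr v).symm

/-- (CN3) -/
theorem gCN3 (h1 : StKI2) : StCN3 := by
  classical
  intro F _ _ h20 ι _ g f hf i₀ _
  obtain ⟨θ, hθ⟩ := aGAL F h20 ι g f hf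
  obtain ⟨C₀, hC0, hC⟩ := dCNT F h20 ι g f θ hf.monic hθ i₀ (2 * g i₀ + 1)
  refine ⟨C₀, hC0, ?_⟩
  intro c a d hRp hn1 hn2 hd1 hd2 hd3 hd4 σ ε e he
  obtain ⟨hne, hind⟩ := h1 F h20 ι g f θ hf.one_le hf.monic hθ hf.deg i₀ a d hn1 hn2 hd1 hd2 hd3 hd4
  have hρ : ∀ b, ∃ ρ : Om F, ρ ^ 2 = ev (C d * a) (θ i₀ b) := fun b =>
    IsAlgClosed.exists_pow_nat_eq (ev (C d * a) (θ i₀ b)) (n := 2) (by norm_num)
  choose ρ hρ using hρ
  have hD : KDat θ i₀ (C d * a) (fun b => b) (fun σ => σ i₀) ρ ⊤ (c + d.natDegree) := by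
    refine ⟨?_, ?_, hne, hρ, fun σ τ => rfl, Or.inl fun σ x => rfl, ?_, ?_⟩
    · have h3 := hRp.1
      rw [hf.deg i₀] at h3
      exact (natDegree_C_mul_le d a).trans (by omega)
    · intro e
      rw [coeff_C_mul]
      have h3 := hRp.2 e
      exact natDegree_mul_le.trans (by omega)
    · intro σ v _
      trivial
    · intro v _ hv0
      exact hind ρ hρ v hv0
  obtain ⟨hfin, hcard⟩ := hC (C d * a) (Fin (2 * g i₀ + 1)) (fun b => b) (fun σ => σ i₀) ρ ⊤
    (c + d.natDegree) hD (by simp)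
    σ (fun v => ∑ b, ε b * v (σ i₀ b)) (by
      intro v _ v' _
      simp only [Pi.add_apply, mul_add, sum_add_distrib]) e he
  have hbij : Set.BijOn Ph_CN3 (X3 f i₀ (C d * a) σ ε (Fintype.card F ^ e))
      (TupF f i₀ (C d * a) (fun b => b) ⊤ (fun σ => σ i₀) σ (fun v => ∑ b, ε b * v (σ i₀ b))
        (Fintype.card F ^ e)) :=
    ⟨maps_CN3 f i₀ (C d * a) σ ε _, (inj_CN3 i₀).injOn, surj_CN3 f i₀ (C d * a) σ ε _⟩
  have himg := hbij.image_eq
  constructor
  · apply Set.Finite.of_finite_image _ hbij.injOn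
    rw [himg]
    exact hfin
  · rw [← hbij.injOn.ncard_image, himg]
    refine hcard.trans (le_of_eq ?_)
    push_cast
    ring

end Pool.Agent.Helper54.GL
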