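import Pool.Agent.Helper54.GL.StQ
import Pool.Agent.Helper54.GT.AllAB

/-!
# GL, Q_CNI: densities of the two types of primes
-/

set_option autoImplicit false

namespace Pool.Agent.Helper54.GL

open Polynomial Finset Filter Topology
open Pool.Agent.Helper54.PT (Prm prm IsAbsP IsAbsInf mem_prm)
open Pool.Agent.Helper3.HY (fK RR LL kp red TwAt selmerSet TType)
open Pool.Agent.Helper3.GT (Gd Bd GdF HypF facs TyI TyT Rp ep om SelS MS XS dgS GeoSn EvP)
open Pool.Agent.Helper54.GT (kk Om et ev av em rv Rts Hyp0 X0 X1 X2 dCN0 dTP)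

private theorem memI_CNI {F : Type} [Field F] [Fintype F] {ι : Type} (f : ι → F[X][X]) (k : ℕ)
    (P : Prm F) : P ∈ GIs f k ↔ P ∈ prm F k ∧ GdF f P ∧ ∀ i, TyI (f i) P := by
  classical
  unfold GIs
  simp only [mem_filter]

private theorem memT_CNI {F : Type} [Field F] [Fintype F] {ι : Type} (g : ι → ℕ)
    (f : ι → F[X][X]) (i : ι) (k : ℕ) (P : Prm F) :
    P ∈ GTs g f i k ↔ P ∈ prm F k ∧ GdF f P ∧ TyT (g i) (f i) P ∧ ∀ j, j ≠ i → TyI (f j) P := by
  classical
  unfold GTs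
  simp only [mem_filter]

open Classical in
/-- Number of families of permutations. -/
private theorem cnt_CNI {ι : Type} [Fintype ι] (g m : ι → ℕ)
    (p : ∀ i, Equiv.Perm (Fin (2 * g i + 1)) → Prop)
    (hm : ∀ i, {s : Equiv.Perm (Fin (2 * g i + 1)) | p i s}.ncard * m i =
      (2 * g i + 1).factorial) (φ : (∀ i, Equiv.Perm (Fin (2 * g i + 1))) → ℝ)
    (h1 : ∀ σ, (∀ i, p i (σ i)) → φ σ = 1) (h0 : ∀ σ, ¬ (∀ i, p i (σ i)) → φ σ = 0) :
    ∑ σ, φ σ = ((∏ i, (2 * g i + 1).factorial : ℕ) : ℝ) * ∏ i, ((m i : ℕ) : ℝ)⁻¹ := by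
  classical
  have e1 : ∑ σ, φ σ = ((univ.filter fun σ : (∀ i, Equiv.Perm (Fin (2 * g i + 1))) =>
      ∀ i, p i (σ i)).card : ℝ) := by
    rw [card_eq_sum_ones, Nat.cast_sum, sum_filter]
    refine sum_congr rfl fun σ _ => ?_
    split_ifs with h
    · rw [h1 σ h, Nat.cast_one]
    · exact h0 σ h
  have e2 : (univ.filter fun σ : (∀ i, Equiv.Perm (Fin (2 * g i + 1))) => ∀ i, p i (σ i)) =
      Fintype.piFinset fun i => univ.filter fun s => p i s := by
    ext σ
    simp [Fintype.mem_piFinset]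
  rw [e1, e2, Fintype.card_piFinset, Nat.cast_prod, Nat.cast_prod, ← prod_mul_distrib]
  refine prod_congr rfl fun i _ => ?_
  have h := hm i
  have h3 : {s : Equiv.Perm (Fin (2 * g i + 1)) | p i s}.ncard =
      (univ.filter fun s => p i s).card := by
    rw [← Set.ncard_coe_finset]
    congr 1
    ext s
    simp
  rw [h3] at h
  have hmi : (m i : ℝ) ≠ 0 := by
    intro h0'
    have : m i = 0 := by exact_mod_cast h0'
    rw [this, Nat.mul_zero] at h
    exact (Nat.factorial_ne_zero _) h.symm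
  rw [← h, Nat.cast_mul, mul_assoc, mul_inv_cancel₀ hmi, mul_one]

/-- The core. -/
private theorem core_CNI (h2 : StTRF) (F : Type) [Field F] [Fintype F] (hF : (2 : F) ≠ 0)
    (ι : Type) [Fintype ι] (g : ι → ℕ) (f : ι → F[X][X]) (hmon : ∀ i, (f i).Monic)
    (hdeg : ∀ i, (f i).natDegree = 2 * g i + 1) (C₀ : ℝ) (hC : 0 ≤ C₀)
    (hX : ∀ (σ : ∀ i, Equiv.Perm (Fin (2 * g i + 1))) (e : ℕ), 1 ≤ e →
      (X0 f σ (Fintype.card F ^ e)).Finite ∧
      |((X0 f σ (Fintype.card F ^ e)).ncard : ℝ) - (Fintype.card F : ℝ) ^ e| ≤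
        C₀ * Real.sqrt ((Fintype.card F : ℝ) ^ e)) (k : ℕ) (hk : 1 ≤ k) (m : ι → ℕ)
    (p : ∀ i, Equiv.Perm (Fin (2 * g i + 1)) → Prop)
    (hm : ∀ i, {s : Equiv.Perm (Fin (2 * g i + 1)) | p i s}.ncard * m i =
      (2 * g i + 1).factorial) (Q : Finset (Prm F)) (hQ : ∀ P ∈ Q, P ∈ prm F k ∧ GdF f P)
    (hp : ∀ P ∈ prm F k, GdF f P → ∀ t : kk F, et t P.1 = 0 →
      ∀ (τ : ∀ i, Fin (2 * g i + 1) → kk F) (σ : ∀ i, Equiv.Perm (Fin (2 * g i + 1))),
      (t, τ) ∈ X0 f σ (Fintype.card F ^ k) → (P ∈ Q ↔ ∀ i, p i (σ i))) :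
    |k * (Q.card : ℝ) - (∏ i, ((m i : ℕ) : ℝ)⁻¹) * (Fintype.card F : ℝ) ^ k| ≤
      (C₀ + 2) * Real.sqrt (Fintype.card F) ^ k := by
  classical
  have hsq : Real.sqrt ((Fintype.card F : ℝ) ^ k) = Real.sqrt (Fintype.card F) ^ k := by
    rw [← Real.sqrt_sq (pow_nonneg (Real.sqrt_nonneg (Fintype.card F : ℝ)) k), ← pow_mul, mul_comm k 2,
      pow_mul, Real.sq_sqrt (Nat.cast_nonneg _)]
  set Z : (∀ i, Equiv.Perm (Fin (2 * g i + 1))) → Unit →
      Set (kk F × (∀ i, Fin (2 * g i + 1) → kk F) × Unit) :=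
    fun σ _ => {y | (y.1, y.2.1) ∈ X0 f σ (Fintype.card F ^ k)} with hZ
  set φ : (∀ i, Equiv.Perm (Fin (2 * g i + 1))) → Unit → ℝ :=
    fun σ _ => if ∀ i, p i (σ i) then 1 else 0 with hφ
  have hZi : ∀ σ ε, Z σ ε = (fun y : kk F × (∀ i, Fin (2 * g i + 1) → kk F) => (y.1, y.2, ())) ''
      X0 f σ (Fintype.card F ^ k) := by
    intro σ ε
    ext ⟨t, τ, r⟩
    constructor
    · intro h
      exact ⟨(t, τ), h, rfl⟩
    · rintro ⟨⟨t', τ'⟩, h, h'⟩
      simp only [Prod.mk.injEq] at h'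
      obtain ⟨rfl, rfl, -⟩ := h'
      exact h
  have hinj : Function.Injective
      (fun y : kk F × (∀ i, Fin (2 * g i + 1) → kk F) => (y.1, y.2, ())) := by
    rintro ⟨t, τ⟩ ⟨t', τ'⟩ h
    simp only [Prod.mk.injEq, and_true] at h
    exact Prod.ext h.1 h.2
  have key := h2 F hF ι g f hmon hdeg k hk Unit Unit Z φ (fun _ => 1) Q 1
    (C₀ * Real.sqrt ((Fintype.card F : ℝ) ^ k)) (mul_nonneg hC (Real.sqrt_nonneg _))
    (by
      intro σ ε
      rw [hφ]
      dsimp only
      split_ifs <;> simp)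
    (by
      intro σ ε
      rw [hZi σ ε, Set.ncard_image_of_injective _ hinj]
      exact ⟨(hX σ k hk).1.image _, (hX σ k hk).2⟩)
    (by intro σ ε y hy; exact hy)
    (by intro σ ε ε' y _ _; exact Subsingleton.elim _ _)
    (by
      intro t τ
      refine ⟨Set.toFinite _, ?_⟩
      calc _ ≤ (Set.univ : Set Unit).ncard := Set.ncard_le_ncard (Set.subset_univ _) (Set.toFinite _)
        _ = 1 := by rw [Set.ncard_univ]; simp)
    (by
      intro P hP
      refine ⟨(hQ P hP).1, (hQ P hP).2, ?_⟩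
      intro t ht τ hτ hτi
      obtain ⟨σ, hσ⟩ := ((dTP F hF ι g f hmon hdeg k P hk (hQ P hP).1 t ht).2 τ hτ hτi).2
      constructor
      · have : {r : Unit | ∃ σ ε, (t, τ, r) ∈ Z σ ε} = Set.univ := by
          ext r
          exact ⟨fun _ => Set.mem_univ _, fun _ => ⟨σ, (), hσ⟩⟩
        rw [this, Set.ncard_univ]; simp
      · intro r σ' ε hr
        have h := (hp P (hQ P hP).1 (hQ P hP).2 t ht τ σ' hr).1 hP
        rw [hφ]
        dsimp only
        rw [if_pos h])
    (by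
      intro P hP hPQ t ht τ r σ ε hr
      have hr' : (t, τ) ∈ X0 f σ (Fintype.card F ^ k) := hr
      have hG := ((dTP F hF ι g f hmon hdeg k P hk hP t ht).2 τ hr'.2.1 hr'.2.2.1).1
      have h := mt (hp P hP hG t ht τ σ hr').2 hPQ
      rw [hφ]
      dsimp only
      rw [if_neg h])
  have hsum : ∑ σ, ∑ ε, φ σ ε = ((∏ i, (2 * g i + 1).factorial : ℕ) : ℝ) *
      ∏ i, ((m i : ℕ) : ℝ)⁻¹ := by
    rw [← cnt_CNI g m p hm (fun σ => φ σ ()) (fun σ h => by rw [hφ]; exact if_pos h)
      (fun σ h => by rw [hφ]; exact if_neg h)]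
    refine sum_congr rfl fun σ _ => ?_
    simp
  rw [hsum, hsq] at key
  simp only [Nat.cast_one, mul_one, sum_const, nsmul_eq_mul, Fintype.card_unit, one_mul] at key
  set N : ℝ := ((∏ i, (2 * g i + 1).factorial : ℕ) : ℝ) with hN
  have hNpos : 0 < N := by
    rw [hN]
    exact_mod_cast prod_pos fun i _ => Nat.factorial_pos _
  have e3 : N * (k : ℝ) * (Q.card : ℝ) - N * (∏ i, ((m i : ℕ) : ℝ)⁻¹) * (Fintype.card F : ℝ) ^ k =
      N * (k * (Q.card : ℝ) - (∏ i, ((m i : ℕ) : ℝ)⁻¹) * (Fintype.card F : ℝ) ^ k) := by ring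
  rw [e3, abs_mul, abs_of_pos hNpos] at key
  have h4 := le_of_mul_le_mul_left key hNpos
  linarith [h4]

/-- (CNI) Densities of the two types of primes. -/
theorem gCNI (h1 : StCYC) (h2 : StTRF) (h3 : StTYP) : StCNI := by
  classical
  intro F _ _ hF ι _ g f hyp
  obtain ⟨C₀, hC, hX⟩ := dCN0 F hF ι g f hyp
  refine ⟨C₀ + 2, by linarith, fun k hk => ⟨?_, fun i => ?_⟩⟩
  · have := core_CNI h2 F hF ι g f hyp.monic hyp.deg C₀ hC hX k hk (fun i => 2 * g i + 1)
      (fun i s => CycI s) (fun i => h1.1 (2 * g i + 1) (by omega)) (GIs f k)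
      (fun P hP => by
        rw [memI_CNI] at hP
        exact ⟨hP.1, hP.2.1⟩)
      (by
        intro P hP hG t ht τ σ hσ
        have hT := h3 F hF ι g f hyp.one_le hyp.monic hyp.deg k hk P hP t ht τ σ hσ
        rw [memI_CNI]
        constructor
        · rintro ⟨-, -, h⟩ i
          exact (hT i).1.1 (h i)
        · intro h
          exact ⟨hP, hG, fun i => (hT i).1.2 (h i)⟩)
    rw [kIc]
    simpa using this
  · have hg : 1 ≤ g i := hyp.one_le i
    have := core_CNI h2 F hF ι g f hyp.monic hyp.deg C₀ hC hX k hk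
      (fun j => if j = i then 2 * g j else 2 * g j + 1)
      (fun j s => if j = i then ∃ b₀, CycT s b₀ else CycI s)
      (fun j => by
        by_cases h : j = i
        · subst h
          simp only [if_true]
          have := h1.2 (2 * g j + 1) (by omega)
          simpa using this
        · simp only [h, if_false]
          exact h1.1 (2 * g j + 1) (by omega)) (GTs g f i k)
      (fun P hP => by
        rw [memT_CNI] at hP
        exact ⟨hP.1, hP.2.1⟩)
      (by
        intro P hP hG t ht τ σ hσ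
        have hT := h3 F hF ι g f hyp.one_le hyp.monic hyp.deg k hk P hP t ht τ σ hσ
        rw [memT_CNI]
        constructor
        · rintro ⟨-, -, h, h'⟩ j
          by_cases hj : j = i
          · subst hj
            simpa using (hT j).2.1 h
          · simp only [hj, if_false]
            exact (hT j).1.1 (h' j hj)
        · intro h
          refine ⟨hP, hG, ?_, fun j hj => ?_⟩
          · have := h i
            simp only [if_true] at this
            exact (hT i).2.2 this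
          · have := h j
            simp only [hj, if_false] at this
            exact (hT j).1.2 this)
    have e : (∏ j, (((if j = i then 2 * g j else 2 * g j + 1 : ℕ)) : ℝ)⁻¹) = kTc g i := by
      rw [kTc, ← mul_prod_erase univ _ (mem_univ i)]
      congr 1
      · simp
      · refine prod_congr rfl fun j hj => ?_
        rw [if_neg (ne_of_mem_erase hj)]
        push_cast
        ring
    rw [e] at this
    exact this

end Pool.Agent.Helper54.GL
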