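import Pool.Agent.Helper54.GL.StQ
import Pool.Agent.Helper54.GT.AllAB
import Pool.Agent.Helper3.GT.M_FAC

/-!
# GL, module Q_CS1: the character sum for `a` over the primes of type `T`
-/

set_option autoImplicit false

namespace Pool.Agent.Helper54.GL

open Polynomial Finset Filter Topology
open Pool.Agent.Helper54.PT (Prm prm)
open Pool.Agent.Helper3.HY (fK RR LL kp red TType)
open Pool.Agent.Helper3.GT (Gd GdF HypF facs TyI TyT Rp GeoSn StFAC)
open Pool.Agent.Helper54.GT (kk et av X0 X1 Hyp0 UN)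


private def sg_CS1 {K : Type} [Field K] (b : Bool) : K := if b then 1 else -1

private lemma sg_sq_CS1 {K : Type} [Field K] (b : Bool) : sg_CS1 (K := K) b ^ 2 = 1 := by
  cases b <;> simp [sg_CS1]

private lemma sg_inj_CS1 {K : Type} [Field K] (h2 : (2 : K) ≠ 0) :
    Function.Injective (sg_CS1 (K := K)) := by
  have h : (1 : K) ≠ -1 := by
    intro h
    apply h2
    linear_combination h
  intro a b hab
  cases a <;> cases b <;> simp [sg_CS1] at hab ⊢
  · exact h hab.symm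
  · exact h hab

private def chg_CS1 {K : Type} [Field K] {g : ℕ} (r : Fin (2 * g + 1) → K) (e : Fin (2 * g) → Bool) :
    Fin (2 * g + 1) → K :=
  Fin.cons ((∏ b, sg_CS1 (e b)) * r 0) (fun b => sg_CS1 (e b) * r b.succ)

private lemma chg_sq_CS1 {K : Type} [Field K] {g : ℕ} (r : Fin (2 * g + 1) → K)
    (e : Fin (2 * g) → Bool) (b : Fin (2 * g + 1)) : chg_CS1 r e b ^ 2 = r b ^ 2 := by
  refine Fin.cases ?_ (fun b => ?_) b
  · rw [chg_CS1, Fin.cons_zero, mul_pow, ← Finset.prod_pow]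
    simp [sg_sq_CS1]
  · rw [chg_CS1, Fin.cons_succ, mul_pow, sg_sq_CS1, one_mul]

private lemma chg_prod_CS1 {K : Type} [Field K] {g : ℕ} (r : Fin (2 * g + 1) → K)
    (e : Fin (2 * g) → Bool) : ∏ b, chg_CS1 r e b = ∏ b, r b := by
  rw [Fin.prod_univ_succ, Fin.prod_univ_succ]
  simp only [chg_CS1, Fin.cons_zero, Fin.cons_succ]
  rw [Finset.prod_mul_distrib]
  have h : (∏ b, sg_CS1 (K := K) (e b)) * ∏ b, sg_CS1 (e b) = 1 := by
    rw [← Finset.prod_mul_distrib]
    refine Finset.prod_eq_one fun b _ => ?_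
    rw [← pow_two, sg_sq_CS1]
  linear_combination (r 0 * ∏ b : Fin (2 * g), r b.succ) * h

private lemma chg_inj_CS1 {K : Type} [Field K] (h2 : (2 : K) ≠ 0) {g : ℕ}
    (r : Fin (2 * g + 1) → K) (hr : ∀ b, r b ≠ 0) : Function.Injective (chg_CS1 r) := by
  intro e e' h
  funext b
  have := congrFun h b.succ
  simp only [chg_CS1, Fin.cons_succ] at this
  exact sg_inj_CS1 h2 (mul_right_cancel₀ (hr _) this)

/-- The square roots with prescribed product. -/
private lemma cnt_CS1 {K : Type} [Field K] (h2 : (2 : K) ≠ 0) {g : ℕ}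
    (r₀ : Fin (2 * g + 1) → K) (hr : ∀ b, r₀ b ≠ 0) :
    {r : Fin (2 * g + 1) → K | (∀ b, r b ^ 2 = r₀ b ^ 2) ∧ ∏ b, r b = ∏ b, r₀ b}.Finite ∧
      {r : Fin (2 * g + 1) → K | (∀ b, r b ^ 2 = r₀ b ^ 2) ∧
        ∏ b, r b = ∏ b, r₀ b}.ncard = 2 ^ (2 * g) := by
  classical
  have e : {r : Fin (2 * g + 1) → K | (∀ b, r b ^ 2 = r₀ b ^ 2) ∧ ∏ b, r b = ∏ b, r₀ b} =
      chg_CS1 r₀ '' Set.univ := by
    ext r
    simp only [Set.mem_ofPred_eq, Set.image_univ, Set.mem_range]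
    constructor
    · rintro ⟨h1, h3⟩
      have hs : ∀ b : Fin (2 * g), sg_CS1 (decide (r b.succ = r₀ b.succ)) * r₀ b.succ = r b.succ := by
        intro b
        rcases sq_eq_sq_iff_eq_or_eq_neg.1 (h1 b.succ) with h | h
        · simp [sg_CS1, h]
        · have hne : r b.succ ≠ r₀ b.succ := by
            rw [h]
            intro h'
            apply h2
            have : (2 : K) * r₀ b.succ = 0 := by linear_combination -h'
            exact (mul_eq_zero.1 this).resolve_right (hr _)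
          rw [decide_eq_false hne, h]
          simp [sg_CS1]
      refine ⟨fun b => decide (r b.succ = r₀ b.succ), ?_⟩
      funext b
      refine Fin.cases ?_ (fun b => ?_) b
      · rw [chg_CS1, Fin.cons_zero]
        rw [Fin.prod_univ_succ, Fin.prod_univ_succ] at h3
        have h4 : ∏ b : Fin (2 * g), r b.succ =
            (∏ b : Fin (2 * g), sg_CS1 (decide (r b.succ = r₀ b.succ))) *
              ∏ b : Fin (2 * g), r₀ b.succ := by
          rw [← Finset.prod_mul_distrib]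
          exact Finset.prod_congr rfl fun b _ => (hs b).symm
        have h5 : (∏ b : Fin (2 * g), sg_CS1 (K := K) (decide (r b.succ = r₀ b.succ))) *
            ∏ b : Fin (2 * g), sg_CS1 (decide (r b.succ = r₀ b.succ)) = 1 := by
          rw [← Finset.prod_mul_distrib]
          refine Finset.prod_eq_one fun b _ => ?_
          rw [← pow_two, sg_sq_CS1]
        have h6 : ∏ b : Fin (2 * g), r₀ b.succ ≠ 0 := Finset.prod_ne_zero_iff.2 fun b _ => hr _
        rw [h4] at h3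
        apply mul_right_cancel₀ h6
        linear_combination (-(∏ b : Fin (2 * g), sg_CS1 (decide (r b.succ = r₀ b.succ)))) * h3 +
          (r 0 * ∏ b : Fin (2 * g), r₀ b.succ) * h5
      · rw [chg_CS1, Fin.cons_succ]
        exact hs b
    · rintro ⟨e, rfl⟩
      exact ⟨chg_sq_CS1 r₀ e, chg_prod_CS1 r₀ e⟩
  rw [e]
  refine ⟨Set.toFinite _, ?_⟩
  rw [Set.ncard_image_of_injective _ (chg_inj_CS1 h2 r₀ hr), Set.ncard_univ,
    Nat.card_eq_fintype_card]
  simp


private lemma z2_CS1 (v : ZMod 2) : v = 0 ∨ v = 1 := by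
  revert v; decide

private lemma v1_CS1 : (1 : ZMod 2).val = 1 := by decide

private lemma aa_CS1 : (1 + 1 : ZMod 2) = 0 := by decide

private lemma sa_CS1 {k : Type} [Field k] (x y : ZMod 2) :
    ((-1 : k)) ^ (x + y).val = (-1) ^ x.val * (-1) ^ y.val := by
  rcases z2_CS1 x with rfl | rfl <;> rcases z2_CS1 y with rfl | rfl <;>
    simp [v1_CS1, aa_CS1]

private lemma ss_CS1 {k : Type} [Field k] {J : Type} (S : Finset J) (x : J → ZMod 2) :
    ∏ b ∈ S, ((-1 : k)) ^ (x b).val = (-1) ^ (∑ b ∈ S, x b).val := by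
  classical
  induction S using Finset.induction_on with
  | empty => simp
  | insert j S hj ih => rw [prod_insert hj, sum_insert hj, sa_CS1, ih]

private lemma s1_CS1 {k : Type} [Field k] (h2 : (2 : k) ≠ 0) (x : ZMod 2)
    (h : ((-1 : k)) ^ x.val = 1) : x = 0 := by
  rcases z2_CS1 x with rfl | rfl
  · rfl
  · rw [v1_CS1, pow_one] at h
    exact absurd (by linear_combination -h : (2 : k) = 0) h2

private lemma two_ne_CS1 {F : Type} [Field F] (h : (2 : F) ≠ 0) : (2 : kk F) ≠ 0 := by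
  intro h2
  apply h
  apply (algebraMap F (kk F)).injective
  rw [map_ofNat, map_zero]
  exact h2

private lemma fr_CS1 {F : Type} [Field F] [Fintype F] (e : ℕ) :
    ∃ ψ : kk F →ₐ[F] kk F, ∀ x, ψ x = x ^ Fintype.card F ^ e := by
  induction e with
  | zero => exact ⟨AlgHom.id F _, fun x => by simp⟩
  | succ e ih =>
    obtain ⟨ψ, hψ⟩ := ih
    refine ⟨(FiniteField.frobeniusAlgHom F (kk F)).comp ψ, fun x => ?_⟩
    simp [hψ, pow_succ, pow_mul]

private lemma et_CS1 {F : Type} [Field F] (ψ : kk F →ₐ[F] kk F) (t : kk F) (p : F[X]) :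
    ψ (et t p) = et (ψ t) p := by
  have : ((ψ : kk F →+* kk F).comp (et t)) = et (ψ t) := by
    apply Polynomial.ringHom_ext
    · intro a; simp [et]
    · simp [et]
  exact congrArg (fun h : F[X] →+* kk F => h p) this

private lemma av_CS1 {F : Type} [Field F] (ψ : kk F →ₐ[F] kk F) (t : kk F) (a : F[X][X]) (x : kk F) :
    ψ (av t a x) = av (ψ t) a (ψ x) := by
  unfold av
  have h := Polynomial.hom_eval₂ a (et t) (ψ : kk F →+* kk F) x
  have h2 : ((ψ : kk F →+* kk F).comp (et t)) = et (ψ t) := RingHom.ext fun p => et_CS1 ψ t p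
  rw [h2] at h
  exact h

/-- The signs of the Frobenius. -/
private lemma eps_CS1 {F : Type} [Field F] [Fintype F] (h2 : (2 : F) ≠ 0) {ι : Type} [Fintype ι]
    {g : ι → ℕ} (f : ι → F[X][X]) (i : ι) (a : F[X][X]) (s : F[X]) (k : ℕ) (t : kk F)
    (τ : ∀ i, Fin (2 * g i + 1) → kk F) (σ : ∀ i, Equiv.Perm (Fin (2 * g i + 1)))
    (hX : (t, τ) ∈ X0 f σ (Fintype.card F ^ k)) (r : Fin (2 * g i + 1) → kk F)
    (hr0 : ∀ b, r b ≠ 0) (hr2 : ∀ b, r b ^ 2 = av t a (τ i b)) (hrp : ∏ b, r b = et t s) :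
    ∃ ε : Fin (2 * g i + 1) → ZMod 2, ∑ b, ε b = 0 ∧
      (t, τ, r) ∈ X1 f i a s σ ε (Fintype.card F ^ k) := by
  obtain ⟨ψ, hψ⟩ := fr_CS1 (F := F) k
  obtain ⟨ht, hf, hinj, hτ⟩ := hX
  simp only at ht hf hinj hτ
  have hψt : ψ t = t := by rw [hψ, ht]
  have h1 : ∀ b, ∃ z : ZMod 2, r b ^ Fintype.card F ^ k = (-1) ^ z.val * r (σ i b) := by
    intro b
    have e1 : (ψ (r b)) ^ 2 = r (σ i b) ^ 2 := by
      rw [← map_pow, hr2, av_CS1, hψt, hψ, hτ, hr2]
    rw [hψ] at e1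
    rcases sq_eq_sq_iff_eq_or_eq_neg.1 e1 with h | h
    · exact ⟨0, by simpa using h⟩
    · exact ⟨1, by simpa [v1_CS1] using h⟩
  choose ε hε using h1
  refine ⟨ε, ?_, ⟨ht, hf, hinj, hτ⟩, hr0, hr2, hrp, hε⟩
  have e2 : ∏ b, r b ^ Fintype.card F ^ k = et t s := by
    rw [Finset.prod_pow, hrp, ← hψ, et_CS1, hψt]
  have e3 : ∏ b, r b ^ Fintype.card F ^ k = (-1) ^ (∑ b, ε b).val * et t s := by
    rw [Finset.prod_congr rfl fun b _ => hε b, Finset.prod_mul_distrib, ss_CS1,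
      Equiv.prod_comp (σ i) r, hrp]
  have hs0 : et t s ≠ 0 := by
    rw [← hrp]
    exact Finset.prod_ne_zero_iff.2 fun b _ => hr0 b
  apply s1_CS1 (two_ne_CS1 h2)
  apply mul_right_cancel₀ hs0
  rw [← e3, e2, one_mul]

private lemma unq_CS1 {K : Type} [Field K] (h2 : (2 : K) ≠ 0) (x y : ZMod 2) (r : K) (hr : r ≠ 0)
    (h : (-1) ^ x.val * r = (-1) ^ y.val * r) : x = y := by
  have h1 := mul_right_cancel₀ hr h
  have h3 : ((-1 : K)) ^ (x + y).val = 1 := by
    rw [sa_CS1, h1, ← mul_pow]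
    simp
  have h4 := s1_CS1 h2 _ h3
  rcases z2_CS1 x with rfl | rfl <;> rcases z2_CS1 y with rfl | rfl
  · rfl
  · exact absurd h4 (by decide)
  · exact absurd h4 (by decide)
  · rfl

/-- Square roots with prescribed product. -/
private lemma root_CS1 {F : Type} [Field F] {g : ℕ} (α : Fin (2 * g + 1) → kk F) (s : kk F)
    (hα : ∏ b, α b = s ^ 2) :
    ∃ r : Fin (2 * g + 1) → kk F, (∀ b, r b ^ 2 = α b) ∧ ∏ b, r b = s := by
  have h0 : ∀ b, ∃ z : kk F, z ^ 2 = α b := fun b => IsAlgClosed.exists_pow_nat_eq _ (by norm_num)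
  choose r hr using h0
  have h1 : (∏ b, r b) ^ 2 = s ^ 2 := by
    rw [← Finset.prod_pow, ← hα]
    exact Finset.prod_congr rfl fun b _ => hr b
  rcases sq_eq_sq_iff_eq_or_eq_neg.1 h1 with h | h
  · exact ⟨r, hr, h⟩
  · refine ⟨fun b => - r b, fun b => by rw [neg_sq, hr], ?_⟩
    have : ∏ b, (- r b) = (-1) ^ (2 * g + 1) * ∏ b, r b := by
      rw [Finset.prod_neg]
      simp
    rw [this, h, pow_add, pow_mul]
    simp

private lemma map_eval_CS1 {F : Type} [Field F] (P : Prm F) (t : kk F) (j : kp P →+* kk F)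
    (hj : ∀ p : F[X], j (red P p) = et t p) (a : F[X][X]) :
    (a.map (red P)).map j = a.map (et t) := by
  have e : j.comp (red P) = et t := RingHom.ext hj
  rw [Polynomial.map_map, e]

/-- The values of `a` at the roots do not vanish. -/
private lemma av_ne_CS1 {F : Type} [Field F] [Fintype F] (h2 : (2 : F) ≠ 0) {g : ℕ} (hg : 1 ≤ g)
    {f : F[X][X]} (hf : f.Monic) (hd : f.natDegree = 2 * g + 1) (a : F[X][X])
    {P : Prm F} (hgd : Gd f P)
    (hne : ∀ ψ ∈ facs f P, AdjoinRoot.mk ψ (a.map (red P)) ≠ 0) {t : kk F}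
    (ht : et t P.1 = 0) (x : kk F) (hx : (f.map (et t)).eval x = 0) : av t a x ≠ 0 := by
  obtain ⟨hfin, hcard, j, hj⟩ := Pool.Agent.Helper54.GT.aEB F P t ht
  obtain ⟨hfac, hpr, -⟩ := Pool.Agent.Helper3.GT.hFAC F h2 g hg f hf hd P hgd
  intro h0
  have e1 : (∏ ψ ∈ facs f P, ψ).eval₂ j x = 0 := by
    rw [hpr, ← Polynomial.eval_map, map_eval_CS1 P t j hj, hx]
  rw [Polynomial.eval₂_finsetProd, Finset.prod_eq_zero_iff] at e1
  obtain ⟨ψ, hψ, hψ0⟩ := e1
  have hirr := ((hfac ψ).1 hψ).2.1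
  have hnd : ¬ ψ ∣ a.map (red P) := by
    intro hd
    exact hne ψ hψ (AdjoinRoot.mk_eq_zero.2 hd)
  obtain ⟨p, q, hpq⟩ := (hirr.coprime_iff_not_dvd).2 hnd
  have e2 : (a.map (red P)).eval₂ j x = 0 := by
    rw [← Polynomial.eval_map, map_eval_CS1 P t j hj, Polynomial.eval_map]
    exact h0
  have e3 := congrArg (fun p => p.eval₂ j x) hpq
  simp only [Polynomial.eval₂_add, Polynomial.eval₂_mul, hψ0, e2, Polynomial.eval₂_one,
    mul_zero, add_zero] at e3
  exact zero_ne_one e3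

/-- The sum of a sign over the vectors with sum zero. -/
private lemma sum_CS1 {n : ℕ} (hn : 2 ≤ n) (b₀ : Fin n) :
    ∑ ε : {ε : Fin n → ZMod 2 // ∑ b, ε b = 0}, ((-1 : ℝ)) ^ (ε.1 b₀).val = 0 := by
  classical
  obtain ⟨b₁, hb⟩ : ∃ b₁ : Fin n, b₁ ≠ b₀ := by
    have : Nontrivial (Fin n) := Fin.nontrivial_iff_two_le.2 hn
    exact exists_ne b₀
  have hu : ∑ b, ((Pi.single b₀ 1 + Pi.single b₁ 1 : Fin n → ZMod 2) b) = 0 := by
    simp only [Pi.add_apply, sum_add_distrib, Finset.sum_pi_single', mem_univ, if_true]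
    exact aa_CS1
  have huu : (Pi.single b₀ 1 + Pi.single b₁ 1 : Fin n → ZMod 2) +
      (Pi.single b₀ 1 + Pi.single b₁ 1) = 0 := by
    funext b
    have : ∀ x : ZMod 2, x + x = 0 := by decide
    exact this _
  let T : {ε : Fin n → ZMod 2 // ∑ b, ε b = 0} → {ε : Fin n → ZMod 2 // ∑ b, ε b = 0} :=
    fun ε => ⟨ε.1 + (Pi.single b₀ 1 + Pi.single b₁ 1), by
      have h1 := ε.2
      have h2 : ∑ b, (ε.1 + (Pi.single b₀ 1 + Pi.single b₁ 1 : Fin n → ZMod 2)) b = ∑ b, ε.1 b +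
          ∑ b, ((Pi.single b₀ 1 + Pi.single b₁ 1 : Fin n → ZMod 2) b) := by
        rw [← sum_add_distrib]
        rfl
      rw [h2, h1, hu, add_zero]⟩
  have hT : Function.Involutive T := by
    intro ε
    apply Subtype.ext
    show ε.1 + (Pi.single b₀ 1 + Pi.single b₁ 1) + (Pi.single b₀ 1 + Pi.single b₁ 1) = ε.1
    rw [add_assoc, huu, add_zero]
  have h1 := Equiv.sum_comp hT.toPerm (fun ε => ((-1 : ℝ)) ^ (ε.1 b₀).val)
  have h2 : ∀ ε, ((-1 : ℝ)) ^ (((hT.toPerm : Equiv.Perm _) ε).1 b₀).val =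
      - ((-1 : ℝ)) ^ (ε.1 b₀).val := by
    intro ε
    have : ((hT.toPerm : Equiv.Perm _) ε).1 b₀ = ε.1 b₀ + 1 := by
      show (ε.1 + (Pi.single b₀ 1 + Pi.single b₁ 1 : Fin n → ZMod 2)) b₀ = _
      simp [hb.symm]
    rw [this, sa_CS1, v1_CS1]
    ring
  rw [Finset.sum_congr rfl fun ε _ => h2 ε, Finset.sum_neg_distrib] at h1
  linarith

open Classical in
/-- The weight. -/
private noncomputable def ph_CS1 {ι : Type} {g : ι → ℕ} (i : ι)
    (σ : ∀ i, Equiv.Perm (Fin (2 * g i + 1)))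
    (ε : {ε : Fin (2 * g i + 1) → ZMod 2 // ∑ b, ε b = 0}) : ℝ :=
  if h : (∃ b₀, CycT (σ i) b₀) ∧ ∀ j, j ≠ i → CycI (σ j) then
    (-1) ^ (ε.1 h.1.choose).val else 0

private lemma ph_le_CS1 {ι : Type} {g : ι → ℕ} (i : ι)
    (σ : ∀ i, Equiv.Perm (Fin (2 * g i + 1)))
    (ε : {ε : Fin (2 * g i + 1) → ZMod 2 // ∑ b, ε b = 0}) : |ph_CS1 i σ ε| ≤ 1 := by
  unfold ph_CS1
  split_ifs with h
  · rw [abs_pow]
    simp
  · simp

private lemma ph_sum_CS1 {ι : Type} {g : ι → ℕ} (i : ι) (hg : 1 ≤ g i)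
    (σ : ∀ i, Equiv.Perm (Fin (2 * g i + 1))) :
    ∑ ε, ph_CS1 i σ ε = 0 := by
  by_cases h : (∃ b₀, CycT (σ i) b₀) ∧ ∀ j, j ≠ i → CycI (σ j)
  · rw [← sum_CS1 (n := 2 * g i + 1) (by omega) h.1.choose]
    refine Finset.sum_congr rfl fun ε _ => ?_
    unfold ph_CS1
    rw [dif_pos h]
  · refine Finset.sum_eq_zero fun ε _ => ?_
    unfold ph_CS1
    rw [dif_neg h]

/-- (CS1) -/
theorem gCS1 (h1 : StTRF) (h2 : StTYP) (h3 : StSQ2) : StCS1 := by
  classical
  intro F _ _ h20 ι _ g f hf i _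
  have hyp : Hyp0 g f := ⟨hf.one_le, hf.monic, hf.deg, hf.geo⟩
  obtain ⟨C₀, hC0, hC⟩ := Pool.Agent.Helper54.GT.dCN1 F h20 ι g f hyp i
  refine ⟨2 * C₀ + 2, by positivity, ?_⟩
  intro c a hRp hn1 hn2 k hk
  obtain ⟨s, hs⟩ := Pool.Agent.Helper54.GT.aUN F (f i) a (hf.monic i) hn1
  have h2k : (2 : kk F) ≠ 0 := two_ne_CS1 h20
  have hC' := hC c a s hRp hs hn1 hn2
  obtain ⟨q, hq⟩ : ∃ q : ℝ, q = (Fintype.card F : ℝ) := ⟨_, rfl⟩
  have hq0 : 0 ≤ q := by rw [hq]; positivity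
  have hsq : Real.sqrt (q ^ k) = Real.sqrt q ^ k := by
    rw [Real.sqrt_eq_iff_mul_self_eq (by positivity) (by positivity), ← mul_pow,
      Real.mul_self_sqrt (by positivity)]
  have key := h1 F h20 ι g f hf.monic hf.deg k hk (Fin (2 * g i + 1) → kk F)
    {ε : Fin (2 * g i + 1) → ZMod 2 // ∑ b, ε b = 0}
    (fun σ ε => X1 f i a s σ ε.1 (Fintype.card F ^ k)) (ph_CS1 i) (chA (f i) a)
    (GTa g f i a 1 k) (2 ^ (2 * g i)) (C₀ * (c + 1) * Real.sqrt q ^ k) (by positivity)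
    (ph_le_CS1 i) ?_ ?_ ?_ ?_ ?_ ?_
  · have hs0 : ∑ σ, ∑ ε, ph_CS1 i σ ε = 0 :=
      Finset.sum_eq_zero fun σ _ => ph_sum_CS1 i (hf.one_le i) σ
    rw [hs0, zero_mul, sub_zero, ← hq] at key
    have hE : (Fintype.card {ε : Fin (2 * g i + 1) → ZMod 2 // ∑ b, ε b = 0} : ℝ) ≤
        2 * 2 ^ (2 * g i) := by
      have e1 := Fintype.card_subtype_le (fun ε : Fin (2 * g i + 1) → ZMod 2 => ∑ b, ε b = 0)
      have e2 : Fintype.card (Fin (2 * g i + 1) → ZMod 2) = 2 * 2 ^ (2 * g i) := by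
        rw [Fintype.card_fun, ZMod.card, Fintype.card_fin, pow_succ, mul_comm]
      rw [e2] at e1
      exact_mod_cast e1
    obtain ⟨N, hN, hN0⟩ : ∃ N : ℝ, N = ((∏ i, (2 * g i + 1).factorial : ℕ) : ℝ) ∧ 0 < N := by
      refine ⟨_, rfl, ?_⟩
      exact_mod_cast Finset.prod_pos fun i _ => Nat.factorial_pos _
    rw [← hN] at key
    push_cast at key
    obtain ⟨R, hR, hR0⟩ : ∃ R : ℝ, R = 2 ^ (2 * g i) ∧ 0 < R := ⟨_, rfl, by positivity⟩
    rw [← hR] at key hE
    rw [← hq]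
    obtain ⟨S, hS, hS0⟩ : ∃ S : ℝ, S = Real.sqrt q ^ k ∧ 0 ≤ S := ⟨_, rfl, by positivity⟩
    rw [← hS] at key ⊢
    have e3 : N * R * k * ∑ P ∈ GTa g f i a 1 k, chA (f i) a P =
        (N * R) * (k * ∑ P ∈ GTa g f i a 1 k, chA (f i) a P) := by ring
    rw [e3, abs_mul, abs_of_pos (mul_pos hN0 hR0)] at key
    have hc0 : (0 : ℝ) ≤ c := by positivity
    have hE0 : 0 ≤ C₀ * (c + 1) * S := by positivity
    have e4 : N * ((Fintype.card {ε : Fin (2 * g i + 1) → ZMod 2 // ∑ b, ε b = 0} : ℝ) *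
        (C₀ * (c + 1) * S) + 2 * R * S) ≤ (N * R) * (2 * (C₀ * (c + 1) * S) + 2 * S) := by
      have := mul_le_mul_of_nonneg_right hE hE0
      nlinarith [mul_le_mul_of_nonneg_left this hN0.le]
    have e5 := le_of_mul_le_mul_left (key.trans e4) (mul_pos hN0 hR0)
    refine e5.trans ?_
    nlinarith [mul_nonneg hc0 hS0]
  · -- counting
    intro σ ε
    obtain ⟨e1, e2⟩ := hC' σ ε.1 ε.2 k hk
    rw [← hq, hsq] at e2
    refine ⟨e1, ?_⟩
    rw [← hq]
    exact e2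
  · intro σ ε y hy
    exact hy.1
  · intro σ ε ε' y hy hy'
    apply Subtype.ext
    funext b
    apply unq_CS1 h2k _ _ (y.2.2 (σ i b)) (hy.2.1 _)
    rw [← hy.2.2.2.2 b, ← hy'.2.2.2.2 b]
  · -- at most `R`
    intro t τ
    rcases Set.eq_empty_or_nonempty {r : Fin (2 * g i + 1) → kk F |
      ∃ (σ : ∀ i, Equiv.Perm (Fin (2 * g i + 1)))
        (ε : {ε : Fin (2 * g i + 1) → ZMod 2 // ∑ b, ε b = 0}),
          (t, τ, r) ∈ X1 f i a s σ ε.1 (Fintype.card F ^ k)} with h | ⟨r₀, σ₀, ε₀, h⟩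
    · rw [h]
      exact ⟨Set.finite_empty, by simp⟩
    · obtain ⟨f1, f2⟩ := cnt_CS1 h2k r₀ h.2.1
      have hsub : {r : Fin (2 * g i + 1) → kk F |
          ∃ (σ : ∀ i, Equiv.Perm (Fin (2 * g i + 1)))
            (ε : {ε : Fin (2 * g i + 1) → ZMod 2 // ∑ b, ε b = 0}),
              (t, τ, r) ∈ X1 f i a s σ ε.1 (Fintype.card F ^ k)} ⊆
          {r : Fin (2 * g i + 1) → kk F | (∀ b, r b ^ 2 = r₀ b ^ 2) ∧ ∏ b, r b = ∏ b, r₀ b} := by
        rintro r ⟨σ, ε, hr⟩
        refine ⟨fun b => ?_, ?_⟩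
        · exact (hr.2.2.1 b).trans (h.2.2.1 b).symm
        · exact hr.2.2.2.1.trans h.2.2.2.1.symm
      exact ⟨f1.subset hsub, (Set.ncard_le_ncard hsub f1).trans f2.le⟩
  · -- the primes of `Q`
    intro P hP
    unfold GTa GTs at hP
    simp only [mem_filter] at hP
    obtain ⟨⟨hPk, hgd, htT, htI⟩, hPd, hne⟩ := hP
    refine ⟨hPk, hgd, ?_⟩
    intro t ht τ hτ hinj
    obtain ⟨-, σ₀, hσ₀⟩ := (Pool.Agent.Helper54.GT.dTP F h20 ι g f hf.monic hf.deg k P hk hPk t ht).2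
      τ hτ hinj
    have hα : ∏ b, av t a (τ i b) = et t s ^ 2 := hs (kk F) (et t) _ (τ i) (hτ i)
    obtain ⟨r₀, hr1, hr2⟩ := root_CS1 (fun b => av t a (τ i b)) (et t s) hα
    have hr0 : ∀ b, r₀ b ≠ 0 := by
      intro b hb
      have hx : ((f i).map (et t)).eval (τ i b) = 0 := by
        rw [hτ, Polynomial.eval_prod, Finset.prod_eq_zero (Finset.mem_univ b)]
        simp
      apply av_ne_CS1 h20 (hf.one_le i) (hf.monic i) (hf.deg i) a (hgd i) hne ht (τ i b) hx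
      rw [← hr1 b, hb]
      ring
    refine ⟨?_, ?_⟩
    · rw [← (cnt_CS1 h2k r₀ hr0).2]
      congr 1
      ext r
      simp only [Set.mem_ofPred_eq]
      constructor
      · rintro ⟨σ, ε, hr⟩
        refine ⟨fun b => ?_, ?_⟩
        · exact (hr.2.2.1 b).trans (hr1 b).symm
        · exact hr.2.2.2.1.trans hr2.symm
      · rintro ⟨g1, g2⟩
        obtain ⟨ε, he, hX⟩ := eps_CS1 h20 f i a s k t τ σ₀ hσ₀ r
          (fun b hb => hr0 b (by
            have := g1 b
            rw [hb] at this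
            exact pow_eq_zero_iff (two_ne_zero) |>.1 (by rw [← this]; ring)))
          (fun b => (g1 b).trans (hr1 b)) (g2.trans hr2)
        exact ⟨σ₀, ⟨ε, he⟩, hX⟩
    · intro r σ ε hr
      have hX0 := hr.1
      simp only at hX0
      have hT := h2 F h20 ι g f hf.one_le hf.monic hf.deg k hk P hPk t ht τ σ hX0
      have hcond : (∃ b₀, CycT (σ i) b₀) ∧ ∀ j, j ≠ i → CycI (σ j) :=
        ⟨((hT i).2).1 htT, fun j hj => ((hT j).1).1 (htI j hj)⟩
      unfold ph_CS1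
      rw [dif_pos hcond]
      obtain ⟨hfin, hcard, j, hj⟩ := Pool.Agent.Helper54.GT.aEB F P t ht
      let _ : Fintype (kp P) := Fintype.ofFinite _
      have hPd' : P.1.natDegree = k := Pool.Agent.Helper54.PT.mem_prm.1 hPk
      have hQ : Fintype.card (kp P) = Fintype.card F ^ k := by
        rw [← Nat.card_eq_fintype_card, hcard, hPd']
      have hmap : ((f i).map (red P)).map j = ∏ b, (X - C (τ i b)) := by
        rw [map_eval_CS1 P t j hj, hτ]
      have hfr : ∀ b, τ i b ^ Fintype.card (kp P) = τ i (σ i b) := by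
        intro b
        rw [hQ]
        exact hX0.2.2.2 i b
      have hev : ∀ x : kk F, ((a.map (red P)).map j).eval x = av t a x := by
        intro x
        rw [map_eval_CS1 P t j hj, Polynomial.eval_map]
        rfl
      have hsq2 := h3 (kp P) (kk F) j h2k (2 * g i + 1) ((f i).map (red P)) (τ i) (σ i)
        ((hf.monic i).map _) hmap (hinj i) hfr (a.map (red P)) r ε.1 hcond.1.choose
        hcond.1.choose_spec (fun b => ⟨hr.2.1 b, by rw [hev]; exact hr.2.2.1 b, by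
          rw [hQ]; exact hr.2.2.2.2 b⟩) ε.2
      have hfac := (Pool.Agent.Helper3.GT.hFAC F h20 (g i) (hf.one_le i) (f i) (hf.monic i)
        (hf.deg i) P (hgd i)).1
      have hiff : (∀ ψ ∈ facs (f i) P, IsSquare (AdjoinRoot.mk ψ (a.map (red P)))) ↔
          ε.1 hcond.1.choose = 0 := by
        rw [← hsq2]
        constructor
        · intro h ψ p1 p2 p3
          exact h ψ ((hfac ψ).2 ⟨p1, p2, p3⟩)
        · intro h ψ hψ
          obtain ⟨p1, p2, p3⟩ := (hfac ψ).1 hψ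
          exact h ψ p1 p2 p3
      unfold chA
      by_cases h0 : ε.1 hcond.1.choose = 0
      · rw [if_pos (hiff.2 h0), h0]
        simp
      · rw [if_neg (fun h => h0 (hiff.1 h))]
        rcases z2_CS1 (ε.1 hcond.1.choose) with h | h
        · exact absurd h h0
        · rw [h, v1_CS1, pow_one]
  · -- the other primes
    intro P hPk hPQ t ht τ r σ ε hr
    have hX0 := hr.1
    simp only at hX0
    unfold ph_CS1
    rw [dif_neg]
    intro hcond
    apply hPQ
    have hgd : GdF f P := ((Pool.Agent.Helper54.GT.dTP F h20 ι g f hf.monic hf.deg k P hk hPk t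
      ht).2 τ hX0.2.1 hX0.2.2.1).1
    have hT := h2 F h20 ι g f hf.one_le hf.monic hf.deg k hk P hPk t ht τ σ hX0
    unfold GTa GTs
    simp only [mem_filter]
    refine ⟨⟨hPk, hgd, ((hT i).2).2 hcond.1, fun j hj => ((hT j).1).2 (hcond.2 j hj)⟩, ?_, ?_⟩
    · intro hd
      exact P.2.2.not_isUnit (isUnit_of_dvd_one hd)
    · intro ψ hψ
      obtain ⟨hfin, hcard, j, hj⟩ := Pool.Agent.Helper54.GT.aEB F P t ht
      let _ : Fintype (kp P) := Fintype.ofFinite _
      have hPd' : P.1.natDegree = k := Pool.Agent.Helper54.PT.mem_prm.1 hPk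
      have hQ : Fintype.card (kp P) = Fintype.card F ^ k := by
        rw [← Nat.card_eq_fintype_card, hcard, hPd']
      have hmap : ((f i).map (red P)).map j = ∏ b, (X - C (τ i b)) := by
        rw [map_eval_CS1 P t j hj]
        exact hX0.2.1 i
      have hfr : ∀ b, τ i b ^ Fintype.card (kp P) = τ i (σ i b) := by
        intro b
        rw [hQ]
        exact hX0.2.2.2 i b
      have hfac := (Pool.Agent.Helper3.GT.hFAC F h20 (g i) (hf.one_le i) (f i) (hf.monic i)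
        (hf.deg i) P (hgd i)).1
      obtain ⟨p1, p2, p3⟩ := (hfac ψ).1 hψ
      refine (Pool.Agent.Helper54.GT.aSQM (kp P) (kk F) j (2 * g i + 1) ((f i).map (red P)) (τ i)
        (σ i) ((hf.monic i).map _) hmap (hX0.2.2.1 i) hfr (a.map (red P))).2 ?_ ψ p1 p2 p3
      intro b
      have hev : ((a.map (red P)).map j).eval (τ i b) = av t a (τ i b) := by
        rw [map_eval_CS1 P t j hj, Polynomial.eval_map]
        rfl
      rw [hev]
      have := hr.2.2.1 b
      simp only at this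
      rw [← this]
      exact pow_ne_zero 2 (hr.2.1 b)

end Pool.Agent.Helper54.GL
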