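import Pool.Agent.Helper54.GL.StQ
import Pool.Agent.Helper54.GT.A_EB
import Pool.Agent.Helper54.GT.A_RT
import Pool.Agent.Helper54.GT.A_SQM
import Pool.Agent.Helper54.GT.A_UN
import Pool.Agent.Helper54.GT.A_DSC
import Pool.Agent.Helper54.GT.B_TP
import Pool.Agent.Helper54.GT.B_A2
import Pool.Agent.Helper3.GT.M_FAC

/-!
# GL, part Q, module CS3: the character sum for `a` and `d` together
-/

set_option autoImplicit false

namespace Pool.Agent.Helper54.GL

open Polynomial Finset Filter Topology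
open Pool.Agent.Helper54.PT (Prm prm mem_prm IsAbsP IsAbsInf)
open Pool.Agent.Helper3.HY (fK RR LL kp red TwAt selmerSet TType)
open Pool.Agent.Helper3.GT (Gd Bd GdF HypF facs TyI TyT Rp ep om SelS MS XS dgS GeoSn EvP)
open Pool.Agent.Helper54.GT (kk Om et ev av em rv Rts Hyp0 X0 X1 X2 UN)

section
variable {F : Type} [Field F]

theorem fr_CS3 [Fintype F] (e : ℕ) :
    ∃ ψ : kk F →ₐ[F] kk F, ∀ x, ψ x = x ^ Fintype.card F ^ e := by
  induction e with
  | zero => exact ⟨AlgHom.id F _, fun x => by simp⟩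
  | succ e ih =>
    obtain ⟨ψ, hψ⟩ := ih
    refine ⟨(FiniteField.frobeniusAlgHom F (kk F)).comp ψ, fun x => ?_⟩
    simp [hψ, pow_succ, pow_mul]

theorem et_CS3 (ψ : kk F →ₐ[F] kk F) (t : kk F) (p : F[X]) :
    ψ (et t p) = et (ψ t) p := by
  have : ((ψ : kk F →+* kk F).comp (et t)) = et (ψ t) := by
    apply Polynomial.ringHom_ext
    · intro a; simp [et]
    · simp [et]
  exact congrArg (fun h : F[X] →+* kk F => h p) this

theorem av_CS3 (ψ : kk F →ₐ[F] kk F) (t : kk F) (a : F[X][X]) (x : kk F) :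
    ψ (av t a x) = av (ψ t) a (ψ x) := by
  unfold av
  have h := Polynomial.hom_eval₂ a (et t) (ψ : kk F →+* kk F) x
  have h2 : ((ψ : kk F →+* kk F).comp (et t)) = et (ψ t) := RingHom.ext fun p => et_CS3 ψ t p
  rw [h2] at h
  exact h

theorem avmul_CS3 (t : kk F) (d : F[X]) (a : F[X][X]) (x : kk F) :
    av t (C d * a) x = et t d * av t a x := by
  unfold av
  rw [eval₂_mul, eval₂_C]

theorem add_CS3 {k : Type} [CommRing k] : ∀ x y : ZMod 2,
    ((-1 : k) ^ (x + y).val) = (-1) ^ x.val * (-1) ^ y.val := by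
  intro x y
  rw [ZMod.val_add, ← pow_add, ← neg_one_pow_eq_pow_mod_two]

theorem sq_CS3 {k : Type} [CommRing k] (x : ZMod 2) :
    (-1 : k) ^ x.val * (-1) ^ x.val = 1 := by
  rw [← pow_add, ← two_mul, pow_mul]
  simp

theorem prod_CS3 {k : Type} [Field k] {J : Type} (S : Finset J) (x : J → ZMod 2) :
    ∏ b ∈ S, ((-1 : k)) ^ (x b).val = (-1) ^ (∑ b ∈ S, x b).val := by
  classical
  induction S using Finset.induction_on with
  | empty => simp
  | insert j S hj ih => rw [prod_insert hj, sum_insert hj, add_CS3, ih]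

theorem two_CS3 (h : (2 : F) ≠ 0) : (2 : kk F) ≠ 0 := by
  intro h2
  apply h
  apply (algebraMap F (kk F)).injective
  rw [map_ofNat, map_zero]
  exact h2

theorem one_CS3 {k : Type} [Field k] (h : (2 : k) ≠ 0) (x : ZMod 2) (hx : (-1 : k) ^ x.val = 1) :
    x = 0 := by
  rcases Pool.Agent.Helper54.GT.z2_A2 x with rfl | rfl
  · rfl
  · exfalso
    rw [show (1 : ZMod 2).val = 1 from rfl, pow_one] at hx
    apply h
    have : (1 : k) + 1 = 0 := by nth_rw 1 [← hx]; ring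
    rw [← this]; norm_num

/-- The choices of square roots. -/
theorem sqs_CS3 (h2 : (2 : F) ≠ 0) {n : ℕ} (v : Fin n → kk F) :
    {r : Fin n → kk F | ∀ b, r b ≠ 0 ∧ r b ^ 2 = v b}.Finite ∧
    {r : Fin n → kk F | ∀ b, r b ≠ 0 ∧ r b ^ 2 = v b}.ncard ≤ 2 ^ n ∧
    ((∀ b, v b ≠ 0) → {r : Fin n → kk F | ∀ b, r b ≠ 0 ∧ r b ^ 2 = v b}.ncard = 2 ^ n) := by
  classical
  let S : Fin n → Finset (kk F) := fun b => (Pool.Agent.Helper54.GT.sqr_A2 (v b)).1.toFinset
  have hS : ∀ b x, x ∈ S b ↔ x ^ 2 = v b := fun b x => by simp [S]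
  have hSc : ∀ b, (S b).card = {r : kk F | r ^ 2 = v b}.ncard := fun b => by
    rw [Set.ncard_eq_toFinset_card _ (Pool.Agent.Helper54.GT.sqr_A2 (v b)).1]
  have hsub : {r : Fin n → kk F | ∀ b, r b ≠ 0 ∧ r b ^ 2 = v b} ⊆
      (Fintype.piFinset S : Finset (Fin n → kk F)) := by
    intro r hr
    rw [mem_coe, Fintype.mem_piFinset]
    exact fun b => (hS b _).2 (hr b).2
  refine ⟨(Finset.finite_toSet _).subset hsub, ?_, fun hv => ?_⟩
  · refine (Set.ncard_le_ncard hsub (Finset.finite_toSet _)).trans ?_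
    rw [Set.ncard_coe_finset, Fintype.card_piFinset]
    calc ∏ b, (S b).card ≤ ∏ _b : Fin n, 2 := by
          apply Finset.prod_le_prod' fun b _ => ?_
          rw [hSc]
          exact (Pool.Agent.Helper54.GT.sqr_A2 (v b)).2.1
      _ = 2 ^ n := by simp
  · have : {r : Fin n → kk F | ∀ b, r b ≠ 0 ∧ r b ^ 2 = v b} =
        (Fintype.piFinset S : Finset (Fin n → kk F)) := by
      refine Set.Subset.antisymm hsub ?_
      intro r hr b
      rw [mem_coe, Fintype.mem_piFinset] at hr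
      have h3 := (hS b _).1 (hr b)
      refine ⟨fun h0 => hv b ?_, h3⟩
      rw [← h3, h0]; ring
    rw [this, Set.ncard_coe_finset, Fintype.card_piFinset]
    rw [Finset.prod_congr rfl fun b _ => (hSc b).trans
      ((Pool.Agent.Helper54.GT.sqr_A2 (v b)).2.2 h2 (hv b))]
    simp

/-- The tuples above an ordering of the roots. -/
theorem fib_CS3 [Fintype F] {ι : Type} {g : ι → ℕ} (f : ι → F[X][X]) (i : ι) (A : F[X][X])
    (k : ℕ) (t : kk F) (τ : ∀ i, Fin (2 * g i + 1) → kk F)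
    (hX : ∃ σ, (t, τ) ∈ X0 f σ (Fintype.card F ^ k)) :
    {r | ∃ σ ε, (t, τ, r) ∈ X3 f i A σ ε (Fintype.card F ^ k)} =
      {r | ∀ b, r b ≠ 0 ∧ r b ^ 2 = av t A (τ i b)} := by
  ext r
  constructor
  · rintro ⟨σ, ε, -, h1, h2, -⟩ b
    exact ⟨h1 b, h2 b⟩
  · intro hr
    obtain ⟨σ, hσ⟩ := hX
    obtain ⟨ψ, hψ⟩ := fr_CS3 (F := F) k
    have hz : ∀ b, ∃ z : ZMod 2, r b ^ Fintype.card F ^ k = (-1) ^ z.val * r (σ i b) := by
      intro b
      have ht : ψ t = t := (hψ t).trans hσ.1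
      have hτ : ψ (τ i b) = τ i (σ i b) := (hψ _).trans (hσ.2.2.2 i b)
      have h1 : (ψ (r b)) ^ 2 = r (σ i b) ^ 2 := by
        rw [← map_pow, (hr b).2, av_CS3, ht, hτ, (hr (σ i b)).2]
      rw [← hψ]
      rcases sq_eq_sq_iff_eq_or_eq_neg.1 h1 with h | h
      · exact ⟨0, by simpa using h⟩
      · exact ⟨1, by simpa [ZMod.val_one] using h⟩
    choose ε hε using hz
    exact ⟨σ, ε, hσ, fun b => (hr b).1, fun b => (hr b).2, hε⟩

theorem ite_CS3 (p : Prop) [Decidable p] (x : ZMod 2) (h : p ↔ x = 0) :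
    (if p then (1 : ℝ) else -1) = (-1) ^ x.val := by
  rcases Pool.Agent.Helper54.GT.z2_A2 x with rfl | rfl
  · rw [if_pos (h.2 rfl)]; simp
  · rw [if_neg (fun hp => absurd (h.1 hp) (by decide))]
    simp [ZMod.val_one]

/-- The sign. -/
theorem sgn_CS3 [Fintype F] (h20 : (2 : F) ≠ 0) (hSQ2 : StSQ2) {ι : Type} [Fintype ι] {g : ι → ℕ}
    (f : ι → F[X][X]) (hg : ∀ i, 1 ≤ g i) (hm : ∀ i, (f i).Monic)
    (hdeg : ∀ i, (f i).natDegree = 2 * g i + 1) (i : ι) (a : F[X][X]) (d s : F[X])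
    (hs : UN (f i) a s) (k : ℕ) (hk : 1 ≤ k) (P : Prm F) (hP : P ∈ prm F k) (hgd : GdF f P)
    (t : kk F) (ht : et t P.1 = 0) (τ : ∀ i, Fin (2 * g i + 1) → kk F)
    (r : Fin (2 * g i + 1) → kk F) (σ : ∀ i, Equiv.Perm (Fin (2 * g i + 1)))
    (ε : Fin (2 * g i + 1) → ZMod 2)
    (hy : (t, τ, r) ∈ X3 f i (C d * a) σ ε (Fintype.card F ^ k)) (b₀ : Fin (2 * g i + 1))
    (hb : CycT (σ i) b₀) : chA (f i) a P * chD d P = (-1) ^ (ε b₀).val := by
  classical
  obtain ⟨hX0, hr0, hr2, hrQ⟩ := hy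
  simp only at hX0 hr0 hr2 hrQ
  obtain ⟨ψ, hψ⟩ := fr_CS3 (F := F) k
  have hψt : ψ t = t := (hψ t).trans hX0.1
  have h2k : (2 : kk F) ≠ 0 := two_CS3 h20
  have hdt : et t d ≠ 0 := by
    intro h0
    have h1 := hr2 b₀
    rw [avmul_CS3, h0, zero_mul] at h1
    exact hr0 b₀ (pow_eq_zero_iff (two_ne_zero)|>.1 h1)
  obtain ⟨u, hu2⟩ := IsAlgClosed.exists_pow_nat_eq (et t d) (n := 2) (by norm_num)
  have hu0 : u ≠ 0 := by
    rintro rfl
    exact hdt (by rw [← hu2]; ring)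
  obtain ⟨η, hη⟩ : ∃ η : ZMod 2, ψ u = (-1) ^ η.val * u := by
    have h1 : (ψ u) ^ 2 = u ^ 2 := by
      rw [← map_pow, hu2, et_CS3, hψt]
    rcases sq_eq_sq_iff_eq_or_eq_neg.1 h1 with h | h
    · exact ⟨0, by simpa using h⟩
    · exact ⟨1, by simpa [ZMod.val_one] using h⟩
  -- the character of `d`
  have hD : chD d P = (-1) ^ η.val := by
    unfold chD
    apply ite_CS3
    rw [Pool.Agent.Helper54.GT.sq_A2 Pool.Agent.Helper54.GT.aRT Pool.Agent.Helper54.GT.aEB k hk P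
      hP t ht d u hu2, ← hψ, hη]
    constructor
    · intro h
      apply one_CS3 h2k
      have : ((-1 : kk F) ^ η.val - 1) * u = 0 := by rw [sub_mul, one_mul, h, sub_self]
      exact sub_eq_zero.1 ((mul_eq_zero.1 this).resolve_right hu0)
    · rintro rfl
      simp
  -- the square roots of `a`
  have hr2' : ∀ b, (r b * u⁻¹) ^ 2 = av t a (τ i b) := by
    intro b
    rw [mul_pow, hr2 b, avmul_CS3, inv_pow, hu2]
    field_simp
  have hrψ : ∀ b, ψ (r b * u⁻¹) = (-1) ^ (ε b + η).val * (r (σ i b) * u⁻¹) := by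
    intro b
    rw [map_mul, map_inv₀, hψ (r b), hrQ b, hη, mul_inv, add_CS3]
    have h1 : ((-1 : kk F) ^ η.val)⁻¹ = (-1) ^ η.val := inv_eq_of_mul_eq_one_right (sq_CS3 η)
    rw [h1]
    ring
  have hR0 : ∏ b, (r b * u⁻¹) ≠ 0 :=
    Finset.prod_ne_zero_iff.2 fun b _ => mul_ne_zero (hr0 b) (inv_ne_zero hu0)
  have hRψ : ψ (∏ b, (r b * u⁻¹)) = ∏ b, (r b * u⁻¹) := by
    have h1 : (∏ b, (r b * u⁻¹)) ^ 2 = (et t s) ^ 2 := by
      rw [← Finset.prod_pow, Finset.prod_congr rfl fun b _ => hr2' b]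
      exact hs (kk F) (et t) (2 * g i + 1) (τ i) (hX0.2.1 i)
    rcases sq_eq_sq_iff_eq_or_eq_neg.1 h1 with h | h
    · rw [h, et_CS3, hψt]
    · rw [h, map_neg, et_CS3, hψt]
  have hsum : ∑ b, (ε b + η) = 0 := by
    apply one_CS3 h2k
    have h1 : ψ (∏ b, (r b * u⁻¹)) = (-1) ^ (∑ b, (ε b + η)).val * ∏ b, (r b * u⁻¹) := by
      rw [map_prod, Finset.prod_congr rfl fun b _ => hrψ b, Finset.prod_mul_distrib, prod_CS3,
        Equiv.prod_comp (σ i) (fun b => r b * u⁻¹)]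
    rw [hRψ] at h1
    have : ((-1 : kk F) ^ (∑ b, (ε b + η)).val - 1) * ∏ b, (r b * u⁻¹) = 0 := by
      rw [sub_mul, one_mul, ← h1, sub_self]
    exact sub_eq_zero.1 ((mul_eq_zero.1 this).resolve_right hR0)
  -- the character of `a`
  obtain ⟨hfin, hcard, j, hj⟩ := Pool.Agent.Helper54.GT.aEB F P t ht
  let _ : Fintype (kp P) := Fintype.ofFinite _
  have hQ : Fintype.card (kp P) = Fintype.card F ^ k := by
    rw [← Nat.card_eq_fintype_card, hcard, mem_prm.1 hP]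
  have hjc : j.comp (red P) = et t := RingHom.ext hj
  have hmap : ((f i).map (red P)).map j = ∏ b, (X - C (τ i b)) := by
    rw [Polynomial.map_map, hjc]
    exact hX0.2.1 i
  have hev : ∀ b, ((a.map (red P)).map j).eval (τ i b) = av t a (τ i b) := by
    intro b
    rw [Polynomial.map_map, hjc, eval_map]
    rfl
  have hfac := (Pool.Agent.Helper3.GT.hFAC F h20 (g i) (hg i) (f i) (hm i) (hdeg i) P (hgd i)).1
  have hsq := hSQ2 (kp P) (kk F) j h2k (2 * g i + 1) ((f i).map (red P)) (τ i) (σ i)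
    ((hm i).map _) hmap (hX0.2.2.1 i) (fun b => by rw [hQ]; exact hX0.2.2.2 i b) (a.map (red P))
    (fun b => r b * u⁻¹) (fun b => ε b + η) b₀ hb
    (fun b => ⟨mul_ne_zero (hr0 b) (inv_ne_zero hu0), by rw [hev, hr2'], by
      rw [hQ, ← hψ, hrψ]⟩) hsum
  have hA : chA (f i) a P = (-1) ^ (ε b₀ + η).val := by
    unfold chA
    apply ite_CS3
    rw [← hsq]
    constructor
    · intro h ψ' h1 h2 h3
      exact h ψ' ((hfac ψ').2 ⟨h1, h2, h3⟩)
    · intro h ψ' h1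
      obtain ⟨h2, h3, h4⟩ := (hfac ψ').1 h1
      exact h ψ' h2 h3 h4
  rw [hA, hD, add_CS3, mul_assoc, sq_CS3, mul_one]

/-- The values of `a` at the roots do not vanish. -/
theorem av_ne_CS3 [Fintype F] (h2 : (2 : F) ≠ 0) {g : ℕ} (hg : 1 ≤ g) {f : F[X][X]}
    (hf : f.Monic) (hd : f.natDegree = 2 * g + 1) (a : F[X][X])
    {P : Prm F} (hgd : Gd f P)
    (hne : ∀ ψ ∈ facs f P, AdjoinRoot.mk ψ (a.map (red P)) ≠ 0) {t : kk F}
    (ht : et t P.1 = 0) (x : kk F) (hx : (f.map (et t)).eval x = 0) : av t a x ≠ 0 := by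
  obtain ⟨hfin, hcard, j, hj⟩ := Pool.Agent.Helper54.GT.aEB F P t ht
  have hjc : j.comp (red P) = et t := RingHom.ext hj
  obtain ⟨hfac, hpr, -⟩ := Pool.Agent.Helper3.GT.hFAC F h2 g hg f hf hd P hgd
  intro h0
  have e1 : (∏ ψ ∈ facs f P, ψ).eval₂ j x = 0 := by
    rw [hpr, ← Polynomial.eval_map, Polynomial.map_map, hjc, hx]
  rw [Polynomial.eval₂_finsetProd, Finset.prod_eq_zero_iff] at e1
  obtain ⟨ψ, hψ, hψ0⟩ := e1
  have hirr := ((hfac ψ).1 hψ).2.1
  have hnd : ¬ ψ ∣ a.map (red P) := by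
    intro hd
    exact hne ψ hψ (AdjoinRoot.mk_eq_zero.2 hd)
  obtain ⟨p, q, hpq⟩ := (hirr.coprime_iff_not_dvd).2 hnd
  have e2 : (a.map (red P)).eval₂ j x = 0 := by
    rw [← Polynomial.eval_map, Polynomial.map_map, hjc, Polynomial.eval_map]
    exact h0
  have e3 := congrArg (fun p => p.eval₂ j x) hpq
  simp only [Polynomial.eval₂_add, Polynomial.eval₂_mul, hψ0, e2, Polynomial.eval₂_one,
    mul_zero, add_zero] at e3
  exact zero_ne_one e3

/-- The sum of the characters. -/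
theorem sum_CS3 {n : ℕ} (b₀ : Fin n) : ∑ ε : Fin n → ZMod 2, (-1 : ℝ) ^ (ε b₀).val = 0 := by
  classical
  have h := Equiv.sum_comp (Equiv.addRight (Pi.single b₀ (1 : ZMod 2) : Fin n → ZMod 2))
    (fun ε => (-1 : ℝ) ^ (ε b₀).val)
  have h2 : ∀ ε : Fin n → ZMod 2,
      (-1 : ℝ) ^ ((Equiv.addRight (Pi.single b₀ (1 : ZMod 2) : Fin n → ZMod 2) ε) b₀).val =
        -(-1 : ℝ) ^ (ε b₀).val := by
    intro ε
    rw [Equiv.coe_addRight]
    show (-1 : ℝ) ^ (ε b₀ + (Pi.single b₀ (1 : ZMod 2) : Fin n → ZMod 2) b₀).val = _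
    rw [Pi.single_eq_same, add_CS3, ZMod.val_one, pow_one]
    ring
  rw [Finset.sum_congr rfl fun ε _ => h2 ε, Finset.sum_neg_distrib] at h
  linarith

theorem mem_CS3 [Fintype F] {ι : Type} (g : ι → ℕ) (f : ι → F[X][X]) (i : ι) (a : F[X][X])
    (d : F[X]) (k : ℕ) (P : Prm F) : P ∈ GTa g f i a d k ↔
      (P ∈ prm F k ∧ GdF f P ∧ TyT (g i) (f i) P ∧ ∀ j, j ≠ i → TyI (f j) P) ∧ ¬ P.1 ∣ d ∧
        ∀ ψ ∈ facs (f i) P, AdjoinRoot.mk ψ (a.map (red P)) ≠ 0 := by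
  unfold GTa GTs
  simp only [Finset.mem_filter]

end

open Classical in
/-- The weight. -/
noncomputable def ph_CS3 {ι : Type} {g : ι → ℕ} (i : ι)
    (σ : ∀ i, Equiv.Perm (Fin (2 * g i + 1))) (ε : Fin (2 * g i + 1) → ZMod 2) : ℝ :=
  if h : (∃ b₀, CycT (σ i) b₀) ∧ ∀ j, j ≠ i → CycI (σ j) then (-1) ^ (ε h.1.choose).val else 0

theorem gCS3 (h1 : StTRF) (h2 : StTYP) (h3 : StSQ2) (h4 : StCN3) : StCS3 := by
  classical
  intro F _ _ h20 ι _ g f hf i _
  obtain ⟨C₀, hC0, hC⟩ := h4 F h20 ι g f ⟨hf.one_le, hf.monic, hf.deg, hf.geo⟩ i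
  refine ⟨C₀ + 2, by positivity, ?_⟩
  intro c a d hRp hn1 hn2 hd1 hd2 hd3 hd4 k hk
  obtain ⟨s, hs⟩ := Pool.Agent.Helper54.GT.aUN F (f i) a (hf.monic i) hn1
  have hTP : Pool.Agent.Helper54.GT.StTP :=
    Pool.Agent.Helper54.GT.bTP Pool.Agent.Helper54.GT.aDSC
  set q : ℝ := (Fintype.card F : ℝ) with hq
  have hq0 : 0 ≤ q := by rw [hq]; positivity
  have hsq := Pool.Agent.Helper54.GT.sqrt_pow_A2 q hq0 k
  have hq1 : 1 ≤ Real.sqrt q ^ k := by
    apply one_le_pow₀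
    rw [Real.one_le_sqrt, hq]
    exact_mod_cast Fintype.card_pos
  have key := h1 F h20 ι g f hf.monic hf.deg k hk (Fin (2 * g i + 1) → kk F)
    (Fin (2 * g i + 1) → ZMod 2)
    (fun σ ε => X3 f i (C d * a) σ ε (Fintype.card F ^ k))
    (ph_CS3 i) (fun P => chA (f i) a P * chD d P) (GTa g f i a d k) (2 ^ (2 * g i + 1))
    (C₀ * (c + d.natDegree + 1) * Real.sqrt (q ^ k)) (by positivity) ?_ ?_ ?_ ?_ ?_ ?_ ?_
  · -- conclusion
    have hsum : ∑ σ : (∀ i, Equiv.Perm (Fin (2 * g i + 1))),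
        ∑ ε : Fin (2 * g i + 1) → ZMod 2, ph_CS3 i σ ε = 0 := by
      apply Finset.sum_eq_zero
      intro σ _
      by_cases h : (∃ b₀, CycT (σ i) b₀) ∧ ∀ j, j ≠ i → CycI (σ j)
      · have : ∀ ε, ph_CS3 i σ ε = (-1) ^ (ε h.1.choose).val := fun ε => by
          rw [ph_CS3, dif_pos h]
        rw [Finset.sum_congr rfl fun ε _ => this ε]
        exact sum_CS3 _
      · exact Finset.sum_eq_zero fun ε _ => by rw [ph_CS3, dif_neg h]
    rw [hsum, zero_mul, sub_zero] at key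
    have hcE : (Fintype.card (Fin (2 * g i + 1) → ZMod 2) : ℝ) = 2 ^ (2 * g i + 1) := by
      simp [ZMod.card]
    rw [hcE, hsq] at key
    push_cast at key
    set N : ℝ := ∏ x, ((2 * g x + 1).factorial : ℝ) with hN
    have hN0 : 0 < N := by
      rw [hN]
      exact Finset.prod_pos fun x _ => by exact_mod_cast Nat.factorial_pos _
    set M : ℝ := 2 ^ (2 * g i + 1) with hM
    have hM0 : 0 < M := by positivity
    set S : ℝ := ∑ P ∈ GTa g f i a d k, chA (f i) a P * chD d P with hS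
    have e1 : |N * M * k * S| = N * M * |k * S| := by
      rw [mul_assoc (N * M), abs_mul, abs_of_pos (mul_pos hN0 hM0)]
    rw [e1] at key
    have e2 : |k * S| ≤ C₀ * (c + d.natDegree + 1) * Real.sqrt q ^ k + 2 * Real.sqrt q ^ k := by
      have h5 : N * M * |k * S| ≤
          N * M * (C₀ * (c + d.natDegree + 1) * Real.sqrt q ^ k + 2 * Real.sqrt q ^ k) := by
        refine key.trans (le_of_eq ?_)
        ring
      exact le_of_mul_le_mul_left h5 (mul_pos hN0 hM0)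
    refine e2.trans ?_
    have h6 : (0 : ℝ) ≤ c := by positivity
    have h7 : (0 : ℝ) ≤ d.natDegree := by positivity
    nlinarith [mul_nonneg h6 (zero_le_one.trans hq1), mul_nonneg h7 (zero_le_one.trans hq1)]
  · -- the weight is bounded
    intro σ ε
    unfold ph_CS3
    split_ifs with h
    · rw [abs_pow, abs_neg, abs_one, one_pow]
    · simp
  · intro σ ε
    have := hC c a d hRp hn1 hn2 hd1 hd2 hd3 hd4 σ ε k hk
    exact this
  · intro σ ε y hy
    exact hy.1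
  · intro σ ε ε' y hy hy'
    funext b
    have e1 := hy.2.2.2 b
    rw [hy'.2.2.2 b] at e1
    have e2 := mul_right_cancel₀ (hy.2.1 (σ i b)) e1
    have e3 : (-1 : kk F) ^ (ε b + ε' b).val = 1 := by
      rw [add_CS3, e2]
      exact sq_CS3 _
    have e4 := one_CS3 (two_CS3 h20) _ e3
    have e5 : ∀ x y : ZMod 2, x + y = 0 → x = y := by decide
    exact e5 _ _ e4
  · intro t τ
    have hsub : {r | ∃ σ ε, (t, τ, r) ∈ X3 f i (C d * a) σ ε (Fintype.card F ^ k)} ⊆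
        {r | ∀ b, r b ≠ 0 ∧ r b ^ 2 = av t (C d * a) (τ i b)} := by
      rintro r ⟨σ, ε, -, h1, h2, -⟩ b
      exact ⟨h1 b, h2 b⟩
    obtain ⟨h5, h6, -⟩ := sqs_CS3 h20 (fun b => av t (C d * a) (τ i b))
    exact ⟨h5.subset hsub, (Set.ncard_le_ncard hsub h5).trans h6⟩
  · intro P hP
    obtain ⟨⟨hPk, hgd, hT, hI⟩, hPd, hPa⟩ := (mem_CS3 g f i a d k P).1 hP
    refine ⟨hPk, hgd, ?_⟩
    intro t ht τ hτ hinj
    obtain ⟨-, σ₀, hσ₀⟩ := (hTP F h20 ι g f hf.monic hf.deg k P hk hPk t ht).2 τ hτ hinj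
    have hdt : et t d ≠ 0 := by
      rw [Ne, Pool.Agent.Helper54.GT.et_ne_A2 P t ht]
      exact hPd
    refine ⟨?_, ?_⟩
    · rw [fib_CS3 f i (C d * a) k t τ ⟨σ₀, hσ₀⟩]
      refine (sqs_CS3 h20 (fun b => av t (C d * a) (τ i b))).2.2 ?_
      intro b
      rw [avmul_CS3]
      refine mul_ne_zero hdt ?_
      refine av_ne_CS3 h20 (hf.one_le i) (hf.monic i) (hf.deg i) a (hgd i) hPa ht _ ?_
      rw [hτ i, eval_prod]
      exact Finset.prod_eq_zero (mem_univ b) (by simp)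
    · intro r σ ε hy
      have hTy := h2 F h20 ι g f hf.one_le hf.monic hf.deg k hk P hPk t ht τ σ hy.1
      have hc : (∃ b₀, CycT (σ i) b₀) ∧ ∀ j, j ≠ i → CycI (σ j) :=
        ⟨(hTy i).2.1 hT, fun j hj => (hTy j).1.1 (hI j hj)⟩
      rw [ph_CS3, dif_pos hc]
      exact (sgn_CS3 h20 h3 f hf.one_le hf.monic hf.deg i a d s hs k hk P hPk hgd t ht τ r σ ε hy
        _ hc.1.choose_spec).symm
  · intro P hPk hPQ t ht τ r σ ε hy
    have hTy := h2 F h20 ι g f hf.one_le hf.monic hf.deg k hk P hPk t ht τ σ hy.1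
    rw [ph_CS3, dif_neg]
    intro hc
    apply hPQ
    have hX0 := hy.1
    have hgd : GdF f P :=
      ((hTP F h20 ι g f hf.monic hf.deg k P hk hPk t ht).2 τ hX0.2.1 hX0.2.2.1).1
    have hne : ∀ b, et t d ≠ 0 ∧ av t a (τ i b) ≠ 0 := by
      intro b
      have h5 := hy.2.2.1 b
      simp only at h5
      rw [avmul_CS3] at h5
      have h6 : et t d * av t a (τ i b) ≠ 0 := by
        rw [← h5]
        exact pow_ne_zero 2 (hy.2.1 b)
      exact ⟨left_ne_zero_of_mul h6, right_ne_zero_of_mul h6⟩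
    refine (mem_CS3 g f i a d k P).2 ⟨⟨hPk, hgd, (hTy i).2.2 hc.1, fun j hj =>
      (hTy j).1.2 (hc.2 j hj)⟩, ?_, ?_⟩
    · rw [← Pool.Agent.Helper54.GT.et_ne_A2 P t ht]
      exact (hne 0).1
    · intro ψ hψ
      obtain ⟨hfin, hcard, j, hj⟩ := Pool.Agent.Helper54.GT.aEB F P t ht
      let _ : Fintype (kp P) := Fintype.ofFinite _
      have hQ : Fintype.card (kp P) = Fintype.card F ^ k := by
        rw [← Nat.card_eq_fintype_card, hcard, mem_prm.1 hPk]
      have hjc : j.comp (red P) = et t := RingHom.ext hj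
      have hmap : ((f i).map (red P)).map j = ∏ b, (X - C (τ i b)) := by
        rw [Polynomial.map_map, hjc]
        exact hX0.2.1 i
      have hfac := (Pool.Agent.Helper3.GT.hFAC F h20 (g i) (hf.one_le i) (f i) (hf.monic i)
        (hf.deg i) P (hgd i)).1
      obtain ⟨hψ1, hψ2, hψ3⟩ := (hfac ψ).1 hψ
      refine (Pool.Agent.Helper54.GT.aSQM (kp P) (kk F) j (2 * g i + 1) ((f i).map (red P)) (τ i)
        (σ i) ((hf.monic i).map _) hmap (hX0.2.2.1 i) (fun b => by rw [hQ]; exact hX0.2.2.2 i b)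
        (a.map (red P))).2 ?_ ψ hψ1 hψ2 hψ3
      intro b
      rw [Polynomial.map_map, hjc, eval_map]
      exact (hne b).2

end Pool.Agent.Helper54.GL
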