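import Pool.Agent.Helper54.GL.StQ
import Pool.Agent.Helper3.GT.AsmB
import Pool.Agent.Helper3.GT.M_OE2
import Pool.Agent.Helper3.GT.M_REP
import Pool.Agent.Helper3.GT.M_CTR
import Pool.Agent.Helper3.GT.M_IRR

/-!
# GL: module CST (the character sums in one statement)
-/

set_option autoImplicit false

namespace Pool.Agent.Helper54.GL

open Polynomial Finset Filter Topology
open Pool.Agent.Helper54.PT (Prm prm IsAbsP IsAbsInf mem_prm)
open Pool.Agent.Helper3.HY (fK RR LL kp red TwAt selmerSet TType)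
open Pool.Agent.Helper3.GT (Gd Bd GdF HypF facs TyI TyT Rp ep om SelS MS XS dgS GeoSn EvP)

namespace CST

theorem oe : Pool.Agent.Helper3.GT.StOE :=
  Pool.Agent.Helper3.GT.oe_of (Pool.Agent.Helper3.GT.hOE2
    (Pool.Agent.Helper3.GT.hREP Pool.Agent.Helper3.GT.lsd_all Pool.Agent.Helper3.GT.hCG)
    Pool.Agent.Helper3.GT.hNU Pool.Agent.Helper3.GT.hFAC)

lemma mk_ne {F : Type} [Field F] (f : F[X][X]) (hf : f.Monic)
    (a : F[X][X]) (ha : a ≠ 0) (hdeg : a.natDegree < f.natDegree) :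
    algebraMap (RR f) (LL f) (AdjoinRoot.mk f a) ≠ 0 := by
  intro h
  have h1 : Pool.Agent.Helper3.GT.MOE2.ii f a = Pool.Agent.Helper3.GT.MOE2.ii f 0 := by
    have h2 : Pool.Agent.Helper3.GT.MOE2.ii f a = algebraMap (RR f) (LL f) (AdjoinRoot.mk f a) := rfl
    have h3 : Pool.Agent.Helper3.GT.MOE2.ii f 0 = algebraMap (RR f) (LL f) (AdjoinRoot.mk f 0) := rfl
    rw [h2, h3, h, map_zero, map_zero]
  have h2 := Pool.Agent.Helper3.GT.MOE2.ii_inj hf h1
  rw [sub_zero] at h2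
  exact absurd (natDegree_le_of_dvd h2 ha) (not_le.2 hdeg)

/-- The symbol of a square. -/
lemma chA_sq {F : Type} [Field F] [Fintype F] (h2 : (2 : F) ≠ 0) (g : ℕ) (hg : 1 ≤ g)
    (f : F[X][X]) (hf : f.Monic) (hd : f.natDegree = 2 * g + 1) (hs : (fK f).Separable)
    [Fact (Irreducible (fK f))] (a : F[X][X]) (ha : a ≠ 0) (hdeg : a.natDegree < f.natDegree)
    (hsq : IsSquare (algebraMap (RR f) (LL f) (AdjoinRoot.mk f a))) (P : Prm F) (hP : Gd f P)
    (hne : ∀ ψ ∈ facs f P, AdjoinRoot.mk ψ (a.map (red P)) ≠ 0) : chA f a P = 1 := by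
  classical
  obtain ⟨y, hy⟩ := hsq
  have h0 := mk_ne f hf a ha hdeg
  have hy0 : y ≠ 0 := by
    rintro rfl
    rw [mul_zero] at hy
    exact h0 hy
  obtain ⟨hmul, -, -, hres⟩ := oe F h2 g hg f hf hd hs P hP
  unfold chA
  rw [if_pos]
  intro ψ hψ
  rw [← (hres ψ hψ a (hne ψ hψ)).2, hy, (hmul ψ hψ y y hy0 hy0).2]
  exact CharTwo.add_self_eq_zero _

lemma abs_chD {F : Type} [Field F] (d : F[X]) (P : Prm F) : |chD d P| = 1 := by
  unfold chD
  split_ifs <;> simp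

lemma chD_one {F : Type} [Field F] (P : Prm F) : chD (1 : F[X]) P = 1 := by
  unfold chD
  rw [if_pos]
  rw [map_one]
  exact IsSquare.one

open Classical in
lemma mem_GTs {F : Type} [Field F] [Fintype F] {ι : Type} {g : ι → ℕ} {f : ι → F[X][X]} {i : ι}
    {k : ℕ} {P : Prm F} : P ∈ GTs g f i k ↔
      P ∈ prm F k ∧ GdF f P ∧ TyT (g i) (f i) P ∧ ∀ j, j ≠ i → TyI (f j) P := by
  unfold GTs
  exact Finset.mem_filter

open Classical in
lemma mem_GTa {F : Type} [Field F] [Fintype F] {ι : Type} {g : ι → ℕ} {f : ι → F[X][X]} {i : ι}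
    {a : F[X][X]} {d : F[X]} {k : ℕ} {P : Prm F} : P ∈ GTa g f i a d k ↔
      P ∈ GTs g f i k ∧ ¬ P.1 ∣ d ∧
        ∀ ψ ∈ facs (f i) P, AdjoinRoot.mk ψ (a.map (red P)) ≠ 0 := by
  unfold GTa
  exact Finset.mem_filter

end CST

open CST in
theorem gCST (h1 : StCS1) (h2 : StCS2) (h3 : StCS3) : StCST := by
  classical
  intro F _ _ hF ι _ _ g f hyp i _
  obtain ⟨C₁, hC₁, H1⟩ := h1 F hF ι g f hyp i
  obtain ⟨C₂, hC₂, H2⟩ := h2 F hF ι g f hyp
  obtain ⟨C₃, hC₃, H3⟩ := h3 F hF ι g f hyp i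
  obtain ⟨B, hB⟩ := Pool.Agent.Helper3.GT.CTR.card_bad (f i)
  obtain ⟨-, hsep, -, -⟩ := Pool.Agent.Helper3.GT.hIRR F hF ι g f hyp i
  refine ⟨C₁ + C₂ + C₃ + B, by positivity, ?_⟩
  intro c a d hRp ha0 hnorm hdm hds hdS hsqd k hk
  have hq1 : (1 : ℝ) ≤ Real.sqrt (Fintype.card F) ^ k := by
    apply one_le_pow₀
    rw [Real.one_le_sqrt]
    exact_mod_cast Fintype.card_pos
  set X : ℝ := Real.sqrt (Fintype.card F) ^ k with hX
  have hc0 : (0 : ℝ) ≤ c := Nat.cast_nonneg _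
  have hd0 : (0 : ℝ) ≤ (d.natDegree : ℝ) := Nat.cast_nonneg _
  have hB0 : (0 : ℝ) ≤ B := Nat.cast_nonneg _
  by_cases hsq : IsSquare (algebraMap (RR (f i)) (LL (f i)) (AdjoinRoot.mk (f i) a))
  · -- the square case
    have hd1 := hsqd hsq
    have hA := (H2 d hdm hds hd1 hdS k hk).1 i
    -- the primes with a zero residue
    set Q : Finset (Prm F) := ((GTs g f i k).filter fun P => ¬ P.1 ∣ d).filter
      (fun P => ¬ ∀ ψ ∈ facs (f i) P, AdjoinRoot.mk ψ (a.map (red P)) ≠ 0) with hQ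
    have hcard : (k : ℝ) * Q.card ≤ B * (c + 1) := by
      have := hB c a hRp ha0 k Q (by
        intro P hP
        rw [hQ, mem_filter, mem_filter, mem_GTs] at hP
        obtain ⟨⟨⟨hPk, hgd, -, -⟩, -⟩, hψ⟩ := hP
        push Not at hψ
        obtain ⟨ψ, hψ1, hψ2⟩ := hψ
        have hf := (Pool.Agent.Helper3.GT.hFAC F hF (g i) (hyp.one_le i) (f i) (hyp.monic i)
          (hyp.deg i) P (hgd i)).1 ψ
        have := hf.1 hψ1
        exact ⟨mem_prm.1 hPk, ψ, this.2.2, this.2.1.not_isUnit, hψ2⟩)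
      exact_mod_cast this
    have hsum : ∑ P ∈ GTa g f i a d k, chA (f i) a P * chD d P =
        ∑ P ∈ (GTs g f i k).filter (fun P => ¬ P.1 ∣ d), chD d P - ∑ P ∈ Q, chD d P := by
      have e1 : GTa g f i a d k = ((GTs g f i k).filter fun P => ¬ P.1 ∣ d).filter
          (fun P => ∀ ψ ∈ facs (f i) P, AdjoinRoot.mk ψ (a.map (red P)) ≠ 0) := by
        ext P
        rw [mem_GTa, mem_filter, mem_filter, and_assoc]
      have e2 : ∑ P ∈ GTa g f i a d k, chA (f i) a P * chD d P =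
          ∑ P ∈ GTa g f i a d k, chD d P := by
        refine Finset.sum_congr rfl fun P hP => ?_
        rw [mem_GTa, mem_GTs] at hP
        obtain ⟨⟨-, hgd, -, -⟩, -, hne⟩ := hP
        rw [chA_sq hF (g i) (hyp.one_le i) (f i) (hyp.monic i) (hyp.deg i) hsep a ha0 hRp.1 hsq P
          (hgd i) hne, one_mul]
      rw [e2, e1, hQ, ← Finset.sum_filter_add_sum_filter_not
        ((GTs g f i k).filter (fun P => ¬ P.1 ∣ d))
        (fun P => ∀ ψ ∈ facs (f i) P, AdjoinRoot.mk ψ (a.map (red P)) ≠ 0)]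
      ring
    have hQs : |∑ P ∈ Q, chD d P| ≤ Q.card := by
      refine (Finset.abs_sum_le_sum_abs _ _).trans ?_
      rw [Finset.sum_congr rfl fun P _ => abs_chD d P]
      simp
    rw [hsum, mul_sub]
    have hk0 : (0 : ℝ) ≤ k := Nat.cast_nonneg _
    have h4 : |(k : ℝ) * ∑ P ∈ Q, chD d P| ≤ B * (c + 1) := by
      rw [abs_mul, abs_of_nonneg hk0]
      exact (mul_le_mul_of_nonneg_left hQs hk0).trans hcard
    have h5 : B * ((c : ℝ) + 1) ≤ B * (c + d.natDegree + 1) * X := by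
      have e3 : (B : ℝ) * (c + 1) ≤ B * (c + d.natDegree + 1) := by nlinarith
      have e4 : (B : ℝ) * (c + d.natDegree + 1) * 1 ≤ B * (c + d.natDegree + 1) * X :=
        mul_le_mul_of_nonneg_left hq1 (by positivity)
      linarith
    have h6 : C₂ * ((d.natDegree : ℝ) + 1) * X ≤ C₂ * (c + d.natDegree + 1) * X := by
      have e3 : C₂ * ((d.natDegree : ℝ) + 1) ≤ C₂ * (c + d.natDegree + 1) := by nlinarith
      exact mul_le_mul_of_nonneg_right e3 (by positivity)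
    have h7 : 0 ≤ (C₁ + C₃) * ((c : ℝ) + d.natDegree + 1) * X := by positivity
    calc |(k : ℝ) * ∑ P ∈ (GTs g f i k).filter (fun P => ¬ P.1 ∣ d), chD d P -
          k * ∑ P ∈ Q, chD d P| ≤
          |(k : ℝ) * ∑ P ∈ (GTs g f i k).filter (fun P => ¬ P.1 ∣ d), chD d P| +
          |(k : ℝ) * ∑ P ∈ Q, chD d P| := abs_sub _ _
      _ ≤ C₂ * (d.natDegree + 1) * X + B * (c + 1) := add_le_add hA h4
      _ ≤ (C₁ + C₂ + C₃ + B) * (c + d.natDegree + 1) * X := by linarith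
  · by_cases hd1 : d = 1
    · subst hd1
      have hA := H1 c a hRp hnorm hsq k hk
      have e1 : ∑ P ∈ GTa g f i a 1 k, chA (f i) a P * chD 1 P =
          ∑ P ∈ GTa g f i a 1 k, chA (f i) a P :=
        Finset.sum_congr rfl fun P _ => by rw [chD_one, mul_one]
      rw [e1]
      refine hA.trans ?_
      rw [natDegree_one, Nat.cast_zero, add_zero]
      have h7 : 0 ≤ (C₂ + C₃ + B) * ((c : ℝ) + 1) * X := by positivity
      linarith
    · have hA := H3 c a d hRp hnorm hsq hdm hds hd1 hdS k hk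
      refine hA.trans ?_
      have h7 : 0 ≤ (C₁ + C₂ + B) * ((c : ℝ) + d.natDegree + 1) * X := by positivity
      linarith

end Pool.Agent.Helper54.GL
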