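import Pool.Agent.Helper54.GL.StQ

/-! # GL: numbers of cycles (module Q_CYC) -/

set_option autoImplicit false

namespace Pool.Agent.Helper54.GL

open Finset

private theorem inv_CYC {n : ℕ} (σ : Equiv.Perm (Fin n)) (T : Finset (Fin n)) :
    T.map σ.toEmbedding = T ↔ ∀ x, σ x ∈ T ↔ x ∈ T := by
  constructor
  · intro h x
    constructor
    · intro hx
      rw [← h, mem_map] at hx
      obtain ⟨z, hz, hzx⟩ := hx
      have : z = x := σ.injective hzx
      exact this ▸ hz
    · intro hx
      rw [← h]
      exact mem_map_of_mem _ hx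
  · intro h
    ext y
    rw [mem_map]
    constructor
    · rintro ⟨z, hz, rfl⟩
      exact (h z).2 hz
    · intro hy
      refine ⟨σ.symm y, ?_, by simp⟩
      rw [← h]
      simpa using hy

private theorem zpow_CYC {n : ℕ} {σ : Equiv.Perm (Fin n)} {T : Finset (Fin n)}
    (h : ∀ x, σ x ∈ T ↔ x ∈ T) (i : ℤ) (x : Fin n) : (σ ^ i) x ∈ T ↔ x ∈ T := by
  induction i with
  | zero => simp
  | succ i ih =>
    rw [add_comm, zpow_add, zpow_one, Equiv.Perm.mul_apply, h]
    exact ih
  | pred i ih =>
    have e : σ ^ (-(i : ℤ) - 1) = σ⁻¹ * σ ^ (-(i : ℤ)) := by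
      rw [sub_eq_add_neg, add_comm, zpow_add, zpow_neg_one]
    rw [e, Equiv.Perm.mul_apply, ← h]
    simpa using ih

private theorem orb_CYC {n : ℕ} (σ : Equiv.Perm (Fin n)) (S : Finset (Fin n)) (hS : 2 ≤ S.card) :
    ((∀ x, x ∉ S → σ x = x) ∧ ∀ T : Finset (Fin n), T.map σ.toEmbedding = T → T ⊆ S →
      T = ∅ ∨ T = S) ↔ σ.IsCycle ∧ σ.support = S := by
  classical
  constructor
  · rintro ⟨h1, h2⟩
    have key : ∀ x ∈ S, (univ.filter fun y => σ.SameCycle x y) = S ∧ σ x ≠ x := by
      intro x hx
      set T := univ.filter fun y => σ.SameCycle x y with hT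
      have hxT : x ∈ T := by
        rw [hT, mem_filter]
        exact ⟨mem_univ _, Equiv.Perm.SameCycle.refl _ _⟩
      have hinv : T.map σ.toEmbedding = T := by
        rw [inv_CYC]
        intro y
        rw [hT, mem_filter, mem_filter]
        simp only [mem_univ, true_and]
        exact Equiv.Perm.sameCycle_apply_right
      have hsub : T ⊆ S := by
        intro y hy
        rw [hT, mem_filter] at hy
        by_contra hyS
        have h3 : Function.IsFixedPt σ y := h1 y hyS
        have h4 : x = y := (hy.2.symm.eq_of_left h3).symm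
        exact hyS (h4 ▸ hx)
      have hTS : T = S := by
        rcases h2 T hinv hsub with h | h
        · rw [h] at hxT
          exact absurd hxT (notMem_empty _)
        · exact h
      refine ⟨hTS, fun hfix => ?_⟩
      have h5 : T ⊆ {x} := by
        intro y hy
        rw [hT, mem_filter] at hy
        rw [mem_singleton]
        exact (hy.2.eq_of_left hfix).symm
      have h6 := card_le_card h5
      rw [hTS, card_singleton] at h6
      omega
    have hsupp : σ.support = S := by
      ext y
      rw [Equiv.Perm.mem_support]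
      constructor
      · intro hy
        by_contra hyS
        exact hy (h1 y hyS)
      · intro hy
        exact (key y hy).2
    obtain ⟨x, hx⟩ : S.Nonempty := card_pos.1 (by omega)
    refine ⟨⟨x, (key x hx).2, fun y hy => ?_⟩, hsupp⟩
    have h7 : y ∈ S := by
      rw [← hsupp, Equiv.Perm.mem_support]
      exact hy
    rw [← (key x hx).1, mem_filter] at h7
    exact h7.2
  · rintro ⟨hc, hsupp⟩
    refine ⟨fun x hx => ?_, fun T hT hTS => ?_⟩
    · rw [← hsupp] at hx
      exact Equiv.Perm.notMem_support.1 hx
    · rw [inv_CYC] at hT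
      rcases T.eq_empty_or_nonempty with h | ⟨x, hx⟩
      · exact Or.inl h
      · refine Or.inr (subset_antisymm hTS fun y hy => ?_)
        have h1 : σ x ≠ x := by
          rw [← Equiv.Perm.mem_support, hsupp]
          exact hTS hx
        have h2 : σ y ≠ y := by
          rw [← Equiv.Perm.mem_support, hsupp]
          exact hy
        obtain ⟨i, hi⟩ := hc.sameCycle h1 h2
        rw [← hi]
        exact (zpow_CYC hT i x).2 hx

private theorem type_CYC {n : ℕ} (σ : Equiv.Perm (Fin n)) (k : ℕ) :
    σ.cycleType = {k} ↔ σ.IsCycle ∧ σ.support.card = k := by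
  constructor
  · intro h
    have h1 : σ.IsCycle := by
      rw [← Equiv.Perm.card_cycleType_eq_one, h, Multiset.card_singleton]
    refine ⟨h1, ?_⟩
    have h2 := σ.sum_cycleType
    rw [h, Multiset.sum_singleton] at h2
    exact h2.symm
  · rintro ⟨h1, h2⟩
    rw [h1.cycleType, h2]

private theorem count_CYC {n : ℕ} (k : ℕ) (hk : 2 ≤ k) (hkn : k ≤ n) :
    {σ : Equiv.Perm (Fin n) | σ.cycleType = {k}}.ncard * ((n - k).factorial * k) =
      n.factorial := by
  classical
  have h := Equiv.Perm.card_of_cycleType_mul_eq (Fin n) ({k} : Multiset ℕ)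
  rw [if_pos] at h
  · have e : ({σ : Equiv.Perm (Fin n) | σ.cycleType = {k}} : Set (Equiv.Perm (Fin n))).ncard =
        (univ.filter fun σ : Equiv.Perm (Fin n) => σ.cycleType = {k}).card := by
      rw [← Set.ncard_coe_finset]
      congr 1
      ext σ
      simp
    rw [e]
    simpa using h
  · simp
    exact ⟨hkn, hk⟩

theorem gCYC : StCYC := by
  classical
  refine ⟨fun n hn => ?_, fun n hn => ?_⟩
  · rcases Nat.lt_or_ge 1 n with h | h
    · have e : {σ : Equiv.Perm (Fin n) | CycI σ} =
          {σ : Equiv.Perm (Fin n) | σ.cycleType = {n}} := by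
        ext σ
        rw [Set.mem_ofPred_eq, Set.mem_ofPred_eq, type_CYC]
        have h1 := orb_CYC σ univ (by rw [card_univ, Fintype.card_fin]; omega)
        constructor
        · intro hc
          obtain ⟨h2, h3⟩ := h1.1 ⟨fun x hx => absurd (mem_univ x) hx, fun T hT _ => hc T hT⟩
          exact ⟨h2, by rw [h3, card_univ, Fintype.card_fin]⟩
        · rintro ⟨h2, h3⟩
          have h4 : σ.support = univ := by
            rw [← card_eq_iff_eq_univ, h3, Fintype.card_fin]
          intro T hT
          exact (h1.2 ⟨h2, h4⟩).2 T hT (subset_univ _)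
      rw [e]
      have h5 := count_CYC (n := n) n h le_rfl
      rw [Nat.sub_self, Nat.factorial_zero, one_mul] at h5
      exact h5
    · have hn1 : n = 1 := le_antisymm h hn
      subst hn1
      have e : {σ : Equiv.Perm (Fin 1) | CycI σ} = Set.univ := by
        ext σ
        simp only [Set.mem_ofPred_eq, Set.mem_univ, iff_true]
        intro T _
        rcases T.eq_empty_or_nonempty with h1 | ⟨x, hx⟩
        · exact Or.inl h1
        · right
          ext y
          simp only [mem_univ, iff_true]
          rwa [Subsingleton.elim y x]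
      rw [e, Set.ncard_univ, Nat.card_eq_fintype_card, Fintype.card_perm, Fintype.card_fin]
      simp
  · have e : {σ : Equiv.Perm (Fin n) | ∃ b₀, CycT σ b₀} =
        {σ : Equiv.Perm (Fin n) | σ.cycleType = {n - 1}} := by
      ext σ
      rw [Set.mem_ofPred_eq, Set.mem_ofPred_eq, type_CYC]
      have hcard : ∀ b : Fin n, (({b}ᶜ : Finset (Fin n))).card = n - 1 := by
        intro b
        rw [card_compl, Fintype.card_fin, card_singleton]
      have h1 : ∀ b : Fin n, _ := fun b => orb_CYC σ ({b}ᶜ : Finset (Fin n))
        (by rw [hcard]; omega)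
      constructor
      · rintro ⟨b, hb, hT⟩
        obtain ⟨h2, h3⟩ := (h1 b).1 ⟨fun x hx => by
          have : x = b := by simpa using hx
          rw [this, hb], fun T hTi hTs => hT T hTi fun hbT => by
            have := hTs hbT
            simp at this⟩
        exact ⟨h2, by rw [h3, hcard]⟩
      · rintro ⟨h2, h3⟩
        have h4 : (σ.supportᶜ).card = 1 := by
          rw [card_compl, Fintype.card_fin, h3]
          omega
        obtain ⟨b, hb⟩ := card_eq_one.1 h4
        have h5 : σ.support = {b}ᶜ := by rw [← hb, compl_compl]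
        obtain ⟨h6, h7⟩ := (h1 b).2 ⟨h2, h5⟩
        refine ⟨b, h6 b (by simp), fun T hTi hbT => h7 T hTi fun y hy => ?_⟩
        rw [mem_compl, mem_singleton]
        rintro rfl
        exact hbT hy
    rw [e]
    have h5 := count_CYC (n := n) (n - 1) (by omega) (by omega)
    rw [show n - (n - 1) = 1 by omega, Nat.factorial_one, one_mul] at h5
    exact h5

end Pool.Agent.Helper54.GL
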