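import Pool.Agent.Helper54.GL.StQ
import Pool.Agent.Helper3.GT.M_LST
import Pool.Agent.Helper3.GT.M_REC

/-!
GL, module EXPN: the indicator function of a class as a sum of quadratic characters.
-/

set_option autoImplicit false

namespace Pool.Agent.Helper54.GL

open Polynomial Finset Filter Topology
open Pool.Agent.Helper54.PT (Prm prm mem_prm)
open Pool.Agent.Helper3.HY (kp red)
open Pool.Agent.Helper3.GT (StREC hREC)
open Pool.Agent.Helper3.GT.LSTaux

private theorem chD_eq_EXPN {F : Type} [Field F] (d : F[X]) (P : Prm F) : chD d P = chi P d := rfl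

private theorem pm_EXPN {a b : ℝ} (ha : a * a = 1) (h : |b| = 1) (hne : a * b ≠ 1) :
    a * b = -1 := by
  have hb : b * b = 1 := by rw [← abs_mul_abs_self, h, one_mul]
  have h1 : (a * b - 1) * (a * b + 1) = 0 := by linear_combination (b * b) * ha + hb
  rcases mul_eq_zero.1 h1 with h2 | h2
  · exact absurd (by linarith) hne
  · linarith

theorem gEXPN : StEXPN := by
  classical
  intro F _ _ h2 B S U Δ k hSB hUS hΔB
  -- signs
  let sg : Prm F → ℝ := fun v =>
    if IsSquare (-1 : F) ∨ Even (k * v.1.natDegree) then 1 else -1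
  have hsg : ∀ v, sg v * sg v = 1 := by
    intro v
    show (if _ then (1 : ℝ) else -1) * (if _ then (1 : ℝ) else -1) = 1
    split_ifs <;> norm_num
  have hsga : ∀ v, |sg v| = 1 := by
    intro v
    show |if _ then (1 : ℝ) else -1| = 1
    split_ifs <;> simp
  have hrec : ∀ p v : Prm F, p ≠ v → p.1.natDegree = k → chi v p.1 = chi p v.1 * sg v := by
    intro p v hne hk
    have h1 := hREC F h2 p v hne
    rw [hk] at h1
    show chi v p.1 = chi p v.1 * (if IsSquare (-1 : F) ∨ Even (k * v.1.natDegree) then 1 else -1)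
    by_cases ha : IsSquare (red p v.1) <;>
      by_cases hb : IsSquare (-1 : F) ∨ Even (k * v.1.natDegree)
    · rw [if_pos hb, chi_eq_one.2 ha, chi_eq_one.2 (h1.2 (iff_of_true ha hb)), one_mul]
    · rw [if_neg hb, chi_eq_one.2 ha, chi_eq_neg.2 (fun h3 => hb ((h1.1 h3).1 ha)), one_mul]
    · rw [if_pos hb, chi_eq_neg.2 ha, chi_eq_neg.2 (fun h3 => ha ((h1.1 h3).2 hb)), mul_one]
    · rw [if_neg hb, chi_eq_neg.2 ha, chi_eq_one.2 (h1.2 (iff_of_false ha hb))]
      norm_num
  let wt : Finset (Prm F) → Prm F → ℝ := fun X v => if v ∈ X then -1 else 1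
  have hwt : ∀ X v, wt X v * wt X v = 1 := by
    intro X v
    show (if _ then (-1 : ℝ) else 1) * (if _ then (-1 : ℝ) else 1) = 1
    split_ifs <;> norm_num
  have hwta : ∀ X v, |wt X v| = 1 := by
    intro X v
    show |if _ then (-1 : ℝ) else 1| = 1
    split_ifs <;> simp
  let pr' : Prm F → F[X] := fun v => if v ∈ S then ∏ Q ∈ S.erase v, Q.1 else ∏ Q ∈ S, Q.1
  let ww : Prm F → ℝ := fun v => if v ∈ S then wt U v else wt Δ v
  have hww : ∀ v, ww v * ww v = 1 := by
    intro v
    show (if _ then wt U v else wt Δ v) * (if _ then wt U v else wt Δ v) = 1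
    split_ifs
    · exact hwt _ _
    · exact hwt _ _
  have hwwa : ∀ v, |ww v| = 1 := by
    intro v
    show |if _ then wt U v else wt Δ v| = 1
    split_ifs
    · exact hwta _ _
    · exact hwta _ _
  let cc : Prm F → ℝ := fun v => ww v * chi v (pr' v) * sg v
  have hcca : ∀ v, |cc v| = 1 := by
    intro v
    show |ww v * chi v (pr' v) * sg v| = 1
    rw [abs_mul, abs_mul, hwwa, chi_abs, hsga]
    norm_num
  -- membership in a class in terms of `chi`
  have hmem : ∀ (X : Finset (Prm F)) (v : Prm F) (d : F[X]),
      ((¬ IsSquare (red v d)) ↔ v ∈ X) ↔ chi v d = wt X v := by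
    intro X v d
    show _ ↔ chi v d = if v ∈ X then -1 else 1
    by_cases hs : IsSquare (red v d) <;> by_cases hv : v ∈ X
    · rw [chi_eq_one.2 hs, if_pos hv]
      constructor
      · intro h
        exact absurd hs (h.2 hv)
      · intro h
        norm_num at h
    · rw [chi_eq_one.2 hs, if_neg hv]
      exact iff_of_true (iff_of_false (fun h => h hs) hv) rfl
    · rw [chi_eq_neg.2 hs, if_pos hv]
      exact iff_of_true (iff_of_true hs hv) rfl
    · rw [chi_eq_neg.2 hs, if_neg hv]
      constructor
      · intro h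
        exact absurd (h.1 hs) hv
      · intro h
        norm_num at h
  refine ⟨fun W => ∏ v ∈ W, cc v, fun W => ?_, prod_empty, fun P hP hPS hPB => ?_⟩
  · rw [abs_prod]
    exact (prod_eq_one fun v _ => hcca v).le
  rw [mem_prm] at hP
  -- the condition
  have hcond : (UU (insert P S) ∩ S = U ∧ DD B (insert P S) = Δ) ↔
      ∀ v ∈ S ∪ B, chi P v.1 = cc v := by
    have hv1 : ∀ v, v ≠ P → chi v (P.1 * pr' v) = chi v P.1 * chi v (pr' v) := by
      intro v hv
      refine chi_mul (not_dvd_of_ne hv) ?_
      show ¬ v.1 ∣ (if v ∈ S then ∏ Q ∈ S.erase v, Q.1 else ∏ Q ∈ S, Q.1)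
      split_ifs with h
      · exact not_dvd_prod (notMem_erase v S)
      · exact not_dvd_prod h
    have hv2 : ∀ v, v ≠ P → (chi v (P.1 * pr' v) = ww v ↔ chi P v.1 = cc v) := by
      intro v hv
      rw [hv1 v hv, hrec P v hv.symm hP]
      show _ ↔ chi P v.1 = ww v * chi v (pr' v) * sg v
      have e1 := chi_sq v (pr' v)
      have e2 := hsg v
      constructor
      · intro h
        rw [← h]
        linear_combination (-(chi P v.1)) * (e1 * (sg v * sg v) + e2)
      · intro h
        rw [h]
        linear_combination (ww v) * (e1 * (sg v * sg v) + e2)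
    have hU : UU (insert P S) ∩ S = U ↔ ∀ v ∈ S, chi P v.1 = cc v := by
      have h3 : ∀ v ∈ S, (v ∈ UU (insert P S) ↔ ¬ IsSquare (red v (P.1 * pr' v))) := by
        intro v hv
        have hne : v ≠ P := fun h => hPS (h ▸ hv)
        have e1 : ∏ R ∈ (insert P S).erase v, R.1 = P.1 * pr' v := by
          have e2 : (insert P S).erase v = insert P (S.erase v) := by
            rw [erase_insert_of_ne hne.symm]
          rw [e2, prod_insert (fun h => hPS (mem_of_mem_erase h))]
          congr 1
          exact (if_pos hv).symm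
        rw [UU, mem_filter, e1]
        exact and_iff_right (mem_insert_of_mem hv)
      have h4 : UU (insert P S) ∩ S = U ↔ ∀ v ∈ S, (v ∈ UU (insert P S) ↔ v ∈ U) := by
        constructor
        · intro h v hv
          rw [← h, mem_inter]
          exact (and_iff_left hv).symm
        · intro h
          ext v
          rw [mem_inter]
          constructor
          · rintro ⟨ha, hb⟩
            exact (h v hb).1 ha
          · intro ha
            exact ⟨(h v (hUS ha)).2 ha, hUS ha⟩
      rw [h4]
      refine forall₂_congr fun v hv => ?_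
      have hne : v ≠ P := fun h => hPS (h ▸ hv)
      rw [h3 v hv, hmem, ← hv2 v hne]
      have : ww v = wt U v := if_pos hv
      rw [this]
    have hD : DD B (insert P S) = Δ ↔ ∀ v ∈ B, chi P v.1 = cc v := by
      have h4 : DD B (insert P S) = Δ ↔ ∀ v ∈ B, (v ∈ DD B (insert P S) ↔ v ∈ Δ) := by
        constructor
        · intro h v _
          rw [h]
        · intro h
          ext v
          constructor
          · intro ha
            exact (h v (mem_of_mem_filter v ha)).1 ha
          · intro ha
            exact (h v (hΔB ha)).2 ha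
      rw [h4]
      refine forall₂_congr fun v hv => ?_
      have hne : v ≠ P := fun h => hPB (h ▸ hv)
      have hvS : v ∉ S := fun h => (disjoint_left.1 hSB h) hv
      have e1 : ∏ R ∈ insert P S, R.1 = P.1 * pr' v := by
        rw [prod_insert hPS]
        congr 1
        exact (if_neg hvS).symm
      have h3 : v ∈ DD B (insert P S) ↔ ¬ IsSquare (red v (P.1 * pr' v)) := by
        rw [DD, mem_filter, e1]
        exact and_iff_right hv
      rw [h3, hmem, ← hv2 v hne]
      have : ww v = wt Δ v := if_neg hvS
      rw [this]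
    rw [hU, hD]
    constructor
    · rintro ⟨ha, hb⟩ v hv
      rcases mem_union.1 hv with h | h
      · exact ha v h
      · exact hb v h
    · intro h
      exact ⟨fun v hv => h v (mem_union_left _ hv), fun v hv => h v (mem_union_right _ hv)⟩
  -- expansion
  have hexp : ∑ W ∈ (S ∪ B).powerset, (∏ v ∈ W, cc v) * chD (∏ v ∈ W, v.1) P =
      ∏ v ∈ S ∪ B, (1 + cc v * chi P v.1) := by
    rw [prod_one_add]
    refine sum_congr rfl fun W hW => ?_
    have hPW : P ∉ W := by
      intro h
      rcases mem_union.1 (mem_powerset.1 hW h) with h' | h'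
      · exact hPS h'
      · exact hPB h'
    rw [chD_eq_EXPN, chi_prod hPW, ← prod_mul_distrib]
  rw [hexp]
  by_cases hc : UU (insert P S) ∩ S = U ∧ DD B (insert P S) = Δ
  · rw [if_pos hc, mul_one, ← pow_add, ← card_union_of_disjoint hSB]
    have h3 := hcond.1 hc
    rw [prod_congr rfl (g := fun _ => (2 : ℝ)) fun v hv => ?_, prod_const]
    have h4 : cc v * cc v = 1 := by
      have := hcca v
      rw [← abs_mul_abs_self, this, one_mul]
    rw [h3 v hv, h4]
    norm_num
  · rw [if_neg hc, mul_zero]
    rw [hcond] at hc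
    push Not at hc
    obtain ⟨v, hv, hne⟩ := hc
    symm
    refine prod_eq_zero hv ?_
    have h4 : cc v * cc v = 1 := by
      have := hcca v
      rw [← abs_mul_abs_self, this, one_mul]
    have h5 : cc v * chi P v.1 = -1 := by
      refine pm_EXPN h4 (chi_abs _ _) fun h6 => hne ?_
      calc chi P v.1 = cc v * cc v * chi P v.1 := by rw [h4, one_mul]
        _ = cc v := by rw [mul_assoc, h6, mul_one]
    rw [h5]
    norm_num

end Pool.Agent.Helper54.GL
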