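import Pool.Agent.Helper54.GL.StQ
import Pool.Agent.Helper54.GT.AllAB

/-!
# GL, part Q: Kummer independence for `a` and `d` together (KI2)
-/

set_option autoImplicit false

namespace Pool.Agent.Helper54.GL

open Polynomial Finset Filter Topology
open Pool.Agent.Helper54.PT (Prm prm)
open Pool.Agent.Helper3.HY (fK RR LL)
open Pool.Agent.Helper54.GT

section

variable {F : Type} [Field F] {ι : Type} {g : ι → ℕ}

theorem ev_mul_KI2 (d : F[X]) (a : F[X][X]) (x : Om F) : ev (C d * a) x = em F d * ev a x := by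
  unfold ev
  rw [eval₂_mul, eval₂_C]

theorem two_KI2 (h2 : (2 : F) ≠ 0) : (2 : Om F) ≠ 0 := by
  intro h
  apply h2
  have h1 : em F (C 2) = 0 := by
    have : (C (2 : F)) = (2 : F[X]) := rfl
    rw [this, map_ofNat, h]
  have h3 := em_inj_KD (F := F) (h1.trans (map_zero _).symm)
  exact C_eq_zero.1 h3

theorem rv_scale_KI2 {I : Type} [Fintype I] (w : Om F) (ρ : I → Om F) (v : I → ZMod 2) :
    rv (fun b => w * ρ b) v = w ^ (∑ b, (v b).val) * rv ρ v := by
  unfold rv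
  rw [← Finset.prod_pow_eq_pow_sum, ← Finset.prod_mul_distrib]
  exact Finset.prod_congr rfl fun b _ => mul_pow _ _ _

theorem even_KI2 {I : Type} [Fintype I] {v : I → ZMod 2} (h : ∑ b, v b = 0) :
    ∃ k, ∑ b, (v b).val = 2 * k := by
  have h1 : ((∑ b, (v b).val : ℕ) : ZMod 2) = 0 := by
    rw [← h]
    push_cast
    exact Finset.sum_congr rfl fun b _ => ZMod.natCast_zmod_val _
  rw [ZMod.natCast_eq_zero_iff] at h1
  obtain ⟨k, hk⟩ := h1
  exact ⟨k, hk⟩

theorem sum_single_KI2 {I : Type} [Fintype I] [DecidableEq I] (x : I) :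
    ∑ b, (Pi.single x 1 : I → ZMod 2) b = 1 := by
  rw [Fintype.sum_eq_single x (fun b hb => Pi.single_eq_of_ne hb _), Pi.single_eq_same]

theorem sum_pair_KI2 {I : Type} [Fintype I] [DecidableEq I] (x y : I) :
    ∑ b, (Pi.single x 1 + Pi.single y 1 : I → ZMod 2) b = 0 := by
  have h : ∀ b, (Pi.single x 1 + Pi.single y 1 : I → ZMod 2) b =
      (Pi.single x 1 : I → ZMod 2) b + (Pi.single y 1 : I → ZMod 2) b := fun b => rfl
  rw [Finset.sum_congr rfl fun b _ => h b, Finset.sum_add_distrib, sum_single_KI2, sum_single_KI2]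
  rfl

theorem rv_pair_KI2 {I : Type} [Fintype I] [DecidableEq I] (ρ : I → Om F) {x y : I} (h : x ≠ y) :
    rv ρ (Pi.single x 1 + Pi.single y 1) = ρ x * ρ y := by
  unfold rv
  have h1 : (1 : ZMod 2).val = 1 := rfl
  rw [← Finset.mul_prod_erase univ _ (Finset.mem_univ x),
    ← Finset.mul_prod_erase (univ.erase x) _ (Finset.mem_erase.2 ⟨h.symm, Finset.mem_univ y⟩)]
  have e1 : (Pi.single x 1 + Pi.single y 1 : I → ZMod 2) x = 1 := by
    rw [Pi.add_apply, Pi.single_eq_same, Pi.single_eq_of_ne h, add_zero]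
  have e2 : (Pi.single x 1 + Pi.single y 1 : I → ZMod 2) y = 1 := by
    rw [Pi.add_apply, Pi.single_eq_same, Pi.single_eq_of_ne h.symm, zero_add]
  rw [e1, e2, h1, pow_one, pow_one, Finset.prod_eq_one, mul_one]
  intro b hb
  rw [Finset.mem_erase, Finset.mem_erase] at hb
  have e3 : (Pi.single x 1 + Pi.single y 1 : I → ZMod 2) b = 0 := by
    rw [Pi.add_apply, Pi.single_eq_of_ne hb.2.1, Pi.single_eq_of_ne hb.1, add_zero]
  rw [e3, ZMod.val_zero, pow_zero]

end

theorem gKI2 : StKI2 := by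
  classical
  intro F _ _ htwo ι _ g f θ hg hmon hR hdeg i₀ hfact a d hN hsq hdm hdsq hd1 hsim
  obtain ⟨hev, hKI⟩ := dKI F htwo ι g f θ hg hmon hR i₀ a hN hsq
  have htwo' := two_KI2 htwo
  have hd0 : em F d ≠ 0 := by
    intro h
    have := em_inj_KD (F := F) (h.trans (map_zero _).symm)
    exact hdm.ne_zero this
  have hα : ∀ b, ev (C d * a) (θ i₀ b) ≠ 0 := by
    intro b
    rw [ev_mul_KI2]
    exact mul_ne_zero hd0 (hev b)
  refine ⟨hα, ?_⟩
  intro ρ hρ v hv
  obtain ⟨w, hw⟩ := IsAlgClosed.exists_pow_nat_eq (em F d) (n := 2) two_pos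
  have hw0 : w ≠ 0 := by
    rintro rfl
    rw [zero_pow two_ne_zero] at hw
    exact hd0 hw.symm
  have hρ1 : ∀ b, (ρ b / w) ^ 2 = ev a (θ i₀ b) := by
    intro b
    rw [div_pow, hρ, ev_mul_KI2, hw, mul_div_cancel_left₀ _ hd0]
  have hρe : ρ = fun b => w * (ρ b / w) := by
    funext b
    rw [mul_div_cancel₀ _ hw0]
  have hρ0 : ∀ b, ρ b ≠ 0 := by
    intro b h
    have := hρ b
    rw [h, zero_pow two_ne_zero] at this
    exact hα b this.symm
  have hrv0 : ∀ v : Fin (2 * g i₀ + 1) → ZMod 2, rv ρ v ≠ 0 := fun v =>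
    Finset.prod_ne_zero_iff.2 fun b _ => pow_ne_zero _ (hρ0 b)
  have hw2 : ∀ (s : Om F ≃ₐ[GT.KK F] Om F) (k : ℕ), s (w ^ (2 * k)) = w ^ (2 * k) := by
    intro s k
    rw [pow_mul, hw, map_pow, fix_em_KI]
  -- even vectors
  have L1 : ∀ v : Fin (2 * g i₀ + 1) → ZMod 2, ∑ b, v b = 0 → v ≠ 0 →
      ∃ s : Om F ≃ₐ[GT.KK F] Om F, (∀ i b, s (θ i b) = θ i b) ∧ s (rv ρ v) = -rv ρ v := by
    intro v hv0 hv
    obtain ⟨s, hs, hs'⟩ := hKI (fun b => ρ b / w) hρ1 v hv0 hv
    obtain ⟨k, hk⟩ := even_KI2 hv0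
    refine ⟨s, hs, ?_⟩
    rw [hρe, rv_scale_KI2, hk, map_mul, hw2, hs', mul_neg]
  by_contra hcon
  push Not at hcon
  have hfix : Fx_KIa θ (rv ρ v) := by
    intro s hs
    have e1 := rv_sq_KIa (fun b => ev (C d * a) (θ i₀ b)) ρ hρ v
    have e2 : s (rv ρ v) ^ 2 = rv ρ v ^ 2 := by
      rw [← map_pow, e1, map_prod]
      exact Finset.prod_congr rfl fun b _ => by rw [fix_ev_KI, hs]
    rcases sq_eq_sq_iff_eq_or_eq_neg.1 e2 with h | h
    · exact h
    · exact absurd h (hcon s hs)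
  -- the support is everything
  by_cases hall : ∀ b, v b = 1
  · obtain ⟨s', hs', hs'w⟩ := dKD F htwo ι g f θ hg hmon hR hdeg d hdm hdsq hd1 hsim w hw
    obtain ⟨s₀, hs₀⟩ := aUN F (f i₀) a (hmon i₀) hN
    have hprod : ∏ b, ev a (θ i₀ b) = em F s₀ ^ 2 := hs₀ (Om F) (em F) _ (θ i₀) (hR.fac i₀)
    have h1 : rv (fun b => ρ b / w) v = ∏ b, (ρ b / w) := by
      unfold rv
      refine Finset.prod_congr rfl fun b _ => ?_
      rw [hall b, show (1 : ZMod 2).val = 1 from rfl, pow_one]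
    have h2 : (∏ b, (ρ b / w)) ^ 2 = em F s₀ ^ 2 := by
      rw [← Finset.prod_pow, Finset.prod_congr rfl fun b _ => hρ1 b, hprod]
    have h3 : s' (∏ b, (ρ b / w)) = ∏ b, (ρ b / w) := by
      rcases sq_eq_sq_iff_eq_or_eq_neg.1 h2 with h | h
      · rw [h, fix_em_KI]
      · rw [h, map_neg, fix_em_KI]
    have h4 : ∑ b, (v b).val = 2 * g i₀ + 1 := by
      rw [Finset.sum_congr rfl fun b _ => by
        rw [hall b, show (1 : ZMod 2).val = 1 from rfl]]
      simp
    apply hcon s' hs'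
    rw [hρe, rv_scale_KI2, h4, h1, map_mul, h3, pow_succ, map_mul, hw2, hs'w]
    ring
  · push Not at hall
    obtain ⟨y, hy⟩ := hall
    have hy0 : v y = 0 := by
      revert hy
      generalize v y = z
      revert z
      decide
    obtain ⟨x, hx⟩ : ∃ x, v x ≠ 0 := by
      by_contra h
      push Not at h
      exact hv (funext h)
    have hxy : x ≠ y := by
      rintro rfl
      exact hx hy0
    set S : Finset (Fin (2 * g i₀ + 1)) := univ.filter (fun b => v b ≠ 0) with hS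
    have hxS : x ∈ S := by rw [hS, Finset.mem_filter]; exact ⟨Finset.mem_univ _, hx⟩
    have hyS : y ∉ S := by
      rw [hS, Finset.mem_filter]
      exact fun h => h.2 hy0
    obtain ⟨s₁, hs₁⟩ := hR.gal (Function.update (fun i => 1) i₀ (Equiv.swap x y))
    have hs₁' : ∀ b, s₁ (ev (C d * a) (θ i₀ b)) = ev (C d * a) (θ i₀ (Equiv.swap x y b)) := by
      intro b
      rw [fix_ev_KI, hs₁, Function.update_self]
    have hrv := rv_sq_KIa (fun b => ev (C d * a) (θ i₀ b)) ρ hρ v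
    rw [← hS] at hrv
    have hαf : ∀ b, Fx_KIa θ (ev (C d * a) (θ i₀ b)) := by
      intro b s hs
      rw [fix_ev_KI, hs]
    have hne : ∏ b ∈ S.erase x, ev (C d * a) (θ i₀ b) ≠ 0 :=
      Finset.prod_ne_zero_iff.2 fun b _ => hα b
    have hm2 : Fx_KIa θ (rv ρ v * s₁ (rv ρ v) / ∏ b ∈ S.erase x, ev (C d * a) (θ i₀ b)) :=
      fx_div_KIa (fx_mul_KIa hfix (fx_conj_KIa hfix s₁ _ hs₁)) (fx_prod_KIa _ _ fun b _ => hαf b)
    have hm1 : (rv ρ v * s₁ (rv ρ v) / ∏ b ∈ S.erase x, ev (C d * a) (θ i₀ b)) ^ 2 =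
        (ρ x * ρ y) ^ 2 := by
      rw [div_pow, mul_pow, ← map_pow, hrv, map_prod, mul_pow, hρ, hρ]
      have h3 : ∏ b ∈ S, s₁ (ev (C d * a) (θ i₀ b)) = ev (C d * a) (θ i₀ y) *
          ∏ b ∈ S.erase x, ev (C d * a) (θ i₀ b) := by
        rw [← Finset.mul_prod_erase S _ hxS, hs₁', Equiv.swap_apply_left]
        congr 1
        refine Finset.prod_congr rfl fun b hb => ?_
        rw [hs₁', Equiv.swap_apply_of_ne_of_ne (Finset.ne_of_mem_erase hb)]
        rintro rfl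
        exact hyS (Finset.mem_of_mem_erase hb)
      have h4 : ∏ b ∈ S, ev (C d * a) (θ i₀ b) = ev (C d * a) (θ i₀ x) *
          ∏ b ∈ S.erase x, ev (C d * a) (θ i₀ b) := (Finset.mul_prod_erase S _ hxS).symm
      rw [h3, h4]
      field_simp
    have hxyf : Fx_KIa θ (ρ x * ρ y) := by
      rcases sq_eq_sq_iff_eq_or_eq_neg.1 hm1 with h | h
      · rw [← h]
        exact hm2
      · have h' : ρ x * ρ y = -(rv ρ v * s₁ (rv ρ v) /
            ∏ b ∈ S.erase x, ev (C d * a) (θ i₀ b)) := by rw [h, neg_neg]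
        rw [h']
        intro s hs
        rw [map_neg, hm2 s hs]
    obtain ⟨s, hs, hs'⟩ := L1 (Pi.single x 1 + Pi.single y 1) (sum_pair_KI2 x y) (by
      intro h
      have := congrFun h x
      rw [Pi.add_apply, Pi.single_eq_same, Pi.single_eq_of_ne hxy, add_zero] at this
      exact one_ne_zero this)
    rw [rv_pair_KI2 ρ hxy, hxyf s hs] at hs'
    have h5 : ρ x * ρ y ≠ 0 := mul_ne_zero (hρ0 x) (hρ0 y)
    have h6 : 2 * (ρ x * ρ y) = 0 := by linear_combination hs'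
    rcases mul_eq_zero.1 h6 with h | h
    · exact htwo' h
    · exact h5 h

end Pool.Agent.Helper54.GL
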