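import Pool.Agent.Helper54.GL.StQ

/-!
# GL, module (SGI): equidistribution of the classes
-/

set_option autoImplicit false

namespace Pool.Agent.Helper54.GL

open Polynomial Finset Filter Topology
open Pool.Agent.Helper54.PT (Prm prm IsAbsP IsAbsInf mem_prm)
open Pool.Agent.Helper3.HY (fK RR LL kp red TwAt selmerSet TType)
open Pool.Agent.Helper3.GT (Gd Bd GdF HypF facs TyI TyT Rp ep om SelS MS XS dgS GeoSn EvP)
open Pool.Agent.Helper54.GT (kk Om et ev av em rv Rts Hyp0 X0 X1 X2)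

private theorem abs_chD_SGI {F : Type} [Field F] (d : F[X]) (P : Prm F) : |chD d P| ≤ 1 := by
  rw [chD]
  split_ifs <;> simp

private theorem chD_one_SGI {F : Type} [Field F] (P : Prm F) : chD (1 : F[X]) P = 1 := by
  rw [chD, if_pos]
  rw [map_one]
  exact IsSquare.one

private theorem card_S_SGI {F : Type} [Field F] (S T : Finset (Prm F)) (k : ℕ)
    (hT : ∀ P ∈ T, P ∈ S ∧ P.1.natDegree = k) : k * T.card ≤ dgS S := by
  rw [dgS]
  calc k * T.card = ∑ P ∈ T, P.1.natDegree := by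
        rw [Finset.sum_congr rfl fun P hP => (hT P hP).2, Finset.sum_const, smul_eq_mul, mul_comm]
    _ ≤ ∑ P ∈ S, P.1.natDegree := Finset.sum_le_sum_of_subset fun P hP => (hT P hP).1

open Classical in
/-- The main estimate for one set of primes. -/
private theorem main_SGI {F : Type} [Field F] [Fintype F] (B S : Finset (Prm F))
    (Γ : Finset (Prm F)) (k : ℕ) (hk : 1 ≤ k) (κ C1 C2 : ℝ) (hC1 : 0 ≤ C1) (hC2 : 0 ≤ C2)
    (hΓk : ∀ P ∈ Γ, P ∈ prm F k) (hΓB : ∀ P ∈ Γ, P ∉ B)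
    (cond : Prm F → Prop) (c : Finset (Prm F) → ℝ) (hc1 : ∀ W, |c W| ≤ 1) (hc2 : c ∅ = 1)
    (hexp : ∀ P ∈ prm F k, P ∉ S → P ∉ B →
      (2 ^ S.card * 2 ^ B.card * (if cond P then 1 else 0) : ℝ) =
        ∑ W ∈ (S ∪ B).powerset, c W * chD (∏ v ∈ W, v.1) P)
    (hcard : |k * (Γ.card : ℝ) - κ * (Fintype.card F : ℝ) ^ k| ≤
      C1 * Real.sqrt (Fintype.card F) ^ k)
    (hsum : ∀ W : Finset (Prm F), W.Nonempty → W ⊆ S ∪ B →
      |k * ∑ P ∈ Γ.filter fun P => ¬ P.1 ∣ ∏ v ∈ W, v.1, chD (∏ v ∈ W, v.1) P| ≤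
        C2 * (dgS S + dgS B + 1) * Real.sqrt (Fintype.card F) ^ k)
    (hdvd : ∀ W : Finset (Prm F), W ⊆ S ∪ B → ∀ P : Prm F, P.1 ∣ ∏ v ∈ W, v.1 → P ∈ W)
    (hdisj : Disjoint S B) :
    |k * (2 ^ S.card * 2 ^ B.card * ((Γ.filter fun P => P ∉ S ∧ cond P).card : ℝ)) -
      κ * (Fintype.card F : ℝ) ^ k| ≤
        (2 ^ B.card * (C1 + 1 + C2 * (dgS B + 1))) * (dgS S + 1) * 2 ^ S.card *
          Real.sqrt (Fintype.card F) ^ k := by
  set q := Real.sqrt (Fintype.card F) ^ k with hq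
  have hq1 : 1 ≤ q := by
    apply one_le_pow₀
    rw [Real.one_le_sqrt]
    exact_mod_cast Fintype.card_pos
  set Γ' := Γ.filter fun P => P ∉ S with hΓ'
  -- the count as a sum
  have h1 : (2 ^ S.card * 2 ^ B.card * ((Γ.filter fun P => P ∉ S ∧ cond P).card : ℝ)) =
      ∑ W ∈ (S ∪ B).powerset, c W * ∑ P ∈ Γ', chD (∏ v ∈ W, v.1) P := by
    have h2 : ((Γ.filter fun P => P ∉ S ∧ cond P).card : ℝ) =
        ∑ P ∈ Γ', (if cond P then (1 : ℝ) else 0) := by
      rw [hΓ', ← Finset.filter_filter, Finset.card_filter]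
      push_cast
      rfl
    rw [h2, Finset.mul_sum]
    rw [Finset.sum_congr rfl fun P hP => hexp P (hΓk P (Finset.mem_filter.1 hP).1)
      (Finset.mem_filter.1 hP).2 (hΓB P (Finset.mem_filter.1 hP).1)]
    rw [Finset.sum_comm]
    refine Finset.sum_congr rfl fun W _ => ?_
    rw [Finset.mul_sum]
  -- the part in `S`
  have hS0 : ∀ T : Finset (Prm F), T ⊆ Γ.filter (fun P => P ∈ S) → (k : ℝ) * T.card ≤ dgS S := by
    intro T hT
    have := card_S_SGI S T k fun P hP => ⟨(Finset.mem_filter.1 (hT hP)).2,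
      mem_prm.1 (hΓk P (Finset.mem_filter.1 (hT hP)).1)⟩
    exact_mod_cast this
  -- `W = ∅`
  have hE : |k * (c ∅ * ∑ P ∈ Γ', chD (∏ v ∈ (∅ : Finset (Prm F)), v.1) P) -
      κ * (Fintype.card F : ℝ) ^ k| ≤ C1 * q + dgS S := by
    rw [hc2, one_mul, Finset.prod_empty, Finset.sum_congr rfl fun P _ => chD_one_SGI P,
      Finset.sum_const, nsmul_eq_mul, mul_one]
    have h3 : (Γ.card : ℝ) = (Γ.filter (fun P => P ∈ S)).card + Γ'.card := by
      rw [hΓ']
      exact_mod_cast (Finset.card_filter_add_card_filter_not (s := Γ) (fun P => P ∈ S)).symm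
    have h4 := hS0 _ (Finset.Subset.refl _)
    have h5 : (0 : ℝ) ≤ k * (Γ.filter (fun P => P ∈ S)).card := by positivity
    rw [abs_le] at hcard ⊢
    rw [h3] at hcard
    have h6 : (0 : ℝ) ≤ dgS S := Nat.cast_nonneg _
    constructor <;> nlinarith [hcard.1, hcard.2]
  -- `W ≠ ∅`
  have hN : ∀ W ∈ (S ∪ B).powerset.erase ∅,
      |k * (c W * ∑ P ∈ Γ', chD (∏ v ∈ W, v.1) P)| ≤
        C2 * (dgS S + dgS B + 1) * q + dgS S := by
    intro W hW
    rw [Finset.mem_erase, Finset.mem_powerset] at hW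
    have hWne : W.Nonempty := Finset.nonempty_iff_ne_empty.2 hW.1
    set d := ∏ v ∈ W, v.1 with hd
    have hsub : Γ' ⊆ Γ.filter fun P => ¬ P.1 ∣ d := by
      intro P hP
      rw [hΓ', Finset.mem_filter] at hP
      rw [Finset.mem_filter]
      refine ⟨hP.1, fun h => ?_⟩
      rcases Finset.mem_union.1 (hW.2 (hdvd W hW.2 P h)) with h5 | h5
      · exact hP.2 h5
      · exact hΓB P hP.1 h5
    have h6 : ∑ P ∈ Γ', chD d P = ∑ P ∈ Γ.filter (fun P => ¬ P.1 ∣ d), chD d P -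
        ∑ P ∈ (Γ.filter fun P => ¬ P.1 ∣ d) \ Γ', chD d P := by
      rw [← Finset.sum_sdiff hsub]
      ring
    have h7 : |(k : ℝ) * ∑ P ∈ (Γ.filter fun P => ¬ P.1 ∣ d) \ Γ', chD d P| ≤ dgS S := by
      rw [abs_mul, Nat.abs_cast]
      refine le_trans (mul_le_mul_of_nonneg_left ?_ (Nat.cast_nonneg k))
        (hS0 ((Γ.filter fun P => ¬ P.1 ∣ d) \ Γ') ?_)
      · refine (Finset.abs_sum_le_sum_abs _ _).trans ?_
        refine (Finset.sum_le_card_nsmul _ _ 1 fun P _ => abs_chD_SGI d P).trans ?_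
        rw [nsmul_eq_mul, mul_one]
      · intro P hP
        rw [Finset.mem_sdiff, Finset.mem_filter, hΓ', Finset.mem_filter] at hP
        rw [Finset.mem_filter]
        refine ⟨hP.1.1, ?_⟩
        by_contra h
        exact hP.2 ⟨hP.1.1, h⟩
    have h8 : |(k : ℝ) * ∑ P ∈ Γ', chD d P| ≤ C2 * (dgS S + dgS B + 1) * q + dgS S := by
      rw [h6, mul_sub]
      refine (abs_sub _ _).trans ?_
      exact add_le_add (hsum W hWne hW.2) h7
    calc |(k : ℝ) * (c W * ∑ P ∈ Γ', chD d P)| = |c W| * |(k : ℝ) * ∑ P ∈ Γ', chD d P| := by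
          rw [← abs_mul]
          congr 1
          ring
      _ ≤ 1 * |(k : ℝ) * ∑ P ∈ Γ', chD d P| :=
          mul_le_mul_of_nonneg_right (hc1 W) (abs_nonneg _)
      _ ≤ _ := by
          rw [one_mul]
          exact h8
  rw [h1, Finset.mul_sum]
  have hemp : (∅ : Finset (Prm F)) ∈ (S ∪ B).powerset := Finset.empty_mem_powerset _
  rw [← Finset.add_sum_erase _ _ hemp]
  have hcardW : (((S ∪ B).powerset.erase ∅).card : ℝ) = 2 ^ S.card * 2 ^ B.card - 1 := by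
    rw [Finset.card_erase_of_mem hemp, Finset.card_powerset, Finset.card_union_of_disjoint hdisj,
      Nat.cast_sub (Nat.one_le_two_pow)]
    push_cast
    rw [pow_add]
  have h9 : |∑ W ∈ (S ∪ B).powerset.erase ∅, k * (c W * ∑ P ∈ Γ', chD (∏ v ∈ W, v.1) P)| ≤
      (2 ^ S.card * 2 ^ B.card - 1) * (C2 * (dgS S + dgS B + 1) * q + dgS S) := by
    refine (Finset.abs_sum_le_sum_abs _ _).trans ?_
    refine (Finset.sum_le_card_nsmul _ _ _ hN).trans ?_
    rw [nsmul_eq_mul, hcardW]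
  have h10 : ∀ x y z : ℝ, |x + y - z| ≤ |x - z| + |y| := by
    intro x y z
    have := abs_add_le (x - z) y
    have h : x - z + y = x + y - z := by ring
    rwa [h] at this
  refine (h10 _ _ _).trans ?_
  refine (add_le_add hE h9).trans ?_
  have hs0 : (0 : ℝ) ≤ dgS S := Nat.cast_nonneg _
  have hb0 : (0 : ℝ) ≤ dgS B := Nat.cast_nonneg _
  have hT : (1 : ℝ) ≤ 2 ^ S.card * 2 ^ B.card :=
    one_le_mul_of_one_le_of_one_le (one_le_pow₀ one_le_two) (one_le_pow₀ one_le_two)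
  set T : ℝ := 2 ^ S.card * 2 ^ B.card with hTdef
  have hgoal : (2 ^ B.card * (C1 + 1 + C2 * (dgS B + 1))) * (dgS S + 1) * 2 ^ S.card * q =
      T * ((C1 + 1 + C2 * (dgS B + 1)) * (dgS S + 1) * q) := by
    rw [hTdef]
    ring
  rw [hgoal]
  have e1 : C1 * q ≤ T * (C1 * (dgS S + 1) * q) := by
    have h11 : C1 * q ≤ C1 * (dgS S + 1) * q := by
      have : 0 ≤ C1 * dgS S * q := by positivity
      nlinarith
    have h12 : (0 : ℝ) ≤ C1 * (dgS S + 1) * q := by positivity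
    nlinarith
  have e2 : (dgS S : ℝ) ≤ (dgS S + 1) * q := by nlinarith
  have e3 : C2 * (dgS S + dgS B + 1) * q ≤ C2 * (dgS B + 1) * (dgS S + 1) * q := by
    have : 0 ≤ C2 * (dgS B * dgS S) * q := by positivity
    nlinarith
  have e4 : (0 : ℝ) ≤ C2 * (dgS S + dgS B + 1) * q := by positivity
  calc C1 * q + dgS S + (T - 1) * (C2 * (dgS S + dgS B + 1) * q + dgS S)
      = C1 * q + T * dgS S + (T - 1) * (C2 * (dgS S + dgS B + 1) * q) := by ring
    _ ≤ T * (C1 * (dgS S + 1) * q) + T * ((dgS S + 1) * q) +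
        T * (C2 * (dgS B + 1) * (dgS S + 1) * q) := by
        refine add_le_add (add_le_add e1 (mul_le_mul_of_nonneg_left e2 (by linarith))) ?_
        calc (T - 1) * (C2 * (dgS S + dgS B + 1) * q) ≤ T * (C2 * (dgS S + dgS B + 1) * q) :=
              mul_le_mul_of_nonneg_right (by linarith) e4
          _ ≤ _ := mul_le_mul_of_nonneg_left e3 (by linarith)
    _ = _ := by ring

private theorem mem_GIs_SGI {F : Type} [Field F] [Fintype F] {ι : Type} {f : ι → F[X][X]} {k : ℕ}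
    {P : Prm F} (h : P ∈ GIs f k) : P ∈ prm F k ∧ GdF f P := by
  classical
  simp only [GIs, Finset.mem_filter] at h
  exact ⟨h.1, h.2.1⟩

private theorem mem_GTs_SGI {F : Type} [Field F] [Fintype F] {ι : Type} {g : ι → ℕ}
    {f : ι → F[X][X]} {i : ι} {k : ℕ} {P : Prm F} (h : P ∈ GTs g f i k) :
    P ∈ prm F k ∧ GdF f P := by
  classical
  simp only [GTs, Finset.mem_filter] at h
  exact ⟨h.1, h.2.1⟩

theorem gSGI (h1 : StCNI) (h2 : StCS2) (h3 : StEXPN) (h4 : StBBF) : StSGI := by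
  classical
  intro F _ _ htwo ι _ _ g f hf
  have hf0 : Hyp0 g f := ⟨hf.one_le, hf.monic, hf.deg, hf.geo⟩
  obtain ⟨C1, hC1, hcni⟩ := h1 F htwo ι g f hf0
  obtain ⟨C2, hC2, hcs2⟩ := h2 F htwo ι g f hf
  obtain ⟨hb1, hb2, hb3⟩ := h4 F htwo ι g f hf
  refine ⟨2 ^ (BB f).card * (C1 + 1 + C2 * (dgS (BB f) + 1)), by positivity, ?_⟩
  intro S U Δ k hk hS hU hΔ
  have hdisj : Disjoint S (BB f) := Finset.disjoint_left.2 fun P hP => hb2 P (hS P hP)
  obtain ⟨c, hc1, hc2, hexp⟩ := h3 F htwo (BB f) S U Δ k hdisj hU hΔ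
  have hdvd : ∀ W : Finset (Prm F), W ⊆ S ∪ BB f → ∀ P : Prm F, P.1 ∣ ∏ v ∈ W, v.1 → P ∈ W :=
    fun W hW => (hb3 S W hS hW).2.2.2.2.2
  have hdeg : ∀ W : Finset (Prm F), W ⊆ S ∪ BB f → ∀ y : ℝ, 0 ≤ y →
      C2 * (((∏ v ∈ W, v.1).natDegree : ℝ) + 1) * y ≤ C2 * (dgS S + dgS (BB f) + 1) * y := by
    intro W hW y hy
    have h5 := (hb3 S W hS hW).2.2.2.2.1
    have h6 : ((∏ v ∈ W, v.1).natDegree : ℝ) ≤ dgS S + dgS (BB f) := by exact_mod_cast h5
    have h7 : C2 * (((∏ v ∈ W, v.1).natDegree : ℝ) + 1) ≤ C2 * (dgS S + dgS (BB f) + 1) :=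
      mul_le_mul_of_nonneg_left (by linarith) hC2
    exact mul_le_mul_of_nonneg_right h7 hy
  have hqn : (0 : ℝ) ≤ Real.sqrt (Fintype.card F) ^ k := by positivity
  constructor
  · have hsum : ∀ W : Finset (Prm F), W.Nonempty → W ⊆ S ∪ BB f →
        |k * ∑ P ∈ (GIs f k).filter fun P => ¬ P.1 ∣ ∏ v ∈ W, v.1, chD (∏ v ∈ W, v.1) P| ≤
          C2 * (dgS S + dgS (BB f) + 1) * Real.sqrt (Fintype.card F) ^ k := by
      intro W hWne hW
      obtain ⟨m1, m2, m3, m4, -, -⟩ := hb3 S W hS hW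
      have h9 := (hcs2 _ m1 m2 (m3 hWne) m4 k hk).2
      refine le_trans (le_of_eq ?_) (h9.trans (hdeg W hW _ hqn))
      congr!
    have key := main_SGI (BB f) S (GIs f k) k hk (kIc g) C1 C2 hC1 hC2
      (fun P hP => (mem_GIs_SGI hP).1)
      (fun P hP => hb2 P (mem_GIs_SGI hP).2)
      (fun P => UU (insert P S) ∩ S = U ∧ DD (BB f) (insert P S) = Δ) c hc1 hc2
      (fun P e1 e2 e3 => by
        rw [← hexp P e1 e2 e3]
        congr!) (hcni k hk).1
      (fun W e1 e2 => by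
        have := hsum W e1 e2
        refine le_trans (le_of_eq ?_) this
        congr!) hdvd hdisj
    refine le_trans (le_of_eq ?_) key
    congr!
  · intro i
    have hsum : ∀ W : Finset (Prm F), W.Nonempty → W ⊆ S ∪ BB f →
        |k * ∑ P ∈ (GTs g f i k).filter fun P => ¬ P.1 ∣ ∏ v ∈ W, v.1, chD (∏ v ∈ W, v.1) P| ≤
          C2 * (dgS S + dgS (BB f) + 1) * Real.sqrt (Fintype.card F) ^ k := by
      intro W hWne hW
      obtain ⟨m1, m2, m3, m4, -, -⟩ := hb3 S W hS hW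
      have h9 := (hcs2 _ m1 m2 (m3 hWne) m4 k hk).1 i
      refine le_trans (le_of_eq ?_) (h9.trans (hdeg W hW _ hqn))
      congr!
    have key := main_SGI (BB f) S (GTs g f i k) k hk (kTc g i) C1 C2 hC1 hC2
      (fun P hP => (mem_GTs_SGI hP).1)
      (fun P hP => hb2 P (mem_GTs_SGI hP).2)
      (fun P => UU (insert P S) ∩ S = U ∧ DD (BB f) (insert P S) = Δ) c hc1 hc2
      (fun P e1 e2 e3 => by
        rw [← hexp P e1 e2 e3]
        congr!) ((hcni k hk).2 i)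
      (fun W e1 e2 => by
        have := hsum W e1 e2
        refine le_trans (le_of_eq ?_) this
        congr!) hdvd hdisj
    refine le_trans (le_of_eq ?_) key
    congr!

end Pool.Agent.Helper54.GL
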