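import Pool.Agent.Helper54.GL.StQ
import Pool.Agent.Helper54.GT.A_SQM
import Pool.Agent.Helper54.GT.A_SGN

/-!
# GL, part Q, module SQ2: squares modulo a polynomial with one rational root
-/

set_option autoImplicit false

namespace Pool.Agent.Helper54.GL

open Polynomial Finset

/-- a Frobenius power as a ring homomorphism -/
theorem frob_SQ2 {κ k : Type} [Field κ] [Fintype κ] [Field k] (j : κ →+* k) :
    ∃ φ : k →+* k, (∀ z, φ z = z ^ Fintype.card κ) ∧ ∀ a : κ, φ (j a) = j a := by
  obtain ⟨p, hp⟩ := CharP.exists κ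
  obtain ⟨m, hm1, hm2⟩ := FiniteField.card κ p
  have : CharP k p := charP_of_injective_ringHom j.injective p
  have : Fact p.Prime := ⟨hm1⟩
  refine ⟨iterateFrobenius k p m, fun z => ?_, fun a => ?_⟩
  · rw [iterateFrobenius_def, hm2]
  · rw [iterateFrobenius_def, ← hm2, ← map_pow, FiniteField.pow_card]

/-- the fixed points of the Frobenius power -/
theorem fix_SQ2 {κ k : Type} [Field κ] [Fintype κ] [Field k] (j : κ →+* k) (z : k)
    (hz : z ^ Fintype.card κ = z) : ∃ a, j a = z := by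
  classical
  by_contra hcon
  push Not at hcon
  have hP0 : (X ^ Fintype.card κ - X : k[X]) ≠ 0 :=
    FiniteField.X_pow_card_sub_X_ne_zero k Fintype.one_lt_card
  have hdeg : (X ^ Fintype.card κ - X : k[X]).natDegree = Fintype.card κ :=
    FiniteField.X_pow_card_sub_X_natDegree_eq k Fintype.one_lt_card
  have hsub : (insert z (univ.image j)).val ⊆ (X ^ Fintype.card κ - X : k[X]).roots := by
    intro w hw
    rw [Finset.mem_val, mem_insert, mem_image] at hw
    rw [mem_roots hP0, IsRoot.def, eval_sub, eval_pow, eval_X, sub_eq_zero]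
    rcases hw with rfl | ⟨a, _, rfl⟩
    · exact hz
    · rw [← map_pow, FiniteField.pow_card]
  have hc := card_le_degree_of_subset_roots hsub
  rw [hdeg, card_insert_of_notMem, card_image_of_injective _ j.injective, card_univ] at hc
  · omega
  · intro h
    rw [mem_image] at h
    obtain ⟨a, _, ha⟩ := h
    exact hcon a ha

theorem neg_one_pow_SQ2 {κ k : Type} [Field κ] [Fintype κ] [Field k] (j : κ →+* k) :
    (-1 : k) ^ Fintype.card κ = -1 := by
  have h1 : (-1 : κ) ^ Fintype.card κ = -1 := FiniteField.pow_card _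
  have h2 := congrArg j h1
  simpa using h2

theorem sgn_add_SQ2 {k : Type} [CommRing k] : ∀ x y : ZMod 2,
    ((-1 : k) ^ (x + y).val) = (-1) ^ x.val * (-1) ^ y.val := by
  intro x y
  have hx : x = 0 ∨ x = 1 := by revert x; decide
  have hy : y = 0 ∨ y = 1 := by revert y; decide
  rcases hx with rfl | rfl <;> rcases hy with rfl | rfl
  · simp
  · simp
  · simp
  · rw [show (1 + 1 : ZMod 2) = 0 from rfl, show (0 : ZMod 2).val = 0 from rfl,
      show (1 : ZMod 2).val = 1 from rfl]
    simp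

/-- A square root of `a(τ)` which is equivariant comes from a square root modulo `h`. -/
theorem square_SQ2 {κ k : Type} [Field κ] [Fintype κ] [Field k] (j : κ →+* k) {n : ℕ} {h : κ[X]}
    {τ : Fin n → k} {σ : Equiv.Perm (Fin n)} (hm : h.Monic)
    (hτ : h.map j = ∏ b, (X - C (τ b))) (hinj : Function.Injective τ)
    (hfr : ∀ b, τ b ^ Fintype.card κ = τ (σ b)) (a : κ[X]) (u : Fin n → k)
    (hu2 : ∀ b, u b ^ 2 = (a.map j).eval (τ b)) (hu : ∀ b, u b ^ Fintype.card κ = u (σ b)) :
    ∃ B₀ : κ[X], h ∣ B₀ * B₀ - a := by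
  classical
  obtain ⟨φ, hφ, -⟩ := frob_SQ2 j
  let B : k[X] := Lagrange.interpolate univ τ u
  have hinj' : Set.InjOn τ (univ : Finset (Fin n)) := hinj.injOn
  have hBev : ∀ b, B.eval (τ b) = u b := fun b =>
    Lagrange.eval_interpolate_at_node u hinj' (mem_univ b)
  have hBdeg : B.degree < (univ : Finset (Fin n)).card :=
    Lagrange.degree_interpolate_lt u hinj'
  have hBφ : B.map φ = B := by
    refine Polynomial.eq_of_degrees_lt_of_eval_index_eq (univ : Finset (Fin n)) (v := τ) hinj'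
      (lt_of_le_of_lt (degree_map_le) hBdeg) hBdeg ?_
    intro b _
    obtain ⟨c, rfl⟩ := σ.surjective b
    rw [← hfr c, ← hφ, Polynomial.eval_map_apply, hBev, hφ, hφ, hfr, hBev, hu]
  have hcoef : ∀ n, ∃ y, j y = B.coeff n := by
    intro m
    apply fix_SQ2 j
    rw [← hφ, ← Polynomial.coeff_map, hBφ]
  obtain ⟨B₀, hB₀⟩ : ∃ B₀ : κ[X], B₀.map j = B := by
    have : B ∈ Polynomial.lifts j := by
      rw [Polynomial.lifts_iff_coeff_lifts]
      intro m
      obtain ⟨y, hy⟩ := hcoef m
      exact ⟨y, hy⟩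
    exact (Polynomial.mem_lifts B).1 this
  refine ⟨B₀, ?_⟩
  rw [← Polynomial.map_dvd_map j j.injective hm, hτ]
  refine Finset.prod_dvd_of_coprime ?_ ?_
  · intro x _ y _ hxy
    exact Polynomial.pairwise_coprime_X_sub_C hinj hxy
  · intro b _
    rw [Polynomial.dvd_iff_isRoot, Polynomial.IsRoot, Polynomial.map_sub, Polynomial.map_mul, hB₀,
      eval_sub, eval_mul, hBev, ← hu2]
    ring

/-- There are at most four invariant sets. -/
theorem inv_SQ2 {n : ℕ} {σ : Equiv.Perm (Fin n)} {b₀ : Fin n} (hσ : CycT σ b₀) :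
    {T : Finset (Fin n) | T.map σ.toEmbedding = T}.ncard ≤ 4 := by
  classical
  have hsub : {T : Finset (Fin n) | T.map σ.toEmbedding = T} ⊆
      (({∅, {b₀}ᶜ, univ, {b₀}} : Finset (Finset (Fin n))) : Set (Finset (Fin n))) := by
    intro T hT
    rw [Set.mem_ofPred_eq] at hT
    simp only [coe_insert, coe_singleton, Set.mem_insert_iff, Set.mem_singleton_iff]
    by_cases hb : b₀ ∈ T
    · have hc : (Tᶜ).map σ.toEmbedding = Tᶜ := by
        ext x
        rw [mem_map_equiv, mem_compl, mem_compl]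
        conv_rhs => rw [← hT]
        rw [mem_map_equiv]
      rcases hσ.2 _ hc (by simpa using hb) with h | h
      · right; right; left
        rwa [compl_eq_empty_iff] at h
      · right; right; right
        have := congrArg compl h
        rwa [compl_compl, compl_compl] at this
    · rcases hσ.2 _ hT hb with h | h
      · left; exact h
      · right; left; exact h
  calc _ ≤ (({∅, {b₀}ᶜ, univ, {b₀}} : Finset (Finset (Fin n))) : Set (Finset (Fin n))).ncard :=
        Set.ncard_le_ncard hsub (Finset.finite_toSet _)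
    _ = ({∅, {b₀}ᶜ, univ, {b₀}} : Finset (Finset (Fin n))).card := Set.ncard_coe_finset _
    _ ≤ 4 := Finset.card_le_four

/-- `ε` is a coboundary. -/
theorem cob_SQ2 {n : ℕ} {σ : Equiv.Perm (Fin n)} {b₀ : Fin n} (hσ : CycT σ b₀)
    {ε : Fin n → ZMod 2} (h0 : ε b₀ = 0) (hs : ∑ b, ε b = 0) :
    ∃ η : Fin n → ZMod 2, ∀ b, ε b = η b + η (σ b) := by
  classical
  by_cases hc : ∃ c, c ≠ b₀
  swap
  · push Not at hc
    exact ⟨0, fun b => by rw [hc b, h0]; simp⟩
  obtain ⟨c, hc⟩ := hc
  set Z : Set (Fin n → ZMod 2) := {e | ∃ h : Fin n → ZMod 2, ∀ b, e b = h b + h (σ b)} with hZ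
  set S : Set (Fin n → ZMod 2) := {e | e b₀ = 0 ∧ ∑ b, e b = 0} with hS
  have hchar : ∀ x : ZMod 2, x + x = 0 := by decide
  have hZS : Z ⊆ S := by
    rintro e ⟨h, hh⟩
    refine ⟨by rw [hh, hσ.1, hchar], ?_⟩
    rw [Finset.sum_congr rfl fun b _ => hh b, Finset.sum_add_distrib, Equiv.sum_comp σ h, hchar]
  have hZc := Pool.Agent.Helper54.GT.aSGN n σ
  have hI := inv_SQ2 hσ
  have hSc : S.ncard * 4 ≤ 2 ^ n := by
    let ψ : S × (ZMod 2 × ZMod 2) → (Fin n → ZMod 2) := fun p =>
      p.1.1 + Pi.single b₀ p.2.1 + Pi.single c p.2.2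
    have hψ : Function.Injective ψ := by
      rintro ⟨⟨e, he⟩, x, y⟩ ⟨⟨e', he'⟩, x', y'⟩ hp
      have e1 : ∀ p, ψ p b₀ = p.2.1 := by
        intro p
        simp [ψ, p.1.2.1, hc.symm]
      have e2 : ∀ p, ∑ b, ψ p b = p.2.1 + p.2.2 := by
        intro p
        have := p.1.2.2
        simp only [ψ, Pi.add_apply, Finset.sum_add_distrib, Finset.sum_pi_single', mem_univ,
          if_true]
        rw [this, zero_add]
      have h1 : x = x' := by
        have e3 := e1 (⟨e, he⟩, x, y)
        rw [hp, e1] at e3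
        exact e3.symm
      have h2 : x + y = x' + y' := by
        have e3 := e2 (⟨e, he⟩, x, y)
        rw [hp, e2] at e3
        exact e3.symm
      have h3 : y = y' := by rw [h1] at h2; exact add_left_cancel h2
      subst h1 h3
      simp only [ψ, add_left_inj] at hp
      subst hp
      rfl
    have h3 := Nat.card_le_card_of_injective ψ hψ
    rw [Nat.card_prod, Nat.card_coe_set_eq, Nat.card_prod] at h3
    simpa using h3
  have hZfin : S.Finite := Set.toFinite _
  have hEq : Z = S := by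
    refine Set.eq_of_subset_of_ncard_le hZS ?_ hZfin
    have : 2 ^ n ≤ Z.ncard * 4 := by
      rw [← hZc]
      exact Nat.mul_le_mul_left _ hI
    omega
  have : ε ∈ Z := by
    rw [hEq]
    exact ⟨h0, hs⟩
  exact this

theorem gSQ2 : StSQ2 := by
  intro κ k _ _ _ j h2 n h τ σ hm hτ hinj hfr a r ε b₀ hσ hr hs
  constructor
  · intro hsq
    obtain ⟨u, hu2, hu⟩ := (Pool.Agent.Helper54.GT.aSQM κ k j n h τ σ hm hτ hinj hfr a).1 hsq
    obtain ⟨hr0, hr2, hrQ⟩ := hr b₀
    have hub := hu b₀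
    rw [hσ.1] at hrQ hub
    have h3 : r b₀ ^ Fintype.card κ = r b₀ := by
      rcases sq_eq_sq_iff_eq_or_eq_neg.1 (hr2.trans (hu2 b₀).symm) with h | h
      · rw [h, hub]
      · rw [h, neg_pow, neg_one_pow_SQ2 j, hub]; ring
    rw [h3] at hrQ
    have h4 : (-1 : k) ^ (ε b₀).val = 1 := by
      have : (1 - (-1 : k) ^ (ε b₀).val) * r b₀ = 0 := by rw [sub_mul, one_mul, ← hrQ, sub_self]
      rcases mul_eq_zero.1 this with h | h
      · exact (sub_eq_zero.1 h).symm
      · exact absurd h hr0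
    have hz : ∀ x : ZMod 2, x = 0 ∨ x = 1 := by decide
    rcases hz (ε b₀) with h | h
    · exact h
    · exfalso
      rw [h, show (1 : ZMod 2).val = 1 from rfl, pow_one] at h4
      apply h2
      have : (1 : k) + 1 = 0 := by nth_rw 1 [← h4]; ring
      rw [← this]; norm_num
  · intro h0 ψ hψm hψi hψh
    obtain ⟨η, hη⟩ := cob_SQ2 hσ h0 hs
    obtain ⟨B₀, hB₀⟩ := square_SQ2 j hm hτ hinj hfr a (fun b => (-1) ^ (η b).val * r b)
      (fun b => by
        rw [mul_pow, ← pow_mul, mul_comm (η b).val 2, pow_mul]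
        simp [(hr b).2.1])
      (fun b => by
        rw [mul_pow, ← pow_mul, mul_comm (η b).val, pow_mul, neg_one_pow_SQ2 j, (hr b).2.2, hη b,
          sgn_add_SQ2, ← mul_assoc, ← mul_assoc, ← pow_add, ← two_mul, pow_mul]
        simp)
    have h3 : ψ ∣ B₀ * B₀ - a := hψh.trans hB₀
    refine ⟨AdjoinRoot.mk ψ B₀, ?_⟩
    rw [← map_mul, eq_comm, ← sub_eq_zero, ← map_sub, AdjoinRoot.mk_eq_zero]
    exact h3

end Pool.Agent.Helper54.GL
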