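import Pool.Agent.Helper54.GL.StQ
import Pool.Agent.Helper54.GT.AllAB

/-!
# GL, module Q_TRF: from points with Frobenius to primes
-/

set_option autoImplicit false

namespace Pool.Agent.Helper54.GL

open Polynomial Finset Filter Topology
open Pool.Agent.Helper54.PT (Prm prm mem_prm)
open Pool.Agent.Helper3.GT (Gd GdF HypF)
open Pool.Agent.Helper54.GT

/-- The points above a set of parameters. -/
theorem fib2_TRF {F : Type} [Field F] [Fintype F] (h20 : (2 : F) ≠ 0) {ι : Type} [Fintype ι]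
    {g : ι → ℕ} {f : ι → F[X][X]} (hm : ∀ i, (f i).Monic)
    (hd : ∀ i, (f i).natDegree = 2 * g i + 1) {Y : Type}
    (B : kk F → (∀ i, Fin (2 * g i + 1) → kk F) → Set Y) (R : ℕ)
    (hB : ∀ t τ, (B t τ).Finite ∧ (B t τ).ncard ≤ R) (A : Set (kk F)) (hA : A.Finite) :
    {y : kk F × (∀ i, Fin (2 * g i + 1) → kk F) × Y | y.1 ∈ A ∧ y.2.1 ∈ Ord_A2 f y.1 ∧
      y.2.2 ∈ B y.1 y.2.1}.Finite ∧
    {y : kk F × (∀ i, Fin (2 * g i + 1) → kk F) × Y | y.1 ∈ A ∧ y.2.1 ∈ Ord_A2 f y.1 ∧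
      y.2.2 ∈ B y.1 y.2.1}.ncard ≤ A.ncard * ((∏ i, (2 * g i + 1).factorial) * R) ∧
    ((∀ t ∈ A, (Ord_A2 (g := g) f t).ncard = ∏ i, (2 * g i + 1).factorial) →
      (∀ t ∈ A, ∀ τ ∈ Ord_A2 (g := g) f t, (B t τ).ncard = R) →
      {y : kk F × (∀ i, Fin (2 * g i + 1) → kk F) × Y | y.1 ∈ A ∧ y.2.1 ∈ Ord_A2 f y.1 ∧
        y.2.2 ∈ B y.1 y.2.1}.ncard = A.ncard * ((∏ i, (2 * g i + 1).factorial) * R)) := by
  have hO := fun t => ord_A2 dTP h20 (g := g) hm hd t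
  have h1 : ∀ t, {y : (∀ i, Fin (2 * g i + 1) → kk F) × Y | y.1 ∈ Ord_A2 f t ∧
      y.2 ∈ B t y.1}.Finite := fun t =>
    (fib_A2 (Ord_A2 (g := g) f t) (hO t).1 (fun τ => B t τ) (fun τ _ => (hB t τ).1)).1
  refine ⟨?_, ?_, ?_⟩
  · exact (fib_A2 A hA (fun t => {y : (∀ i, Fin (2 * g i + 1) → kk F) × Y | y.1 ∈ Ord_A2 f t ∧
      y.2 ∈ B t y.1}) (fun t _ => h1 t)).1
  · refine fib_le_A2 A hA (fun t => {y : (∀ i, Fin (2 * g i + 1) → kk F) × Y |
      y.1 ∈ Ord_A2 f t ∧ y.2 ∈ B t y.1}) (fun t _ => h1 t) _ fun t _ => ?_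
    exact (fib_le_A2 (Ord_A2 (g := g) f t) (hO t).1 (fun τ => B t τ) (fun τ _ => (hB t τ).1) R
      (fun τ _ => (hB t τ).2)).trans (Nat.mul_le_mul_right _ (hO t).2)
  · intro h2 h3
    refine fib_eq_A2 A hA (fun t => {y : (∀ i, Fin (2 * g i + 1) → kk F) × Y |
      y.1 ∈ Ord_A2 f t ∧ y.2 ∈ B t y.1}) (fun t _ => h1 t) _ fun t ht => ?_
    rw [← h2 t ht]
    exact fib_eq_A2 (Ord_A2 (g := g) f t) (hO t).1 (fun τ => B t τ) (fun τ _ => (hB t τ).1) R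
      (fun τ hτ => h3 t ht τ hτ)

/-- (TRF) -/
theorem gTRF : StTRF := by
  classical
  intro F _ _ h20 ι _ g f hm hd k hk Y E _ Z φ w Q R E₀ hE₀ hφ hZ hX hdis hB hQ hnQ
  set N : ℕ := ∏ i, (2 * g i + 1).factorial with hN
  set q : ℝ := (Fintype.card F : ℝ) ^ k with hq
  set sq : ℝ := Real.sqrt (Fintype.card F) ^ k with hsq
  -- the index set
  have hcard : Fintype.card (∀ i, Equiv.Perm (Fin (2 * g i + 1))) = N := by
    rw [Fintype.card_pi]
    exact Finset.prod_congr rfl fun i _ => by rw [Fintype.card_perm, Fintype.card_fin]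
  -- uniqueness of the index
  have huniq : ∀ σ ε σ' ε', ∀ y ∈ Z σ ε, y ∈ Z σ' ε' → σ = σ' ∧ ε = ε' := by
    intro σ ε σ' ε' y hy hy'
    obtain ⟨-, -, hinj, h1⟩ := hX σ ε y hy
    obtain ⟨-, -, -, h2⟩ := hX σ' ε' y hy'
    have h3 : σ = σ' := by
      funext i
      ext b
      have : y.2.1 i (σ i b) = y.2.1 i (σ' i b) := (h1 i b).symm.trans (h2 i b)
      rw [hinj i this]
    subst h3
    exact ⟨rfl, hdis σ ε ε' y hy hy'⟩
  -- the finite sets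
  obtain ⟨Zf, hZf⟩ : ∃ Zf : (∀ i, Equiv.Perm (Fin (2 * g i + 1))) × E →
      Finset (kk F × (∀ i, Fin (2 * g i + 1) → kk F) × Y), ∀ p y, y ∈ Zf p ↔ y ∈ Z p.1 p.2 :=
    ⟨fun p => (hZ p.1 p.2).1.toFinset, fun p y => (hZ p.1 p.2).1.mem_toFinset⟩
  have hZc : ∀ p, (Zf p).card = (Z p.1 p.2).ncard := by
    intro p
    rw [← Set.ncard_coe_finset]
    congr 1
    ext y
    exact hZf p y
  obtain ⟨U, hU⟩ : ∃ U : Finset (kk F × (∀ i, Fin (2 * g i + 1) → kk F) × Y),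
      ∀ y, y ∈ U ↔ ∃ p, y ∈ Zf p := ⟨univ.biUnion Zf, fun y => by simp⟩
  obtain ⟨ψ, hψ⟩ : ∃ ψ : kk F × (∀ i, Fin (2 * g i + 1) → kk F) × Y → ℝ,
      ∀ y, ψ y = ∑ p, if y ∈ Zf p then φ p.1 p.2 else 0 := ⟨_, fun y => rfl⟩
  have hψ1 : ∀ p, ∀ y ∈ Zf p, ψ y = φ p.1 p.2 := by
    intro p y hy
    rw [hψ, Finset.sum_eq_single p]
    · rw [if_pos hy]
    · intro p' _ hp'
      rw [if_neg]
      intro hy'
      apply hp'
      obtain ⟨h1, h2⟩ := huniq p.1 p.2 p'.1 p'.2 y ((hZf p y).1 hy) ((hZf p' y).1 hy')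
      exact (Prod.ext h1 h2).symm
    · intro h
      exact absurd (mem_univ _) h
  have hsumU : ∑ y ∈ U, ψ y = ∑ p : (∀ i, Equiv.Perm (Fin (2 * g i + 1))) × E,
      φ p.1 p.2 * ((Z p.1 p.2).ncard : ℝ) := by
    have h1 : ∀ y, ψ y = ∑ p, if y ∈ Zf p then φ p.1 p.2 else 0 := hψ
    rw [Finset.sum_congr rfl fun y _ => h1 y, Finset.sum_comm]
    refine Finset.sum_congr rfl fun p _ => ?_
    rw [← Finset.sum_filter]
    have h2 : U.filter (fun y => y ∈ Zf p) = Zf p := by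
      ext y
      rw [Finset.mem_filter]
      exact ⟨fun h => h.2, fun h => ⟨(hU y).2 ⟨p, h⟩, h⟩⟩
    rw [h2, Finset.sum_const, hZc, nsmul_eq_mul, mul_comm]
  -- fibres
  obtain ⟨B, hBdef⟩ : ∃ B : kk F → (∀ i, Fin (2 * g i + 1) → kk F) → Set Y,
      ∀ t τ, B t τ = {r : Y | ∃ σ ε, (t, τ, r) ∈ Z σ ε} := ⟨_, fun t τ => rfl⟩
  have hB' : ∀ t τ, (B t τ).Finite ∧ (B t τ).ncard ≤ R := by
    intro t τ
    rw [hBdef]
    exact hB t τ
  have hUO : ∀ y, y ∈ U → y.2.1 ∈ Ord_A2 f y.1 ∧ y.2.2 ∈ B y.1 y.2.1 ∧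
      y.1 ^ Fintype.card F ^ k = y.1 := by
    intro y hy
    obtain ⟨p, hp⟩ := (hU y).1 hy
    have hp' := (hZf p y).1 hp
    obtain ⟨h1, h2, h3, -⟩ := hX p.1 p.2 y hp'
    refine ⟨⟨h2, h3⟩, ?_, h1⟩
    rw [hBdef]
    exact ⟨p.1, p.2, hp'⟩
  have hBU : ∀ y : kk F × (∀ i, Fin (2 * g i + 1) → kk F) × Y, y.2.2 ∈ B y.1 y.2.1 → y ∈ U := by
    intro y hy
    rw [hBdef] at hy
    obtain ⟨σ, ε, h⟩ := hy
    exact (hU y).2 ⟨(σ, ε), (hZf (σ, ε) y).2 h⟩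
  obtain ⟨hRT1, hRT2, -, hRT4⟩ := aRT F k hk
  -- the exceptional points
  have hbad : |∑ y ∈ U.filter (fun y => ¬ ∃ P ∈ prm F k, et y.1 P.1 = 0), ψ y| ≤
      N * (2 * R * sq) := by
    have hBf := bad_A2 (F := F) aRT k hk
    obtain ⟨h1, h2, -⟩ := fib2_TRF h20 hm hd B R hB'
      {t : kk F | t ^ Fintype.card F ^ k = t ∧ ∀ P ∈ prm F k, et t P.1 ≠ 0} hBf
    have h3 : (U.filter (fun y => ¬ ∃ P ∈ prm F k, et y.1 P.1 = 0)).card ≤
        {t : kk F | t ^ Fintype.card F ^ k = t ∧ ∀ P ∈ prm F k, et t P.1 ≠ 0}.ncard *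
          (N * R) := by
      rw [← Set.ncard_coe_finset]
      refine (Set.ncard_le_ncard ?_ h1).trans h2
      intro y hy
      rw [Finset.mem_coe, Finset.mem_filter] at hy
      obtain ⟨hyU, hyP⟩ := hy
      obtain ⟨h4, h5, h6⟩ := hUO y hyU
      push Not at hyP
      exact ⟨⟨h6, hyP⟩, h4, h5⟩
    have h4 : |∑ y ∈ U.filter (fun y => ¬ ∃ P ∈ prm F k, et y.1 P.1 = 0), ψ y| ≤
        ((U.filter (fun y => ¬ ∃ P ∈ prm F k, et y.1 P.1 = 0)).card : ℝ) := by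
      refine (Finset.abs_sum_le_sum_abs _ _).trans ?_
      refine (Finset.sum_le_card_nsmul _ _ 1 fun y hy => ?_).trans (by simp)
      obtain ⟨p, hp⟩ := (hU y).1 (Finset.mem_filter.1 hy).1
      rw [hψ1 p y hp]
      exact hφ _ _
    refine h4.trans ?_
    have h5 : ((U.filter (fun y => ¬ ∃ P ∈ prm F k, et y.1 P.1 = 0)).card : ℝ) ≤
        ({t : kk F | t ^ Fintype.card F ^ k = t ∧ ∀ P ∈ prm F k, et t P.1 ≠ 0}.ncard : ℝ) *
          (N * R) := by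
      exact_mod_cast h3
    refine h5.trans ?_
    calc _ ≤ (2 * sq) * ((N : ℝ) * R) :=
          mul_le_mul_of_nonneg_right hRT4 (by positivity)
      _ = N * (2 * R * sq) := by ring
  -- the main part
  have hmain : ∑ y ∈ U.filter (fun y => ∃ P ∈ prm F k, et y.1 P.1 = 0), ψ y =
      (N : ℝ) * R * k * ∑ P ∈ Q, w P := by
    have h1 : U.filter (fun y => ∃ P ∈ prm F k, et y.1 P.1 = 0) =
        (prm F k).biUnion fun P => U.filter fun y => et y.1 P.1 = 0 := by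
      ext y
      simp only [Finset.mem_filter, Finset.mem_biUnion]
      constructor
      · rintro ⟨h2, P, hP, h3⟩
        exact ⟨P, hP, h2, h3⟩
      · rintro ⟨P, hP, h2, h3⟩
        exact ⟨h2, P, hP, h3⟩
    rw [h1, Finset.sum_biUnion]
    · have hQs : Q ⊆ prm F k := fun P hP => (hQ P hP).1
      rw [← Finset.sum_subset hQs, Finset.mul_sum]
      · refine Finset.sum_congr rfl fun P hP => ?_
        obtain ⟨hPk, hPG, hPt⟩ := hQ P hP
        have h2 : ∀ y ∈ U.filter (fun y => et y.1 P.1 = 0), ψ y = w P := by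
          intro y hy
          rw [Finset.mem_filter] at hy
          obtain ⟨p, hp⟩ := (hU y).1 hy.1
          rw [hψ1 p y hp]
          obtain ⟨h4, -, -⟩ := hUO y hy.1
          exact (hPt y.1 hy.2 y.2.1 h4.1 h4.2).2 y.2.2 p.1 p.2 ((hZf p y).1 hp)
        rw [Finset.sum_congr rfl h2, Finset.sum_const, nsmul_eq_mul]
        congr 1
        have hRf : {t : kk F | et t P.1 = 0}.Finite :=
          Set.finite_of_ncard_pos (by rw [(hRT1 P hPk).1]; exact hk)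
        obtain ⟨h3, -, h4⟩ := fib2_TRF h20 hm hd B R hB' {t : kk F | et t P.1 = 0} hRf
        have h5 := h4 (fun t ht => (dTP F h20 ι g f hm hd k P hk hPk t ht).1 hPG)
          (fun t ht τ hτ => by rw [hBdef]; exact (hPt t ht τ hτ.1 hτ.2).1)
        have h6 : (U.filter (fun y => et y.1 P.1 = 0)).card =
            {t : kk F | et t P.1 = 0}.ncard * (N * R) := by
          rw [← h5, ← Set.ncard_coe_finset]
          congr 1
          ext y
          rw [Finset.mem_coe, Finset.mem_filter]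
          constructor
          · rintro ⟨h7, h8⟩
            obtain ⟨h9, h10, -⟩ := hUO y h7
            exact ⟨h8, h9, h10⟩
          · rintro ⟨h8, -, h10⟩
            exact ⟨hBU y h10, h8⟩
        rw [h6, (hRT1 P hPk).1]
        push_cast
        ring
      · intro P hPk hPQ
        refine Finset.sum_eq_zero fun y hy => ?_
        rw [Finset.mem_filter] at hy
        obtain ⟨p, hp⟩ := (hU y).1 hy.1
        rw [hψ1 p y hp]
        exact hnQ P hPk hPQ y.1 hy.2 y.2.1 y.2.2 p.1 p.2 ((hZf p y).1 hp)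
    · intro P hP P' hP' hne
      rw [Function.onFun, Finset.disjoint_left]
      intro y hy hy'
      rw [Finset.mem_filter] at hy hy'
      exact hne (((hRT1 P' hP').2 y.1 hy'.2).2 P hy.2)
  have hsplit := Finset.sum_filter_add_sum_filter_not U
    (fun y => ∃ P ∈ prm F k, et y.1 P.1 = 0) ψ
  rw [hmain] at hsplit
  -- the other side
  have hside : |∑ p : (∀ i, Equiv.Perm (Fin (2 * g i + 1))) × E,
      φ p.1 p.2 * ((Z p.1 p.2).ncard : ℝ) - (∑ σ, ∑ ε, φ σ ε) * q| ≤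
      N * (Fintype.card E * E₀) := by
    have h1 : (∑ σ, ∑ ε, φ σ ε) * q =
        ∑ p : (∀ i, Equiv.Perm (Fin (2 * g i + 1))) × E, φ p.1 p.2 * q := by
      rw [← Finset.sum_mul, Fintype.sum_prod_type]
    rw [h1, ← Finset.sum_sub_distrib]
    refine (Finset.abs_sum_le_sum_abs _ _).trans ?_
    refine (Finset.sum_le_card_nsmul _ _ E₀ fun p _ => ?_).trans ?_
    · rw [← mul_sub, abs_mul]
      calc |φ p.1 p.2| * |((Z p.1 p.2).ncard : ℝ) - q| ≤ 1 * E₀ :=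
            mul_le_mul (hφ _ _) (hZ _ _).2 (abs_nonneg _) zero_le_one
        _ = E₀ := one_mul _
    · rw [Finset.card_univ, Fintype.card_prod, hcard, nsmul_eq_mul]
      push_cast
      exact le_of_eq (by ring)
  rw [← hsumU, ← hsplit] at hside
  set a₁ := (N : ℝ) * R * k * ∑ P ∈ Q, w P with ha₁
  set a₂ := ∑ y ∈ U.filter (fun y => ¬ ∃ P ∈ prm F k, et y.1 P.1 = 0), ψ y with ha₂
  have h9 : a₁ - (∑ σ, ∑ ε, φ σ ε) * q = (a₁ + a₂ - (∑ σ, ∑ ε, φ σ ε) * q) - a₂ := by ring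
  rw [h9]
  calc |(a₁ + a₂ - (∑ σ, ∑ ε, φ σ ε) * q) - a₂| ≤ |a₁ + a₂ - (∑ σ, ∑ ε, φ σ ε) * q| + |a₂| :=
        abs_sub _ _
    _ ≤ N * (Fintype.card E * E₀) + N * (2 * R * sq) := add_le_add hside hbad
    _ = _ := by ring

end Pool.Agent.Helper54.GL
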