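import Pool.Agent.Helper54.GL.StQ
import Pool.Agent.Helper54.GT.A_EB
import Pool.Agent.Helper54.GT.A_DIV

/-!
# GL, Q_TYP: types of primes and cycles of the Frobenius
-/

set_option autoImplicit false

namespace Pool.Agent.Helper54.GL

open Polynomial Finset Filter Topology
open Pool.Agent.Helper54.PT (Prm prm IsAbsP IsAbsInf mem_prm)
open Pool.Agent.Helper3.HY (fK RR LL kp red TwAt selmerSet TType)
open Pool.Agent.Helper3.GT (Gd Bd GdF HypF facs TyI TyT Rp ep om SelS MS XS dgS GeoSn EvP)
open Pool.Agent.Helper54.GT (kk Om et ev av em rv Rts Hyp0 X0 X1 X2 aEB aDIV)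

/-- Four invariant sets. -/
private theorem four_TYP {n g : ℕ} (hn : n = 2 * g + 1) (hg : 1 ≤ g) (σ : Equiv.Perm (Fin n))
    (b₀ : Fin n) (hb : σ b₀ = b₀)
    (hc : {T : Finset (Fin n) | T.map σ.toEmbedding = T}.ncard ≤ 4) (T : Finset (Fin n))
    (hT : T.map σ.toEmbedding = T) (hbT : b₀ ∉ T) : T = ∅ ∨ T = {b₀}ᶜ := by
  classical
  set A : Finset (Finset (Fin n)) := {∅, univ, {b₀}, {b₀}ᶜ} with hA
  have hcA : A.card = 4 := by
    have c1 : (∅ : Finset (Fin n)).card = 0 := card_empty
    have c2 : (univ : Finset (Fin n)).card = 2 * g + 1 := by rw [card_univ, Fintype.card_fin, hn]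
    have c3 : ({b₀} : Finset (Fin n)).card = 1 := card_singleton _
    have c4 : ({b₀}ᶜ : Finset (Fin n)).card = 2 * g := by
      rw [card_compl, Fintype.card_fin, card_singleton]; omega
    rw [hA, card_insert_of_notMem, card_insert_of_notMem, card_insert_of_notMem, card_singleton]
    · rw [mem_singleton]
      intro h; rw [h] at c3; omega
    · rw [mem_insert, mem_singleton]
      rintro (h | h)
      · rw [h] at c2; omega
      · rw [h] at c2; omega
    · rw [mem_insert, mem_insert, mem_singleton]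
      rintro (h | h | h)
      · rw [h] at c1; omega
      · rw [h] at c1; omega
      · rw [h] at c1; omega
  have hsub : (A : Set (Finset (Fin n))) ⊆ {T : Finset (Fin n) | T.map σ.toEmbedding = T} := by
    intro U hU
    rw [mem_coe, hA, mem_insert, mem_insert, mem_insert, mem_singleton] at hU
    have h3 : ({b₀} : Finset (Fin n)).map σ.toEmbedding = {b₀} := by
      rw [map_singleton]; simp [hb]
    have h2 : (univ : Finset (Fin n)).map σ.toEmbedding = univ := by
      exact map_univ_equiv σ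
    rcases hU with rfl | rfl | rfl | rfl
    · exact map_empty _
    · exact h2
    · exact h3
    · show ({b₀}ᶜ : Finset (Fin n)).map σ.toEmbedding = {b₀}ᶜ
      ext x
      rw [mem_map_equiv, mem_compl, mem_compl, mem_singleton, mem_singleton,
        Equiv.symm_apply_eq, hb]
  have hfin : {T : Finset (Fin n) | T.map σ.toEmbedding = T}.Finite := Set.toFinite _
  have heq := Set.eq_of_subset_of_ncard_le hsub (by rw [Set.ncard_coe_finset, hcA]; exact hc) hfin
  have hTm : T ∈ (A : Set (Finset (Fin n))) := by rw [heq]; exact hT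
  rw [mem_coe, hA, mem_insert, mem_insert, mem_insert, mem_singleton] at hTm
  rcases hTm with h | h | h | h
  · exact Or.inl h
  · exact absurd (h ▸ mem_univ b₀) hbT
  · exact absurd (h ▸ mem_singleton_self b₀) hbT
  · exact Or.inr h

/-- Two irreducible factors. -/
private theorem two_TYP {κ : Type} [Field κ] (a : κ) (p : κ[X]) (hp : p.Monic)
    (hi : Irreducible p) :
    {ψ : κ[X] | ψ.Monic ∧ Irreducible ψ ∧ ψ ∣ (X - C a) * p}.ncard ≤ 2 := by
  classical
  have hsub : {ψ : κ[X] | ψ.Monic ∧ Irreducible ψ ∧ ψ ∣ (X - C a) * p} ⊆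
      ((({X - C a, p} : Finset κ[X])) : Set κ[X]) := by
    rintro ψ ⟨h1, h2, h3⟩
    rw [mem_coe, mem_insert, mem_singleton]
    rcases h2.prime.dvd_or_dvd h3 with h | h
    · left
      exact eq_of_monic_of_associated h1 (monic_X_sub_C a)
        (h2.associated_of_dvd (irreducible_X_sub_C a) h)
    · right
      exact eq_of_monic_of_associated h1 hp (h2.associated_of_dvd hi h)
  calc _ ≤ ((({X - C a, p} : Finset κ[X])) : Set κ[X]).ncard :=
        Set.ncard_le_ncard hsub (finite_toSet _)
    _ = ({X - C a, p} : Finset κ[X]).card := Set.ncard_coe_finset _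
    _ ≤ 2 := card_le_two

/-- (TYP) Types of primes and cycles. -/
theorem gTYP : StTYP := by
  classical
  intro F _ _ h2 ι _ g f hg hm hd k hk P hP t ht τ σ hX i
  obtain ⟨hfin, hcard, j, hj⟩ := aEB F P t ht
  letI : Fintype (kp P) := Fintype.ofFinite _
  have : Fact (Irreducible P.1) := ⟨P.2.2⟩
  have hQ : Fintype.card (kp P) = Fintype.card F ^ k := by
    rw [← Nat.card_eq_fintype_card, hcard, mem_prm.1 hP]
  obtain ⟨hX1, hX2, hX3, hX4⟩ := hX
  have hcomp : j.comp (red P) = et t := RingHom.ext hj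
  have hmon : ((f i).map (red P)).Monic := (hm i).map _
  have hmap : ((f i).map (red P)).map j = ∏ b, (X - C (τ i b)) := by
    rw [Polynomial.map_map, hcomp]; exact hX2 i
  obtain ⟨D1, D2, D3⟩ := aDIV (kp P) (kk F) j (2 * g i + 1) ((f i).map (red P)) (τ i) (σ i) hmon
    hmap (hX3 i) (fun b => by rw [hQ]; exact hX4 i b)
  refine ⟨(D2 (by omega)).symm, ?_, ?_⟩
  · rintro ⟨a, p, hpm, hpi, hpd, hh⟩
    have hroot : (((f i).map (red P)).map j).eval (j a) = 0 := by
      rw [hh, Polynomial.map_mul, Polynomial.map_sub, map_X, map_C, eval_mul]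
      simp
    rw [hmap, eval_prod, prod_eq_zero_iff] at hroot
    obtain ⟨b₀, -, hb₀⟩ := hroot
    rw [eval_sub, eval_X, eval_C, sub_eq_zero] at hb₀
    have hfix : σ i b₀ = b₀ := by
      apply hX3 i
      rw [← hX4 i b₀]
      show τ i b₀ ^ Fintype.card F ^ k = τ i b₀
      rw [← hb₀, ← map_pow, ← hQ, FiniteField.pow_card]
    refine ⟨b₀, hfix, ?_⟩
    intro T hT hbT
    refine four_TYP rfl (hg i) (σ i) b₀ hfix ?_ T hT hbT
    rw [D1, hh]
    calc 2 ^ _ ≤ 2 ^ 2 := Nat.pow_le_pow_right (by norm_num) (two_TYP a p hpm hpi)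
      _ = 4 := by norm_num
  · rintro ⟨b₀, hb1, hb2⟩
    exact D3 (g i) b₀ rfl (hg i) hb1 hb2

end Pool.Agent.Helper54.GL
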