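import Pool.Agent.Helper54.GL.AllP
import Pool.Agent.Helper54.GL.GTF
import Pool.Agent.Helper54.GL.Num
import Pool.Agent.Helper54.GL.Bridge
import Pool.Agent.Helper54.GL.Q_CYC
import Pool.Agent.Helper54.GL.Q_TRF
import Pool.Agent.Helper54.GL.Q_TYP
import Pool.Agent.Helper54.GL.Q_SQ2
import Pool.Agent.Helper54.GL.Q_CNI
import Pool.Agent.Helper54.GL.Q_KI2
import Pool.Agent.Helper54.GL.Q_CN3
import Pool.Agent.Helper54.GL.Q_CS1
import Pool.Agent.Helper54.GL.Q_CS2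
import Pool.Agent.Helper54.GL.Q_CS3
import Pool.Agent.Helper54.GL.Q_CST
import Pool.Agent.Helper54.GL.Q_EXPN
import Pool.Agent.Helper54.GL.Q_BBF
import Pool.Agent.Helper54.GL.Q_SGI
import Pool.Agent.Helper54.GL.M_STE
import Pool.Agent.Helper54.GL.M_POW
import Pool.Agent.Helper54.GL.M_CTR2
import Pool.Agent.Helper54.GL.M_SB2
import Pool.Agent.Helper54.GL.M_CRT2
import Pool.Agent.Helper54.GL.M_SC2
import Pool.Agent.Helper54.GL.M_CG
import Pool.Agent.Helper54.GL.M_CU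
import Pool.Agent.Helper54.GL.M_LWI
import Pool.Agent.Helper54.GL.M_GLM
import Pool.Agent.Helper54.GL.M_DSR
import Pool.Agent.Helper54.GL.M_GSR
import Pool.Agent.Helper54.GL.M_HSR
import Pool.Agent.Helper54.GL.M_GLX

/-!
# GL: the main theorem
-/

set_option autoImplicit false

namespace Pool.Agent.Helper54.GL

open Pool.Agent.Helper3.GT (hFAC hSG hSQF hIRR)

theorem qCNI : StCNI := gCNI gCYC gTRF gTYP
theorem qCN3 : StCN3 := gCN3 gKI2
theorem qCS1 : StCS1 := gCS1 gTRF gTYP gSQ2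
theorem qCS2 : StCS2 := gCS2 gTRF gTYP
theorem qCS3 : StCS3 := gCS3 gTRF gTYP gSQ2 qCN3
theorem qCST : StCST := gCST qCS1 qCS2 qCS3
theorem qSGI : StSGI := gSGI qCNI qCS2 gEXPN gBBF
theorem mSTE : StSTE := gSTE tCONTR tXH hFAC
theorem mPOW : StPOW := gPOW tFIN hSG
theorem mCTR2 : StCTR2 := gCTR2 tCONTR tFIN tOE hFAC tA1 tXH
theorem mSB2 : StSB2 := gSB2 tL1 hSG tFIN
theorem mSC2 : StSC2 := gSC2 tINV
theorem mCG : StCG := gCG tRT hIRR
theorem mCU : StCU := gCU qCST gEXPN gBBF qCNI tFIN hSG tOE hFAC tXH hIRR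
theorem mLWI : StLWI :=
  gLWI hIRR hFAC hSQF gBBF gCRT2 mSC2 mSTE mPOW mCTR2 mCG mCU qCNI qSGI gSM
theorem mGLM : StGLM := gGLM hIRR mLWI pLAW mSC2 mSB2 gSM gBBF
theorem mHSR : StHSR := gHSR gDSR gGSR
theorem mGLX : StGLX := gGLX mGLM mHSR gDSR hIRR

end Pool.Agent.Helper54.GL
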