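import Pool.Agent.Helper54.GL.StP

/-! # GL: contraction of the kernel (module K_KB) -/

set_option autoImplicit false

namespace Pool.Agent.Helper54.GL

open Finset

private theorem step_ne_KB {ι : Type} [DecidableEq ι] {Λ : ℝ} {φ : (ι → ℕ) → ℝ}
    (hφ : LipK Λ φ) (x : ι → ℕ) (i l : ι) (h : l ≠ i) :
    |Bi l φ (Function.update x i (x i + 1)) - Bi l φ x| ≤ Λ * Real.sqrt 2 ^ x i := by
  have h1 : ∀ v : ℕ, |φ (Function.update (Function.update x i (x i + 1)) l v) -
      φ (Function.update x l v)| ≤ Λ * Real.sqrt 2 ^ x i := by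
    intro v
    have h2 := hφ (Function.update x l v) i
    rw [Function.update_of_ne (Ne.symm h)] at h2
    rwa [Function.update_comm (Ne.symm h)]
  have h3 : (Function.update x i (x i + 1)) l = x l := Function.update_of_ne h _ _
  unfold Bi
  rw [h3]
  set t : ℝ := (1 / 2) ^ x l with ht
  have ht0 : 0 ≤ t := by positivity
  have ht1 : t ≤ 1 := by
    rw [ht]
    exact pow_le_one₀ (by norm_num) (by norm_num)
  have e1 := h1 (x l + 1)
  have e2 := h1 (x l - 1)
  rw [abs_le] at e1 e2 ⊢
  constructor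
  · nlinarith [mul_nonneg ht0 (by linarith [e1.1] : 0 ≤ φ (Function.update (Function.update x i
      (x i + 1)) l (x l + 1)) - φ (Function.update x l (x l + 1)) + Λ * Real.sqrt 2 ^ x i),
      mul_nonneg (sub_nonneg.2 ht1) (by linarith [e2.1] : 0 ≤ φ (Function.update (Function.update x i
      (x i + 1)) l (x l - 1)) - φ (Function.update x l (x l - 1)) + Λ * Real.sqrt 2 ^ x i)]
  · nlinarith [mul_nonneg ht0 (by linarith [e1.2] : 0 ≤ Λ * Real.sqrt 2 ^ x i -
      (φ (Function.update (Function.update x i (x i + 1)) l (x l + 1)) -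
        φ (Function.update x l (x l + 1)))),
      mul_nonneg (sub_nonneg.2 ht1) (by linarith [e2.2] : 0 ≤ Λ * Real.sqrt 2 ^ x i -
      (φ (Function.update (Function.update x i (x i + 1)) l (x l - 1)) -
        φ (Function.update x l (x l - 1))))]

private theorem step_eq_KB {ι : Type} [DecidableEq ι] {Λ : ℝ} {φ : (ι → ℕ) → ℝ} (_hΛ : 0 ≤ Λ)
    (hφ : LipK Λ φ) (x : ι → ℕ) (i : ι) (a b : ℝ) (hb : 0 ≤ b) (hab : b ≤ 2 * a) :
    |a * (φ (Function.update x i (x i + 1)) - φ x) +
      b * (Bi i φ (Function.update x i (x i + 1)) - Bi i φ x)| ≤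
      (a + b * (Real.sqrt 2 / 2) - b * (1 / 2) ^ (x i + 1)) * (Λ * Real.sqrt 2 ^ x i) := by
  have hs2 : Real.sqrt 2 * Real.sqrt 2 = 2 := Real.mul_self_sqrt (by norm_num)
  have hs0 : 0 < Real.sqrt 2 := Real.sqrt_pos.2 (by norm_num)
  have e0 : (Function.update x i (x i + 1)) i = x i + 1 := Function.update_self _ _ _
  have e1 : Function.update (Function.update x i (x i + 1)) i (x i + 1 + 1) =
      Function.update x i (x i + 1 + 1) := Function.update_idem _ _ _
  have e2 : Function.update (Function.update x i (x i + 1)) i (x i + 1 - 1) = x := by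
    rw [Function.update_idem, Nat.add_sub_cancel, Function.update_eq_self]
  have d1 : |φ (Function.update x i (x i + 1 + 1)) - φ (Function.update x i (x i + 1))| ≤
      Λ * Real.sqrt 2 ^ (x i + 1) := by
    have := hφ (Function.update x i (x i + 1)) i
    rwa [e0, e1] at this
  have d0 := hφ x i
  set h : ℝ := (1 / 2) ^ (x i + 1) with hh
  have hh0 : 0 ≤ h := by positivity
  have hh2 : (1 / 2 : ℝ) ^ x i = 2 * h := by
    rw [hh, pow_succ]; ring
  have hh1 : 2 * h ≤ 1 := by
    rw [← hh2]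
    exact pow_le_one₀ (by norm_num) (by norm_num)
  have dm : (1 - 2 * h) * |φ x - φ (Function.update x i (x i - 1))| ≤
      (1 - 2 * h) * (Λ * Real.sqrt 2 ^ x i * (Real.sqrt 2 / 2)) := by
    rcases Nat.eq_zero_or_pos (x i) with h0 | h0
    · have : 1 - 2 * h = 0 := by
        rw [← hh2, h0]; norm_num
      rw [this]; simp
    · apply mul_le_mul_of_nonneg_left _ (by linarith)
      have h3 := hφ (Function.update x i (x i - 1)) i
      have e3 : (Function.update x i (x i - 1)) i = x i - 1 := Function.update_self _ _ _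
      rw [e3, Function.update_idem, Nat.sub_add_cancel h0, Function.update_eq_self] at h3
      refine h3.trans (le_of_eq ?_)
      obtain ⟨k, hk⟩ : ∃ k, x i = k + 1 := ⟨x i - 1, by omega⟩
      rw [hk, Nat.add_sub_cancel, pow_succ]
      have : Λ * (Real.sqrt 2 ^ k * Real.sqrt 2) * (Real.sqrt 2 / 2) =
        Λ * Real.sqrt 2 ^ k * (Real.sqrt 2 * Real.sqrt 2) / 2 := by ring
      rw [this, hs2]; ring
  have hBi : a * (φ (Function.update x i (x i + 1)) - φ x) +
      b * (Bi i φ (Function.update x i (x i + 1)) - Bi i φ x) =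
      (a - b * h) * (φ (Function.update x i (x i + 1)) - φ x) +
      b * h * (φ (Function.update x i (x i + 1 + 1)) - φ (Function.update x i (x i + 1))) +
      b * ((1 - 2 * h) * (φ x - φ (Function.update x i (x i - 1)))) := by
    unfold Bi
    rw [e0, e1, e2, ← hh, hh2]
    ring
  have hc : 0 ≤ a - b * h := by nlinarith
  rw [hBi]
  have t1 : |(a - b * h) * (φ (Function.update x i (x i + 1)) - φ x)| ≤
      (a - b * h) * (Λ * Real.sqrt 2 ^ x i) := by
    rw [abs_mul, abs_of_nonneg hc]
    exact mul_le_mul_of_nonneg_left d0 hc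
  have t2 : |b * h * (φ (Function.update x i (x i + 1 + 1)) - φ (Function.update x i (x i + 1)))| ≤
      b * h * (Λ * Real.sqrt 2 ^ (x i + 1)) := by
    rw [abs_mul, abs_of_nonneg (mul_nonneg hb hh0)]
    exact mul_le_mul_of_nonneg_left d1 (mul_nonneg hb hh0)
  have t3 : |b * ((1 - 2 * h) * (φ x - φ (Function.update x i (x i - 1))))| ≤
      b * ((1 - 2 * h) * (Λ * Real.sqrt 2 ^ x i * (Real.sqrt 2 / 2))) := by
    rw [abs_mul, abs_of_nonneg hb, abs_mul, abs_of_nonneg (by linarith : 0 ≤ 1 - 2 * h)]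
    exact mul_le_mul_of_nonneg_left dm hb
  refine (abs_add_three _ _ _).trans ((add_le_add (add_le_add t1 t2) t3).trans (le_of_eq ?_))
  rw [pow_succ]
  ring

theorem gKB : StKB := by
  intro ι _ _ a b ha hb hab hsum
  have hbs : ∀ i, b i ≤ 1 := by
    intro i
    have : b i ≤ ∑ l, b l := Finset.single_le_sum (fun l _ => (hb l).le) (Finset.mem_univ i)
    linarith
  have hsq : Real.sqrt 2 ≤ 3 / 2 := by
    rw [Real.sqrt_le_left (by norm_num)]
    norm_num
  rcases isEmpty_or_nonempty ι with hι | hι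
  · exact ⟨0, le_rfl, one_pos, fun Λ φ _ _ x i => (hι.false i).elim⟩
  obtain ⟨i₀, hi₀⟩ := Finite.exists_min b
  refine ⟨1 - b i₀ / 4, by linarith [hbs i₀], by linarith [hb i₀], fun Λ φ hΛ hφ x i => ?_⟩
  set T : ℝ := Λ * Real.sqrt 2 ^ x i with hT
  have hT0 : 0 ≤ T := by positivity
  have hsplit : Kn a b φ (Function.update x i (x i + 1)) - Kn a b φ x =
      (a * (φ (Function.update x i (x i + 1)) - φ x) +
        b i * (Bi i φ (Function.update x i (x i + 1)) - Bi i φ x)) +
      ∑ l ∈ univ.erase i, b l * (Bi l φ (Function.update x i (x i + 1)) - Bi l φ x) := by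
    unfold Kn
    rw [← Finset.add_sum_erase univ (fun l => b l * Bi l φ (Function.update x i (x i + 1)))
      (Finset.mem_univ i), ← Finset.add_sum_erase univ (fun l => b l * Bi l φ x)
      (Finset.mem_univ i)]
    have : ∑ l ∈ univ.erase i, b l * (Bi l φ (Function.update x i (x i + 1)) - Bi l φ x) =
        ∑ l ∈ univ.erase i, b l * Bi l φ (Function.update x i (x i + 1)) -
          ∑ l ∈ univ.erase i, b l * Bi l φ x := by
      rw [← Finset.sum_sub_distrib]
      exact Finset.sum_congr rfl fun l _ => by ring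
    rw [this]
    ring
  have h1 := step_eq_KB hΛ hφ x i a (b i) (hb i).le (hab i)
  have h2 : |∑ l ∈ univ.erase i, b l * (Bi l φ (Function.update x i (x i + 1)) - Bi l φ x)| ≤
      (∑ l ∈ univ.erase i, b l) * T := by
    refine (Finset.abs_sum_le_sum_abs _ _).trans ?_
    rw [Finset.sum_mul]
    refine Finset.sum_le_sum fun l hl => ?_
    rw [abs_mul, abs_of_nonneg (hb l).le]
    exact mul_le_mul_of_nonneg_left (step_ne_KB hφ x i l (Finset.ne_of_mem_erase hl)) (hb l).le
  have h3 : b i + ∑ l ∈ univ.erase i, b l = ∑ l, b l :=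
    Finset.add_sum_erase univ b (Finset.mem_univ i)
  have h4 : ∑ l ∈ univ.erase i, b l = 1 - a - b i := by linarith
  rw [h4] at h2
  rw [hsplit]
  refine (abs_add_le _ _).trans ((add_le_add h1 h2).trans ?_)
  have h5 : (a + b i * (Real.sqrt 2 / 2) - b i * (1 / 2) ^ (x i + 1)) + (1 - a - b i) ≤
      1 - b i₀ / 4 := by
    have h6 : 0 ≤ b i * (1 / 2) ^ (x i + 1) := mul_nonneg (hb i).le (by positivity)
    have h7 : b i * (Real.sqrt 2 / 2) ≤ b i * (3 / 4) :=
      mul_le_mul_of_nonneg_left (by linarith) (hb i).le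
    have h8 := hi₀ i
    linarith
  calc _ = ((a + b i * (Real.sqrt 2 / 2) - b i * (1 / 2) ^ (x i + 1)) + (1 - a - b i)) * T := by
        ring
    _ ≤ (1 - b i₀ / 4) * T := mul_le_mul_of_nonneg_right h5 hT0
    _ = (1 - b i₀ / 4) * Λ * Real.sqrt 2 ^ x i := by rw [hT]; ring

end Pool.Agent.Helper54.GL
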