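import Pool.Agent.Helper54.GL.StP

/-! GL module KC: functions with mean zero in a coordinate are small. -/

set_option autoImplicit false

namespace Pool.Agent.Helper54.GL

open Finset

private theorem sq2_KC : (4 : ℝ) ≤ 3 * Real.sqrt 2 := by
  have h : (4 / 3 : ℝ) ≤ Real.sqrt 2 := Real.le_sqrt_of_sq_le (by norm_num)
  linarith

private theorem walk_KC {ι : Type} [DecidableEq ι] (i : ι) (Λ : ℝ) (φ : (ι → ℕ) → ℝ)
    (hΛ : 0 ≤ Λ) (hL : LipK Λ φ) (x : ι → ℕ) (n : ℕ) :
    |φ (Function.update x i n) - φ (Function.update x i 0)| ≤ 3 * Λ * Real.sqrt 2 ^ n := by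
  induction n with
  | zero => simp; positivity
  | succ n ih =>
    have h := hL (Function.update x i n) i
    simp only [Function.update_self, Function.update_idem] at h
    have h2 : 0 ≤ Λ * Real.sqrt 2 ^ n := by positivity
    have h3 := sq2_KC
    calc |φ (Function.update x i (n + 1)) - φ (Function.update x i 0)|
        ≤ |φ (Function.update x i (n + 1)) - φ (Function.update x i n)| +
          |φ (Function.update x i n) - φ (Function.update x i 0)| := abs_sub_le _ _ _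
      _ ≤ Λ * Real.sqrt 2 ^ n + 3 * Λ * Real.sqrt 2 ^ n := add_le_add h ih
      _ = 4 * (Λ * Real.sqrt 2 ^ n) := by ring
      _ ≤ (3 * Real.sqrt 2) * (Λ * Real.sqrt 2 ^ n) := mul_le_mul_of_nonneg_right h3 h2
      _ = 3 * Λ * Real.sqrt 2 ^ (n + 1) := by rw [pow_succ]; ring

private theorem dist_KC {ι : Type} [DecidableEq ι] (i : ι) (Λ : ℝ) (φ : (ι → ℕ) → ℝ)
    (hΛ : 0 ≤ Λ) (hL : LipK Λ φ) (x : ι → ℕ) (j : ℕ) :
    |φ x - φ (Function.update x i j)| ≤ 3 * Λ * (Real.sqrt 2 ^ x i + Real.sqrt 2 ^ j) := by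
  have h1 := walk_KC i Λ φ hΛ hL x (x i)
  have h2 := walk_KC i Λ φ hΛ hL x j
  rw [Function.update_eq_self] at h1
  calc |φ x - φ (Function.update x i j)|
      ≤ |φ x - φ (Function.update x i 0)| +
        |φ (Function.update x i 0) - φ (Function.update x i j)| := abs_sub_le _ _ _
    _ ≤ 3 * Λ * Real.sqrt 2 ^ x i + 3 * Λ * Real.sqrt 2 ^ j := by
        refine add_le_add h1 ?_
        rw [abs_sub_comm]; exact h2
    _ = 3 * Λ * (Real.sqrt 2 ^ x i + Real.sqrt 2 ^ j) := by ring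

theorem gKC (h1 : StKA) : StKC := by
  obtain ⟨-, -, -, hpos, hs, hs2, hsum, -⟩ := h1
  set S : ℝ := ∑' r, pr r * Real.sqrt 2 ^ r with hS
  have hS0 : 0 ≤ S := tsum_nonneg fun r => mul_nonneg (hpos r).le (by positivity)
  refine ⟨3 * (1 + S), by positivity, ?_⟩
  intro ι _ _ i Λ N φ hΛ hN hL hM x
  have hsN : Summable fun j => pr j * φ (Function.update x i j) := by
    refine Summable.of_norm_bounded (g := fun j => pr j * N) (hs.mul_right N) fun j => ?_
    rw [Real.norm_eq_abs, abs_mul, abs_of_pos (hpos j)]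
    exact mul_le_mul_of_nonneg_left (hN _) (hpos j).le
  have hx : Summable fun j => pr j * φ x := hs.mul_right _
  have h0 : φ x = ∑' j, pr j * (φ x - φ (Function.update x i j)) := by
    have : (fun j => pr j * (φ x - φ (Function.update x i j))) =
        fun j => pr j * φ x - pr j * φ (Function.update x i j) := by
      funext j; ring
    rw [this, hx.tsum_sub hsN, hM x, tsum_mul_right, hsum]; ring
  have hb : Summable fun j => pr j * (3 * Λ * (Real.sqrt 2 ^ x i + Real.sqrt 2 ^ j)) := by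
    have h3 : (fun j => pr j * (3 * Λ * (Real.sqrt 2 ^ x i + Real.sqrt 2 ^ j))) =
        fun j => pr j * (3 * Λ * Real.sqrt 2 ^ x i) + (pr j * Real.sqrt 2 ^ j) * (3 * Λ) := by
      funext j; ring
    rw [h3]; exact (hs.mul_right _).add (hs2.mul_right _)
  have hv : ∑' j, pr j * (3 * Λ * (Real.sqrt 2 ^ x i + Real.sqrt 2 ^ j)) =
      3 * Λ * Real.sqrt 2 ^ x i + S * (3 * Λ) := by
    have h3 : (fun j => pr j * (3 * Λ * (Real.sqrt 2 ^ x i + Real.sqrt 2 ^ j))) =
        fun j => pr j * (3 * Λ * Real.sqrt 2 ^ x i) + (pr j * Real.sqrt 2 ^ j) * (3 * Λ) := by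
      funext j; ring
    rw [h3, (hs.mul_right _).tsum_add (hs2.mul_right _), tsum_mul_right, tsum_mul_right, hsum]
    ring
  have hle : |φ x| ≤ ∑' j, pr j * (3 * Λ * (Real.sqrt 2 ^ x i + Real.sqrt 2 ^ j)) := by
    rw [h0, ← Real.norm_eq_abs]
    refine tsum_of_norm_bounded hb.hasSum fun j => ?_
    rw [Real.norm_eq_abs, abs_mul, abs_of_pos (hpos j)]
    exact mul_le_mul_of_nonneg_left (dist_KC i Λ φ hΛ hL x j) (hpos j).le
  have h1' : (1 : ℝ) ≤ Real.sqrt 2 ^ x i := by
    refine one_le_pow₀ ?_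
    exact Real.one_le_sqrt.mpr (by norm_num)
  calc |φ x| ≤ 3 * Λ * Real.sqrt 2 ^ x i + S * (3 * Λ) := by rw [← hv]; exact hle
    _ ≤ 3 * Λ * Real.sqrt 2 ^ x i + S * (3 * Λ) * Real.sqrt 2 ^ x i := by
        have : 0 ≤ S * (3 * Λ) := by positivity
        nlinarith
    _ = 3 * (1 + S) * Λ * Real.sqrt 2 ^ x i := by ring

end Pool.Agent.Helper54.GL
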