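import Pool.Agent.Helper54.GL.StP

/-!
# GL, module KD: the kernel preserves the mean value zero
-/

set_option autoImplicit false

namespace Pool.Agent.Helper54.GL

open Finset

private theorem hs_congr_KD {f g : ℕ → ℝ} {a : ℝ} (h : ∀ j, f j = g j) (hf : HasSum f a) :
    HasSum g a := by
  rwa [funext h] at hf

private theorem half_pow_mem_KD (n : ℕ) : (0 : ℝ) ≤ (1 / 2) ^ n ∧ ((1 / 2 : ℝ)) ^ n ≤ 1 :=
  ⟨by positivity, pow_le_one₀ (by norm_num) (by norm_num)⟩

private theorem Bi_le_KD {ι : Type} [DecidableEq ι] (i : ι) (φ : (ι → ℕ) → ℝ) (N : ℝ)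
    (hN : ∀ x, |φ x| ≤ N) (x : ι → ℕ) : |Bi i φ x| ≤ N := by
  obtain ⟨h0, h1⟩ := half_pow_mem_KD (x i)
  unfold Bi
  refine (abs_add_le _ _).trans ?_
  rw [abs_mul, abs_mul, abs_of_nonneg h0, abs_of_nonneg (sub_nonneg.2 h1)]
  have e1 := mul_le_mul_of_nonneg_left (hN (Function.update x i (x i + 1))) h0
  have e2 := mul_le_mul_of_nonneg_left (hN (Function.update x i (x i - 1))) (sub_nonneg.2 h1)
  linarith

private theorem line_KD (h1 : StKA) (f : ℕ → ℝ) (N : ℝ) (hN : ∀ j, |f j| ≤ N)
    (hf : HasSum (fun j => pr j * f j) 0) :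
    HasSum (fun j => pr j * ((1 / 2) ^ j * f (j + 1) + (1 - (1 / 2) ^ j) * f (j - 1))) 0 := by
  obtain ⟨-, -, -, hpos, hsum, -, -, hdb⟩ := h1
  have hbd : ∀ g : ℕ → ℝ, (∀ j, |g j| ≤ N) → Summable (fun j => pr j * g j) := by
    intro g hg
    refine Summable.of_norm_bounded (hsum.mul_right N) fun j => ?_
    rw [Real.norm_eq_abs, abs_mul, abs_of_pos (hpos j)]
    exact mul_le_mul_of_nonneg_left (hg j) (hpos j).le
  have hu : Summable (fun j => pr j * (1 - (1 / 2) ^ j) * f j) := by
    have := hbd (fun j => (1 - (1 / 2) ^ j) * f j) (fun j => by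
      obtain ⟨h0, h1⟩ := half_pow_mem_KD j
      rw [abs_mul, abs_of_nonneg (sub_nonneg.2 h1)]
      have e1 : (1 - (1 / 2 : ℝ) ^ j) * |f j| ≤ 1 * |f j| :=
        mul_le_mul_of_nonneg_right (by linarith) (abs_nonneg _)
      linarith [hN j])
    simpa [mul_assoc] using this
  have hw : Summable (fun j => pr j * (1 / 2) ^ j * f j) := by
    have := hbd (fun j => (1 / 2) ^ j * f j) (fun j => by
      obtain ⟨h0, h1⟩ := half_pow_mem_KD j
      rw [abs_mul, abs_of_nonneg h0]
      have e1 : ((1 / 2 : ℝ) ^ j) * |f j| ≤ 1 * |f j| :=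
        mul_le_mul_of_nonneg_right h1 (abs_nonneg _)
      linarith [hN j])
    simpa [mul_assoc] using this
  -- first part
  have hA : HasSum (fun j => pr j * ((1 / 2) ^ j * f (j + 1)))
      (∑' j, pr j * (1 - (1 / 2) ^ j) * f j) := by
    have h := (hasSum_nat_add_iff' 1).2 hu.hasSum
    simp only [range_one, sum_singleton, pow_zero, sub_self, mul_zero, zero_mul, sub_zero] at h
    refine hs_congr_KD (fun j => ?_) h
    rw [← hdb j]
    ring
  have hB : HasSum (fun j => pr j * ((1 - (1 / 2) ^ j) * f (j - 1)))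
      (∑' j, pr j * (1 / 2) ^ j * f j) := by
    rw [← hasSum_nat_add_iff' 1]
    simp only [range_one, sum_singleton, pow_zero, sub_self, mul_zero, zero_mul, sub_zero,
      Nat.add_sub_cancel]
    refine hs_congr_KD (fun j => ?_) hw.hasSum
    rw [hdb j]
    ring
  have hAB := hA.add hB
  have hz : (∑' j, pr j * (1 - (1 / 2) ^ j) * f j) + ∑' j, pr j * (1 / 2) ^ j * f j = 0 := by
    rw [← (hu.tsum_add hw), ← hf.tsum_eq]
    exact tsum_congr fun j => by ring
  rw [hz] at hAB
  refine hs_congr_KD (fun j => ?_) hAB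
  ring

/-- (KD) the mean value zero is preserved. -/
theorem gKD (h1 : StKA) : StKD := by
  intro ι _ _ a b ha hb hab N φ hN
  refine ⟨fun x => ?_, fun i hi x => ?_⟩
  · unfold Kn
    refine (abs_add_le _ _).trans ?_
    have e1 : |a * φ x| ≤ a * N := by
      rw [abs_mul, abs_of_nonneg ha]
      exact mul_le_mul_of_nonneg_left (hN x) ha
    have e2 : |∑ i, b i * Bi i φ x| ≤ ∑ i, b i * N := by
      refine (abs_sum_le_sum_abs _ _).trans (sum_le_sum fun i _ => ?_)
      rw [abs_mul, abs_of_nonneg (hb i)]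
      exact mul_le_mul_of_nonneg_left (Bi_le_KD i φ N hN x) (hb i)
    rw [← sum_mul] at e2
    have : a * N + (∑ i, b i) * N = N := by rw [← add_mul, hab, one_mul]
    linarith
  · have hsum := h1.2.2.2.2.1
    have hpos := h1.2.2.2.1
    have H : ∀ y : ι → ℕ, HasSum (fun j => pr j * φ (Function.update y i j)) 0 := by
      intro y
      have hs : Summable (fun j => pr j * φ (Function.update y i j)) := by
        refine Summable.of_norm_bounded (hsum.mul_right N) fun j => ?_
        rw [Real.norm_eq_abs, abs_mul, abs_of_pos (hpos j)]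
        exact mul_le_mul_of_nonneg_left (hN _) (hpos j).le
      have := hs.hasSum
      rwa [hi y] at this
    have HB : ∀ l : ι, HasSum (fun j => pr j * Bi l φ (Function.update x i j)) 0 := by
      intro l
      by_cases hl : l = i
      · subst hl
        have := line_KD h1 (fun j => φ (Function.update x l j)) N (fun j => hN _) (H x)
        simpa [Bi] using this
      · have e1 := (H (Function.update x l (x l + 1))).mul_left ((1 / 2 : ℝ) ^ x l)
        have e2 := (H (Function.update x l (x l - 1))).mul_left (1 - (1 / 2 : ℝ) ^ x l)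
        have e3 := e1.add e2
        simp only [mul_zero, add_zero] at e3
        refine hs_congr_KD (fun j => ?_) e3
        simp only [Bi, Function.update_of_ne hl, Function.update_comm hl]
        ring
    have e0 := (H x).mul_left a
    have e1 := hasSum_sum (s := (univ : Finset ι)) (f := fun l j => b l * (pr j * Bi l φ (Function.update x i j)))
      (a := fun l => b l * 0) fun l _ => (HB l).mul_left (b l)
    have e2 := e0.add e1
    simp only [mul_zero, sum_const_zero, add_zero] at e2
    rw [← e2.tsum_eq]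
    refine tsum_congr fun j => ?_
    unfold Kn
    rw [mul_add, mul_sum]
    congr 1
    · ring
    · exact sum_congr rfl fun l _ => by ring

end Pool.Agent.Helper54.GL
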