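import Pool.Agent.Helper54.GL.StP

set_option autoImplicit false

namespace Pool.Agent.Helper54.GL

open Finset

private lemma Kn_add {ι : Type} [Fintype ι] [DecidableEq ι] (a : ℝ) (b : ι → ℝ)
    (f g : (ι → ℕ) → ℝ) : Kn a b (fun y => f y + g y) = fun y => Kn a b f y + Kn a b g y := by
  funext x
  simp only [Kn, Bi]
  have : ∑ i, b i * ((1 / 2 : ℝ) ^ x i * (f (Function.update x i (x i + 1)) +
        g (Function.update x i (x i + 1))) +
        (1 - (1 / 2) ^ x i) * (f (Function.update x i (x i - 1)) +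
          g (Function.update x i (x i - 1)))) =
      ∑ i, b i * ((1 / 2) ^ x i * f (Function.update x i (x i + 1)) +
        (1 - (1 / 2) ^ x i) * f (Function.update x i (x i - 1))) +
      ∑ i, b i * ((1 / 2) ^ x i * g (Function.update x i (x i + 1)) +
        (1 - (1 / 2) ^ x i) * g (Function.update x i (x i - 1))) := by
    rw [← sum_add_distrib]
    refine sum_congr rfl fun i _ => ?_
    ring
  rw [this]
  ring

private lemma Kn_iter_add {ι : Type} [Fintype ι] [DecidableEq ι] (a : ℝ) (b : ι → ℝ) (n : ℕ)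
    (f g : (ι → ℕ) → ℝ) :
    (Kn a b)^[n] (fun y => f y + g y) = fun y => (Kn a b)^[n] f y + (Kn a b)^[n] g y := by
  induction n with
  | zero => rfl
  | succ n ih =>
    rw [Function.iterate_succ_apply', ih, Kn_add, Function.iterate_succ_apply',
      Function.iterate_succ_apply']

private lemma Kn_const {ι : Type} [Fintype ι] [DecidableEq ι] (a : ℝ) (b : ι → ℝ)
    (hab : a + ∑ i, b i = 1) (c : ℝ) : Kn a b (fun _ => c) = fun _ => c := by
  funext x
  simp only [Kn, Bi]
  have : ∑ i, b i * ((1 / 2 : ℝ) ^ x i * c + (1 - (1 / 2) ^ x i) * c) = (∑ i, b i) * c := by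
    rw [sum_mul]
    refine sum_congr rfl fun i _ => ?_
    ring
  rw [this, ← add_mul, hab, one_mul]

private lemma Kn_iter_const {ι : Type} [Fintype ι] [DecidableEq ι] (a : ℝ) (b : ι → ℝ)
    (hab : a + ∑ i, b i = 1) (c : ℝ) (n : ℕ) : (Kn a b)^[n] (fun _ => c) = fun _ => c := by
  induction n with
  | zero => rfl
  | succ n ih => rw [Function.iterate_succ_apply', ih, Kn_const a b hab]

/-- The interpolating functions. -/
private noncomputable def Ph {ι : Type} [Fintype ι] [DecidableEq ι] (r : ι → ℕ) (J : Finset ι)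
    (y : ι → ℕ) : ℝ :=
  ∏ i, if i ∈ J then (if y i ≤ r i then 1 else 0) else ∑ j ∈ range (r i + 1), pr j

private lemma ell_mem (h1 : StKA) (m : ℕ) :
    0 ≤ ∑ j ∈ range (m + 1), pr j ∧ ∑ j ∈ range (m + 1), pr j ≤ 1 := by
  obtain ⟨-, -, -, hp, hs, -, ht, -⟩ := h1
  refine ⟨sum_nonneg fun j _ => (hp j).le, ?_⟩
  rw [← ht]
  exact hs.sum_le_tsum _ fun j _ => (hp j).le

private lemma fac_mem (h1 : StKA) {ι : Type} [Fintype ι] [DecidableEq ι] (r : ι → ℕ)
    (J : Finset ι) (y : ι → ℕ) (i : ι) :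
    0 ≤ (if i ∈ J then (if y i ≤ r i then (1 : ℝ) else 0) else ∑ j ∈ range (r i + 1), pr j) ∧
    (if i ∈ J then (if y i ≤ r i then (1 : ℝ) else 0) else ∑ j ∈ range (r i + 1), pr j) ≤ 1 := by
  have := ell_mem h1 (r i)
  split_ifs
  · norm_num
  · norm_num
  · exact this

private lemma Ph_mem (h1 : StKA) {ι : Type} [Fintype ι] [DecidableEq ι] (r : ι → ℕ)
    (J : Finset ι) (y : ι → ℕ) : 0 ≤ Ph r J y ∧ Ph r J y ≤ 1 := by
  refine ⟨prod_nonneg fun i _ => (fac_mem h1 r J y i).1, ?_⟩
  exact prod_le_one (fun i _ => (fac_mem h1 r J y i).1) fun i _ => (fac_mem h1 r J y i).2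

private lemma psi_update {ι : Type} [Fintype ι] [DecidableEq ι] (r : ι → ℕ)
    (J : Finset ι) (i : ι) (hi : i ∉ J) (x : ι → ℕ) (j : ℕ) :
    Ph r (insert i J) (Function.update x i j) - Ph r J (Function.update x i j) =
      ((if j ≤ r i then (1 : ℝ) else 0) - ∑ j ∈ range (r i + 1), pr j) *
        ∏ l ∈ univ.erase i,
          (if l ∈ J then (if x l ≤ r l then (1 : ℝ) else 0) else ∑ j ∈ range (r l + 1), pr j) := by
  have e1 : Ph r (insert i J) (Function.update x i j) = (if j ≤ r i then (1 : ℝ) else 0) *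
      ∏ l ∈ univ.erase i,
        (if l ∈ J then (if x l ≤ r l then (1 : ℝ) else 0) else ∑ j ∈ range (r l + 1), pr j) := by
    unfold Ph
    rw [← mul_prod_erase univ _ (mem_univ i)]
    congr 1
    · simp
    · refine prod_congr rfl fun l hl => ?_
      have hne : l ≠ i := (mem_erase.1 hl).1
      simp [mem_insert, hne, Function.update_of_ne hne]
  have e2 : Ph r J (Function.update x i j) = (∑ j ∈ range (r i + 1), pr j) *
      ∏ l ∈ univ.erase i,
        (if l ∈ J then (if x l ≤ r l then (1 : ℝ) else 0) else ∑ j ∈ range (r l + 1), pr j) := by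
    unfold Ph
    rw [← mul_prod_erase univ _ (mem_univ i)]
    congr 1
    · simp [hi]
    · refine prod_congr rfl fun l hl => ?_
      have hne : l ≠ i := (mem_erase.1 hl).1
      simp [Function.update_of_ne hne]
  rw [e1, e2]
  ring

private lemma tsum_ind (h1 : StKA) (m : ℕ) (c : ℝ) :
    ∑' j, pr j * (((if j ≤ m then (1 : ℝ) else 0) - ∑ j ∈ range (m + 1), pr j) * c) = 0 := by
  obtain ⟨-, -, -, hp, hs, -, ht, -⟩ := h1
  set l := ∑ j ∈ range (m + 1), pr j with hl
  have hs1 : HasSum (fun j => if j ≤ m then pr j else 0) l := by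
    have : HasSum (fun j => if j ≤ m then pr j else 0)
        (∑ j ∈ range (m + 1), if j ≤ m then pr j else 0) := by
      apply hasSum_sum_of_ne_finset_zero
      intro j hj
      rw [mem_range, not_lt] at hj
      rw [if_neg (by omega)]
    have e : ∑ j ∈ range (m + 1), (if j ≤ m then pr j else 0) = l := by
      rw [hl]
      refine sum_congr rfl fun j hj => ?_
      rw [mem_range] at hj
      rw [if_pos (by omega)]
    rwa [e] at this
  have hs2 : HasSum pr 1 := by rw [← ht]; exact hs.hasSum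
  have hs3 : HasSum (fun j => ((if j ≤ m then pr j else 0) - pr j * l) * c) ((l - 1 * l) * c) :=
    (hs1.sub (hs2.mul_right l)).mul_right c
  have e : (fun j => pr j * (((if j ≤ m then (1 : ℝ) else 0) - l) * c)) =
      fun j => ((if j ≤ m then pr j else 0) - pr j * l) * c := by
    funext j
    split_ifs <;> ring
  rw [e, hs3.tsum_eq]
  ring

theorem gKE (h1 : StKA) (h2 : StKB) (h3 : StKC) (h4 : StKD) : StKE := by
  intro ι _ _ a b ha hb hba hab
  obtain ⟨ρ, hρ0, hρ1, hcon⟩ := h2 ι a b ha hb hba hab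
  obtain ⟨C₁, hC₁, hC⟩ := h3
  refine ⟨ρ, hρ0, hρ1, fun r => ?_⟩
  have key : ∀ J : Finset ι, ∃ C : ℝ, 0 ≤ C ∧ ∀ (n : ℕ) (x : ι → ℕ),
      |(Kn a b)^[n] (Ph r J) x - ∏ i, ∑ j ∈ range (r i + 1), pr j| ≤
        C * ρ ^ n * ∑ i, Real.sqrt 2 ^ x i := by
    intro J
    induction J using Finset.induction_on with
    | empty =>
      refine ⟨0, le_refl _, fun n x => ?_⟩
      have e : Ph r ∅ = fun _ => ∏ i, ∑ j ∈ range (r i + 1), pr j := by
        funext y
        simp [Ph]
      rw [e, Kn_iter_const a b hab]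
      simp
    | insert i J hi ih =>
      obtain ⟨C, hC0, hCn⟩ := ih
      refine ⟨C + 2 * C₁, by positivity, fun n x => ?_⟩
      set ψ : (ι → ℕ) → ℝ := fun y => Ph r (insert i J) y - Ph r J y with hψ
      have hψ1 : ∀ y, |ψ y| ≤ 1 := by
        intro y
        have t1 := Ph_mem h1 r (insert i J) y
        have t2 := Ph_mem h1 r J y
        rw [abs_le]
        constructor <;> simp only [hψ] <;> linarith
      have hiter : ∀ n : ℕ, (∀ y, |(Kn a b)^[n] ψ y| ≤ 1) ∧ LipK (ρ ^ n * 2) ((Kn a b)^[n] ψ) ∧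
          Mz i ((Kn a b)^[n] ψ) := by
        intro n
        induction n with
        | zero =>
          refine ⟨hψ1, ?_, ?_⟩
          · intro y l
            have t1 := hψ1 (Function.update y l (y l + 1))
            have t2 := hψ1 y
            have t3 : (1 : ℝ) ≤ Real.sqrt 2 ^ y l := by
              apply one_le_pow₀
              rw [Real.one_le_sqrt]
              norm_num
            simp only [Function.iterate_zero, id, pow_zero, one_mul]
            calc |ψ (Function.update y l (y l + 1)) - ψ y| ≤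
                |ψ (Function.update y l (y l + 1))| + |ψ y| := abs_sub _ _
              _ ≤ 2 * 1 := by linarith
              _ ≤ 2 * Real.sqrt 2 ^ y l := by
                  apply mul_le_mul_of_nonneg_left t3 (by norm_num)
          · intro y
            simp only [Function.iterate_zero, id, hψ, psi_update r J i hi]
            exact tsum_ind h1 _ _
        | succ n ih =>
          obtain ⟨ih1, ih2, ih3⟩ := ih
          rw [Function.iterate_succ_apply']
          obtain ⟨q1, q2⟩ := h4 ι a b ha.le (fun i => (hb i).le) hab 1 _ ih1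
          refine ⟨q1, ?_, q2 i ih3⟩
          have := hcon (ρ ^ n * 2) _ (by positivity) ih2
          have e : ρ ^ (n + 1) * 2 = ρ * (ρ ^ n * 2) := by ring
          rw [e]
          exact this
      obtain ⟨i1, i2, i3⟩ := hiter n
      have hb1 := hC ι i (ρ ^ n * 2) 1 _ (by positivity) i1 i2 i3 x
      have esum : Ph r (insert i J) = fun y => Ph r J y + ψ y := by
        funext y
        simp only [hψ]
        ring
      rw [esum, Kn_iter_add]
      have hge : Real.sqrt 2 ^ x i ≤ ∑ l, Real.sqrt 2 ^ x l :=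
        single_le_sum (f := fun l => Real.sqrt 2 ^ x l) (fun l _ => by positivity) (mem_univ i)
      have hb2 : C₁ * (ρ ^ n * 2) * Real.sqrt 2 ^ x i ≤
          2 * C₁ * ρ ^ n * ∑ l, Real.sqrt 2 ^ x l := by
        calc C₁ * (ρ ^ n * 2) * Real.sqrt 2 ^ x i = 2 * C₁ * ρ ^ n * Real.sqrt 2 ^ x i := by ring
          _ ≤ _ := mul_le_mul_of_nonneg_left hge (by positivity)
      calc |(Kn a b)^[n] (Ph r J) x + (Kn a b)^[n] ψ x - ∏ i, ∑ j ∈ range (r i + 1), pr j| =
          |((Kn a b)^[n] (Ph r J) x - ∏ i, ∑ j ∈ range (r i + 1), pr j) + (Kn a b)^[n] ψ x| := by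
            congr 1; ring
        _ ≤ |(Kn a b)^[n] (Ph r J) x - ∏ i, ∑ j ∈ range (r i + 1), pr j| +
              |(Kn a b)^[n] ψ x| := abs_add_le _ _
        _ ≤ C * ρ ^ n * ∑ l, Real.sqrt 2 ^ x l + 2 * C₁ * ρ ^ n * ∑ l, Real.sqrt 2 ^ x l :=
            add_le_add (hCn n x) (hb1.trans hb2)
        _ = (C + 2 * C₁) * ρ ^ n * ∑ l, Real.sqrt 2 ^ x l := by ring
  obtain ⟨C, hC0, hCn⟩ := key univ
  refine ⟨C, hC0, fun n x => ?_⟩
  have e : Ph r univ = fun y => if ∀ i, y i ≤ r i then (1 : ℝ) else 0 := by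
    funext y
    unfold Ph
    simp only [mem_univ, if_true]
    rw [prod_boole]
    simp
  have := hCn n x
  rw [e, abs_le] at this
  linarith [this.1]

end Pool.Agent.Helper54.GL
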