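import Pool.Agent.Helper54.GL.StP

/-!
GL, module K_KF: the kernel is monotone.
-/

set_option autoImplicit false

namespace Pool.Agent.Helper54.GL

open Finset

theorem kf_anti_of_step {ι : Type} [Fintype ι] [DecidableEq ι] (φ : (ι → ℕ) → ℝ)
    (h : ∀ (x : ι → ℕ) (i : ι), φ (Function.update x i (x i + 1)) ≤ φ x) : Antitone φ := by
  have key : ∀ (n : ℕ) (x y : ι → ℕ), x ≤ y → ∑ i, (y i - x i) = n → φ y ≤ φ x := by
    intro n
    induction n with
    | zero =>
      intro x y hxy hs
      have h1 : x = y := by
        funext i
        have h2 := (Finset.sum_eq_zero_iff.1 hs) i (Finset.mem_univ i)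
        have h3 : x i ≤ y i := hxy i
        omega
      rw [h1]
    | succ n ih =>
      intro x y hxy hs
      obtain ⟨i, -, hi⟩ : ∃ i ∈ (Finset.univ : Finset ι), y i - x i ≠ 0 := by
        apply Finset.exists_ne_zero_of_sum_ne_zero
        omega
      have hxy' : Function.update x i (x i + 1) ≤ y := by
        intro l
        by_cases hl : l = i
        · subst hl
          rw [Function.update_self]
          have h3 : x l ≤ y l := hxy l
          have h4 : x l + 1 ≤ y l := by omega
          exact h4
        · rw [Function.update_of_ne hl]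
          exact hxy l
      refine (ih _ y hxy' ?_).trans (h x i)
      have e1 : ∑ l, (y l - x l) = ∑ l, (y l - Function.update x i (x i + 1) l) + 1 := by
        rw [← Finset.add_sum_erase _ _ (Finset.mem_univ i),
          ← Finset.add_sum_erase _ (fun l => y l - Function.update x i (x i + 1) l)
            (Finset.mem_univ i)]
        have e2 : ∑ l ∈ Finset.univ.erase i, (y l - Function.update x i (x i + 1) l) =
            ∑ l ∈ Finset.univ.erase i, (y l - x l) := by
          refine Finset.sum_congr rfl fun l hl => ?_
          rw [Function.update_of_ne (Finset.ne_of_mem_erase hl)]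
        rw [e2, Function.update_self]
        omega
      omega
  intro x y hxy
  exact key _ x y hxy rfl

theorem gKF : StKF := by
  intro ι _ _ a b ha hb hab φ hφ
  apply kf_anti_of_step
  intro x l
  have hp : ∀ n : ℕ, 0 ≤ (1 / 2 : ℝ) ^ n ∧ (1 / 2 : ℝ) ^ n ≤ 1 := fun n =>
    ⟨by positivity, pow_le_one₀ (by norm_num) (by norm_num)⟩
  have hup : x ≤ Function.update x l (x l + 1) := by
    intro i
    by_cases hi : i = l
    · subst hi
      rw [Function.update_self]
      exact Nat.le_succ _
    · rw [Function.update_of_ne hi]
  have hne : ∀ i, i ≠ l → Bi i φ (Function.update x l (x l + 1)) ≤ Bi i φ x := by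
    intro i hi
    unfold Bi
    rw [Function.update_of_ne hi]
    have hmono : ∀ n : ℕ, φ (Function.update (Function.update x l (x l + 1)) i n) ≤
        φ (Function.update x i n) := by
      intro n
      apply hφ
      intro j
      by_cases hj : j = i
      · subst hj
        rw [Function.update_self, Function.update_self]
      · rw [Function.update_of_ne hj, Function.update_of_ne hj]
        exact hup j
    have h1 := mul_le_mul_of_nonneg_left (hmono (x i + 1)) (hp (x i)).1
    have h2 := mul_le_mul_of_nonneg_left (hmono (x i - 1)) (sub_nonneg.2 (hp (x i)).2)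
    exact add_le_add h1 h2
  -- the coordinate `l`
  have hl : a * φ (Function.update x l (x l + 1)) +
      b l * Bi l φ (Function.update x l (x l + 1)) ≤ a * φ x + b l * Bi l φ x := by
    unfold Bi
    rw [Function.update_self, Function.update_idem, Function.update_idem, Nat.add_sub_cancel]
    obtain ⟨f, hf⟩ : ∃ f : ℕ → ℝ, ∀ n, f n = φ (Function.update x l n) := ⟨_, fun _ => rfl⟩
    have hx : φ x = f (x l) := by rw [hf, Function.update_eq_self]
    rw [← hf, ← hf, ← hf, hx, ← hf]
    have hfa : ∀ n, f (n + 1) ≤ f n := by
      intro n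
      rw [hf, hf]
      apply hφ
      intro j
      by_cases hj : j = l
      · subst hj
        rw [Function.update_self, Function.update_self]
        exact Nat.le_succ _
      · rw [Function.update_of_ne hj, Function.update_of_ne hj]
    generalize x l = j
    have hab' := hab l
    have hbl := hb l
    cases j with
    | zero =>
      have h0 := hfa 0
      have h1 := hfa 1
      simp only [zero_add, Nat.zero_sub, pow_zero, pow_one] at *
      nlinarith [mul_nonneg hbl (sub_nonneg.2 h1), mul_nonneg (sub_nonneg.2 hab') (sub_nonneg.2 h0)]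
    | succ j =>
      have h0 := hfa j
      have h1 := hfa (j + 1)
      have h2 := hfa (j + 1 + 1)
      obtain ⟨c0, c1⟩ := hp (j + 1)
      have e : (1 / 2 : ℝ) ^ (j + 1 + 1) = (1 / 2 : ℝ) ^ (j + 1) / 2 := by
        rw [pow_succ]
        ring
      rw [e, Nat.add_sub_cancel]
      generalize (1 / 2 : ℝ) ^ (j + 1) = c at *
      have k1 : 0 ≤ (a - b l * (c / 2)) * (f (j + 1) - f (j + 1 + 1)) := by
        apply mul_nonneg
        · nlinarith
        · linarith
      have k2 : 0 ≤ b l * (1 - c) * (f j - f (j + 1)) :=
        mul_nonneg (mul_nonneg hbl (by linarith)) (by linarith)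
      have k3 : 0 ≤ b l * (c / 2) * (f (j + 1 + 1) - f (j + 1 + 1 + 1)) :=
        mul_nonneg (mul_nonneg hbl (by linarith)) (by linarith)
      nlinarith
  unfold Kn
  rw [← Finset.add_sum_erase _ _ (Finset.mem_univ l), ← Finset.add_sum_erase _
    (fun i => b i * Bi i φ x) (Finset.mem_univ l), ← add_assoc, ← add_assoc]
  refine add_le_add hl (Finset.sum_le_sum fun i hi => ?_)
  exact mul_le_mul_of_nonneg_left (hne i (Finset.ne_of_mem_erase hi)) (hb i)

end Pool.Agent.Helper54.GL
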