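import Pool.Agent.Helper54.GL.StP

/-!
# GL: module DUP (two primes of the same degree)
-/

set_option autoImplicit false

namespace Pool.Agent.Helper54.GL

open Polynomial Finset Filter Topology
open Pool.Agent.Helper54.PT (Prm prm)
open Pool.Agent.Helper3.GT (dgS)

open Classical in
private theorem card_pair_DUP {F : Type} [Field F] [Fintype F]
    (hmem : ∀ (m : ℕ) (S : Finset (Prm F)), S ∈ SmF F m ↔ dgS S = m)
    (hcard : ∀ m, (SmF F m).card ≤ Fintype.card F ^ m) (m k : ℕ) (P P' : Prm F) (hne : P ≠ P')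
    (hP : P.1.natDegree = k) (hP' : P'.1.natDegree = k) (hk : 2 * k ≤ m) :
    ((SmF F m).filter fun S => P ∈ S ∧ P' ∈ S).card ≤ Fintype.card F ^ (m - 2 * k) := by
  refine le_trans (Finset.card_le_card_of_injOn (fun S => (S.erase P).erase P') ?_ ?_)
    (hcard (m - 2 * k))
  · intro S hS
    have hS := Finset.mem_filter.1 (Finset.mem_coe.1 hS)
    obtain ⟨hS1, hS2, hS3⟩ := hS
    have hd := (hmem m S).1 hS1
    refine Finset.mem_coe.2 ((hmem _ _).2 ?_)
    have e1 : P' ∈ S.erase P := Finset.mem_erase.2 ⟨hne.symm, hS3⟩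
    have e2 := Finset.add_sum_erase S (fun P : Prm F => P.1.natDegree) hS2
    have e3 := Finset.add_sum_erase (S.erase P) (fun P : Prm F => P.1.natDegree) e1
    simp only [dgS] at hd ⊢
    omega
  · intro S hS T hT hST
    have hS := Finset.mem_filter.1 (Finset.mem_coe.1 hS)
    have hT := Finset.mem_filter.1 (Finset.mem_coe.1 hT)
    obtain ⟨hS1, hS2, hS3⟩ := hS
    obtain ⟨hT1, hT2, hT3⟩ := hT
    have e1 : P' ∈ S.erase P := Finset.mem_erase.2 ⟨hne.symm, hS3⟩
    have e2 : P' ∈ T.erase P := Finset.mem_erase.2 ⟨hne.symm, hT3⟩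
    have e3 : S.erase P = T.erase P := by
      rw [← Finset.insert_erase e1, ← Finset.insert_erase e2]
      have : (S.erase P).erase P' = (T.erase P).erase P' := hST
      rw [this]
    rw [← Finset.insert_erase hS2, ← Finset.insert_erase hT2, e3]

theorem gDUP (h1 : StSM) : StDUP := by
  intro F _ _ h2 m K hK
  classical
  obtain ⟨hmem, hcard, hq3, hprm, hpk⟩ := h1 F h2
  set q : ℕ := Fintype.card F with hq
  have hq0 : (0 : ℝ) < (q : ℝ) := by
    have : 0 < q := by omega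
    exact_mod_cast this
  set A := (SmF F m).filter fun S => ∃ P ∈ S, ∃ P' ∈ S, P ≠ P' ∧
      P.1.natDegree = P'.1.natDegree ∧ K ≤ P.1.natDegree with hA
  have hK1 : (0 : ℝ) < (K : ℝ) - 1 := by
    have : (2 : ℝ) ≤ K := by exact_mod_cast hK
    linarith
  set N := m / 2 with hN
  -- the inclusion
  have hsub : A ⊆ (Ioc (K - 1) N).biUnion fun k => ((prm F k) ×ˢ (prm F k)).biUnion fun p =>
      if p.1 ≠ p.2 then (SmF F m).filter fun S => p.1 ∈ S ∧ p.2 ∈ S else ∅ := by
    intro S hS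
    rw [hA, Finset.mem_filter] at hS
    obtain ⟨hSm, P, hP, P', hP', hne, hdeg, hKP⟩ := hS
    have hd := (hmem m S).1 hSm
    have e1 : P' ∈ S.erase P := Finset.mem_erase.2 ⟨hne.symm, hP'⟩
    have e2 := Finset.add_sum_erase S (fun P : Prm F => P.1.natDegree) hP
    have e3 := Finset.add_sum_erase (S.erase P) (fun P : Prm F => P.1.natDegree) e1
    simp only [dgS] at hd
    rw [Finset.mem_biUnion]
    refine ⟨P.1.natDegree, ?_, ?_⟩
    · rw [Finset.mem_Ioc]
      constructor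
      · omega
      · rw [hN]; omega
    · rw [Finset.mem_biUnion]
      refine ⟨(P, P'), ?_, ?_⟩
      · rw [Finset.mem_product]
        exact ⟨(hprm _ _).2 rfl, (hprm _ _).2 hdeg.symm⟩
      · rw [if_pos hne, Finset.mem_filter]
        exact ⟨hSm, hP, hP'⟩
  -- counting
  have hc1 : A.card ≤ ∑ k ∈ Ioc (K - 1) N, (prm F k).card ^ 2 * q ^ (m - 2 * k) := by
    refine le_trans (Finset.card_le_card hsub) (le_trans Finset.card_biUnion_le ?_)
    refine Finset.sum_le_sum fun k hk => ?_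
    rw [Finset.mem_Ioc] at hk
    refine le_trans Finset.card_biUnion_le ?_
    have : ∀ p ∈ (prm F k) ×ˢ (prm F k), (if p.1 ≠ p.2 then (SmF F m).filter fun S =>
        p.1 ∈ S ∧ p.2 ∈ S else ∅).card ≤ q ^ (m - 2 * k) := by
      intro p hp
      rw [Finset.mem_product] at hp
      split_ifs with hne
      · exact card_pair_DUP hmem hcard m k p.1 p.2 hne ((hprm _ _).1 hp.1) ((hprm _ _).1 hp.2)
          (by omega)
      · simp
    refine le_trans (Finset.sum_le_card_nsmul _ _ _ this) ?_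
    rw [Finset.card_product, smul_eq_mul, sq]
  have hc2 : (A.card : ℝ) ≤ ∑ k ∈ Ioc (K - 1) N, (q : ℝ) ^ m * ((k : ℝ) ^ 2)⁻¹ := by
    have hc1' : (A.card : ℝ) ≤ ∑ k ∈ Ioc (K - 1) N, ((prm F k).card : ℝ) ^ 2 *
        (q : ℝ) ^ (m - 2 * k) := by exact_mod_cast hc1
    refine le_trans hc1' ?_
    refine Finset.sum_le_sum fun k hk => ?_
    rw [Finset.mem_Ioc] at hk
    have hk0 : (0 : ℝ) < (k : ℝ) := by
      have : 0 < k := by omega
      exact_mod_cast this
    have e1 : ((prm F k).card : ℝ) ≤ (q : ℝ) ^ k / k := by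
      rw [le_div_iff₀ hk0, mul_comm]
      exact hpk k
    have e2 : ((prm F k).card : ℝ) ^ 2 ≤ ((q : ℝ) ^ k / k) ^ 2 := by gcongr
    have e3 : (q : ℝ) ^ m = (q : ℝ) ^ k * (q : ℝ) ^ k * (q : ℝ) ^ (m - 2 * k) := by
      rw [← pow_add, ← pow_add]
      congr 1
      omega
    calc ((prm F k).card : ℝ) ^ 2 * (q : ℝ) ^ (m - 2 * k)
        ≤ ((q : ℝ) ^ k / k) ^ 2 * (q : ℝ) ^ (m - 2 * k) := by gcongr
      _ = (q : ℝ) ^ m * ((k : ℝ) ^ 2)⁻¹ := by
          rw [e3]
          field_simp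
  rw [← Finset.mul_sum] at hc2
  refine le_trans hc2 ?_
  rw [div_eq_mul_inv]
  refine mul_le_mul_of_nonneg_left ?_ (by positivity)
  rcases Nat.lt_or_ge N (K - 1) with h | h
  · rw [Finset.Ioc_eq_empty (by omega), Finset.sum_empty]
    positivity
  · refine le_trans (sum_Ioc_inv_sq_le_sub (by omega) h) ?_
    have : ((K - 1 : ℕ) : ℝ) = (K : ℝ) - 1 := by
      rw [Nat.cast_sub (by omega)]
      simp
    rw [this]
    have : (0 : ℝ) ≤ (N : ℝ)⁻¹ := by positivity
    linarith

end Pool.Agent.Helper54.GL
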