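import Pool.Agent.Helper54.GL.StP

/-!
# GL, module P_GRP: grouping of the regular sets
-/

set_option autoImplicit false

namespace Pool.Agent.Helper54.GL

open Polynomial Finset Filter Topology
open Pool.Agent.Helper54.PT (Prm prm)
open Pool.Agent.Helper3.HY (kp red)
open Pool.Agent.Helper3.GT (dgS)

section comb_GRP

variable {F : Type} [Field F]

open Classical in
theorem sec_img_GRP (G : ℕ → Finset (Prm F)) (hdeg : ∀ k, ∀ P ∈ G k, P.1.natDegree = k)
    (Pi : Finset ℕ) (T : Finset (Prm F)) (hT : T ∈ Sec G Pi) :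
    (∀ P ∈ T, P ∈ G P.1.natDegree ∧ P.1.natDegree ∈ Pi) ∧
      (∀ P ∈ T, ∀ P' ∈ T, P.1.natDegree = P'.1.natDegree → P = P') ∧
      T.image (fun P => P.1.natDegree) = Pi ∧ T.card = Pi.card := by
  unfold Sec at hT
  rw [Finset.mem_filter, Finset.mem_powerset] at hT
  obtain ⟨hsub, hone⟩ := hT
  have h1 : ∀ P ∈ T, P ∈ G P.1.natDegree ∧ P.1.natDegree ∈ Pi := by
    intro P hP
    have h := hsub hP
    rw [Finset.mem_biUnion] at h
    obtain ⟨k, hk, hPk⟩ := h
    have := hdeg k P hPk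
    rw [this]
    exact ⟨hPk, hk⟩
  have h2 : ∀ P ∈ T, ∀ P' ∈ T, P.1.natDegree = P'.1.natDegree → P = P' := by
    intro P hP P' hP' hd
    have hk := (h1 P hP).2
    have hc := hone _ hk
    rw [Finset.card_eq_one] at hc
    obtain ⟨Q, hQ⟩ := hc
    have e1 : P ∈ T.filter fun R => R ∈ G P.1.natDegree :=
      Finset.mem_filter.2 ⟨hP, (h1 P hP).1⟩
    have e2 : P' ∈ T.filter fun R => R ∈ G P.1.natDegree := by
      refine Finset.mem_filter.2 ⟨hP', ?_⟩
      rw [hd]
      exact (h1 P' hP').1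
    rw [hQ, Finset.mem_singleton] at e1 e2
    rw [e1, e2]
  have h3 : T.image (fun P => P.1.natDegree) = Pi := by
    ext k
    rw [Finset.mem_image]
    constructor
    · rintro ⟨P, hP, rfl⟩
      exact (h1 P hP).2
    · intro hk
      have hc := hone _ hk
      rw [Finset.card_eq_one] at hc
      obtain ⟨Q, hQ⟩ := hc
      have e1 : Q ∈ T.filter fun R => R ∈ G k := by
        rw [hQ]; exact Finset.mem_singleton_self Q
      rw [Finset.mem_filter] at e1
      exact ⟨Q, e1.1, hdeg k Q e1.2⟩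
  refine ⟨h1, h2, h3, ?_⟩
  rw [← h3, Finset.card_image_of_injOn]
  intro P hP P' hP' hd
  exact h2 P hP P' hP' hd

open Classical in
theorem win_inj_GRP (G : ℕ → Finset (Prm F)) (H m n₀ : ℕ) (S : Finset (Prm F))
    (hR : Reg G H m n₀ S) :
    ∀ P ∈ Win G H m S, ∀ P' ∈ S, P.1.natDegree = P'.1.natDegree → P = P' := by
  intro P hP P' hP' hd
  unfold Win at hP
  rw [Finset.mem_filter] at hP
  by_contra hne
  exact hR.1 ⟨P, hP.1, P', hP', hne, hd, hP.2.2.1⟩

open Classical in
theorem win_sec_GRP (G : ℕ → Finset (Prm F)) (hdeg : ∀ k, ∀ P ∈ G k, P.1.natDegree = k)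
    (H m n₀ : ℕ) (S : Finset (Prm F)) (hR : Reg G H m n₀ S) :
    Win G H m S ∈ Sec G ((Win G H m S).image fun P => P.1.natDegree) := by
  have hin := win_inj_GRP G H m n₀ S hR
  have hW : ∀ P ∈ Win G H m S, P ∈ S ∧ P ∈ G P.1.natDegree := by
    intro P hP
    unfold Win at hP
    rw [Finset.mem_filter] at hP
    exact ⟨hP.1, hP.2.1⟩
  unfold Sec
  rw [Finset.mem_filter, Finset.mem_powerset]
  constructor
  · intro P hP
    rw [Finset.mem_biUnion]
    exact ⟨P.1.natDegree, Finset.mem_image_of_mem _ hP, (hW P hP).2⟩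
  · intro k hk
    rw [Finset.mem_image] at hk
    obtain ⟨P, hP, rfl⟩ := hk
    rw [Finset.card_eq_one]
    refine ⟨P, ?_⟩
    ext Q
    rw [Finset.mem_filter, Finset.mem_singleton]
    constructor
    · rintro ⟨hQ, hQG⟩
      exact (hin P hP Q (hW Q hQ).1 (hdeg _ Q hQG).symm).symm
    · rintro rfl
      exact ⟨hP, (hW Q hP).2⟩

open Classical in
theorem fib_GRP (G : ℕ → Finset (Prm F)) (hdeg : ∀ k, ∀ P ∈ G k, P.1.natDegree = k)
    (H m n₀ : ℕ) (S : Finset (Prm F)) (hR : Reg G H m n₀ S) (T : Finset (Prm F))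
    (hT : T ∈ Sec G ((Win G H m S).image fun P => P.1.natDegree)) :
    Disjoint (S \ Win G H m S) T ∧ Win G H m ((S \ Win G H m S) ∪ T) = T ∧
      Reg G H m n₀ ((S \ Win G H m S) ∪ T) ∧ dgS ((S \ Win G H m S) ∪ T) = dgS S := by
  obtain ⟨t1, t2, t3, t4⟩ := sec_img_GRP G hdeg _ T hT
  have hin := win_inj_GRP G H m n₀ S hR
  have hWm : ∀ P, P ∈ Win G H m S ↔ P ∈ S ∧ P ∈ G P.1.natDegree ∧ KK m ≤ P.1.natDegree ∧
      P.1.natDegree ≤ H * KK m := by
    intro P
    unfold Win
    rw [Finset.mem_filter]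
  have hWsub : Win G H m S ⊆ S := fun P hP => ((hWm P).1 hP).1
  -- the degrees of T are in the window and different from the degrees in E
  have key : ∀ P ∈ T, KK m ≤ P.1.natDegree ∧ P.1.natDegree ≤ H * KK m ∧
      ∀ P' ∈ S \ Win G H m S, P.1.natDegree ≠ P'.1.natDegree := by
    intro P hP
    have h := (t1 P hP).2
    rw [Finset.mem_image] at h
    obtain ⟨Q, hQ, hQd⟩ := h
    have hQ' := (hWm Q).1 hQ
    rw [← hQd]
    refine ⟨hQ'.2.2.1, hQ'.2.2.2, ?_⟩
    intro P' hP' hd
    rw [Finset.mem_sdiff] at hP'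
    have := hin Q hQ P' hP'.1 hd
    rw [this] at hQ
    exact hP'.2 hQ
  have hdis : Disjoint (S \ Win G H m S) T := by
    rw [Finset.disjoint_left]
    intro P hP hPT
    exact (key P hPT).2.2 P hP rfl
  have hWin : Win G H m ((S \ Win G H m S) ∪ T) = T := by
    ext P
    unfold Win
    rw [Finset.mem_filter, Finset.mem_union]
    constructor
    · rintro ⟨hP | hP, h1, h2, h3⟩
      · rw [Finset.mem_sdiff] at hP
        exact absurd ((hWm P).2 ⟨hP.1, h1, h2, h3⟩) hP.2
      · exact hP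
    · intro hP
      exact ⟨Or.inr hP, (t1 P hP).1, (key P hP).1, (key P hP).2.1⟩
  have hWcard : ((Win G H m S).image fun P => P.1.natDegree).card = (Win G H m S).card := by
    apply Finset.card_image_of_injOn
    intro P hP P' hP' hd
    exact hin P hP P' (hWsub hP') hd
  have hcardT : T.card = (Win G H m S).card := by rw [t4, hWcard]
  refine ⟨hdis, hWin, ⟨?_, ?_, ?_⟩, ?_⟩
  · rintro ⟨P, hP, P', hP', hne, hd, hk⟩
    rw [Finset.mem_union] at hP hP'
    rcases hP with hP | hP <;> rcases hP' with hP' | hP'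
    · rw [Finset.mem_sdiff] at hP hP'
      exact hR.1 ⟨P, hP.1, P', hP'.1, hne, hd, hk⟩
    · exact (key P' hP').2.2 P hP hd.symm
    · exact (key P hP).2.2 P' hP' hd
    · exact hne (t2 P hP P' hP' hd)
  · rw [Finset.card_union_of_disjoint hdis, hcardT, Finset.card_sdiff_add_card_eq_card hWsub]
    exact hR.2.1
  · rw [hWin, hcardT]
    exact hR.2.2
  · unfold dgS
    rw [Finset.sum_union hdis, ← Finset.sum_sdiff hWsub]
    congr 1
    have e1 : ∑ P ∈ T, P.1.natDegree =
        ∑ k ∈ T.image (fun P => P.1.natDegree), k := by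
      rw [Finset.sum_image]
      intro P hP P' hP' hd
      exact t2 P hP P' hP' hd
    have e2 : ∑ P ∈ Win G H m S, P.1.natDegree =
        ∑ k ∈ (Win G H m S).image (fun P => P.1.natDegree), k := by
      rw [Finset.sum_image]
      intro P hP P' hP' hd
      exact hin P hP P' (hWsub hP') hd
    rw [e1, e2, t3]

end comb_GRP

/-- The elementary inequality for the last step. -/
theorem num_GRP (κ C C' A m k c t : ℝ) (hκ : 0 < κ) (hC : 0 ≤ C) (hC' : 0 ≤ C') (hm : 1 ≤ m)
    (hk1 : 1 ≤ k) (hkm : k ≤ m) (hA : m ^ 8 ≤ A) (ht0 : 0 ≤ t) (ht : t ≤ 8 * m ^ 3)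
    (hlow : κ * (A * A) - C * A ≤ k * c) (hmb : 16 * C' + C ≤ κ * m) :
    C' * (m + 1) * t * A ≤ 1 / m * c := by
  have hm0 : 0 < m := by linarith
  have hk0 : 0 < k := by linarith
  have hA0 : 0 < A := lt_of_lt_of_le (by positivity) hA
  have h6 : (1 : ℝ) ≤ m ^ 6 := one_le_pow₀ hm
  have e1 : 16 * C' * m ^ 6 + C ≤ κ * A := by
    have a1 : (16 * C' + C) * m ^ 6 ≤ κ * m * m ^ 6 :=
      mul_le_mul_of_nonneg_right hmb (by positivity)
    have a2 : κ * m * m ^ 6 ≤ κ * m ^ 8 := by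
      have : m ^ 8 = m * m * m ^ 6 := by ring
      rw [this]
      have a3 : m * m ^ 6 ≤ m * m * m ^ 6 := by
        have : 0 ≤ m * m ^ 6 := by positivity
        nlinarith
      nlinarith
    have a4 : κ * m ^ 8 ≤ κ * A := mul_le_mul_of_nonneg_left hA hκ.le
    nlinarith
  have e2 : C' * (m + 1) * t * A * (k * m) ≤ 16 * C' * m ^ 6 * A := by
    have b1 : C' * (m + 1) * t * A * (k * m) = C' * A * ((m + 1) * t * (k * m)) := by ring
    have b2 : (m + 1) * t * (k * m) ≤ 16 * m ^ 6 := by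
      have c1 : m + 1 ≤ 2 * m := by linarith
      have c2 : (m + 1) * t ≤ 2 * m * (8 * m ^ 3) := by
        apply mul_le_mul c1 ht ht0 (by positivity)
      have c3 : k * m ≤ m * m := mul_le_mul_of_nonneg_right hkm hm0.le
      calc (m + 1) * t * (k * m) ≤ 2 * m * (8 * m ^ 3) * (m * m) :=
            mul_le_mul c2 c3 (by positivity) (by positivity)
        _ = 16 * m ^ 6 := by ring
    rw [b1]
    calc C' * A * ((m + 1) * t * (k * m)) ≤ C' * A * (16 * m ^ 6) :=
          mul_le_mul_of_nonneg_left b2 (by positivity)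
      _ = 16 * C' * m ^ 6 * A := by ring
  have e3 : C' * (m + 1) * t * A * (k * m) ≤ k * c := by
    have : 16 * C' * m ^ 6 * A ≤ κ * (A * A) - C * A := by
      have := mul_le_mul_of_nonneg_right e1 hA0.le
      nlinarith
    linarith
  rw [div_mul_eq_mul_div, one_mul, le_div_iff₀ hm0]
  have e4 : C' * (m + 1) * t * A * (k * m) = k * (C' * (m + 1) * t * A * m) := by ring
  rw [e4] at e3
  exact le_of_mul_le_mul_left e3 hk0

open Classical in
theorem gGRP (h1 : StSM) (h2 : StIT) : StGRP := by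
  intro F _ _ ι _ _ B Gp GI GT kI kT M C ρ hL φ hφ hanti H n₀ hH hn₀
  obtain ⟨hSM, hcard, hq3, hprm, -⟩ := h1 F hL.odd
  obtain ⟨C', hC', hIT⟩ := h2 F ι B Gp GI GT kI kT M C ρ hL
  have hITφ := hIT φ hφ hanti
  have hq3' : (3 : ℝ) ≤ (Fintype.card F : ℝ) := by exact_mod_cast hq3
  have hq0 : (0 : ℝ) < (Fintype.card F : ℝ) := by linarith
  obtain ⟨κ, hκdef⟩ : ∃ κ : ℝ, κ = kI + ∑ i, kT i := ⟨_, rfl⟩
  have hκ : 0 < κ := by
    rw [hκdef]
    exact add_pos_of_pos_of_nonneg hL.kI_pos (Finset.sum_nonneg fun i _ => (hL.kT_pos i).le)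
  have degG : ∀ k, ∀ P ∈ GG GI GT k, P.1.natDegree = k := by
    intro k P hP
    unfold GG at hP
    rw [Finset.mem_union, Finset.mem_biUnion] at hP
    rcases hP with h | ⟨i, -, h⟩
    · exact (hprm k P).1 (hL.subI k P h).1
    · exact (hprm k P).1 (hL.subT i k P h).1
  have allG : ∀ k, ∀ P ∈ GG GI GT k, Gp P := by
    intro k P hP
    unfold GG at hP
    rw [Finset.mem_union, Finset.mem_biUnion] at hP
    rcases hP with h | ⟨i, -, h⟩
    · exact (hL.subI k P h).2
    · exact (hL.subT i k P h).2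
  have cardG : ∀ k, ((GG GI GT k).card : ℝ) = ((GI k).card : ℝ) + ∑ i, ((GT i k).card : ℝ) := by
    intro k
    unfold GG
    rw [Finset.card_union_of_disjoint, Finset.card_biUnion]
    · push_cast; rfl
    · intro i _ j _ hij
      exact hL.disT i j k hij
    · rw [Finset.disjoint_biUnion_right]
      intro i _
      exact hL.disI i k
  have cntG : ∀ k : ℕ, 1 ≤ k → κ * (Fintype.card F : ℝ) ^ k -
      (1 + Fintype.card ι) * C * Real.sqrt (Fintype.card F) ^ k ≤
        k * ((GG GI GT k).card : ℝ) := by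
    intro k hk
    have a1 := (abs_le.1 (hL.cntI k hk)).1
    have a2 : ∀ i, kT i * (Fintype.card F : ℝ) ^ k - C * Real.sqrt (Fintype.card F) ^ k ≤
        k * ((GT i k).card : ℝ) := by
      intro i
      have := (abs_le.1 (hL.cntT i k hk)).1
      linarith
    have a3 := Finset.sum_le_sum fun i (_ : i ∈ (univ : Finset ι)) => a2 i
    rw [Finset.sum_sub_distrib, ← Finset.sum_mul, Finset.sum_const, Finset.card_univ, nsmul_eq_mul,
      ← Finset.mul_sum] at a3
    rw [cardG, hκdef]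
    nlinarith
  obtain ⟨N, hN⟩ : ∃ N : ℕ, (16 * C' + (1 + Fintype.card ι) * C) / κ ≤ N := exists_nat_ge _
  filter_upwards [eventually_ge_atTop (N + 1)] with m hm e
  have hm1 : 1 ≤ m := by omega
  have hm1' : (1 : ℝ) ≤ m := by exact_mod_cast hm1
  have hm0' : (0 : ℝ) < m := by linarith
  obtain ⟨l, hl⟩ : ∃ l, l = Nat.log 2 m := ⟨_, rfl⟩
  have hl1 : m < 2 ^ (l + 1) := by
    rw [hl]
    exact Nat.lt_pow_succ_log_self (by norm_num) m
  have hl2 : 2 ^ (l + 1) ≤ 2 * m := by
    rw [hl, pow_succ]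
    have := Nat.pow_log_le_self 2 (show m ≠ 0 by omega)
    omega
  obtain ⟨w, hw⟩ : ∃ w, w = 3 * (Nat.log 2 m + 1) := ⟨_, rfl⟩
  have hwl : w = 3 * (l + 1) := by rw [hw, hl]
  have h2w : (2 : ℝ) ^ w ≤ 8 * (m : ℝ) ^ 3 := by
    have a1 : (2 : ℝ) ^ (l + 1) ≤ 2 * m := by exact_mod_cast hl2
    rw [hwl, mul_comm, pow_mul]
    calc ((2 : ℝ) ^ (l + 1)) ^ 3 ≤ (2 * (m : ℝ)) ^ 3 := pow_le_pow_left₀ (by positivity) a1 3
      _ = 8 * (m : ℝ) ^ 3 := by ring
  have hmN : 16 * C' + (1 + Fintype.card ι) * C ≤ κ * m := by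
    have a1 : (16 * C' + (1 + Fintype.card ι) * C) / κ ≤ m := by
      refine hN.trans ?_
      have : N ≤ m := by omega
      exact_mod_cast this
    rw [div_le_iff₀ hκ] at a1
    linarith
  have hbig : ∀ k : ℕ, KK m ≤ k → k ≤ m →
      C' * (m + 1) * 2 ^ w * Real.sqrt (Fintype.card F) ^ k ≤
        1 / (m : ℝ) * ((GG GI GT k).card : ℝ) := by
    intro k hk hkm
    have hk1 : 1 ≤ k := by
      unfold KK at hk
      omega
    have hA : (m : ℝ) ^ 8 ≤ Real.sqrt (Fintype.card F) ^ k := by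
      have a0 : (1 : ℝ) ≤ Real.sqrt (Fintype.card F) := by
        rw [show (1 : ℝ) = Real.sqrt 1 from Real.sqrt_one.symm]
        exact Real.sqrt_le_sqrt (by linarith)
      have a1 : Real.sqrt (Fintype.card F) ^ (16 * (l + 1)) ≤ Real.sqrt (Fintype.card F) ^ k := by
        apply pow_le_pow_right₀ a0
        unfold KK at hk
        rw [hl]
        exact hk
      have a2 : Real.sqrt (Fintype.card F) ^ (16 * (l + 1)) =
          (Fintype.card F : ℝ) ^ (8 * (l + 1)) := by
        rw [show 16 * (l + 1) = 2 * (8 * (l + 1)) by ring, pow_mul, Real.sq_sqrt hq0.le]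
      have a3 : (2 : ℝ) ^ (8 * (l + 1)) ≤ (Fintype.card F : ℝ) ^ (8 * (l + 1)) :=
        pow_le_pow_left₀ (by norm_num) (by linarith) _
      have a4 : (m : ℝ) ^ 8 ≤ (2 : ℝ) ^ (8 * (l + 1)) := by
        rw [mul_comm, pow_mul]
        apply pow_le_pow_left₀ hm0'.le
        exact_mod_cast hl1.le
      linarith
    have hAA : Real.sqrt (Fintype.card F) ^ k * Real.sqrt (Fintype.card F) ^ k =
        (Fintype.card F : ℝ) ^ k := by
      rw [← mul_pow, Real.mul_self_sqrt hq0.le]
    refine num_GRP κ ((1 + Fintype.card ι) * C) C' (Real.sqrt (Fintype.card F) ^ k) m k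
      ((GG GI GT k).card : ℝ) (2 ^ w) hκ ?_ hC' hm1' (by exact_mod_cast hk1)
      (by exact_mod_cast hkm) hA (by positivity) h2w ?_ hmN
    · have := hL.one_le
      positivity
    · rw [hAA]
      exact cntG k hk1
  -- the groups
  obtain ⟨R, hRdef⟩ : ∃ R : Finset (Finset (Prm F)), R = (SmF F m).filter fun S =>
      (∀ P ∈ S, Gp P) ∧ Reg (GG GI GT) H m n₀ S := ⟨_, rfl⟩
  rw [← hRdef]
  obtain ⟨K, hK⟩ : ∃ K : ((ι → ℕ) → ℝ) → (ι → ℕ) → ℝ,
      K = Kn (kI / (kI + ∑ i, kT i)) (fun i => kT i / (kI + ∑ i, kT i)) := ⟨_, rfl⟩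
  rw [← hK]
  rw [← hK] at hITφ
  have memR : ∀ S, S ∈ R ↔ dgS S = m ∧ (∀ P ∈ S, Gp P) ∧ Reg (GG GI GT) H m n₀ S := by
    intro S
    rw [hRdef, Finset.mem_filter, hSM]
  obtain ⟨g, hg⟩ : ∃ g : Finset (Prm F) → Finset (Prm F) × Finset ℕ, g = fun S =>
      (S \ Win (GG GI GT) H m S, (Win (GG GI GT) H m S).image fun P => P.1.natDegree) := ⟨_, rfl⟩
  have hgroup : ∀ x ∈ R.image g,
      ∑ S ∈ R.filter (fun S => g S = x),
        AV B M (K^[(Win (GG GI GT) H m S).card] φ) (S \ Win (GG GI GT) H m S) e -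
        (w : ℝ) / m * ((R.filter (fun S => g S = x)).card : ℝ) ≤
      ∑ S ∈ R.filter (fun S => g S = x), φ (fun i => Nat.log 2 (M i S (UU S) (DD B S) e)) := by
    intro x hx
    rw [Finset.mem_image] at hx
    obtain ⟨S₀, hS₀, rfl⟩ := hx
    obtain ⟨hd₀, hG₀, hR₀⟩ := (memR S₀).1 hS₀
    obtain ⟨E, hE⟩ : ∃ E, E = S₀ \ Win (GG GI GT) H m S₀ := ⟨_, rfl⟩
    obtain ⟨Pi, hPi⟩ : ∃ Pi, Pi = (Win (GG GI GT) H m S₀).image fun P => P.1.natDegree := ⟨_, rfl⟩
    have hg₀ : g S₀ = (E, Pi) := by rw [hg, hE, hPi]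
    rw [hg₀]
    have hWsub : Win (GG GI GT) H m S₀ ⊆ S₀ := by
      unfold Win
      exact Finset.filter_subset _ _
    have hWin₀ : ∀ P, P ∈ Win (GG GI GT) H m S₀ ↔ P ∈ S₀ ∧ P ∈ GG GI GT P.1.natDegree ∧
        KK m ≤ P.1.natDegree ∧ P.1.natDegree ≤ H * KK m := by
      intro P
      unfold Win
      rw [Finset.mem_filter]
    have hPic : Pi.card = (Win (GG GI GT) H m S₀).card := by
      rw [hPi]
      apply Finset.card_image_of_injOn
      intro P hP P' hP' hd
      exact win_inj_GRP _ H m n₀ S₀ hR₀ P hP P' (hWsub hP') hd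
    -- the fiber
    have hfib : R.filter (fun S => g S = (E, Pi)) =
        (Sec (GG GI GT) Pi).image fun T => E ∪ T := by
      ext S
      rw [Finset.mem_filter, Finset.mem_image]
      constructor
      · rintro ⟨hS, hgS⟩
        obtain ⟨hd, hG, hR⟩ := (memR S).1 hS
        rw [hg] at hgS
        obtain ⟨g1, g2⟩ := Prod.mk.inj hgS
        refine ⟨Win (GG GI GT) H m S, ?_, ?_⟩
        · rw [← g2]
          exact win_sec_GRP _ degG H m n₀ S hR
        · rw [← g1]
          apply Finset.sdiff_union_of_subset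
          unfold Win
          exact Finset.filter_subset _ _
      · rintro ⟨T, hT, rfl⟩
        have hT' := hT
        rw [hPi] at hT'
        obtain ⟨f1, f2, f3, f4⟩ := fib_GRP _ degG H m n₀ S₀ hR₀ T hT'
        obtain ⟨t1, t2, t3, t4⟩ := sec_img_GRP _ degG Pi T hT
        rw [← hE] at f1 f2 f3 f4
        refine ⟨(memR _).2 ⟨by rw [f4, hd₀], ?_, f3⟩, ?_⟩
        · intro P hP
          rw [Finset.mem_union] at hP
          rcases hP with hP | hP
          · rw [hE, Finset.mem_sdiff] at hP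
            exact hG₀ P hP.1
          · exact allG _ P (t1 P hP).1
        · rw [hg]
          simp only
          rw [f2, t3, Finset.union_sdiff_cancel_right f1]
    have hinj : Set.InjOn (fun T => E ∪ T) (Sec (GG GI GT) Pi : Set (Finset (Prm F))) := by
      intro T hT T' hT' h
      simp only at h
      have hT1 := Finset.mem_coe.1 hT
      have hT1' := Finset.mem_coe.1 hT'
      rw [hPi] at hT1 hT1'
      have f1 := (fib_GRP _ degG H m n₀ S₀ hR₀ T hT1).2.1
      have f1' := (fib_GRP _ degG H m n₀ S₀ hR₀ T' hT1').2.1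
      rw [← hE] at f1 f1'
      rw [← f1, ← f1', h]
    have hcardf : (R.filter (fun S => g S = (E, Pi))).card = (Sec (GG GI GT) Pi).card := by
      rw [hfib, Finset.card_image_of_injOn hinj]
    have hsumφ : ∑ S ∈ R.filter (fun S => g S = (E, Pi)),
        φ (fun i => Nat.log 2 (M i S (UU S) (DD B S) e)) =
        ∑ T ∈ Sec (GG GI GT) Pi,
          φ (fun i => Nat.log 2 (M i (E ∪ T) (UU (E ∪ T)) (DD B (E ∪ T)) e)) := by
      rw [hfib, Finset.sum_image]
      intro T hT T' hT' h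
      exact hinj hT hT' h
    have hsumAV : ∑ S ∈ R.filter (fun S => g S = (E, Pi)),
        AV B M (K^[(Win (GG GI GT) H m S).card] φ) (S \ Win (GG GI GT) H m S) e =
        ((Sec (GG GI GT) Pi).card : ℝ) * AV B M (K^[Pi.card] φ) E e := by
      rw [← hcardf, ← nsmul_eq_mul, ← Finset.sum_const]
      apply Finset.sum_congr rfl
      intro S hS
      rw [Finset.mem_filter] at hS
      obtain ⟨hS, hgS⟩ := hS
      obtain ⟨hd, hG, hR⟩ := (memR S).1 hS
      rw [hg] at hgS
      obtain ⟨g1, g2⟩ := Prod.mk.inj hgS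
      have hc : (Win (GG GI GT) H m S).card = Pi.card := by
        rw [← g2]
        symm
        apply Finset.card_image_of_injOn
        intro P hP P' hP' hd
        have : Win (GG GI GT) H m S ⊆ S := by
          unfold Win
          exact Finset.filter_subset _ _
        exact win_inj_GRP _ H m n₀ S hR P hP P' (this hP') hd
      rw [g1, hc]
    -- the hypotheses of (IT)
    have hcS : E.card + Pi.card = S₀.card := by
      rw [hPic, hE]
      exact Finset.card_sdiff_add_card_eq_card hWsub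
    have hcw : E.card + Pi.card ≤ w := by
      rw [hcS, hw]
      exact hR₀.2.1
    have hne : Pi.Nonempty := by
      rw [← Finset.card_pos, hPic]
      exact lt_of_lt_of_le hn₀ hR₀.2.2
    have hsumPi : dgS E + ∑ k ∈ Pi, k = m := by
      rw [← hd₀]
      unfold dgS
      rw [← Finset.sum_sdiff hWsub, ← hE, hPi, Finset.sum_image]
      intro P hP P' hP' hd
      exact win_inj_GRP _ H m n₀ S₀ hR₀ P hP P' (hWsub hP') hd
    have hPik : ∀ k ∈ Pi, KK m ≤ k ∧ k ≤ H * KK m ∧ k ≤ m := by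
      intro k hk
      have hkm : k ≤ ∑ j ∈ Pi, j :=
        Finset.single_le_sum (f := fun j : ℕ => j) (fun _ _ => Nat.zero_le _) hk
      rw [hPi, Finset.mem_image] at hk
      obtain ⟨P, hP, rfl⟩ := hk
      have := (hWin₀ P).1 hP
      exact ⟨this.2.2.1, this.2.2.2, by omega⟩
    have hIT2 := hITφ m w e (1 / (m : ℝ)) Pi E hne (by positivity)
      (fun P hP => by
        rw [hE, Finset.mem_sdiff] at hP
        exact hG₀ P hP.1) hsumPi hcw
      (fun k hk => by
        obtain ⟨k1, k2, k3⟩ := hPik k hk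
        refine ⟨?_, ?_, hbig k k1 k3⟩
        · unfold KK at k1
          omega
        · intro P hP hPG
          have hdP := degG k P hPG
          rw [hE, Finset.mem_sdiff] at hP
          apply hP.2
          rw [hWin₀, hdP]
          exact ⟨hP.1, hPG, k1, k2⟩)
    have hlow := hIT2
    rw [hsumφ, hsumAV, hcardf]
    have hPw : (Pi.card : ℝ) ≤ w := by
      have : Pi.card ≤ w := by omega
      exact_mod_cast this
    have hfin : (Pi.card : ℝ) * (1 / (m : ℝ)) * ((Sec (GG GI GT) Pi).card : ℝ) ≤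
        (w : ℝ) / m * ((Sec (GG GI GT) Pi).card : ℝ) := by
      apply mul_le_mul_of_nonneg_right _ (by positivity)
      rw [mul_one_div]
      exact div_le_div_of_nonneg_right hPw hm0'.le
    linarith
  have hmaps : ∀ S ∈ R, g S ∈ R.image g := fun S hS => Finset.mem_image_of_mem g hS
  have s1 := Finset.sum_fiberwise_of_maps_to hmaps
    (fun S => AV B M (K^[(Win (GG GI GT) H m S).card] φ) (S \ Win (GG GI GT) H m S) e)
  have s2 := Finset.sum_fiberwise_of_maps_to hmaps
    (fun S => φ (fun i => Nat.log 2 (M i S (UU S) (DD B S) e)))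
  have s3 := Finset.card_eq_sum_card_fiberwise (f := g) (s := R) (t := R.image g)
    (fun S hS => hmaps S hS)
  have s4 := Finset.sum_le_sum hgroup
  rw [Finset.sum_sub_distrib, s1, s2, ← Finset.mul_sum] at s4
  have s5 : ((R.card : ℕ) : ℝ) = ∑ x ∈ R.image g, ((R.filter (fun S => g S = x)).card : ℝ) := by
    rw [s3]
    push_cast
    rfl
  rw [← s5] at s4
  have s6 : (R.card : ℝ) ≤ (Fintype.card F : ℝ) ^ m := by
    have : R.card ≤ (SmF F m).card := by
      rw [hRdef]
      exact Finset.card_filter_le _ _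
    exact_mod_cast this.trans (hcard m)
  have s7 : (w : ℝ) / m * (R.card : ℝ) ≤
      3 * ((Nat.log 2 m : ℝ) + 1) / m * (Fintype.card F : ℝ) ^ m := by
    have hw' : (w : ℝ) = 3 * ((Nat.log 2 m : ℝ) + 1) := by
      rw [hw]
      push_cast
      ring
    rw [hw']
    exact mul_le_mul_of_nonneg_left s6 (by positivity)
  linarith

end Pool.Agent.Helper54.GL
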