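import Pool.Agent.Helper54.GL.StP

/-!
# GL module P_IT (helper68): all the primes of the window
-/

set_option autoImplicit false

namespace Pool.Agent.Helper54.GL

open Polynomial Finset Filter Topology
open Pool.Agent.Helper54.PT (Prm prm)
open Pool.Agent.Helper3.HY (kp red)
open Pool.Agent.Helper3.GT (dgS)

section IT

variable {F : Type} [Field F] {G : ℕ → Finset (Prm F)}

theorem mem_Sec_IT (Pi : Finset ℕ) (T : Finset (Prm F)) :
    T ∈ Sec G Pi ↔ (∀ P ∈ T, ∃ k ∈ Pi, P ∈ G k) ∧ ∀ k ∈ Pi, ∃ P, ∀ Q, Q ∈ T ∧ Q ∈ G k ↔ Q = P := by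
  classical
  unfold Sec
  rw [mem_filter, mem_powerset]
  refine and_congr ?_ ?_
  · constructor
    · intro h P hP
      obtain ⟨k, hk, hPk⟩ := mem_biUnion.1 (h hP)
      exact ⟨k, hk, hPk⟩
    · intro h P hP
      obtain ⟨k, hk, hPk⟩ := h P hP
      exact mem_biUnion.2 ⟨k, hk, hPk⟩
  · refine forall_congr' fun k => forall_congr' fun _ => ?_
    rw [card_eq_one]
    refine exists_congr fun P => ?_
    rw [Finset.ext_iff]
    refine forall_congr' fun Q => ?_
    rw [mem_filter, mem_singleton]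

open Classical in
theorem sum_Sec_IT (hdis : ∀ (k k' : ℕ) (P : Prm F), P ∈ G k → P ∈ G k' → k = k') (k : ℕ)
    (Pi : Finset ℕ) (hk : k ∉ Pi) (g : Finset (Prm F) → ℝ) :
    ∑ T ∈ Sec G (insert k Pi), g T = ∑ P ∈ G k, ∑ T ∈ Sec G Pi, g (insert P T) := by
  rw [← sum_product']
  symm
  have hno : ∀ T ∈ Sec G Pi, ∀ Q ∈ T, Q ∉ G k := by
    intro T hT Q hQ hQk
    obtain ⟨k', hk', hQk'⟩ := ((mem_Sec_IT Pi T).1 hT).1 Q hQ
    exact hk (hdis k k' Q hQk hQk' ▸ hk')
  refine sum_bij (fun x _ => insert x.1 x.2) ?_ ?_ ?_ ?_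
  · rintro ⟨P, T⟩ hPT
    obtain ⟨hP, hT⟩ := mem_product.1 hPT
    have hT' := (mem_Sec_IT Pi T).1 hT
    rw [mem_Sec_IT]
    constructor
    · intro Q hQ
      rcases mem_insert.1 hQ with rfl | hQ
      · exact ⟨k, mem_insert_self _ _, hP⟩
      · obtain ⟨k', hk', hQk'⟩ := hT'.1 Q hQ
        exact ⟨k', mem_insert_of_mem hk', hQk'⟩
    · intro k' hk'
      rcases mem_insert.1 hk' with rfl | hk'
      · refine ⟨P, fun Q => ⟨?_, ?_⟩⟩
        · rintro ⟨hQ, hQk⟩
          rcases mem_insert.1 hQ with hQ | hQ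
          · exact hQ
          · exact absurd hQk (hno T hT Q hQ)
        · rintro rfl
          exact ⟨mem_insert_self _ _, hP⟩
      · obtain ⟨P', hP'⟩ := hT'.2 k' hk'
        refine ⟨P', fun Q => ?_⟩
        rw [← hP' Q]
        constructor
        · rintro ⟨hQ, hQk⟩
          rcases mem_insert.1 hQ with rfl | hQ
          · exact absurd (hdis k k' _ hP hQk ▸ hk') hk
          · exact ⟨hQ, hQk⟩
        · rintro ⟨hQ, hQk⟩
          exact ⟨mem_insert_of_mem hQ, hQk⟩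
  · rintro ⟨P, T⟩ hPT ⟨P', T'⟩ hPT' h
    obtain ⟨hP, hT⟩ := mem_product.1 hPT
    obtain ⟨hP', hT'⟩ := mem_product.1 hPT'
    have h1 : P = P' := by
      have h2 : P ∈ insert P' T' := by rw [← h]; exact mem_insert_self _ _
      rcases mem_insert.1 h2 with h3 | h3
      · exact h3
      · exact absurd hP (hno T' hT' P h3)
    subst h1
    have h2 : T = T' := by
      have h3 := congrArg (fun S => S.erase P) h
      simp only at h3
      rwa [erase_insert fun h4 => hno T hT P h4 hP,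
        erase_insert fun h4 => hno T' hT' P h4 hP] at h3
    rw [h2]
  · intro T hT
    have hT' := (mem_Sec_IT _ T).1 hT
    obtain ⟨P, hP⟩ := hT'.2 k (mem_insert_self _ _)
    obtain ⟨hPT, hPk⟩ := (hP P).2 rfl
    refine ⟨(P, T.erase P), mem_product.2 ⟨hPk, ?_⟩, insert_erase hPT⟩
    rw [mem_Sec_IT]
    constructor
    · intro Q hQ
      obtain ⟨k', hk', hQk'⟩ := hT'.1 Q (mem_of_mem_erase hQ)
      rcases mem_insert.1 hk' with rfl | hk'
      · exact absurd ((hP Q).1 ⟨mem_of_mem_erase hQ, hQk'⟩) (ne_of_mem_erase hQ)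
      · exact ⟨k', hk', hQk'⟩
    · intro k' hk'
      obtain ⟨P', hP'⟩ := hT'.2 k' (mem_insert_of_mem hk')
      refine ⟨P', fun Q => ?_⟩
      rw [← hP' Q]
      constructor
      · rintro ⟨hQ, hQk⟩
        exact ⟨mem_of_mem_erase hQ, hQk⟩
      · rintro ⟨hQ, hQk⟩
        refine ⟨mem_erase.2 ⟨?_, hQ⟩, hQk⟩
        rintro rfl
        exact hk (hdis k k' _ hPk hQk ▸ hk')
  · intro _ _
    rfl

open Classical in
theorem card_Sec_IT (hdis : ∀ (k k' : ℕ) (P : Prm F), P ∈ G k → P ∈ G k' → k = k') (k : ℕ)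
    (Pi : Finset ℕ) (hk : k ∉ Pi) :
    ((Sec G (insert k Pi)).card : ℝ) = (G k).card * (Sec G Pi).card := by
  have h := sum_Sec_IT hdis k Pi hk fun _ => 1
  simpa using h

open Classical in
theorem bd_Sec_IT (hdis : ∀ (k k' : ℕ) (P : Prm F), P ∈ G k → P ∈ G k' → k = k')
    (hdeg : ∀ k, ∀ P ∈ G k, P.1.natDegree = k) (Pi : Finset ℕ) :
    ∀ T ∈ Sec G Pi, T.card ≤ Pi.card ∧ dgS T ≤ ∑ k ∈ Pi, k := by
  induction Pi using Finset.induction_on with
  | empty =>
    intro T hT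
    have h1 := ((mem_Sec_IT _ T).1 hT).1
    have h2 : T = ∅ := by
      rw [eq_empty_iff_forall_notMem]
      intro P hP
      obtain ⟨k, hk, -⟩ := h1 P hP
      exact absurd hk (notMem_empty _)
    subst h2
    simp [dgS]
  | insert k Pi hk ih =>
    intro T hT
    have hT' := (mem_Sec_IT _ T).1 hT
    obtain ⟨P, hP⟩ := hT'.2 k (mem_insert_self _ _)
    obtain ⟨hPT, hPk⟩ := (hP P).2 rfl
    have h1 : T.erase P ∈ Sec G Pi := by
      rw [mem_Sec_IT]
      constructor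
      · intro Q hQ
        obtain ⟨k', hk', hQk'⟩ := hT'.1 Q (mem_of_mem_erase hQ)
        rcases mem_insert.1 hk' with rfl | hk'
        · exact absurd ((hP Q).1 ⟨mem_of_mem_erase hQ, hQk'⟩) (ne_of_mem_erase hQ)
        · exact ⟨k', hk', hQk'⟩
      · intro k' hk'
        obtain ⟨P', hP'⟩ := hT'.2 k' (mem_insert_of_mem hk')
        refine ⟨P', fun Q => ?_⟩
        rw [← hP' Q]
        constructor
        · rintro ⟨hQ, hQk⟩
          exact ⟨mem_of_mem_erase hQ, hQk⟩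
        · rintro ⟨hQ, hQk⟩
          refine ⟨mem_erase.2 ⟨?_, hQ⟩, hQk⟩
          rintro rfl
          exact hk (hdis k k' _ hPk hQk ▸ hk')
    obtain ⟨h2, h3⟩ := ih _ h1
    rw [← insert_erase hPT, card_insert_of_notMem (notMem_erase _ _), card_insert_of_notMem hk,
      sum_insert hk]
    refine ⟨by omega, ?_⟩
    unfold dgS at h3 ⊢
    rw [sum_insert (notMem_erase _ _), hdeg k P hPk]
    omega

open Classical in
/-- The induction over the degrees. -/
theorem step_IT {ι : Type} (hdis : ∀ (k k' : ℕ) (P : Prm F), P ∈ G k → P ∈ G k' → k = k')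
    (hdeg : ∀ k, ∀ P ∈ G k, P.1.natDegree = k) (Gp : Prm F → Prop) (hGp : ∀ k, ∀ P ∈ G k, Gp P)
    (A : ((ι → ℕ) → ℝ) → Finset (Prm F) → ℝ) (K : ((ι → ℕ) → ℝ) → (ι → ℕ) → ℝ)
    (hK : ∀ φ : (ι → ℕ) → ℝ, (∀ x, 0 ≤ φ x ∧ φ x ≤ 1) → ∀ x, 0 ≤ K φ x ∧ K φ x ≤ 1)
    (hKa : ∀ φ : (ι → ℕ) → ℝ, Antitone φ → Antitone (K φ)) (η : ℝ)
    (m : ℕ) (ok : ℕ → Prop)
    (hstep : ∀ φ : (ι → ℕ) → ℝ, (∀ x, 0 ≤ φ x ∧ φ x ≤ 1) → Antitone φ →
      ∀ (S : Finset (Prm F)) (k : ℕ), ok k → (∀ P ∈ S, Gp P) → (∀ P ∈ S, P ∉ G k) → dgS S ≤ m →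
      ((G k).card : ℝ) * A (K φ) S - η * ((G k).card : ℝ) ≤ ∑ P ∈ G k, A φ (insert P S))
    (Pi : Finset ℕ) : (∀ k ∈ Pi, ok k) → ∀ φ : (ι → ℕ) → ℝ, (∀ x, 0 ≤ φ x ∧ φ x ≤ 1) →
      Antitone φ → ∀ E : Finset (Prm F), (∀ P ∈ E, Gp P) → (∀ k ∈ Pi, ∀ P ∈ E, P ∉ G k) →
      dgS E + ∑ k ∈ Pi, k ≤ m →
      ((Sec G Pi).card : ℝ) * A (K^[Pi.card] φ) E - Pi.card * η * ((Sec G Pi).card : ℝ) ≤
        ∑ T ∈ Sec G Pi, A φ (E ∪ T) := by
  induction Pi using Finset.induction_on with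
  | empty =>
    intro _ φ _ _ E _ _ _
    have h1 : Sec G ∅ = {∅} := by
      ext T
      rw [mem_Sec_IT, mem_singleton]
      constructor
      · rintro ⟨h, -⟩
        rw [eq_empty_iff_forall_notMem]
        intro P hP
        obtain ⟨k, hk, -⟩ := h P hP
        exact absurd hk (notMem_empty _)
      · rintro rfl
        exact ⟨fun P hP => absurd hP (notMem_empty _), fun k hk => absurd hk (notMem_empty _)⟩
    rw [h1]
    simp
  | insert k Pi hk ih =>
    intro hok φ hφ hφa E hE hEG hm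
    rw [sum_insert hk] at hm
    have hKn : ∀ n : ℕ, ∀ x, 0 ≤ (K^[n] φ) x ∧ (K^[n] φ) x ≤ 1 := by
      intro n
      induction n with
      | zero => exact hφ
      | succ n ihn =>
        rw [Function.iterate_succ_apply']
        exact hK _ ihn
    have hKna : ∀ n : ℕ, Antitone (K^[n] φ) := by
      intro n
      induction n with
      | zero => exact hφa
      | succ n ihn =>
        rw [Function.iterate_succ_apply']
        exact hKa _ ihn
    have hkok := hok k (mem_insert_self _ _)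
    have h1 := hstep (K^[Pi.card] φ) (hKn _) (hKna _) E k hkok hE
      (hEG k (mem_insert_self _ _)) (by omega)
    have h2 : ∀ P ∈ G k, ((Sec G Pi).card : ℝ) * A (K^[Pi.card] φ) (insert P E) -
        Pi.card * η * ((Sec G Pi).card : ℝ) ≤ ∑ T ∈ Sec G Pi, A φ (insert P E ∪ T) := by
      intro P hP
      refine ih (fun k' hk' => hok k' (mem_insert_of_mem hk')) φ hφ hφa (insert P E) ?_ ?_ ?_
      · intro Q hQ
        rcases mem_insert.1 hQ with rfl | hQ
        · exact hGp k _ hP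
        · exact hE Q hQ
      · intro k' hk' Q hQ hQk
        rcases mem_insert.1 hQ with rfl | hQ
        · exact hk (hdis k k' _ hP hQk ▸ hk')
        · exact hEG k' (mem_insert_of_mem hk') Q hQ hQk
      · have h3 : P ∉ E := fun h => hEG k (mem_insert_self _ _) P h hP
        unfold dgS at hm ⊢
        rw [sum_insert h3, hdeg k P hP]
        omega
    rw [sum_Sec_IT hdis k Pi hk, card_Sec_IT hdis k Pi hk, card_insert_of_notMem hk,
      Function.iterate_succ_apply']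
    have h4 : ∑ P ∈ G k, (((Sec G Pi).card : ℝ) * A (K^[Pi.card] φ) (insert P E) -
        Pi.card * η * ((Sec G Pi).card : ℝ)) ≤ ∑ P ∈ G k, ∑ T ∈ Sec G Pi, A φ (E ∪ insert P T) := by
      refine sum_le_sum fun P hP => (h2 P hP).trans (le_of_eq ?_)
      simp only [insert_union, union_insert]
    rw [sum_sub_distrib, ← mul_sum, sum_const, nsmul_eq_mul] at h4
    have h5 : ((Sec G Pi).card : ℝ) * (((G k).card : ℝ) * A (K (K^[Pi.card] φ)) E -
        η * ((G k).card : ℝ)) ≤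
        ((Sec G Pi).card : ℝ) * ∑ P ∈ G k, A (K^[Pi.card] φ) (insert P E) :=
      mul_le_mul_of_nonneg_left h1 (Nat.cast_nonneg _)
    push_cast
    linarith [h4, h5]

end IT

open Classical in
theorem gIT (h1 : StSM) (h2 : StSTI) (h3 : StSTL) (h4 : StKF) : StIT := by
  intro F _ _ ι _ _ B Gp GI GT kI kT M C ρ hL
  obtain ⟨C1, hC1, hI⟩ := h2 F ι B Gp GI GT kI kT M C ρ hL
  obtain ⟨C2, hC2, hT⟩ := h3 F ι B Gp GI GT kI kT M C ρ hL
  obtain ⟨-, -, -, hprm, -⟩ := h1 F hL.odd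
  refine ⟨C1 + C2, add_nonneg hC1 hC2, ?_⟩
  intro φ hφ hφa m w e η Pi E hPi hη hE hm hw hk
  obtain ⟨G, hG⟩ : ∃ G : ℕ → Finset (Prm F), G = GG GI GT := ⟨_, rfl⟩
  obtain ⟨K, hKdef⟩ : ∃ K : ((ι → ℕ) → ℝ) → (ι → ℕ) → ℝ,
    K = Kn (kI / (kI + ∑ i, kT i)) (fun i => kT i / (kI + ∑ i, kT i)) := ⟨_, rfl⟩
  rw [← hG] at hk ⊢
  rw [← hKdef]
  have hmem : ∀ k, ∀ P ∈ G k, P ∈ prm F k ∧ Gp P := by
    intro k P hP
    rw [hG, GG, mem_union, mem_biUnion] at hP
    rcases hP with hP | ⟨i, -, hP⟩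
    · exact hL.subI k P hP
    · exact hL.subT i k P hP
  have hdeg : ∀ k, ∀ P ∈ G k, P.1.natDegree = k := fun k P hP => (hprm k P).1 (hmem k P hP).1
  have hGp : ∀ k, ∀ P ∈ G k, Gp P := fun k P hP => (hmem k P hP).2
  have hdis : ∀ (k k' : ℕ) (P : Prm F), P ∈ G k → P ∈ G k' → k = k' := fun k k' P h h' =>
    (hdeg k P h).symm.trans (hdeg k' P h')
  -- the kernel
  have hs : 0 < kI + ∑ i, kT i := add_pos_of_pos_of_nonneg hL.kI_pos
    (sum_nonneg fun i _ => (hL.kT_pos i).le)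
  have ha : 0 ≤ kI / (kI + ∑ i, kT i) := div_nonneg hL.kI_pos.le hs.le
  have hb : ∀ i, 0 ≤ kT i / (kI + ∑ i, kT i) := fun i => div_nonneg (hL.kT_pos i).le hs.le
  have hKa : ∀ φ : (ι → ℕ) → ℝ, Antitone φ → Antitone (K φ) := by
    intro φ hφ
    rw [hKdef]
    refine h4 ι _ _ ha hb ?_ φ hφ
    intro i
    rw [← mul_div_assoc]
    exact div_le_div_of_nonneg_right (hL.kT_le i) hs.le
  have hK : ∀ φ : (ι → ℕ) → ℝ, (∀ x, 0 ≤ φ x ∧ φ x ≤ 1) → ∀ x, 0 ≤ K φ x ∧ K φ x ≤ 1 := by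
    intro φ hφ x
    have hab : kI / (kI + ∑ i, kT i) + ∑ i, kT i / (kI + ∑ i, kT i) = 1 := by
      rw [← sum_div, ← add_div, div_self hs.ne']
    have hB : ∀ i, 0 ≤ Bi i φ x ∧ Bi i φ x ≤ 1 := by
      intro i
      have h4 : (0 : ℝ) ≤ (1 / 2) ^ x i := by positivity
      have h5 : ((1 : ℝ) / 2) ^ x i ≤ 1 := pow_le_one₀ (by norm_num) (by norm_num)
      obtain ⟨h6, h7⟩ := hφ (Function.update x i (x i + 1))
      obtain ⟨h8, h9⟩ := hφ (Function.update x i (x i - 1))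
      unfold Bi
      constructor
      · exact add_nonneg (mul_nonneg h4 h6) (mul_nonneg (by linarith) h8)
      · nlinarith
    rw [hKdef]
    unfold Kn
    constructor
    · exact add_nonneg (mul_nonneg ha (hφ x).1) (sum_nonneg fun i _ => mul_nonneg (hb i) (hB i).1)
    · rw [← hab]
      refine add_le_add ?_ (sum_le_sum fun i _ => ?_)
      · exact mul_le_of_le_one_right ha (hφ x).2
      · exact mul_le_of_le_one_right (hb i) (hB i).2
  have hsq : ∀ k : ℕ, 0 ≤ Real.sqrt (Fintype.card F) ^ k := fun k => by positivity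
  have h2w : (1 : ℝ) ≤ 2 ^ w := one_le_pow₀ (by norm_num)
  -- the last prime
  obtain ⟨k, hkPi⟩ := hPi
  obtain ⟨Pi', hkPi', rfl⟩ : ∃ Pi' : Finset ℕ, k ∉ Pi' ∧ insert k Pi' = Pi :=
    ⟨Pi.erase k, notMem_erase _ _, insert_erase hkPi⟩
  obtain ⟨hk1, hkE, hkη⟩ := hk k (mem_insert_self _ _)
  rw [sum_insert hkPi'] at hm
  rw [card_insert_of_notMem hkPi'] at hw
  have hstep := step_IT hdis hdeg Gp hGp (fun φ S => AV B M φ S e) K hK hKa η m
    (fun k => 1 ≤ k ∧ (C1 + C2) * (m + 1) * 2 ^ w * Real.sqrt (Fintype.card F) ^ k ≤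
      η * ((G k).card : ℝ)) (by
      rintro ψ hψ hψa S k' ⟨hk'1, hk'η⟩ hS hSG hSm
      have h4 := hI ψ hψ hψa S e k' hk'1 hS (by rw [← hG]; exact hSG)
      rw [← hG, ← hKdef] at h4
      refine le_trans (sub_le_sub_left (le_trans ?_ hk'η) _) h4
      refine mul_le_mul_of_nonneg_right ?_ (hsq k')
      have h5 : ((dgS S : ℕ) : ℝ) ≤ m := by exact_mod_cast hSm
      calc C1 * ((dgS S : ℝ) + 1) ≤ (C1 + C2) * (m + 1) := by
            refine mul_le_mul (by linarith) (by linarith) (by positivity) (by linarith)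
        _ ≤ (C1 + C2) * (m + 1) * 2 ^ w := le_mul_of_one_le_right
            (mul_nonneg (by linarith) (by positivity)) h2w) Pi'
    (fun k' hk' => ⟨(hk k' (mem_insert_of_mem hk')).1, (hk k' (mem_insert_of_mem hk')).2.2⟩)
    (K φ) (hK φ hφ) (hKa φ hφa) E hE (fun k' hk' => (hk k' (mem_insert_of_mem hk')).2.1) (by omega)
  rw [sum_Sec_IT hdis k Pi' hkPi', card_Sec_IT hdis k Pi' hkPi', card_insert_of_notMem hkPi',
    Function.iterate_succ_apply, sum_comm]
  have hlast : ∀ T ∈ Sec G Pi', ((G k).card : ℝ) * AV B M (K φ) (E ∪ T) e -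
      η * ((G k).card : ℝ) ≤ ∑ P ∈ G k, φ (fun i => Nat.log 2 (M i (E ∪ insert P T)
        (UU (E ∪ insert P T)) (DD B (E ∪ insert P T)) e)) := by
    intro T hTS
    obtain ⟨hT1, hT2⟩ := bd_Sec_IT hdis hdeg Pi' T hTS
    have hTm := (mem_Sec_IT Pi' T).1 hTS
    have h4 := hT φ hφ hφa (E ∪ T) e k hk1 (by
      intro P hP
      rcases mem_union.1 hP with hP | hP
      · exact hE P hP
      · obtain ⟨k', -, hk'⟩ := hTm.1 P hP
        exact hGp k' P hk') (by
      rw [← hG]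
      intro P hP hPk
      rcases mem_union.1 hP with hP | hP
      · exact hkE P hP hPk
      · obtain ⟨k', hk'Pi, hk'⟩ := hTm.1 P hP
        exact hkPi' (hdis k k' P hPk hk' ▸ hk'Pi))
    rw [← hG, ← hKdef] at h4
    simp only [union_insert]
    refine le_trans (sub_le_sub_left (le_trans ?_ hkη) _) h4
    refine mul_le_mul_of_nonneg_right ?_ (hsq k)
    have h5 : dgS (E ∪ T) ≤ m := by
      have h6 : dgS (E ∪ T) ≤ dgS E + dgS T := by
        unfold dgS
        have h7 := sum_union_inter (s₁ := E) (s₂ := T) (f := fun P : Prm F => P.1.natDegree)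
        omega
      omega
    have h6 : (E ∪ T).card ≤ w := by
      have h7 := card_union_le E T
      omega
    have h7 : ((dgS (E ∪ T) : ℕ) : ℝ) ≤ m := by exact_mod_cast h5
    have h8 : (2 : ℝ) ^ (E ∪ T).card ≤ 2 ^ w := pow_le_pow_right₀ (by norm_num) h6
    refine mul_le_mul ?_ h8 (by positivity) (mul_nonneg (by linarith) (by positivity))
    exact mul_le_mul (by linarith) (by linarith) (by positivity) (by linarith)
  have h5 := sum_le_sum hlast
  rw [sum_sub_distrib, ← mul_sum, sum_const, nsmul_eq_mul] at h5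
  have h6 : ((G k).card : ℝ) * (((Sec G Pi').card : ℝ) * AV B M (K^[Pi'.card] (K φ)) E e -
      Pi'.card * η * ((Sec G Pi').card : ℝ)) ≤
      ((G k).card : ℝ) * ∑ T ∈ Sec G Pi', AV B M (K φ) (E ∪ T) e :=
    mul_le_mul_of_nonneg_left hstep (Nat.cast_nonneg _)
  push_cast
  linarith [h5, h6]

end Pool.Agent.Helper54.GL
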