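import Pool.Agent.Helper54.GL.StP

/-!
# GL: module LAW
-/

set_option autoImplicit false

namespace Pool.Agent.Helper54.GL

open Polynomial Finset Filter Topology
open Pool.Agent.Helper54.PT (Prm prm)
open Pool.Agent.Helper3.GT (dgS)

open Classical in
private theorem AV_mono_LAW {F : Type} [Field F] {ι : Type} [Fintype ι] (B : Finset (Prm F))
    (M : ι → Finset (Prm F) → Finset (Prm F) → Finset (Prm F) → ℕ → ℕ) {φ ψ : (ι → ℕ) → ℝ}
    (h : ∀ x, φ x ≤ ψ x) (S : Finset (Prm F)) (e : ℕ) : AV B M φ S e ≤ AV B M ψ S e := by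
  unfold AV
  refine div_le_div_of_nonneg_right ?_ (by positivity)
  exact sum_le_sum fun U _ => sum_le_sum fun Δ _ => h _

open Classical in
private theorem AV_nonneg_LAW {F : Type} [Field F] {ι : Type} [Fintype ι] (B : Finset (Prm F))
    (M : ι → Finset (Prm F) → Finset (Prm F) → Finset (Prm F) → ℕ → ℕ) {φ : (ι → ℕ) → ℝ}
    (h : ∀ x, 0 ≤ φ x) (S : Finset (Prm F)) (e : ℕ) : 0 ≤ AV B M φ S e := by
  unfold AV
  refine div_nonneg ?_ (by positivity)
  exact sum_nonneg fun U _ => sum_nonneg fun Δ _ => h _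

open Classical in
private theorem AV_lin_LAW {F : Type} [Field F] {ι : Type} [Fintype ι] (B : Finset (Prm F))
    (M : ι → Finset (Prm F) → Finset (Prm F) → Finset (Prm F) → ℕ → ℕ) (p t : ℝ)
    (S : Finset (Prm F)) (e : ℕ) :
    AV B M (fun x => p - t * ∑ i, Real.sqrt 2 ^ x i) S e =
      p - t * ∑ i, AV B M (fun x => Real.sqrt 2 ^ x i) S e := by
  unfold AV
  have hD : (2 : ℝ) ^ S.card * 2 ^ B.card ≠ 0 := by positivity
  rw [← Finset.sum_div, div_eq_iff hD, sub_mul, mul_assoc, div_mul_cancel₀ _ hD]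
  simp only [sum_sub_distrib, ← mul_sum, sum_const, card_powerset, nsmul_eq_mul]
  congr 1
  · push_cast
    ring
  · congr 1
    rw [Finset.sum_comm]
    have h : ∀ U ∈ S.powerset, ∑ Δ ∈ B.powerset, ∑ i, Real.sqrt 2 ^ Nat.log 2 (M i S U Δ e) =
        ∑ i, ∑ Δ ∈ B.powerset, Real.sqrt 2 ^ Nat.log 2 (M i S U Δ e) := fun U _ =>
      Finset.sum_comm
    rw [Finset.sum_comm, Finset.sum_congr rfl h, Finset.sum_comm]

private theorem log_tends_LAW : Tendsto (fun m : ℕ => 3 * ((Nat.log 2 m : ℝ) + 1) / m) atTop (𝓝 0) := by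
  have h1 : Tendsto (fun m : ℕ => Real.log m / m) atTop (𝓝 0) := by
    have := Real.isLittleO_log_id_atTop.tendsto_div_nhds_zero
    exact this.comp tendsto_natCast_atTop_atTop
  have h2 : Tendsto (fun m : ℕ => (1 : ℝ) / m) atTop (𝓝 0) := tendsto_one_div_atTop_nhds_zero_nat
  have h3 : Tendsto (fun m : ℕ => 3 / Real.log 2 * (Real.log m / m) + 3 * ((1 : ℝ) / m)) atTop
      (𝓝 0) := by
    have := (h1.const_mul (3 / Real.log 2)).add (h2.const_mul 3)
    simpa using this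
  refine squeeze_zero' ?_ ?_ h3
  · exact Eventually.of_forall fun m => by positivity
  · filter_upwards [eventually_ge_atTop 1] with m hm
    have hm' : (0 : ℝ) < m := by exact_mod_cast hm
    have hl2 : 0 < Real.log 2 := Real.log_pos one_lt_two
    have hlog : (Nat.log 2 m : ℝ) ≤ Real.log m / Real.log 2 := by
      rw [le_div_iff₀ hl2, ← Real.log_pow]
      refine Real.log_le_log (by positivity) ?_
      exact_mod_cast Nat.pow_log_le_self 2 (by omega)
    have : 3 / Real.log 2 * (Real.log m / m) + 3 * ((1 : ℝ) / m) =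
        3 * (Real.log m / Real.log 2 + 1) / m := by
      field_simp
    rw [this]
    gcongr

open Classical in
theorem gLAW (h1 : StSM) (h2 : StKE) (h3 : StVS) (h4 : StNRG) (h5 : StGRP) : StLAW := by
  intro F _ _ ι _ B Gp GI GT kI kT M C ρ hL r ε hε
  set κ : ℝ := kI + ∑ i, kT i with hκ
  have hκpos : 0 < κ := add_pos_of_pos_of_nonneg hL.kI_pos (sum_nonneg fun i _ => (hL.kT_pos i).le)
  set a : ℝ := kI / κ with ha
  set b : ι → ℝ := fun i => kT i / κ with hb
  have hapos : 0 < a := div_pos hL.kI_pos hκpos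
  have hbpos : ∀ i, 0 < b i := fun i => div_pos (hL.kT_pos i) hκpos
  have hble : ∀ i, b i ≤ 2 * a := by
    intro i
    rw [hb, ha, mul_div_assoc']
    exact div_le_div_of_nonneg_right (hL.kT_le i) hκpos.le
  have hab : a + ∑ i, b i = 1 := by
    rw [ha, hb, ← Finset.sum_div, ← add_div, ← hκ, div_self hκpos.ne']
  obtain ⟨ρ₁, hρ0, hρ1, hKE⟩ := h2 ι a b hapos hbpos hble hab
  obtain ⟨C₁, hC₁, hKE'⟩ := hKE r
  set p : ℝ := ∏ i, ∑ j ∈ range (r i + 1), pr j with hp
  obtain ⟨CV, hCV, hVS⟩ := h3 F ι B Gp GI GT kI kT M C ρ hL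
  obtain ⟨c, hc, hsqf⟩ := hL.sqf
  set φ : (ι → ℕ) → ℝ := fun y => if ∀ i, y i ≤ r i then 1 else 0 with hφ
  have hφ01 : ∀ x, 0 ≤ φ x ∧ φ x ≤ 1 := by
    intro x
    simp only [hφ]
    split_ifs <;> norm_num
  have hanti : Antitone φ := by
    intro x y hxy
    simp only [hφ]
    by_cases h : ∀ i, y i ≤ r i
    · rw [if_pos h, if_pos fun i => (hxy i).trans (h i)]
    · rw [if_neg h]
      split_ifs <;> norm_num
  -- choice of the number of steps
  have ht : Tendsto (fun n : ℕ => C₁ * ρ₁ ^ n * (Fintype.card ι * CV)) atTop (𝓝 0) := by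
    have := ((tendsto_pow_atTop_nhds_zero_of_lt_one hρ0 hρ1).const_mul C₁).mul_const
      (Fintype.card ι * CV)
    simpa using this
  have hεc : 0 < ε * c / 4 := by positivity
  obtain ⟨n₀, hn₀, hn₁⟩ := ((ht.eventually (gt_mem_nhds hεc)).and (eventually_ge_atTop 1)).exists
  set t : ℝ := C₁ * ρ₁ ^ n₀ with htdef
  have ht0 : 0 ≤ t := mul_nonneg hC₁ (pow_nonneg hρ0 _)
  have hP : 0 < |p| + 1 := by positivity
  set ε₁ : ℝ := ε * c / (4 * (|p| + 1)) with hε₁
  have hε₁pos : 0 < ε₁ := by positivity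
  obtain ⟨H, hH, hNRG⟩ := h4 F ι B Gp GI GT kI kT M C ρ hL ε₁ n₀ hε₁pos
  have hGRP := h5 F ι B Gp GI GT kI kT M C ρ hL φ hφ01 hanti H n₀ hH hn₁
  filter_upwards [hsqf, hVS H hH, hNRG, hGRP, log_tends_LAW.eventually (gt_mem_nhds hεc)] with
    m m1 m2 m3 m4 m5
  set q : ℝ := (Fintype.card F : ℝ) with hq
  have hq0 : 0 ≤ q ^ m := by positivity
  set s := SmF F m with hs
  -- the sum of phi
  have e1 : ∑ S ∈ s.filter fun S => (∀ P ∈ S, Gp P) ∧ Reg (GG GI GT) H m n₀ S,
      φ (fun i => Nat.log 2 (M i S (UU S) (DD B S) m)) ≤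
      ((s.filter fun S => (∀ P ∈ S, Gp P) ∧
            ∀ i, M i S (UU S) (DD B S) m ≤ 2 ^ r i).card : ℝ) := by
    rw [Finset.card_filter, Nat.cast_sum, Finset.sum_filter]
    refine sum_le_sum fun S _ => ?_
    by_cases hG : (∀ P ∈ S, Gp P) ∧ Reg (GG GI GT) H m n₀ S
    · rw [if_pos hG]
      by_cases hA : ∀ i, Nat.log 2 (M i S (UU S) (DD B S) m) ≤ r i
      · have hA' : (∀ P ∈ S, Gp P) ∧ ∀ i, M i S (UU S) (DD B S) m ≤ 2 ^ r i := by
          refine ⟨hG.1, fun i => ?_⟩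
          obtain ⟨x, hx⟩ := hL.pow i S (UU S) (DD B S) m hG.1 (Finset.filter_subset _ _)
            (Finset.filter_subset _ _)
          have h := hA i
          rw [hx, Nat.log_pow Nat.one_lt_two] at h
          rw [hx]
          exact Nat.pow_le_pow_right (by norm_num) h
        rw [if_pos hA']
        simpa using (hφ01 _).2
      · have : φ (fun i => Nat.log 2 (M i S (UU S) (DD B S) m)) = 0 := by
          simp only [hφ]
          rw [if_neg hA]
        rw [this]
        positivity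
    · rw [if_neg hG]
      positivity
  -- the average
  have e2 : ∀ S ∈ s.filter fun S => (∀ P ∈ S, Gp P) ∧ Reg (GG GI GT) H m n₀ S,
      p - t * ∑ i, AV B M (fun x => Real.sqrt 2 ^ x i) (S \ Win (GG GI GT) H m S) m ≤
      AV B M ((Kn a b)^[(Win (GG GI GT) H m S).card] φ) (S \ Win (GG GI GT) H m S) m := by
    intro S hS
    rw [Finset.mem_filter] at hS
    have hn : n₀ ≤ (Win (GG GI GT) H m S).card := hS.2.2.2.2
    rw [← AV_lin_LAW]
    refine AV_mono_LAW B M (fun x => ?_) _ _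
    refine le_trans ?_ (hKE' (Win (GG GI GT) H m S).card x)
    have hs0 : 0 ≤ ∑ i, Real.sqrt 2 ^ x i := sum_nonneg fun i _ => by positivity
    have hpw : ρ₁ ^ (Win (GG GI GT) H m S).card ≤ ρ₁ ^ n₀ := pow_le_pow_of_le_one hρ0 hρ1.le hn
    have : C₁ * ρ₁ ^ (Win (GG GI GT) H m S).card * ∑ i, Real.sqrt 2 ^ x i ≤
        t * ∑ i, Real.sqrt 2 ^ x i := by
      rw [htdef]
      gcongr
    linarith
  have e3 := sum_le_sum e2
  rw [Finset.sum_sub_distrib, Finset.sum_const, nsmul_eq_mul, ← Finset.mul_sum,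
    Finset.sum_comm] at e3
  have e4 : ∑ i, ∑ S ∈ s.filter fun S => (∀ P ∈ S, Gp P) ∧ Reg (GG GI GT) H m n₀ S,
      AV B M (fun x => Real.sqrt 2 ^ x i) (S \ Win (GG GI GT) H m S) m ≤
        Fintype.card ι * (CV * q ^ m) := by
    rw [← nsmul_eq_mul, ← Finset.card_univ, ← Finset.sum_const]
    refine sum_le_sum fun i _ => ?_
    refine le_trans ?_ (m2 i m)
    refine Finset.sum_le_sum_of_subset_of_nonneg ?_ ?_
    · intro S hS
      rw [Finset.mem_filter] at hS ⊢
      exact ⟨hS.1, hS.2.1⟩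
    · intro S _ _
      exact AV_nonneg_LAW B M (fun x => by positivity) _ _
  -- the number of the regular sets
  have e5 : ((s.filter fun S => ∀ P ∈ S, Gp P).card : ℝ) ≤
      ((s.filter fun S => (∀ P ∈ S, Gp P) ∧ Reg (GG GI GT) H m n₀ S).card : ℝ) + ε₁ * q ^ m := by
    refine le_trans ?_ (add_le_add_right m3 _)
    have : (s.filter fun S => ∀ P ∈ S, Gp P) ⊆
        (s.filter fun S => (∀ P ∈ S, Gp P) ∧ Reg (GG GI GT) H m n₀ S) ∪
          (s.filter fun S => ¬ Reg (GG GI GT) H m n₀ S) := by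
      intro S hS
      rw [Finset.mem_filter] at hS
      rw [Finset.mem_union, Finset.mem_filter, Finset.mem_filter]
      by_cases hR : Reg (GG GI GT) H m n₀ S
      · exact Or.inl ⟨hS.1, hS.2, hR⟩
      · exact Or.inr ⟨hS.1, hR⟩
    exact_mod_cast (Finset.card_le_card this).trans (Finset.card_union_le _ _)
  have e6 : ((s.filter fun S => (∀ P ∈ S, Gp P) ∧ Reg (GG GI GT) H m n₀ S).card : ℝ) ≤
      ((s.filter fun S => ∀ P ∈ S, Gp P).card : ℝ) := by
    have : (s.filter fun S => (∀ P ∈ S, Gp P) ∧ Reg (GG GI GT) H m n₀ S) ⊆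
        (s.filter fun S => ∀ P ∈ S, Gp P) := by
      intro S hS
      rw [Finset.mem_filter] at hS ⊢
      exact ⟨hS.1, hS.2.1⟩
    exact_mod_cast Finset.card_le_card this
  have m4' := m4 m
  set N : ℝ := ((s.filter fun S => ∀ P ∈ S, Gp P).card : ℝ) with hN
  set R : ℝ := ((s.filter fun S => (∀ P ∈ S, Gp P) ∧ Reg (GG GI GT) H m n₀ S).card : ℝ) with hR
  have f1 : |p| * ε₁ ≤ ε * c / 4 := by
    rw [hε₁, mul_div_assoc', div_le_div_iff₀ (by positivity) (by norm_num)]
    nlinarith [abs_nonneg p, mul_pos hε hc]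
  have f2 : p * N - |p| * ε₁ * q ^ m ≤ p * R := by
    have g1 : 0 ≤ N - R := by linarith
    have g2 : N - R ≤ ε₁ * q ^ m := by linarith
    have g3 : p * (N - R) ≤ |p| * (ε₁ * q ^ m) :=
      (mul_le_mul_of_nonneg_right (le_abs_self p) g1).trans
        (mul_le_mul_of_nonneg_left g2 (abs_nonneg p))
    linarith
  have f3 : t * (Fintype.card ι * (CV * q ^ m)) ≤ ε * c / 4 * q ^ m := by
    have : t * (Fintype.card ι * (CV * q ^ m)) = t * (Fintype.card ι * CV) * q ^ m := by ring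
    rw [this]
    exact mul_le_mul_of_nonneg_right hn₀.le hq0
  have f4 : 3 * ((Nat.log 2 m : ℝ) + 1) / m * q ^ m ≤ ε * c / 4 * q ^ m :=
    mul_le_mul_of_nonneg_right m5.le hq0
  have f5 : |p| * ε₁ * q ^ m ≤ ε * c / 4 * q ^ m := mul_le_mul_of_nonneg_right f1 hq0
  have f6 := mul_le_mul_of_nonneg_left e4 ht0
  have f7 : ε * (c * q ^ m) ≤ ε * N := mul_le_mul_of_nonneg_left m1 hε.le
  have f8 : 0 ≤ ε * (c * q ^ m) := by positivity
  have e7 := m4'.trans e1
  nlinarith

end Pool.Agent.Helper54.GL
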