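import Pool.Agent.Helper54.GL.StP

/-!
# GL: module P_MUL (the sum of a multiplicative function)
-/

set_option autoImplicit false
set_option linter.unusedSectionVars false

namespace Pool.Agent.Helper54.GL

open Polynomial Finset Filter Topology
open Pool.Agent.Helper54.PT (Prm prm mem_prm)
open Pool.Agent.Helper3.GT (dgS)

namespace MULaux

variable {F : Type} [Field F] [Fintype F]

theorem pos_deg_MUL (P : Prm F) : 1 ≤ P.1.natDegree := P.2.2.natDegree_pos

theorem deg_le_MUL (S : Finset (Prm F)) (P : Prm F) (hP : P ∈ S) : P.1.natDegree ≤ dgS S :=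
  single_le_sum (f := fun P : Prm F => P.1.natDegree) (fun _ _ => Nat.zero_le _) hP

/-- The weight. -/
noncomputable def wt (h : ℕ → ℝ) (S : Finset (Prm F)) : ℝ := ∏ P ∈ S, h P.1.natDegree

theorem wt_nonneg (h : ℕ → ℝ) (hh : ∀ k, 0 ≤ h k) (S : Finset (Prm F)) : 0 ≤ wt h S :=
  prod_nonneg fun _ _ => hh _

open Classical in
theorem rec_MUL (hmem : ∀ (m : ℕ) (S : Finset (Prm F)), S ∈ SmF F m ↔ dgS S = m)
    (hprm : ∀ k : ℕ, (k : ℝ) * ((prm F k).card : ℝ) ≤ (Fintype.card F : ℝ) ^ k)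
    (h : ℕ → ℝ) (C₂ : ℝ) (hh : ∀ k, 0 ≤ h k ∧ h k ≤ C₂) (m : ℕ) :
    (m : ℝ) * ∑ S ∈ SmF F m, wt h S ≤
      C₂ * ∑ k ∈ Icc 1 m, (Fintype.card F : ℝ) ^ k * ∑ T ∈ SmF F (m - k), wt h T := by
  have h0 : ∀ k, 0 ≤ h k := fun k => (hh k).1
  have hC : 0 ≤ C₂ := (h0 0).trans (hh 0).2
  let g : (Σ _ : ℕ, (Prm F) × Finset (Prm F)) → ℝ := fun x =>
    (x.2.1.1.natDegree : ℝ) * (h x.2.1.1.natDegree * wt h x.2.2)
  let φ : (Σ _ : Finset (Prm F), Prm F) → (Σ _ : ℕ, (Prm F) × Finset (Prm F)) := fun x =>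
    ⟨x.2.1.natDegree, x.2, x.1.erase x.2⟩
  have hstep1 : (m : ℝ) * ∑ S ∈ SmF F m, wt h S =
      ∑ x ∈ (SmF F m).sigma (fun S => S), g (φ x) := by
    rw [mul_sum, sum_sigma]
    refine sum_congr rfl fun S hS => ?_
    have hd : (m : ℝ) = ∑ P ∈ S, (P.1.natDegree : ℝ) := by
      rw [← (hmem m S).1 hS, dgS]
      push_cast
      rfl
    rw [hd, sum_mul]
    refine sum_congr rfl fun P hP => ?_
    show _ = (P.1.natDegree : ℝ) * (h P.1.natDegree * wt h (S.erase P))
    rw [wt, wt, mul_prod_erase S (fun P : Prm F => h P.1.natDegree) hP]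
  have hinj : Set.InjOn φ ((SmF F m).sigma (fun S => S) : Finset (Σ _ : Finset (Prm F), Prm F)) := by
    rintro ⟨S, P⟩ hx ⟨S', P'⟩ hx' he
    rw [mem_coe, mem_sigma] at hx hx'
    simp only [φ, Sigma.mk.injEq, heq_eq_eq, Prod.mk.injEq] at he
    obtain ⟨-, h1, h2⟩ := he
    subst h1
    have : S = S' := by
      have e1 : insert P (S.erase P) = S := insert_erase hx.2
      have e2 : insert P (S'.erase P) = S' := insert_erase hx'.2
      rw [← e1, ← e2, h2]
    subst this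
    rfl
  have hstep2 : ∑ x ∈ (SmF F m).sigma (fun S => S), g (φ x) =
      ∑ y ∈ ((SmF F m).sigma (fun S => S)).image φ, g y := (sum_image hinj).symm
  have hsub : ((SmF F m).sigma (fun S => S)).image φ ⊆
      (Icc 1 m).sigma fun k => prm F k ×ˢ SmF F (m - k) := by
    intro y hy
    obtain ⟨⟨S, P⟩, hx, rfl⟩ := mem_image.1 hy
    rw [mem_sigma] at hx
    obtain ⟨hS, hP⟩ := hx
    simp only at hS hP
    rw [mem_sigma, mem_product, mem_Icc]
    have hdS := (hmem m S).1 hS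
    have hle := deg_le_MUL S P hP
    refine ⟨⟨pos_deg_MUL P, by simp only [φ]; omega⟩, mem_prm.2 rfl, (hmem _ _).2 ?_⟩
    simp only [φ]
    have : P.1.natDegree + dgS (S.erase P) = dgS S :=
      add_sum_erase S (fun P : Prm F => P.1.natDegree) hP
    omega
  have hstep3 : ∑ y ∈ ((SmF F m).sigma (fun S => S)).image φ, g y ≤
      ∑ y ∈ (Icc 1 m).sigma (fun k => prm F k ×ˢ SmF F (m - k)), g y := by
    refine sum_le_sum_of_subset_of_nonneg hsub fun y _ _ => ?_
    exact mul_nonneg (Nat.cast_nonneg _) (mul_nonneg (h0 _) (wt_nonneg h h0 _))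
  rw [hstep1, hstep2]
  refine hstep3.trans ?_
  rw [sum_sigma, mul_sum]
  refine sum_le_sum fun k _ => ?_
  rw [sum_product]
  have hk : ∀ P ∈ prm F k, ∑ T ∈ SmF F (m - k), g ⟨k, P, T⟩ =
      (k : ℝ) * h k * ∑ T ∈ SmF F (m - k), wt h T := by
    intro P hP
    rw [mul_sum]
    refine sum_congr rfl fun T _ => ?_
    simp only [g]
    rw [mem_prm.1 hP]
    ring
  rw [sum_congr rfl hk, sum_const, nsmul_eq_mul]
  have hW : 0 ≤ ∑ T ∈ SmF F (m - k), wt h T := sum_nonneg fun T _ => wt_nonneg h h0 T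
  calc ((prm F k).card : ℝ) * ((k : ℝ) * h k * ∑ T ∈ SmF F (m - k), wt h T)
      = ((k : ℝ) * (prm F k).card) * (h k * ∑ T ∈ SmF F (m - k), wt h T) := by ring
    _ ≤ (Fintype.card F : ℝ) ^ k * (C₂ * ∑ T ∈ SmF F (m - k), wt h T) := by
        refine mul_le_mul (hprm k) (mul_le_mul_of_nonneg_right (hh k).2 hW)
          (mul_nonneg (h0 k) hW) (by positivity)
    _ = _ := by ring

open Classical in
theorem euler_MUL (hmem : ∀ (m : ℕ) (S : Finset (Prm F)), S ∈ SmF F m ↔ dgS S = m)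
    (hprm : ∀ k : ℕ, (k : ℝ) * ((prm F k).card : ℝ) ≤ (Fintype.card F : ℝ) ^ k)
    (h : ℕ → ℝ) (h0 : ∀ k, 0 ≤ h k) (m : ℕ) :
    ∑ j ∈ range m, ((Fintype.card F : ℝ) ^ j)⁻¹ * ∑ S ∈ SmF F j, wt h S ≤
      Real.exp (∑ k ∈ Icc 1 m, h k / k) := by
  set q : ℝ := (Fintype.card F : ℝ) with hqdef
  have hqpos : 0 < q := by rw [hqdef]; exact_mod_cast Fintype.card_pos
  set B : Finset (Prm F) := (Icc 1 m).biUnion fun k => prm F k with hB
  let x : Prm F → ℝ := fun P => h P.1.natDegree * (q ^ P.1.natDegree)⁻¹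
  have hx0 : ∀ P, 0 ≤ x P := fun P => mul_nonneg (h0 _) (by positivity)
  have hprod : ∀ S : Finset (Prm F), ∏ P ∈ S, x P = (q ^ dgS S)⁻¹ * wt h S := by
    intro S
    simp only [x]
    rw [prod_mul_distrib, wt, prod_inv_distrib, prod_pow_eq_pow_sum, dgS, mul_comm]
  have h1 : ∑ j ∈ range m, (q ^ j)⁻¹ * ∑ S ∈ SmF F j, wt h S =
      ∑ S ∈ (range m).biUnion fun j => SmF F j, ∏ P ∈ S, x P := by
    rw [sum_biUnion]
    · refine sum_congr rfl fun j _ => ?_
      rw [mul_sum]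
      refine sum_congr rfl fun S hS => ?_
      rw [hprod S, (hmem j S).1 hS]
    · intro i _ j _ hij
      rw [Function.onFun, disjoint_left]
      intro S hS hS'
      exact hij (((hmem i S).1 hS).symm.trans ((hmem j S).1 hS'))
  have h2 : ∑ S ∈ (range m).biUnion fun j => SmF F j, ∏ P ∈ S, x P ≤
      ∑ S ∈ B.powerset, ∏ P ∈ S, x P := by
    refine sum_le_sum_of_subset_of_nonneg ?_ fun S _ _ => prod_nonneg fun P _ => hx0 P
    intro S hS
    obtain ⟨j, hj, hS⟩ := mem_biUnion.1 hS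
    rw [mem_powerset]
    intro P hP
    rw [hB, mem_biUnion]
    refine ⟨P.1.natDegree, mem_Icc.2 ⟨pos_deg_MUL P, ?_⟩, mem_prm.2 rfl⟩
    have := deg_le_MUL S P hP
    rw [(hmem j S).1 hS] at this
    have := mem_range.1 hj
    omega
  have h3 : ∑ S ∈ B.powerset, ∏ P ∈ S, x P = ∏ P ∈ B, (1 + x P) := (prod_one_add B).symm
  have h4 : ∏ P ∈ B, (1 + x P) ≤ Real.exp (∑ P ∈ B, x P) := by
    rw [Real.exp_sum]
    refine prod_le_prod (fun P _ => by have := hx0 P; linarith) fun P _ => ?_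
    rw [add_comm]
    exact Real.add_one_le_exp _
  have h5 : ∑ P ∈ B, x P ≤ ∑ k ∈ Icc 1 m, h k / k := by
    rw [hB, sum_biUnion]
    · refine sum_le_sum fun k hk => ?_
      have hk1 : (0 : ℝ) < k := by
        have := (mem_Icc.1 hk).1
        exact_mod_cast this
      have : ∀ P ∈ prm F k, x P = h k * (q ^ k)⁻¹ := by
        intro P hP
        simp only [x]
        rw [mem_prm.1 hP]
      rw [sum_congr rfl this, sum_const, nsmul_eq_mul, le_div_iff₀ hk1]
      calc ((prm F k).card : ℝ) * (h k * (q ^ k)⁻¹) * k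
          = h k * (((k : ℝ) * (prm F k).card) * (q ^ k)⁻¹) := by ring
        _ ≤ h k * (q ^ k * (q ^ k)⁻¹) := by
            refine mul_le_mul_of_nonneg_left ?_ (h0 k)
            exact mul_le_mul_of_nonneg_right (hprm k) (by positivity)
        _ = h k := by rw [mul_inv_cancel₀ (by positivity), mul_one]
    · intro i _ j _ hij
      rw [Function.onFun, disjoint_left]
      intro P hP hP'
      exact hij ((mem_prm.1 hP).symm.trans (mem_prm.1 hP'))
  rw [h1]
  refine h2.trans ?_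
  rw [h3]
  exact h4.trans (Real.exp_le_exp.2 h5)

end MULaux

open MULaux in
theorem gMUL (h1 : StSM) : StMUL := by
  classical
  intro F _ _ h2 h C₂ hC₂ hh m hm
  obtain ⟨hmem, -, -, -, hprm⟩ := h1 F h2
  have h0 : ∀ k, 0 ≤ h k := fun k => (hh k).1
  have hrec := rec_MUL hmem hprm h C₂ hh m
  have heul := euler_MUL hmem hprm h h0 m
  set q : ℝ := (Fintype.card F : ℝ) with hqdef
  have hqpos : 0 < q := by rw [hqdef]; exact_mod_cast Fintype.card_pos
  have hm0 : (0 : ℝ) < m := by exact_mod_cast hm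
  have hre : ∑ k ∈ Icc 1 m, q ^ k * ∑ T ∈ SmF F (m - k), wt h T =
      q ^ m * ∑ j ∈ range m, (q ^ j)⁻¹ * ∑ S ∈ SmF F j, wt h S := by
    rw [mul_sum]
    refine sum_bij' (fun k _ => m - k) (fun j _ => m - j) ?_ ?_ ?_ ?_ ?_
    · intro k hk
      have := mem_Icc.1 hk
      exact mem_range.2 (by omega)
    · intro j hj
      have := mem_range.1 hj
      exact mem_Icc.2 (by omega)
    · intro k hk
      have := mem_Icc.1 hk
      omega
    · intro j hj
      have := mem_range.1 hj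
      omega
    · intro k hk
      have hk' := mem_Icc.1 hk
      rw [← mul_assoc]
      congr 1
      have : q ^ m = q ^ k * q ^ (m - k) := by rw [← pow_add]; congr 1; omega
      rw [this, mul_assoc, mul_inv_cancel₀ (by positivity), mul_one]
  rw [hre] at hrec
  have hfin : (m : ℝ) * ∑ S ∈ SmF F m, wt h S ≤
      C₂ * (q ^ m * Real.exp (∑ k ∈ Icc 1 m, h k / k)) := by
    refine hrec.trans ?_
    refine mul_le_mul_of_nonneg_left ?_ (by linarith)
    exact mul_le_mul_of_nonneg_left heul (by positivity)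
  have : ∑ S ∈ SmF F m, wt h S ≤ (C₂ * (q ^ m * Real.exp (∑ k ∈ Icc 1 m, h k / k))) / m := by
    rw [le_div_iff₀ hm0, mul_comm]
    exact hfin
  refine le_trans this (le_of_eq ?_)
  ring

end Pool.Agent.Helper54.GL
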