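import Pool.Agent.Helper54.GL.StP

/-!
# GL, module P_NRG: most sets are regular
-/

set_option autoImplicit false

namespace Pool.Agent.Helper54.GL

open Polynomial Finset Filter Topology
open Pool.Agent.Helper54.PT (Prm prm)
open Pool.Agent.Helper3.HY (kp red)
open Pool.Agent.Helper3.GT (dgS)

theorem harm_NRG (K : ℕ) (hK : 1 ≤ K) (n : ℕ) (hn : K ≤ n) :
    Real.log ((n : ℝ) + 1) - Real.log K ≤ ∑ k ∈ Icc K n, 1 / (k : ℝ) := by
  have step : ∀ k : ℕ, 1 ≤ k → Real.log ((k : ℝ) + 1) - Real.log k ≤ 1 / (k : ℝ) := by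
    intro k hk
    have h0 : (0 : ℝ) < k := by exact_mod_cast hk
    rw [← Real.log_div (by positivity) h0.ne']
    have h1 := Real.log_le_sub_one_of_pos (x := ((k : ℝ) + 1) / k) (by positivity)
    refine h1.trans (le_of_eq ?_)
    field_simp
    ring
  induction n, hn using Nat.le_induction with
  | base => simpa using step K hK
  | succ n hn ih =>
    rw [← Finset.insert_Icc_right_eq_Icc_add_one (by omega : K ≤ n + 1), Finset.sum_insert (by simp)]
    have h1 := step (n + 1) (by omega)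
    push_cast at h1 ⊢
    linarith

theorem sq_le_two_pow_NRG (l : ℕ) (hl : 6 ≤ l) : (l + 1) ^ 2 ≤ 2 ^ l := by
  induction l, hl using Nat.le_induction with
  | base => norm_num
  | succ n hn ih =>
    rw [pow_succ 2 n]
    nlinarith

open Classical in
theorem gNRG (h1 : StSM) (h2 : StDUP) (h3 : StOM) (h4 : StTK) : StNRG := by
  intro F _ _ ι _ B Gp GI GT kI kT M C ρ hL ε n₀ hε
  obtain ⟨hSM, hcard, hq3, hprm, -⟩ := h1 F hL.odd
  have hq3' : (3 : ℝ) ≤ (Fintype.card F : ℝ) := by exact_mod_cast hq3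
  have hq1 : (1 : ℝ) ≤ (Fintype.card F : ℝ) := by linarith
  have hq0 : (0 : ℝ) < (Fintype.card F : ℝ) := by linarith
  -- the constants
  obtain ⟨κ, hκdef⟩ : ∃ κ : ℝ, κ = kI + ∑ i, kT i := ⟨_, rfl⟩
  have hκ : 0 < κ := by
    rw [hκdef]
    exact add_pos_of_pos_of_nonneg hL.kI_pos (Finset.sum_nonneg fun i _ => (hL.kT_pos i).le)
  have degI : ∀ k, ∀ P ∈ GI k, P.1.natDegree = k := fun k P hP => (hprm k P).1 (hL.subI k P hP).1
  have degT : ∀ i k, ∀ P ∈ GT i k, P.1.natDegree = k :=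
    fun i k P hP => (hprm k P).1 (hL.subT i k P hP).1
  have degG : ∀ k, ∀ P ∈ GG GI GT k, P.1.natDegree = k := by
    intro k P hP
    unfold GG at hP
    rw [Finset.mem_union, Finset.mem_biUnion] at hP
    rcases hP with h | ⟨i, -, h⟩
    · exact degI k P h
    · exact degT i k P h
  have cardG : ∀ k, ((GG GI GT k).card : ℝ) = ((GI k).card : ℝ) + ∑ i, ((GT i k).card : ℝ) := by
    intro k
    unfold GG
    rw [Finset.card_union_of_disjoint, Finset.card_biUnion]
    · push_cast; rfl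
    · intro i _ j _ hij
      exact hL.disT i j k hij
    · rw [Finset.disjoint_biUnion_right]
      intro i _
      exact hL.disI i k
  have cntG : ∀ k : ℕ, 1 ≤ k → κ * (Fintype.card F : ℝ) ^ k -
      (1 + Fintype.card ι) * C * Real.sqrt (Fintype.card F) ^ k ≤
        k * ((GG GI GT k).card : ℝ) := by
    intro k hk
    have a1 := (abs_le.1 (hL.cntI k hk)).1
    have a2 : ∀ i, kT i * (Fintype.card F : ℝ) ^ k - C * Real.sqrt (Fintype.card F) ^ k ≤
        k * ((GT i k).card : ℝ) := by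
      intro i
      have := (abs_le.1 (hL.cntT i k hk)).1
      linarith
    have a3 := Finset.sum_le_sum fun i (_ : i ∈ (univ : Finset ι)) => a2 i
    rw [Finset.sum_sub_distrib, ← Finset.sum_mul, Finset.sum_const, Finset.card_univ, nsmul_eq_mul,
      ← Finset.mul_sum] at a3
    rw [cardG, hκdef]
    nlinarith
  -- large degrees
  have hsq1 : 1 < Real.sqrt (Fintype.card F) := by
    rw [show (1 : ℝ) = Real.sqrt 1 from Real.sqrt_one.symm]
    exact Real.sqrt_lt_sqrt (by norm_num) (by linarith)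
  obtain ⟨k₀, hk₀⟩ : ∃ k₀ : ℕ, 2 * (1 + Fintype.card ι) * C / κ < Real.sqrt (Fintype.card F) ^ k₀ :=
    pow_unbounded_of_one_lt _ hsq1
  have lowG : ∀ k : ℕ, 1 ≤ k → k₀ ≤ k →
      κ / 2 * (1 / (k : ℝ)) ≤ ((GG GI GT k).card : ℝ) * ((Fintype.card F : ℝ) ^ k)⁻¹ := by
    intro k hk hk0
    have b1 := cntG k hk
    have b2 : 2 * (1 + Fintype.card ι) * C / κ ≤ Real.sqrt (Fintype.card F) ^ k :=
      hk₀.le.trans (pow_le_pow_right₀ hsq1.le hk0)
    rw [div_le_iff₀ hκ] at b2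
    have b3 : Real.sqrt (Fintype.card F) ^ k * Real.sqrt (Fintype.card F) ^ k =
        (Fintype.card F : ℝ) ^ k := by
      rw [← mul_pow, Real.mul_self_sqrt hq0.le]
    have b4 : (1 + Fintype.card ι) * C * Real.sqrt (Fintype.card F) ^ k ≤
        κ / 2 * (Fintype.card F : ℝ) ^ k := by
      have b5 : 0 ≤ Real.sqrt (Fintype.card F) ^ k := by positivity
      have b6 := mul_le_mul_of_nonneg_right b2 b5
      have b7 : Real.sqrt (Fintype.card F) ^ k * κ * Real.sqrt (Fintype.card F) ^ k =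
          κ * (Fintype.card F : ℝ) ^ k := by rw [← b3]; ring
      rw [b7] at b6
      linarith
    have hk0' : (0 : ℝ) < k := by exact_mod_cast hk
    have hqk : (0 : ℝ) < (Fintype.card F : ℝ) ^ k := by positivity
    rw [← div_eq_mul_inv, le_div_iff₀ hqk]
    have b8 : κ / 2 * (1 / (k : ℝ)) * (Fintype.card F : ℝ) ^ k =
        κ / 2 * (Fintype.card F : ℝ) ^ k / k := by ring
    rw [b8, div_le_iff₀ hk0', mul_comm ((GG GI GT k).card : ℝ)]
    linarith
  -- the choice of H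
  obtain ⟨lam₁, hlam₁⟩ : ∃ l : ℝ, l = 2 * n₀ + 1 + 16 / ε := ⟨_, rfl⟩
  have hlam₁pos : 0 < lam₁ := by rw [hlam₁]; positivity
  obtain ⟨H, hH⟩ : ∃ H : ℕ, Real.exp (2 * lam₁ / κ) ≤ H := exists_nat_ge _
  have hHpos : (0 : ℝ) < H := (Real.exp_pos _).trans_le hH
  have hH1 : 1 ≤ H := by exact_mod_cast hHpos
  have hlogH : lam₁ ≤ κ / 2 * Real.log H := by
    have : 2 * lam₁ / κ ≤ Real.log H := by
      rw [Real.le_log_iff_exp_le hHpos]; exact hH
    rw [div_le_iff₀ hκ] at this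
    linarith
  refine ⟨H, hH1, ?_⟩
  obtain ⟨N₁, hN₁⟩ : ∃ N : ℕ, 4 / ε + 1 ≤ N := exists_nat_ge _
  filter_upwards [eventually_ge_atTop (2 ^ (32 * H + 6 + k₀ + N₁))] with m hm
  obtain ⟨l, hl⟩ : ∃ l, l = Nat.log 2 m := ⟨_, rfl⟩
  have hm0 : m ≠ 0 := by
    have : 0 < 2 ^ (32 * H + 6 + k₀ + N₁) := by positivity
    omega
  have hlN : 32 * H + 6 + k₀ + N₁ ≤ l := by
    rw [hl]
    exact Nat.le_log_of_pow_le (by norm_num) hm
  have hlm : 2 ^ l ≤ m := by rw [hl]; exact Nat.pow_log_le_self 2 hm0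
  have hml : m < 2 ^ (l + 1) := by rw [hl]; exact Nat.lt_pow_succ_log_self (by norm_num) m
  have hKdef : KK m = 16 * (l + 1) := by rw [hl]; rfl
  obtain ⟨K, hK⟩ : ∃ K, K = KK m := ⟨_, rfl⟩
  have hK16 : K = 16 * (l + 1) := by rw [hK, hKdef]
  have hKm : 2 * (H * K) ≤ m := by
    have e1 := sq_le_two_pow_NRG l (by omega)
    have e2 : 2 * (H * K) ≤ (l + 1) ^ 2 := by
      rw [hK16]
      have : 32 * H ≤ l + 1 := by omega
      calc 2 * (H * (16 * (l + 1))) = 32 * H * (l + 1) := by ring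
        _ ≤ (l + 1) * (l + 1) := Nat.mul_le_mul_right _ this
        _ = (l + 1) ^ 2 := by ring
    omega
  have hNm : N₁ ≤ m := by
    have : l < 2 ^ l := Nat.lt_two_pow_self
    omega
  have hqm : (0 : ℝ) < (Fintype.card F : ℝ) ^ m := by positivity
  -- the set of primes in the window
  obtain ⟨Q, hQ⟩ : ∃ Q : Finset (Prm F), Q = (Icc K (H * K)).biUnion (GG GI GT) := ⟨_, rfl⟩
  have memQ : ∀ P, P ∈ Q ↔ P ∈ GG GI GT P.1.natDegree ∧ K ≤ P.1.natDegree ∧
      P.1.natDegree ≤ H * K := by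
    intro P
    rw [hQ, Finset.mem_biUnion]
    constructor
    · rintro ⟨k, hk, hP⟩
      have := degG k P hP
      rw [this]
      rw [Finset.mem_Icc] at hk
      exact ⟨hP, hk.1, hk.2⟩
    · rintro ⟨hP, hk1, hk2⟩
      exact ⟨_, Finset.mem_Icc.2 ⟨hk1, hk2⟩, hP⟩
  have winQ : ∀ S : Finset (Prm F), Win (GG GI GT) H m S = S ∩ Q := by
    intro S
    ext P
    unfold Win
    rw [Finset.mem_filter, Finset.mem_inter, memQ, ← hK]
  -- the value of lam
  obtain ⟨lam, hlam⟩ : ∃ x : ℝ, x = ∑ P ∈ Q, ((Fintype.card F : ℝ) ^ P.1.natDegree)⁻¹ := ⟨_, rfl⟩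
  have hlamge : lam₁ ≤ lam := by
    have f1 : lam = ∑ k ∈ Icc K (H * K), ((GG GI GT k).card : ℝ) * ((Fintype.card F : ℝ) ^ k)⁻¹ := by
      rw [hlam, hQ, Finset.sum_biUnion]
      · apply Finset.sum_congr rfl
        intro k _
        rw [Finset.sum_congr rfl (fun P hP => by rw [degG k P hP]), Finset.sum_const, nsmul_eq_mul]
      · intro k _ k' _ hkk'
        apply Finset.disjoint_left.2
        intro P hP hP'
        exact hkk' ((degG k P hP).symm.trans (degG k' P hP'))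
    have f2 := harm_NRG K (by omega) (H * K) (Nat.le_mul_of_pos_left K (by omega))
    have f3 : Real.log H ≤ ∑ k ∈ Icc K (H * K), 1 / (k : ℝ) := by
      have hKpos : (0 : ℝ) < K := by
        have : 0 < K := by omega
        exact_mod_cast this
      have g1 : Real.log ((H : ℝ) * K) ≤ Real.log (((H * K : ℕ) : ℝ) + 1) := by
        apply Real.log_le_log (by positivity)
        push_cast
        linarith
      rw [Real.log_mul hHpos.ne' hKpos.ne'] at g1
      linarith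
    rw [f1]
    calc lam₁ ≤ κ / 2 * Real.log H := hlogH
      _ ≤ κ / 2 * ∑ k ∈ Icc K (H * K), 1 / (k : ℝ) := by
          apply mul_le_mul_of_nonneg_left f3 (by positivity)
      _ = ∑ k ∈ Icc K (H * K), κ / 2 * (1 / (k : ℝ)) := by rw [Finset.mul_sum]
      _ ≤ _ := by
          apply Finset.sum_le_sum
          intro k hk
          rw [Finset.mem_Icc] at hk
          exact lowG k (by omega) (by omega)
  have hlampos : 0 < lam := hlam₁pos.trans_le hlamge
  -- the three bounds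
  have B1 := h2 F hL.odd m K (by omega)
  have B2 := h3 F hL.odd m (3 * (l + 1) + 1)
  have B3 := h4 F hL.odd m Q (fun P hP => by
    have := ((memQ P).1 hP).2.2
    omega) lam hlampos hlam.symm
  obtain ⟨S1, hS1⟩ : ∃ S1 : Finset (Finset (Prm F)), S1 = (SmF F m).filter fun S =>
    ∃ P ∈ S, ∃ P' ∈ S, P ≠ P' ∧ P.1.natDegree = P'.1.natDegree ∧ K ≤ P.1.natDegree := ⟨_, rfl⟩
  obtain ⟨S2, hS2⟩ : ∃ S2 : Finset (Finset (Prm F)), S2 = (SmF F m).filter fun S =>
    3 * (l + 1) + 1 ≤ S.card := ⟨_, rfl⟩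
  obtain ⟨S3, hS3⟩ : ∃ S3 : Finset (Finset (Prm F)), S3 = (SmF F m).filter fun S =>
    2 * ((S ∩ Q).card : ℝ) < lam := ⟨_, rfl⟩
  rw [← hS1] at B1
  rw [← hS2] at B2
  rw [← hS3] at B3
  have hsub : ((SmF F m).filter fun S => ¬ Reg (GG GI GT) H m n₀ S) ⊆ S1 ∪ (S2 ∪ S3) := by
    intro S hS
    rw [Finset.mem_filter] at hS
    obtain ⟨hSm, hR⟩ := hS
    rw [Finset.mem_union, Finset.mem_union, hS1, hS2, hS3, Finset.mem_filter, Finset.mem_filter,
      Finset.mem_filter]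
    by_contra hcon
    push Not at hcon
    apply hR
    unfold Reg
    rw [← hK, ← hl, winQ]
    obtain ⟨c1, c2, c3⟩ := hcon
    refine ⟨?_, ?_, ?_⟩
    · rintro ⟨P, hP, P', hP', hne, hdeg, hKP⟩
      have := c1 hSm P hP P' hP' hne hdeg
      omega
    · have := c2 hSm
      omega
    · have := c3 hSm
      by_contra hlt
      have hlt' : (S ∩ Q).card + 1 ≤ n₀ := by omega
      have hlt'' : ((S ∩ Q).card : ℝ) + 1 ≤ n₀ := by exact_mod_cast hlt'
      have h16 : 0 < 16 / ε := by positivity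
      rw [hlam₁] at hlamge
      linarith
  have hcardle : ((((SmF F m).filter fun S => ¬ Reg (GG GI GT) H m n₀ S).card : ℕ) : ℝ) ≤
      (S1.card : ℝ) + ((S2.card : ℝ) + (S3.card : ℝ)) := by
    have d1 := Finset.card_le_card hsub
    have d2 := Finset.card_union_le S1 (S2 ∪ S3)
    have d3 := Finset.card_union_le S2 S3
    have d4 : ((SmF F m).filter fun S => ¬ Reg (GG GI GT) H m n₀ S).card ≤
        S1.card + (S2.card + S3.card) := by omega
    exact_mod_cast d4
  have hN₁pos : (0 : ℝ) < 4 / ε := by positivity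
  have E1 : (S1.card : ℝ) ≤ ε / 4 * (Fintype.card F : ℝ) ^ m := by
    refine B1.trans ?_
    have hKN : (N₁ : ℝ) ≤ K := by
      have : N₁ ≤ K := by omega
      exact_mod_cast this
    have hK1 : 4 / ε ≤ (K : ℝ) - 1 := by linarith
    have hK1' : 0 < (K : ℝ) - 1 := hN₁pos.trans_le hK1
    rw [div_le_iff₀ hK1']
    rw [div_le_iff₀ hε] at hK1
    nlinarith
  have E2 : (S2.card : ℝ) ≤ ε / 4 * (Fintype.card F : ℝ) ^ m := by
    have hmr : (1 : ℝ) ≤ m := by exact_mod_cast (by omega : 1 ≤ m)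
    have hml' : (m : ℝ) ≤ 2 ^ (l + 1) := by exact_mod_cast hml.le
    have p1 : 2 * (m : ℝ) ^ 3 ≤ 2 ^ (3 * (l + 1) + 1) := by
      have : (2 : ℝ) ^ (3 * (l + 1) + 1) = 2 * (2 ^ (l + 1)) ^ 3 := by
        rw [pow_succ, ← pow_mul, mul_comm (l + 1) 3]; ring
      rw [this]
      have := pow_le_pow_left₀ (by positivity : (0 : ℝ) ≤ m) hml' 3
      linarith
    have p2 : (S2.card : ℝ) * (2 * (m : ℝ) ^ 3) ≤ (m + 1) * (Fintype.card F : ℝ) ^ m :=
      (mul_le_mul_of_nonneg_left p1 (Nat.cast_nonneg _)).trans B2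
    have p3 : 4 / ε ≤ m := by
      have : (N₁ : ℝ) ≤ m := by exact_mod_cast hNm
      linarith
    rw [div_le_iff₀ hε] at p3
    -- (m + 1) ≤ ε / 4 * (2 m ^ 3)
    have p4 : (m : ℝ) + 1 ≤ ε / 4 * (2 * (m : ℝ) ^ 3) := by
      have p5 : 1 ≤ ε / 4 * m := by linarith
      have p6 : (m : ℝ) ≤ ε / 4 * m * m := by nlinarith
      have p7 : ε / 4 * m * m ≤ ε / 4 * m * m * m := by
        have : 0 ≤ ε / 4 * m * m := by positivity
        nlinarith
      nlinarith
    have p8 : (S2.card : ℝ) * (2 * (m : ℝ) ^ 3) ≤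
        (ε / 4 * (Fintype.card F : ℝ) ^ m) * (2 * (m : ℝ) ^ 3) := by
      refine p2.trans ?_
      calc ((m : ℝ) + 1) * (Fintype.card F : ℝ) ^ m ≤
          (ε / 4 * (2 * (m : ℝ) ^ 3)) * (Fintype.card F : ℝ) ^ m :=
            mul_le_mul_of_nonneg_right p4 hqm.le
        _ = _ := by ring
    exact le_of_mul_le_mul_right p8 (by positivity)
  have E3 : (S3.card : ℝ) ≤ ε / 4 * (Fintype.card F : ℝ) ^ m := by
    refine B3.trans ?_
    apply mul_le_mul_of_nonneg_right _ hqm.le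
    rw [div_le_iff₀ hlampos]
    have : 16 / ε ≤ lam := by
      rw [hlam₁] at hlamge
      have : (0 : ℝ) ≤ n₀ := Nat.cast_nonneg _
      linarith
    rw [div_le_iff₀ hε] at this
    linarith
  calc ((((SmF F m).filter fun S => ¬ Reg (GG GI GT) H m n₀ S).card : ℕ) : ℝ) ≤
      (S1.card : ℝ) + ((S2.card : ℝ) + (S3.card : ℝ)) := hcardle
    _ ≤ ε * (Fintype.card F : ℝ) ^ m := by
        have : 0 ≤ ε * (Fintype.card F : ℝ) ^ m := by positivity
        linarith

end Pool.Agent.Helper54.GL
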