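import Pool.Agent.Helper54.GL.StP

/-!
# GL, module OM: sets with many elements
-/

set_option autoImplicit false

namespace Pool.Agent.Helper54.GL

open Polynomial Finset Filter Topology
open Pool.Agent.Helper54.PT (Prm prm)
open Pool.Agent.Helper3.GT (dgS)

open Classical in
theorem gOM (h1 : StSM) : StOM := by
  intro F _ _ h2 m j
  obtain ⟨hmem, hcard, -, -, -⟩ := h1 F h2
  set q := Fintype.card F with hq
  -- the pairs
  have hA : (((SmF F m).sigma fun S => S.powerset).card) ≤
      ((range (m + 1)).sigma fun i => (SmF F i) ×ˢ (SmF F (m - i))).card := by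
    apply Finset.card_le_card_of_injOn
      (fun x : (_ : Finset (Prm F)) × Finset (Prm F) =>
        (⟨dgS x.2, (x.2, x.1 \ x.2)⟩ : (_ : ℕ) × (Finset (Prm F) × Finset (Prm F))))
    · rintro ⟨S, T⟩ hx
      simp only [Finset.coe_sigma, Set.mem_sigma_iff, Finset.mem_coe, Finset.mem_powerset] at hx
      obtain ⟨hS, hT⟩ := hx
      rw [hmem] at hS
      have hadd : dgS T + dgS (S \ T) = m := by
        rw [← hS, dgS, dgS, dgS, add_comm]
        exact Finset.sum_sdiff hT
      simp only [Finset.coe_sigma, Set.mem_sigma_iff, Finset.mem_coe, Finset.mem_range,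
        Finset.mem_product]
      refine ⟨by omega, ?_, ?_⟩
      · rw [hmem]
      · rw [hmem]; omega
    · rintro ⟨S, T⟩ hx ⟨S', T'⟩ hx' h
      simp only [Finset.coe_sigma, Set.mem_sigma_iff, Finset.mem_coe, Finset.mem_powerset] at hx hx'
      simp only [Sigma.mk.injEq, heq_eq_eq, Prod.mk.injEq] at h
      obtain ⟨-, hT, hST⟩ := h
      have hSS : S = S' := by
        rw [← Finset.sdiff_union_of_subset hx.2, ← Finset.sdiff_union_of_subset hx'.2, hST, hT]
      subst hSS
      subst hT
      rfl
  rw [Finset.card_sigma, Finset.card_sigma] at hA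
  have hB : (∑ i ∈ range (m + 1), ((SmF F i) ×ˢ (SmF F (m - i))).card) ≤ (m + 1) * q ^ m := by
    calc (∑ i ∈ range (m + 1), ((SmF F i) ×ˢ (SmF F (m - i))).card)
        ≤ ∑ i ∈ range (m + 1), q ^ m := by
          apply Finset.sum_le_sum
          intro i hi
          rw [Finset.mem_range] at hi
          rw [Finset.card_product]
          calc (SmF F i).card * (SmF F (m - i)).card ≤ q ^ i * q ^ (m - i) :=
                Nat.mul_le_mul (hcard i) (hcard (m - i))
            _ = q ^ m := by rw [← pow_add]; congr 1; omega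
      _ = (m + 1) * q ^ m := by rw [Finset.sum_const, Finset.card_range, smul_eq_mul]
  have hC : ((SmF F m).filter fun S => j ≤ S.card).card * 2 ^ j ≤
      ∑ S ∈ SmF F m, S.powerset.card := by
    rw [← smul_eq_mul, ← Finset.sum_const]
    calc (∑ _S ∈ (SmF F m).filter (fun S => j ≤ S.card), 2 ^ j)
        ≤ ∑ S ∈ (SmF F m).filter (fun S => j ≤ S.card), S.powerset.card := by
          apply Finset.sum_le_sum
          intro S hS
          rw [Finset.mem_filter] at hS
          rw [Finset.card_powerset]
          exact Nat.pow_le_pow_right (by norm_num) hS.2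
      _ ≤ ∑ S ∈ SmF F m, S.powerset.card :=
          Finset.sum_le_sum_of_subset (Finset.filter_subset _ _)
  have hfin := hC.trans (hA.trans hB)
  exact_mod_cast hfin

end Pool.Agent.Helper54.GL
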