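import Pool.Agent.Helper54.GL.StP
import Pool.Agent.Helper3.GT.M_SQF
import Pool.Agent.Helper47.TW.A6A7

/-!
# GL: module SM
-/

set_option autoImplicit false

namespace Pool.Agent.Helper54.GL

open Polynomial Finset Filter Topology
open Pool.Agent.Helper54.PT (Prm prm mem_prm)
open Pool.Agent.Helper3.GT (dgS)

theorem gSM : StSM := by
  intro F _ _ h2
  classical
  have hmem : ∀ (m : ℕ) (S : Finset (Prm F)), S ∈ SmF F m ↔ dgS S = m := by
    intro m S
    rw [SmF, dif_pos (Pool.Agent.Helper3.GT.SQF.upper m).1, Set.Finite.mem_toFinset]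
    rfl
  refine ⟨hmem, ?_, ?_, fun k P => mem_prm, ?_⟩
  · intro m
    have h := (Pool.Agent.Helper3.GT.SQF.upper (F := F) m).2
    have he : ({S : Finset (Prm F) | dgS S = m} : Set (Finset (Prm F))) = (SmF F m : Set _) := by
      ext S
      simp [hmem]
    rwa [he, Set.ncard_coe_finset] at h
  · have h01 : (0 : F) ≠ 1 := zero_ne_one
    have h02 : (0 : F) ≠ 2 := h2.symm
    have h12 : (1 : F) ≠ 2 := by
      intro h
      have : (2 : F) - 1 = 0 := by rw [← h]; ring
      have h1 : (2 : F) - 1 = 1 := by ring
      rw [h1] at this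
      exact one_ne_zero this
    have : ({0, 1, 2} : Finset F).card ≤ Fintype.card F := Finset.card_le_univ _
    rwa [Finset.card_insert_of_notMem (by simp [h01, h02]), Finset.card_insert_of_notMem (by simp [h12]),
      Finset.card_singleton] at this
  · intro k
    rcases Nat.eq_zero_or_pos k with rfl | hk
    · simp
    · have h := Pool.Agent.Helper54.PT.sum_prm (F := F) k hk
      have h3 : k * (prm F k).card ≤ Fintype.card F ^ k := by
        rw [← Nat.card_eq_fintype_card, ← h]
        exact Finset.single_le_sum (f := fun j => j * (prm F j).card) (fun _ _ => Nat.zero_le _)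
          (Nat.mem_divisors_self k hk.ne')
      exact_mod_cast h3

end Pool.Agent.Helper54.GL
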