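import Pool.Agent.Helper54.GL.StP

/-!
# GL, module STL: the last prime, with the class of the product
-/

set_option autoImplicit false

namespace Pool.Agent.Helper54.GL

open Polynomial Finset Filter Topology
open Pool.Agent.Helper54.PT (Prm prm)
open Pool.Agent.Helper3.HY (kp red)
open Pool.Agent.Helper3.GT (dgS)

private theorem log_le_STL {a x : ℕ} (h : a ≤ 2 ^ x) : Nat.log 2 a ≤ x :=
  (Nat.log_mono_right h).trans (Nat.log_pow (by norm_num) x).le

private theorem log_pred_STL {a x : ℕ} (h : 2 * a ≤ 2 ^ x) : Nat.log 2 a ≤ x - 1 := by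
  rcases x with _ | x
  · have : a = 0 := by
      rw [pow_zero] at h; omega
    simp [this]
  · rw [pow_succ] at h
    have h' : a ≤ 2 ^ x := by omega
    simpa using log_le_STL h'

/-- the contribution of one coordinate -/
private theorem coord_STL {κ Q E Z k nT tT y φp φm : ℝ} (hE : 0 ≤ E)
    (h2 : κ * Q - E ≤ k * (Z * nT)) (h3 : k * (Z * tT) ≤ κ * Q * y + E)
    (hp : 0 ≤ φp) (hpm : φp ≤ φm) (hm : φm ≤ 1) :
    Q * (κ * (y * φp + (1 - y) * φm)) - 2 * E ≤ k * (Z * (nT * φm - tT * (φm - φp))) := by
  have e1 : (κ * Q - E) * φm ≤ k * (Z * nT) * φm :=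
    mul_le_mul_of_nonneg_right h2 (hp.trans hpm)
  have e2 : k * (Z * tT) * (φm - φp) ≤ (κ * Q * y + E) * (φm - φp) :=
    mul_le_mul_of_nonneg_right h3 (sub_nonneg.2 hpm)
  have e3 : E * (2 * φm - φp) ≤ E * 2 := mul_le_mul_of_nonneg_left (by linarith) hE
  nlinarith [e1, e2, e3]

open Classical in
/-- (STL) -/
theorem gSTL : StSTL := by
  intro F _ _ ι _ _ B Gp GI GT kI kT M C ρ hL
  refine ⟨(3 * Fintype.card ι + 2) * C, by have := hL.one_le; positivity, ?_⟩
  intro φ hφ hanti S e k hk hS hSG
  obtain ⟨hC, hkI⟩ := And.intro hL.one_le hL.kI_pos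
  have hC0 : 0 ≤ C := by linarith
  set q : ℝ := (Fintype.card F : ℝ) with hqdef
  have hq0 : 0 ≤ q := by positivity
  have hk0 : (0 : ℝ) < k := by exact_mod_cast (by omega : 0 < k)
  have hk1 : (1 : ℝ) ≤ k := by exact_mod_cast hk
  set Q : ℝ := q ^ k with hQdef
  have hQ0 : 0 ≤ Q := by positivity
  set R : ℝ := Real.sqrt q ^ k with hRdef
  have hR0 : 0 ≤ R := by positivity
  set E : ℝ := C * (dgS S + 1) * 2 ^ S.card * R with hEdef
  have hE0 : 0 ≤ E := by positivity
  have hER : C * R ≤ E := by
    have h1 : (1 : ℝ) ≤ (dgS S + 1) * 2 ^ S.card := by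
      have h2 : (1 : ℝ) ≤ dgS S + 1 := by
        have : (0 : ℝ) ≤ dgS S := by positivity
        linarith
      have h3 : (1 : ℝ) ≤ 2 ^ S.card := one_le_pow₀ (by norm_num)
      nlinarith
    have : C * R * 1 ≤ C * R * ((dgS S + 1) * 2 ^ S.card) :=
      mul_le_mul_of_nonneg_left h1 (by positivity)
    rw [hEdef]; nlinarith [this]
  set Z : ℝ := 2 ^ S.card * 2 ^ B.card with hZdef
  have hZ0 : 0 < Z := by positivity
  set κ : ℝ := kI + ∑ i, kT i with hκdef
  have hκ0 : 0 < κ := by
    have : 0 ≤ ∑ i, kT i := Finset.sum_nonneg fun i _ => (hL.kT_pos i).le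
    linarith
  -- membership facts
  have hnotS : ∀ P ∈ GG GI GT k, P ∉ S := fun P hP hPS => hSG P hPS hP
  have hGI : ∀ P ∈ GI k, P ∈ GG GI GT k := fun P hP => by
    unfold GG; exact mem_union_left _ hP
  have hGT : ∀ i, ∀ P ∈ GT i k, P ∈ GG GI GT k := fun i P hP => by
    unfold GG; exact mem_union_right _ (mem_biUnion.2 ⟨i, mem_univ i, hP⟩)
  have hUU : ∀ P, P ∉ S → UU (insert P S) = UU (insert P S) ∩ S ∨
      UU (insert P S) = insert P (UU (insert P S) ∩ S) := by
    intro P hPS
    have hsub : UU (insert P S) ⊆ insert P S := by unfold UU; exact filter_subset _ _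
    by_cases hPU : P ∈ UU (insert P S)
    · right
      ext R'
      simp only [mem_insert, mem_inter]
      constructor
      · intro hR'
        rcases mem_insert.1 (hsub hR') with h | h
        · exact Or.inl h
        · exact Or.inr ⟨hR', h⟩
      · rintro (h | h)
        · rw [h]; exact hPU
        · exact h.1
    · left
      ext R'
      simp only [mem_inter]
      constructor
      · intro hR'
        rcases mem_insert.1 (hsub hR') with h | h
        · exact absurd (h ▸ hR') hPU
        · exact ⟨hR', h⟩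
      · exact fun h => h.1
  -- the vectors
  let y : Finset (Prm F) → Finset (Prm F) → ι → ℕ := fun U Δ i => Nat.log 2 (M i S U Δ e)
  let val : Prm F → ι → ℕ := fun P i =>
    Nat.log 2 (M i (insert P S) (UU (insert P S)) (DD B (insert P S)) e)
  have hM : ∀ U Δ, U ⊆ S → Δ ⊆ B → ∀ i, M i S U Δ e = 2 ^ y U Δ i := by
    intro U Δ hU hΔ i
    obtain ⟨x, hx⟩ := hL.pow i S U Δ e hS hU hΔ
    simp only [y]
    rw [hx, Nat.log_pow (by norm_num)]
  -- the bound for one class
  have key : ∀ U ∈ S.powerset, ∀ Δ ∈ B.powerset,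
      Q * (κ * Kn (kI / κ) (fun i => kT i / κ) φ (y U Δ)) - (1 + 2 * Fintype.card ι) * E ≤
        k * (Z * ∑ P ∈ (GG GI GT k).filter (fun P =>
          (UU (insert P S) ∩ S, DD B (insert P S)) = (U, Δ)), φ (val P)) := by
    intro U hU' Δ hΔ'
    have hU : U ⊆ S := mem_powerset.1 hU'
    have hΔ : Δ ⊆ B := mem_powerset.1 hΔ'
    set Y := y U Δ with hY
    have hcls : ∀ P, P ∉ S → UU (insert P S) ∩ S = U → DD B (insert P S) = Δ →
        (val P = fun i => Nat.log 2 (M i (insert P S) U Δ e)) ∨
          (val P = fun i => Nat.log 2 (M i (insert P S) (insert P U) Δ e)) := by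
      intro P hPS h1 h2
      rcases hUU P hPS with h | h
      · left
        simp only [val]
        rw [h, h1, h2]
      · right
        simp only [val]
        rw [h, h1, h2]
    -- split
    have hsplit : ∑ P ∈ (GG GI GT k).filter (fun P =>
          (UU (insert P S) ∩ S, DD B (insert P S)) = (U, Δ)), φ (val P) =
        ∑ P ∈ (GI k).filter (fun P => P ∉ S ∧ UU (insert P S) ∩ S = U ∧
          DD B (insert P S) = Δ), φ (val P) +
        ∑ i, ∑ P ∈ (GT i k).filter (fun P => P ∉ S ∧ UU (insert P S) ∩ S = U ∧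
          DD B (insert P S) = Δ), φ (val P) := by
      have h1 : (GG GI GT k).filter (fun P =>
          (UU (insert P S) ∩ S, DD B (insert P S)) = (U, Δ)) =
          (GI k).filter (fun P => P ∉ S ∧ UU (insert P S) ∩ S = U ∧ DD B (insert P S) = Δ) ∪
          univ.biUnion fun i => (GT i k).filter (fun P => P ∉ S ∧ UU (insert P S) ∩ S = U ∧
            DD B (insert P S) = Δ) := by
        ext P
        simp only [mem_filter, mem_union, mem_biUnion, mem_univ, true_and, Prod.mk.injEq]
        constructor
        · rintro ⟨hP, h1, h2⟩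
          have hPS := hnotS P hP
          unfold GG at hP
          rcases mem_union.1 hP with h | h
          · exact Or.inl ⟨h, hPS, h1, h2⟩
          · obtain ⟨i, -, hi⟩ := mem_biUnion.1 h
            exact Or.inr ⟨i, hi, hPS, h1, h2⟩
        · rintro (⟨hP, -, h1, h2⟩ | ⟨i, hP, -, h1, h2⟩)
          · exact ⟨hGI P hP, h1, h2⟩
          · exact ⟨hGT i P hP, h1, h2⟩
      rw [h1, sum_union, sum_biUnion]
      · intro i _ j _ hij
        exact Finset.disjoint_filter_filter (hL.disT i j k hij)
      · rw [disjoint_biUnion_right]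
        intro i _
        exact Finset.disjoint_filter_filter (hL.disI i k)
    rw [hsplit, mul_add, mul_add]
    -- type I
    have hI : Q * (kI * φ Y) - E ≤ k * (Z * ∑ P ∈ (GI k).filter (fun P => P ∉ S ∧
        UU (insert P S) ∩ S = U ∧ DD B (insert P S) = Δ), φ (val P)) := by
      have h1 : (((GI k).filter (fun P => P ∉ S ∧
          UU (insert P S) ∩ S = U ∧ DD B (insert P S) = Δ)).card : ℝ) * φ Y ≤
          ∑ P ∈ (GI k).filter (fun P => P ∉ S ∧
            UU (insert P S) ∩ S = U ∧ DD B (insert P S) = Δ), φ (val P) := by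
        rw [← nsmul_eq_mul]
        refine Finset.card_nsmul_le_sum _ _ _ fun P hP => ?_
        obtain ⟨hPG, hPS, hc1, hc2⟩ := mem_filter.1 hP
        apply hanti
        intro j
        have hst := hL.stI j S U Δ e k P hPG hS hU hΔ hPS
        rw [hM U Δ hU hΔ j] at hst
        rcases hcls P hPS hc1 hc2 with h | h
        · rw [h]; exact log_le_STL hst.1
        · rw [h]; exact log_le_STL hst.2
      have h2 := (abs_le.1 (hL.sgI S U Δ k hk hS hU hΔ)).1
      have h3 := mul_le_mul_of_nonneg_left h1 (by positivity : 0 ≤ (k : ℝ) * Z)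
      have h4 : E * φ Y ≤ E * 1 := mul_le_mul_of_nonneg_left (hφ Y).2 hE0
      have h5 := mul_le_mul_of_nonneg_right h2 (hφ Y).1
      simp only [← hqdef, ← hRdef, ← hQdef] at h5
      rw [← hEdef, ← hZdef] at h5
      nlinarith [h3, h4, h5]
    -- type T
    have hT : ∀ i, Q * (kT i * Bi i φ Y) - 2 * E ≤ k * (Z * ∑ P ∈ (GT i k).filter (fun P => P ∉ S ∧
        UU (insert P S) ∩ S = U ∧ DD B (insert P S) = Δ), φ (val P)) := by
      intro i
      obtain ⟨T, hTsub, hT1, -, hT3⟩ := hL.cntU i S U Δ e k hk hS hU hΔ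
      have hpm : φ (Function.update Y i (Y i + 1)) ≤ φ (Function.update Y i (Y i - 1)) := by
        apply hanti
        intro j
        by_cases hj : j = i
        · subst hj
          simp only [Function.update_self]; omega
        · simp [Function.update_of_ne hj]
      have h1 : (((GT i k).filter (fun P => P ∉ S ∧
          UU (insert P S) ∩ S = U ∧ DD B (insert P S) = Δ)).card : ℝ) *
            φ (Function.update Y i (Y i - 1)) -
          ((T.filter (fun P => P ∉ S ∧
            UU (insert P S) ∩ S = U ∧ DD B (insert P S) = Δ)).card : ℝ) *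
            (φ (Function.update Y i (Y i - 1)) - φ (Function.update Y i (Y i + 1))) ≤
          ∑ P ∈ (GT i k).filter (fun P => P ∉ S ∧
            UU (insert P S) ∩ S = U ∧ DD B (insert P S) = Δ), φ (val P) := by
        have hpt : ∀ P ∈ (GT i k).filter (fun P => P ∉ S ∧
            UU (insert P S) ∩ S = U ∧ DD B (insert P S) = Δ),
            φ (Function.update Y i (Y i - 1)) - (if P ∈ T then
              (φ (Function.update Y i (Y i - 1)) - φ (Function.update Y i (Y i + 1))) else 0) ≤
              φ (val P) := by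
          intro P hP
          obtain ⟨hPG, hPS, hc1, hc2⟩ := mem_filter.1 hP
          have hj : ∀ j, j ≠ i → val P j ≤ Y j := by
            intro j hji
            have hst := hL.stJ i j S U Δ e k hji P hPG hS hU hΔ hPS
            rw [hM U Δ hU hΔ j] at hst
            rcases hcls P hPS hc1 hc2 with h | h
            · rw [h]; exact log_le_STL hst.1
            · rw [h]; exact log_le_STL hst.2
          by_cases hPT : P ∈ T
          · rw [if_pos hPT]
            have : φ (Function.update Y i (Y i + 1)) ≤ φ (val P) := by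
              apply hanti
              intro j
              by_cases hji : j = i
              · subst hji
                simp only [Function.update_self]
                have hst := hL.stT j S U Δ e k P hPG hS hU hΔ hPS
                rw [hM U Δ hU hΔ j, ← pow_succ'] at hst
                rcases hcls P hPS hc1 hc2 with h | h
                · rw [h]; exact log_le_STL hst.1
                · rw [h]; exact log_le_STL hst.2
              · rw [Function.update_of_ne hji]; exact hj j hji
            linarith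
          · rw [if_neg hPT, sub_zero]
            apply hanti
            intro j
            by_cases hji : j = i
            · subst hji
              simp only [Function.update_self]
              have hst := hT1 P hPG hPS hPT
              rw [hM U Δ hU hΔ j] at hst
              rcases hcls P hPS hc1 hc2 with h | h
              · rw [h]; exact log_pred_STL hst.1
              · rw [h]; exact log_pred_STL hst.2
            · rw [Function.update_of_ne hji]; exact hj j hji
        refine le_trans ?_ (Finset.sum_le_sum hpt)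
        rw [Finset.sum_sub_distrib, Finset.sum_const, nsmul_eq_mul, ← Finset.sum_filter,
          Finset.sum_const, nsmul_eq_mul]
        have hcard : ((((GT i k).filter (fun P => P ∉ S ∧
            UU (insert P S) ∩ S = U ∧ DD B (insert P S) = Δ)).filter (fun P => P ∈ T)).card : ℝ) ≤
            ((T.filter (fun P => P ∉ S ∧
              UU (insert P S) ∩ S = U ∧ DD B (insert P S) = Δ)).card : ℝ) := by
          refine Nat.cast_le.2 (Finset.card_le_card fun P hP => ?_)
          obtain ⟨hP1, hP2⟩ := mem_filter.1 hP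
          exact mem_filter.2 ⟨hP2, (mem_filter.1 hP1).2⟩
        have := mul_le_mul_of_nonneg_right hcard (sub_nonneg.2 hpm)
        linarith
      have h2 := (abs_le.1 (hL.sgT i S U Δ k hk hS hU hΔ)).1
      have h3 := mul_le_mul_of_nonneg_left h1 (by positivity : 0 ≤ (k : ℝ) * Z)
      rw [hM U Δ hU hΔ i, ← hY] at hT3
      simp only [← hqdef, ← hRdef, ← hQdef] at h2 hT3
      rw [← hEdef, ← hZdef] at h2 hT3
      have h4 := coord_STL (κ := kT i) (Q := Q) (E := E) (Z := Z) (k := k)
        (nT := (((GT i k).filter (fun P => P ∉ S ∧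
          UU (insert P S) ∩ S = U ∧ DD B (insert P S) = Δ)).card : ℝ))
        (tT := ((T.filter (fun P => P ∉ S ∧
          UU (insert P S) ∩ S = U ∧ DD B (insert P S) = Δ)).card : ℝ))
        (y := (1 / 2) ^ Y i) (φp := φ (Function.update Y i (Y i + 1)))
        (φm := φ (Function.update Y i (Y i - 1))) hE0 (by linarith)
        (by
          refine hT3.trans (le_of_eq ?_)
          push_cast
          rw [one_div, inv_pow]
          rfl) (hφ _).1 hpm (hφ _).2
      have h5 : Q * (kT i * Bi i φ Y) - 2 * E = Q * (kT i * ((1 / 2) ^ Y i *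
          φ (Function.update Y i (Y i + 1)) + (1 - (1 / 2) ^ Y i) *
            φ (Function.update Y i (Y i - 1)))) - 2 * E := rfl
      rw [h5]
      refine h4.trans ?_
      nlinarith [h3]
    have hsumT := Finset.sum_le_sum fun i (_ : i ∈ (univ : Finset ι)) => hT i
    rw [Finset.sum_sub_distrib, Finset.sum_const, card_univ, nsmul_eq_mul] at hsumT
    have hpull : ∑ i, (k : ℝ) * (Z * ∑ P ∈ (GT i k).filter (fun P => P ∉ S ∧
        UU (insert P S) ∩ S = U ∧ DD B (insert P S) = Δ), φ (val P)) =
        k * (Z * ∑ i, ∑ P ∈ (GT i k).filter (fun P => P ∉ S ∧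
        UU (insert P S) ∩ S = U ∧ DD B (insert P S) = Δ), φ (val P)) := by
      rw [Finset.mul_sum, Finset.mul_sum]
    rw [hpull] at hsumT
    have hKn : Q * (κ * Kn (kI / κ) (fun i => kT i / κ) φ Y) =
        Q * (kI * φ Y) + ∑ i, Q * (kT i * Bi i φ Y) := by
      unfold Kn
      rw [mul_add, mul_add, Finset.mul_sum, Finset.mul_sum]
      congr 1
      · field_simp
      · refine Finset.sum_congr rfl fun i _ => ?_
        field_simp
    rw [hKn]
    linarith
  -- sum over the classes
  have hfib : ∑ P ∈ GG GI GT k, φ (val P) =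
      ∑ c ∈ S.powerset ×ˢ B.powerset, ∑ P ∈ (GG GI GT k).filter (fun P =>
        (UU (insert P S) ∩ S, DD B (insert P S)) = c), φ (val P) := by
    rw [Finset.sum_fiberwise_of_maps_to]
    intro P _
    rw [mem_product]
    refine ⟨mem_powerset.2 inter_subset_right, mem_powerset.2 ?_⟩
    unfold DD
    exact filter_subset _ _
  have hsum : Q * κ * (∑ U ∈ S.powerset, ∑ Δ ∈ B.powerset,
      Kn (kI / κ) (fun i => kT i / κ) φ (y U Δ)) - Z * ((1 + 2 * Fintype.card ι) * E) ≤
      k * (Z * ∑ P ∈ GG GI GT k, φ (val P)) := by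
    rw [hfib, Finset.sum_product, Finset.mul_sum, Finset.mul_sum, Finset.mul_sum]
    have hb : ∀ U ∈ S.powerset, Q * κ * (∑ Δ ∈ B.powerset,
        Kn (kI / κ) (fun i => kT i / κ) φ (y U Δ)) - 2 ^ B.card * ((1 + 2 * Fintype.card ι) * E) ≤
        k * (Z * ∑ Δ ∈ B.powerset, ∑ P ∈ (GG GI GT k).filter (fun P =>
          (UU (insert P S) ∩ S, DD B (insert P S)) = (U, Δ)), φ (val P)) := by
      intro U hU
      rw [Finset.mul_sum, Finset.mul_sum, Finset.mul_sum]
      have := Finset.sum_le_sum (key U hU)
      rw [Finset.sum_sub_distrib, Finset.sum_const, card_powerset, nsmul_eq_mul] at this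
      push_cast at this
      refine le_trans (le_of_eq ?_) this
      congr 1
      refine Finset.sum_congr rfl fun Δ _ => ?_
      ring
    have := Finset.sum_le_sum hb
    rw [Finset.sum_sub_distrib, Finset.sum_const, card_powerset, nsmul_eq_mul] at this
    push_cast at this
    refine le_trans (le_of_eq ?_) this
    rw [hZdef]
    ring
  have hAV : AV B M (Kn (kI / κ) (fun i => kT i / κ) φ) S e =
      (∑ U ∈ S.powerset, ∑ Δ ∈ B.powerset, Kn (kI / κ) (fun i => kT i / κ) φ (y U Δ)) / Z := rfl
  set A := AV B M (Kn (kI / κ) (fun i => kT i / κ) φ) S e with hAdef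
  have hAZ : (∑ U ∈ S.powerset, ∑ Δ ∈ B.powerset,
      Kn (kI / κ) (fun i => kT i / κ) φ (y U Δ)) = A * Z := by
    rw [hAV]; field_simp
  rw [hAZ] at hsum
  have hmain : Q * κ * A - (1 + 2 * Fintype.card ι) * E ≤ k * ∑ P ∈ GG GI GT k, φ (val P) := by
    have h : Z * (Q * κ * A - (1 + 2 * Fintype.card ι) * E) ≤
        Z * (k * ∑ P ∈ GG GI GT k, φ (val P)) := by nlinarith [hsum]
    exact le_of_mul_le_mul_left h hZ0
  -- bounds for A
  have hB01 : ∀ (i : ι) (x : ι → ℕ), 0 ≤ Bi i φ x ∧ Bi i φ x ≤ 1 := by
    intro i x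
    unfold Bi
    have h1 : (0 : ℝ) ≤ (1 / 2) ^ x i := by positivity
    have h2 : ((1 : ℝ) / 2) ^ x i ≤ 1 := pow_le_one₀ (by norm_num) (by norm_num)
    have h3 := hφ (Function.update x i (x i + 1))
    have h4 := hφ (Function.update x i (x i - 1))
    constructor
    · have := mul_nonneg h1 h3.1
      have := mul_nonneg (sub_nonneg.2 h2) h4.1
      linarith
    · have := mul_le_mul_of_nonneg_left h3.2 h1
      have := mul_le_mul_of_nonneg_left h4.2 (sub_nonneg.2 h2)
      linarith
  have hK01 : ∀ x, 0 ≤ Kn (kI / κ) (fun i => kT i / κ) φ x ∧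
      Kn (kI / κ) (fun i => kT i / κ) φ x ≤ 1 := by
    intro x
    unfold Kn
    constructor
    · refine add_nonneg (mul_nonneg (by positivity) (hφ x).1) (Finset.sum_nonneg fun i _ => ?_)
      exact mul_nonneg (div_nonneg (hL.kT_pos i).le hκ0.le) (hB01 i x).1
    · have h1 : kI / κ * φ x ≤ kI / κ * 1 := mul_le_mul_of_nonneg_left (hφ x).2 (by positivity)
      have h2 : ∑ i, kT i / κ * Bi i φ x ≤ ∑ i, kT i / κ * 1 :=
        Finset.sum_le_sum fun i _ => mul_le_mul_of_nonneg_left (hB01 i x).2
          (div_nonneg (hL.kT_pos i).le hκ0.le)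
      have h3 : kI / κ * 1 + ∑ i, kT i / κ * 1 = 1 := by
        simp only [mul_one]
        rw [← Finset.sum_div, ← add_div, ← hκdef, div_self hκ0.ne']
      linarith
  have hA1 : A ≤ 1 := by
    rw [hAV, div_le_one hZ0]
    calc ∑ U ∈ S.powerset, ∑ Δ ∈ B.powerset, Kn (kI / κ) (fun i => kT i / κ) φ (y U Δ)
        ≤ ∑ U ∈ S.powerset, ∑ Δ ∈ B.powerset, (1 : ℝ) :=
          Finset.sum_le_sum fun U _ => Finset.sum_le_sum fun Δ _ => (hK01 _).2
      _ = Z := by
          simp [Finset.sum_const, card_powerset, hZdef]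
  have hA0 : 0 ≤ A := by
    rw [hAV]
    exact div_nonneg (Finset.sum_nonneg fun U _ => Finset.sum_nonneg fun Δ _ => (hK01 _).1) hZ0.le
  -- the number of primes of good type
  have hcard : (k : ℝ) * ((GG GI GT k).card : ℝ) ≤ κ * Q + (Fintype.card ι + 1) * (C * R) := by
    have h1 : ((GG GI GT k).card : ℝ) ≤ ((GI k).card : ℝ) + ∑ i, ((GT i k).card : ℝ) := by
      have : (GG GI GT k).card ≤ (GI k).card + ∑ i, (GT i k).card := by
        unfold GG
        exact (card_union_le _ _).trans (Nat.add_le_add_left card_biUnion_le _)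
      exact_mod_cast this
    have h2 := (abs_le.1 (hL.cntI k hk)).2
    have h3 : ∀ i ∈ (univ : Finset ι), (k : ℝ) * ((GT i k).card : ℝ) ≤ kT i * Q + C * R :=
      fun i _ => by
        have := (abs_le.1 (hL.cntT i k hk)).2
        linarith
    have h4 := Finset.sum_le_sum h3
    rw [Finset.sum_add_distrib, Finset.sum_const, card_univ, nsmul_eq_mul, ← Finset.mul_sum,
      ← Finset.sum_mul] at h4
    have h5 := mul_le_mul_of_nonneg_left h1 hk0.le
    rw [mul_add] at h5
    have h6 : κ * Q = kI * Q + (∑ i, kT i) * Q := by rw [hκdef]; ring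
    rw [h6]
    linarith
  have hfin : (k : ℝ) * ((GG GI GT k).card * A - (3 * Fintype.card ι + 2) * E) ≤
      k * ∑ P ∈ GG GI GT k, φ (val P) := by
    have h1 := mul_le_mul_of_nonneg_right hcard hA0
    have h2 : (Fintype.card ι + 1 : ℝ) * (C * R) * A ≤ (Fintype.card ι + 1) * E := by
      have h3 : (Fintype.card ι + 1 : ℝ) * (C * R) * A ≤ (Fintype.card ι + 1 : ℝ) * (C * R) * 1 :=
        mul_le_mul_of_nonneg_left hA1 (by positivity)
      have h4 : (Fintype.card ι + 1 : ℝ) * (C * R) ≤ (Fintype.card ι + 1) * E :=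
        mul_le_mul_of_nonneg_left hER (by positivity)
      linarith
    have h5 : (3 * Fintype.card ι + 2 : ℝ) * E ≤ k * ((3 * Fintype.card ι + 2) * E) :=
      le_mul_of_one_le_left (by positivity) hk1
    nlinarith [hmain, h1, h2, h5]
  have hlast := le_of_mul_le_mul_left hfin hk0
  refine le_trans (le_of_eq ?_) hlast
  rw [hEdef]
  ring

end Pool.Agent.Helper54.GL
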