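import Pool.Agent.Helper54.GL.StP
import Pool.Agent.Helper3.GT.M_SQF

/-!
# GL: module P_TK (sets with few elements in `Q`)
-/

set_option autoImplicit false

namespace Pool.Agent.Helper54.GL

open Polynomial Finset Filter Topology
open Pool.Agent.Helper54.PT (Prm prm mon mem_mon)
open Pool.Agent.Helper3.GT (dgS)
open Pool.Agent.Helper24.TWA15 (card_mon')

namespace TKaux

variable {F : Type} [Field F] [Fintype F]

open Classical in
theorem card_mult_TK (D : F[X]) (hD : D.Monic) (m : ℕ) (hm : D.natDegree ≤ m) :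
    (((mon F m).filter fun A => D ∣ A).card : ℝ) =
      (Fintype.card F : ℝ) ^ m * ((Fintype.card F : ℝ) ^ D.natDegree)⁻¹ := by
  have hq : (Fintype.card F : ℝ) ≠ 0 := by
    exact_mod_cast Fintype.card_ne_zero
  have h1 : ((mon F m).filter fun A => D ∣ A) =
      (mon F (m - D.natDegree)).image fun B => D * B := by
    ext A
    simp only [mem_filter, mem_image, mem_mon]
    constructor
    · rintro ⟨⟨hA, hAd⟩, B, rfl⟩
      have hB : B.Monic := hD.of_mul_monic_left hA
      refine ⟨B, ⟨hB, ?_⟩, rfl⟩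
      rw [hD.natDegree_mul hB] at hAd
      omega
    · rintro ⟨B, ⟨hB, hBd⟩, rfl⟩
      refine ⟨⟨hD.mul hB, ?_⟩, dvd_mul_right _ _⟩
      rw [hD.natDegree_mul hB]
      omega
  rw [h1, card_image_of_injective _ (fun a b h => mul_left_cancel₀ hD.ne_zero h), card_mon',
    Nat.card_eq_fintype_card]
  push_cast
  rw [← div_eq_mul_inv, pow_sub₀ _ hq hm, div_eq_mul_inv]

open Classical in
/-- The second moment. -/
theorem second_TK (m : ℕ) (Q : Finset (Prm F)) (hQ : ∀ P ∈ Q, 2 * P.1.natDegree ≤ m) (lam : ℝ)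
    (hlam : ∑ P ∈ Q, ((Fintype.card F : ℝ) ^ P.1.natDegree)⁻¹ = lam) :
    ∑ A ∈ mon F m, (((Q.filter fun P => P.1 ∣ A).card : ℝ) - lam) ^ 2 ≤
      lam * (Fintype.card F : ℝ) ^ m := by
  set q : ℝ := (Fintype.card F : ℝ) with hqdef
  have hqpos : 0 < q := by
    rw [hqdef]; exact_mod_cast Fintype.card_pos
  have hom : ∀ A : F[X], ((Q.filter fun P => P.1 ∣ A).card : ℝ) =
      ∑ P ∈ Q, if P.1 ∣ A then (1 : ℝ) else 0 := by
    intro A
    rw [card_filter]
    push_cast
    rfl
  have hN : ∑ A ∈ mon F m, (1 : ℝ) = q ^ m := by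
    rw [sum_const, nsmul_eq_mul, mul_one, card_mon', Nat.card_eq_fintype_card]
    push_cast
    rfl
  have h1 : ∑ A ∈ mon F m, ((Q.filter fun P => P.1 ∣ A).card : ℝ) = lam * q ^ m := by
    simp_rw [hom]
    rw [sum_comm, ← hlam, sum_mul]
    refine sum_congr rfl fun P hP => ?_
    rw [← sum_filter, sum_const, nsmul_eq_mul, mul_one,
      card_mult_TK P.1 P.2.1 m (by have := hQ P hP; omega)]
    ring
  have h2 : ∑ A ∈ mon F m, ((Q.filter fun P => P.1 ∣ A).card : ℝ) ^ 2 ≤
      (lam ^ 2 + lam) * q ^ m := by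
    simp_rw [hom, sq, sum_mul_sum]
    rw [sum_comm]
    have hb : ∀ P ∈ Q, ∑ A ∈ mon F m, ∑ P' ∈ Q, (if P.1 ∣ A then (1 : ℝ) else 0) *
        (if P'.1 ∣ A then (1 : ℝ) else 0) ≤
        ((q ^ P.1.natDegree)⁻¹ * lam + (q ^ P.1.natDegree)⁻¹) * q ^ m := by
      intro P hP
      rw [sum_comm]
      have hc : ∀ P' ∈ Q, ∑ A ∈ mon F m, (if P.1 ∣ A then (1 : ℝ) else 0) *
          (if P'.1 ∣ A then (1 : ℝ) else 0) ≤
          ((q ^ P.1.natDegree)⁻¹ * (q ^ P'.1.natDegree)⁻¹ +
            if P' = P then (q ^ P.1.natDegree)⁻¹ else 0) * q ^ m := by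
        intro P' hP'
        have hand : ∀ A : F[X], (if P.1 ∣ A then (1 : ℝ) else 0) *
            (if P'.1 ∣ A then (1 : ℝ) else 0) = if (P.1 ∣ A ∧ P'.1 ∣ A) then 1 else 0 := by
          intro A
          by_cases ha : P.1 ∣ A <;> by_cases hb : P'.1 ∣ A <;> simp [ha, hb]
        simp_rw [hand]
        rw [← sum_filter, sum_const, nsmul_eq_mul, mul_one]
        by_cases he : P' = P
        · subst he
          rw [if_pos rfl]
          have : (mon F m).filter (fun A => P'.1 ∣ A ∧ P'.1 ∣ A) =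
              (mon F m).filter fun A => P'.1 ∣ A := by
            refine filter_congr fun A _ => ?_
            simp
          rw [this, card_mult_TK P'.1 P'.2.1 m (by have := hQ P' hP'; omega)]
          have h0 : 0 ≤ (q ^ P'.1.natDegree)⁻¹ * (q ^ P'.1.natDegree)⁻¹ * q ^ m := by positivity
          rw [← hqdef]
          nlinarith
        · rw [if_neg he, add_zero]
          have hcop : IsCoprime P.1 P'.1 := by
            refine (P.2.2.coprime_iff_not_dvd).2 fun hd => he ?_
            exact (Subtype.ext (eq_of_monic_of_associated P.2.1 P'.2.1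
              (P.2.2.associated_of_dvd P'.2.2 hd))).symm
          have : (mon F m).filter (fun A => P.1 ∣ A ∧ P'.1 ∣ A) =
              (mon F m).filter fun A => P.1 * P'.1 ∣ A := by
            refine filter_congr fun A _ => ⟨fun h => hcop.mul_dvd h.1 h.2, fun h =>
              ⟨(dvd_mul_right _ _).trans h, (dvd_mul_left _ _).trans h⟩⟩
          rw [this, card_mult_TK (P.1 * P'.1) (P.2.1.mul P'.2.1) m (by
            rw [P.2.1.natDegree_mul P'.2.1]
            have := hQ P' hP'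
            have := hQ P hP
            omega), P.2.1.natDegree_mul P'.2.1, pow_add, mul_inv]
          rw [← hqdef]
          exact le_of_eq (by ring)
      refine (sum_le_sum hc).trans (le_of_eq ?_)
      rw [← sum_mul, sum_add_distrib, ← mul_sum, hlam, sum_ite_eq' Q P, if_pos hP]
    have hgoal : ∑ y ∈ Q, ∑ x ∈ mon F m, ∑ j ∈ Q, (if y.1 ∣ x then (1 : ℝ) else 0) *
        (if j.1 ∣ x then (1 : ℝ) else 0) ≤ (lam * lam + lam) * q ^ m := by
      refine (sum_le_sum hb).trans (le_of_eq ?_)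
      rw [← sum_mul, sum_add_distrib, ← sum_mul, hlam]
    exact hgoal
  have h3 : ∑ A ∈ mon F m, (((Q.filter fun P => P.1 ∣ A).card : ℝ) - lam) ^ 2 =
      ∑ A ∈ mon F m, ((Q.filter fun P => P.1 ∣ A).card : ℝ) ^ 2 -
        2 * lam * ∑ A ∈ mon F m, ((Q.filter fun P => P.1 ∣ A).card : ℝ) +
        lam ^ 2 * ∑ A ∈ mon F m, (1 : ℝ) := by
    rw [mul_sum, mul_sum, ← sum_sub_distrib, ← sum_add_distrib]
    refine sum_congr rfl fun A _ => ?_
    ring
  rw [h3, h1, hN]
  nlinarith

end TKaux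

open TKaux in
theorem gTK (h1 : StSM) : StTK := by
  classical
  intro F _ _ h2 m Q hQ lam hlam hsum
  obtain ⟨hmem, -⟩ := h1 F h2
  have hsec := second_TK m Q hQ lam hsum
  have hqpos : 0 < (Fintype.card F : ℝ) := by exact_mod_cast Fintype.card_pos
  set Bad := (mon F m).filter fun A => 2 * ((Q.filter fun P => P.1 ∣ A).card : ℝ) < lam with hBad
  have hle : ((SmF F m).filter fun S => 2 * ((S ∩ Q).card : ℝ) < lam).card ≤ Bad.card := by
    refine card_le_card_of_injOn (fun S => ∏ P ∈ S, P.1) ?_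
      (Pool.Agent.Helper3.GT.SQF.prod_inj.injOn)
    intro S hS
    rw [mem_coe, mem_filter] at hS
    rw [mem_coe, hBad, mem_filter, mem_mon]
    refine ⟨⟨Pool.Agent.Helper3.GT.SQF.prod_monic S, ?_⟩, ?_⟩
    · exact (Pool.Agent.Helper3.GT.SQF.prod_natDegree S).trans ((hmem m S).1 hS.1)
    · have : (Q.filter fun P => P.1 ∣ ∏ R ∈ S, R.1) = S ∩ Q := by
        ext P
        rw [mem_filter, Pool.Agent.Helper3.GT.SQF.dvd_prod_iff, mem_inter]
        tauto
      rw [this]
      exact hS.2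
  have hbd : (Bad.card : ℝ) * (lam ^ 2 / 4) ≤ lam * (Fintype.card F : ℝ) ^ m := by
    refine le_trans ?_ hsec
    calc (Bad.card : ℝ) * (lam ^ 2 / 4) = ∑ A ∈ Bad, (lam ^ 2 / 4) := by
          rw [sum_const, nsmul_eq_mul]
      _ ≤ ∑ A ∈ Bad, (((Q.filter fun P => P.1 ∣ A).card : ℝ) - lam) ^ 2 := by
          refine sum_le_sum fun A hA => ?_
          rw [hBad, mem_filter] at hA
          nlinarith [hA.2]
      _ ≤ _ := by
          refine sum_le_sum_of_subset_of_nonneg (filter_subset _ _) fun A _ _ => sq_nonneg _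
  have hfin : (Bad.card : ℝ) ≤ 4 / lam * (Fintype.card F : ℝ) ^ m := by
    have h4 : (Bad.card : ℝ) * lam ^ 2 ≤ 4 * lam * (Fintype.card F : ℝ) ^ m := by linarith
    have h5 : (Bad.card : ℝ) * lam ≤ 4 * (Fintype.card F : ℝ) ^ m := by
      have : lam * ((Bad.card : ℝ) * lam) ≤ lam * (4 * (Fintype.card F : ℝ) ^ m) := by
        calc lam * ((Bad.card : ℝ) * lam) = (Bad.card : ℝ) * lam ^ 2 := by ring
          _ ≤ 4 * lam * (Fintype.card F : ℝ) ^ m := h4
          _ = _ := by ring
      exact le_of_mul_le_mul_left this hlam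
    rw [div_mul_eq_mul_div, le_div_iff₀ hlam]
    exact h5
  refine le_trans ?_ hfin
  exact_mod_cast hle

end Pool.Agent.Helper54.GL
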