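import Pool.Agent.Helper54.GL.StP

/-!
# GL, module P_VS: bounded mean of the potential outside the window
-/

set_option autoImplicit false

namespace Pool.Agent.Helper54.GL

open Polynomial Finset Filter Topology
open Pool.Agent.Helper54.PT (Prm prm)
open Pool.Agent.Helper3.HY (kp red)
open Pool.Agent.Helper3.GT (dgS)

theorem harm_VS (n : ℕ) : ∑ k ∈ Icc 1 n, 1 / (k : ℝ) ≤ 1 + Real.log n := by
  have h := harmonic_le_one_add_log n
  rw [harmonic_eq_sum_Icc] at h
  push_cast at h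
  simpa [one_div] using h

theorem logKK_VS (m : ℕ) (hm : 1 ≤ Real.log m) : ((KK m : ℕ) : ℝ) ≤ 48 * Real.log m := by
  have h1 : ((Nat.log 2 m : ℕ) : ℝ) ≤ Real.logb 2 m := by
    exact_mod_cast Real.natLog_le_logb m 2
  have h2 : Real.logb 2 m ≤ 2 * Real.log m := by
    unfold Real.logb
    have h3 : (1 : ℝ) / 2 < Real.log 2 := by
      have := Real.log_two_gt_d9
      linarith
    rw [div_le_iff₀ (by linarith)]
    nlinarith
  unfold KK
  push_cast
  linarith

theorem asy_VS (C ρ : ℝ) (hC : 1 ≤ C) (hρ : ρ < 1) (H : ℕ) (hH : 1 ≤ H) :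
    ∀ᶠ m : ℕ in atTop, C * (C / m * Real.exp (C * (1 + Real.log ((H * KK m : ℕ) : ℝ)) +
      ρ * (1 + Real.log m))) ≤ 1 := by
  have hHr : (1 : ℝ) ≤ H := by exact_mod_cast hH
  obtain ⟨D, hD⟩ : ∃ D : ℝ, D = C * C * Real.exp (C * (1 + Real.log (48 * H)) + ρ) := ⟨_, rfl⟩
  have hDpos : 0 < D := by
    rw [hD]
    have := Real.exp_pos (C * (1 + Real.log (48 * H)) + ρ)
    have hC0 : 0 < C := by linarith
    positivity
  have ht := tendsto_rpow_mul_exp_neg_mul_atTop_nhds_zero C (1 - ρ) (by linarith)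
  have hlog : Tendsto (fun m : ℕ => Real.log m) atTop atTop :=
    Real.tendsto_log_atTop.comp tendsto_natCast_atTop_atTop
  have ht2 := ht.comp hlog
  have hev := ht2.eventually (gt_mem_nhds (show (0 : ℝ) < 1 / D by positivity))
  filter_upwards [hev, hlog.eventually_ge_atTop 1, eventually_ge_atTop 1] with m h1 h2 hm1
  have hmr : (0 : ℝ) < m := by exact_mod_cast hm1
  simp only [Function.comp_def] at h1
  obtain ⟨x, hx⟩ : ∃ x, x = Real.log m := ⟨_, rfl⟩
  rw [← hx] at h1 h2 ⊢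
  have hx0 : 0 < x := by linarith
  have hm_exp : (m : ℝ) = Real.exp x := by rw [hx, Real.exp_log hmr]
  have hKKpos : (0 : ℝ) < ((H * KK m : ℕ) : ℝ) := by
    have : 0 < H * KK m := Nat.mul_pos (by omega) (by unfold KK; omega)
    exact_mod_cast this
  have hlogle : Real.log ((H * KK m : ℕ) : ℝ) ≤ Real.log (48 * H) + Real.log x := by
    rw [← Real.log_mul (by positivity) hx0.ne']
    apply Real.log_le_log hKKpos
    have := logKK_VS m (by rw [← hx]; exact h2)
    rw [← hx] at this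
    push_cast
    nlinarith
  have hexp : Real.exp (C * (1 + Real.log ((H * KK m : ℕ) : ℝ)) + ρ * (1 + x)) ≤
      Real.exp (C * (1 + Real.log (48 * H)) + ρ) * (x ^ C * Real.exp (ρ * x)) := by
    rw [Real.rpow_def_of_pos hx0, ← Real.exp_add, ← Real.exp_add]
    apply Real.exp_le_exp.2
    have := mul_le_mul_of_nonneg_left hlogle (by linarith : 0 ≤ C)
    nlinarith
  have hC0 : 0 < C := by linarith
  calc C * (C / m * Real.exp (C * (1 + Real.log ((H * KK m : ℕ) : ℝ)) + ρ * (1 + x)))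
      ≤ C * (C / m * (Real.exp (C * (1 + Real.log (48 * H)) + ρ) *
          (x ^ C * Real.exp (ρ * x)))) := by
        apply mul_le_mul_of_nonneg_left _ hC0.le
        exact mul_le_mul_of_nonneg_left hexp (by positivity)
    _ = D * (x ^ C * Real.exp (-(1 - ρ) * x)) := by
        rw [hD, hm_exp]
        have : Real.exp (-(1 - ρ) * x) = Real.exp (ρ * x) / Real.exp x := by
          rw [← Real.exp_sub]
          congr 1
          ring
        rw [this]
        ring
    _ ≤ D * (1 / D) := mul_le_mul_of_nonneg_left h1.le hDpos.le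
    _ = 1 := by field_simp

theorem AV_le_VS {F : Type} [Field F] {ι : Type} (B : Finset (Prm F))
    (M : ι → Finset (Prm F) → Finset (Prm F) → Finset (Prm F) → ℕ → ℕ) (φ : (ι → ℕ) → ℝ)
    (S : Finset (Prm F)) (e : ℕ) (N : ℝ)
    (h : ∀ U ⊆ S, ∀ Δ ⊆ B, φ (fun i => Nat.log 2 (M i S U Δ e)) ≤ N) : AV B M φ S e ≤ N := by
  unfold AV
  rw [div_le_iff₀ (by positivity)]
  calc ∑ U ∈ S.powerset, ∑ Δ ∈ B.powerset, φ (fun i => Nat.log 2 (M i S U Δ e))
      ≤ ∑ U ∈ S.powerset, ∑ Δ ∈ B.powerset, N :=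
        Finset.sum_le_sum fun U hU => Finset.sum_le_sum fun Δ hΔ =>
          h U (Finset.mem_powerset.1 hU) Δ (Finset.mem_powerset.1 hΔ)
    _ = N * (2 ^ S.card * 2 ^ B.card) := by
        simp only [Finset.sum_const, Finset.card_powerset, nsmul_eq_mul]
        push_cast
        ring

open Classical in
theorem bndM_VS {F : Type} [Field F] [Fintype F] {ι : Type} [Fintype ι] {B : Finset (Prm F)}
    {Gp : Prm F → Prop} {GI : ℕ → Finset (Prm F)} {GT : ι → ℕ → Finset (Prm F)} {kI : ℝ}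
    {kT : ι → ℝ} {M : ι → Finset (Prm F) → Finset (Prm F) → Finset (Prm F) → ℕ → ℕ}
    {C ρ : ℝ} (hL : LawH B Gp GI GT kI kT M C ρ) (i : ι) (Δ : Finset (Prm F)) (e : ℕ)
    (hΔ : Δ ⊆ B) (S : Finset (Prm F)) : (∀ P ∈ S, Gp P) → ∀ U ⊆ S,
      (M i S U Δ e : ℝ) ≤ C ^ (S.card + 1) := by
  have hC0 : 0 ≤ C := by linarith [hL.one_le]
  induction S using Finset.induction_on with
  | empty =>
    intro _ U hU
    rw [Finset.subset_empty.1 hU]
    simpa using hL.base i Δ e hΔ
  | insert P S hP ih =>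
    intro hG U hU
    have hG' : ∀ Q ∈ S, Gp Q := fun Q hQ => hG Q (Finset.mem_insert_of_mem hQ)
    have hU' : U.erase P ⊆ S := by
      intro Q hQ
      rw [Finset.mem_erase] at hQ
      rcases Finset.mem_insert.1 (hU hQ.2) with h | h
      · exact absurd h hQ.1
      · exact h
    have h1 := ih hG' (U.erase P) hU'
    have h3 : U = U.erase P ∨ U = insert P (U.erase P) := by
      by_cases hPU : P ∈ U
      · exact Or.inr (Finset.insert_erase hPU).symm
      · exact Or.inl (Finset.erase_eq_of_notMem hPU).symm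
    have h2 := hL.step i S (U.erase P) Δ e P U hG' hU' hΔ (hG P (Finset.mem_insert_self _ _)) hP h3
    rw [Finset.card_insert_of_notMem hP]
    calc (M i (insert P S) U Δ e : ℝ) ≤ C * M i S (U.erase P) Δ e := h2
      _ ≤ C * C ^ (S.card + 1) := mul_le_mul_of_nonneg_left h1 hC0
      _ = C ^ (S.card + 1 + 1) := by ring

open Classical in
theorem bndV_VS {F : Type} [Field F] [Fintype F] {ι : Type} [Fintype ι] {B : Finset (Prm F)}
    {Gp : Prm F → Prop} {GI : ℕ → Finset (Prm F)} {GT : ι → ℕ → Finset (Prm F)} {kI : ℝ}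
    {kT : ι → ℝ} {M : ι → Finset (Prm F) → Finset (Prm F) → Finset (Prm F) → ℕ → ℕ}
    {C ρ : ℝ} (hL : LawH B Gp GI GT kI kT M C ρ) (i : ι) (e : ℕ)
    (S : Finset (Prm F)) (hS : ∀ P ∈ S, Gp P) :
    AV B M (fun x => Real.sqrt 2 ^ x i) S e ≤ C ^ (S.card + 1) := by
  apply AV_le_VS
  intro U hU Δ hΔ
  obtain ⟨x, hx⟩ := hL.pow i S U Δ e hS hU hΔ
  have h1 := bndM_VS hL i Δ e hΔ S hS U hU
  have h2 : Nat.log 2 (M i S U Δ e) = x := by rw [hx]; exact Nat.log_pow (by norm_num) x
  show Real.sqrt 2 ^ Nat.log 2 (M i S U Δ e) ≤ _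
  rw [h2]
  have h3 : Real.sqrt 2 ≤ 2 := by
    rw [Real.sqrt_le_left (by norm_num)]
    norm_num
  calc Real.sqrt 2 ^ x ≤ 2 ^ x := pow_le_pow_left₀ (Real.sqrt_nonneg _) h3 x
    _ = (M i S U Δ e : ℝ) := by rw [hx]; push_cast; rfl
    _ ≤ _ := h1

open Classical in
theorem fib_VS {F : Type} [Field F] (hSM : ∀ (m : ℕ) (S : Finset (Prm F)), S ∈ SmF F m ↔ dgS S = m)
    (Gp : Prm F → Prop) (m L : ℕ) (S₁ : Finset (Prm F)) (hm : dgS S₁ ≤ m)
    (hG : ∀ P ∈ S₁, Gp P ∧ P.1.natDegree ≤ L) (f : Finset (Prm F) → ℝ) :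
    ∑ S ∈ ((SmF F m).filter fun S => ∀ P ∈ S, Gp P).filter
        (fun S => S.filter (fun P => P.1.natDegree ≤ L) = S₁), f S =
      ∑ T ∈ (SmF F (m - dgS S₁)).filter fun T => ∀ P ∈ T, Gp P ∧ L < P.1.natDegree,
        f (S₁ ∪ T) := by
  have dis : ∀ T : Finset (Prm F), (∀ P ∈ T, Gp P ∧ L < P.1.natDegree) → Disjoint S₁ T := by
    intro T hT
    rw [Finset.disjoint_left]
    intro P h1 h2
    have := (hG P h1).2
    have := (hT P h2).2
    omega
  refine Finset.sum_nbij' (fun S => S \ S₁) (fun T => S₁ ∪ T) ?_ ?_ ?_ ?_ ?_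
  · intro S hS
    rw [Finset.mem_filter, Finset.mem_filter, hSM] at hS
    obtain ⟨⟨hSm, hSG⟩, hS1⟩ := hS
    have hsub : S₁ ⊆ S := by rw [← hS1]; exact Finset.filter_subset _ _
    rw [Finset.mem_filter, hSM]
    constructor
    · have := Finset.sum_sdiff (f := fun P : Prm F => P.1.natDegree) hsub
      unfold dgS at hSm hm ⊢
      omega
    · intro P hP
      rw [Finset.mem_sdiff] at hP
      refine ⟨hSG P hP.1, ?_⟩
      by_contra hlt
      push Not at hlt
      apply hP.2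
      rw [← hS1, Finset.mem_filter]
      exact ⟨hP.1, hlt⟩
  · intro T hT
    rw [Finset.mem_filter, hSM] at hT
    obtain ⟨hTm, hTG⟩ := hT
    rw [Finset.mem_filter, Finset.mem_filter, hSM]
    refine ⟨⟨?_, ?_⟩, ?_⟩
    · have := Finset.sum_union (f := fun P : Prm F => P.1.natDegree) (dis T hTG)
      unfold dgS at hTm hm ⊢
      omega
    · intro P hP
      rcases Finset.mem_union.1 hP with h | h
      · exact (hG P h).1
      · exact (hTG P h).1
    · ext P
      rw [Finset.mem_filter, Finset.mem_union]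
      constructor
      · rintro ⟨h | h, h'⟩
        · exact h
        · have := (hTG P h).2
          omega
      · intro h
        exact ⟨Or.inl h, (hG P h).2⟩
  · intro S hS
    rw [Finset.mem_filter, Finset.mem_filter, hSM] at hS
    obtain ⟨⟨hSm, hSG⟩, hS1⟩ := hS
    have hsub : S₁ ⊆ S := by rw [← hS1]; exact Finset.filter_subset _ _
    exact Finset.union_sdiff_of_subset hsub
  · intro T hT
    rw [Finset.mem_filter, hSM] at hT
    exact Finset.union_sdiff_cancel_left (dis T hT.2)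
  · intro S hS
    rw [Finset.mem_filter, Finset.mem_filter, hSM] at hS
    obtain ⟨⟨hSm, hSG⟩, hS1⟩ := hS
    have hsub : S₁ ⊆ S := by rw [← hS1]; exact Finset.filter_subset _ _
    rw [Finset.union_sdiff_of_subset hsub]

open Classical in
theorem gVS (h1 : StSM) (h2 : StMUL) (h3 : StW4) : StVS := by
  intro F _ _ ι _ B Gp GI GT kI kT M C ρ hL
  obtain ⟨hSM, hcard, hq3, hprm, -⟩ := h1 F hL.odd
  obtain ⟨A', ρ', K₀, hA, hρ0, hρ1, hW⟩ := h3 F ι B Gp GI GT kI kT M C ρ hL
  have hq3' : (3 : ℝ) ≤ (Fintype.card F : ℝ) := by exact_mod_cast hq3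
  have hC1 := hL.one_le
  have hC0 : 0 < C := by linarith
  refine ⟨A' + 1, by linarith, ?_⟩
  intro H hH
  obtain ⟨N₁, hN₁⟩ : ∃ N : ℕ, C ≤ N := exists_nat_ge _
  filter_upwards [asy_VS C ρ' hC1 hρ1 H hH, eventually_ge_atTop (2 ^ K₀ + N₁ + 1)] with m has hm i e
  obtain ⟨L, hLdef⟩ : ∃ L, L = H * KK m := ⟨_, rfl⟩
  have h2K : 0 < 2 ^ K₀ := by positivity
  have hm0 : m ≠ 0 := by omega
  have hlogm : K₀ ≤ Nat.log 2 m := Nat.le_log_of_pow_le (by norm_num) (by omega)
  have hKL : KK m ≤ L := by rw [hLdef]; exact Nat.le_mul_of_pos_left _ (by omega)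
  have hK₀L : K₀ ≤ L := by
    refine le_trans ?_ hKL
    unfold KK
    omega
  have hL1 : 1 ≤ L := by
    refine le_trans ?_ hKL
    unfold KK
    omega
  have hsq1 : 1 ≤ Real.sqrt (Fintype.card F) := by
    rw [Real.one_le_sqrt]
    linarith
  have hLbig : C * ((m : ℝ) + 1) ≤ Real.sqrt (Fintype.card F) ^ L := by
    have e1 : (m : ℝ) + 1 ≤ 2 ^ (Nat.log 2 m + 1) := by
      have := Nat.lt_pow_succ_log_self (b := 2) (by norm_num) m
      have h' : m + 1 ≤ 2 ^ (Nat.log 2 m + 1) := this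
      exact_mod_cast h'
    have e2 : C ≤ 2 ^ (Nat.log 2 m + 1) := by
      have : (N₁ : ℝ) ≤ m := by exact_mod_cast (by omega : N₁ ≤ m)
      linarith
    have e3 : C * ((m : ℝ) + 1) ≤ 2 ^ (Nat.log 2 m + 1) * 2 ^ (Nat.log 2 m + 1) :=
      mul_le_mul e2 e1 (by positivity) (by positivity)
    have e4 : Real.sqrt (Fintype.card F) ^ (4 * (Nat.log 2 m + 1)) ≤
        Real.sqrt (Fintype.card F) ^ L := by
      apply pow_le_pow_right₀ hsq1
      refine le_trans ?_ hKL
      unfold KK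
      omega
    have e5 : (2 : ℝ) ^ (Nat.log 2 m + 1) * 2 ^ (Nat.log 2 m + 1) ≤
        Real.sqrt (Fintype.card F) ^ (4 * (Nat.log 2 m + 1)) := by
      have e6 : Real.sqrt (Fintype.card F) ^ 4 = (Fintype.card F : ℝ) ^ 2 := by
        have : Real.sqrt (Fintype.card F) ^ 2 = (Fintype.card F : ℝ) :=
          Real.sq_sqrt (by linarith)
        calc Real.sqrt (Fintype.card F) ^ 4 = (Real.sqrt (Fintype.card F) ^ 2) ^ 2 := by ring
          _ = _ := by rw [this]
      rw [pow_mul, e6, ← mul_pow]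
      apply pow_le_pow_left₀ (by norm_num)
      nlinarith
    linarith
  -- the weights
  obtain ⟨h, hh⟩ : ∃ h : ℕ → ℝ, h = fun k => if k ≤ L then C else ρ' := ⟨_, rfl⟩
  have hh01 : ∀ k, 0 ≤ h k ∧ h k ≤ C := by
    intro k
    rw [hh]
    dsimp only
    split_ifs
    · exact ⟨hC0.le, le_rfl⟩
    · exact ⟨hρ0, by linarith⟩
  have hmul := h2 F hL.odd h C hC1 hh01 m (by omega)
  have hsumh : ∑ k ∈ Icc 1 m, h k / k ≤ C * (1 + Real.log ((H * KK m : ℕ) : ℝ)) +
      ρ' * (1 + Real.log m) := by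
    have a1 : ∀ k ∈ Icc 1 m, h k / k ≤ (if k ≤ L then C * (1 / (k : ℝ)) else 0) +
        ρ' * (1 / (k : ℝ)) := by
      intro k hk
      rw [hh]
      dsimp only
      have : 0 ≤ ρ' * (1 / (k : ℝ)) := by positivity
      split_ifs
      · rw [div_eq_mul_one_div]; linarith
      · rw [div_eq_mul_one_div]; linarith
    refine (Finset.sum_le_sum a1).trans ?_
    rw [Finset.sum_add_distrib, ← Finset.mul_sum, ← Finset.sum_filter, ← Finset.mul_sum]
    apply add_le_add
    · apply mul_le_mul_of_nonneg_left _ hC0.le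
      rw [← hLdef]
      refine le_trans ?_ (harm_VS L)
      apply Finset.sum_le_sum_of_subset_of_nonneg
      · intro k hk
        rw [Finset.mem_filter, Finset.mem_Icc] at hk
        rw [Finset.mem_Icc]
        exact ⟨hk.1.1, hk.2⟩
      · intro k _ _
        positivity
    · exact mul_le_mul_of_nonneg_left (harm_VS m) hρ0
  have hqm : (0 : ℝ) < (Fintype.card F : ℝ) ^ m := by positivity
  have hmul2 : C * ∑ S ∈ SmF F m, ∏ P ∈ S, h P.1.natDegree ≤ (Fintype.card F : ℝ) ^ m := by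
    have b1 := Real.exp_le_exp.2 hsumh
    have hmr : (0 : ℝ) < m := by exact_mod_cast Nat.pos_of_ne_zero hm0
    calc C * ∑ S ∈ SmF F m, ∏ P ∈ S, h P.1.natDegree
        ≤ C * (C / m * (Fintype.card F : ℝ) ^ m * Real.exp (∑ k ∈ Icc 1 m, h k / k)) :=
          mul_le_mul_of_nonneg_left hmul hC0.le
      _ ≤ C * (C / m * (Fintype.card F : ℝ) ^ m * Real.exp (C * (1 + Real.log ((H * KK m : ℕ) : ℝ)) +
            ρ' * (1 + Real.log m))) := by
          apply mul_le_mul_of_nonneg_left _ hC0.le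
          exact mul_le_mul_of_nonneg_left b1 (by positivity)
      _ = (C * (C / m * Real.exp (C * (1 + Real.log ((H * KK m : ℕ) : ℝ)) +
            ρ' * (1 + Real.log m)))) * (Fintype.card F : ℝ) ^ m := by ring
      _ ≤ 1 * (Fintype.card F : ℝ) ^ m := mul_le_mul_of_nonneg_right has hqm.le
      _ = _ := one_mul _
  -- the sum over the fibres
  obtain ⟨A, hAdef⟩ : ∃ A : Finset (Finset (Prm F)),
    A = (SmF F m).filter fun S => ∀ P ∈ S, Gp P := ⟨_, rfl⟩
  obtain ⟨g, hg⟩ : ∃ g : Finset (Prm F) → Finset (Prm F),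
    g = fun S => S.filter (fun P => P.1.natDegree ≤ L) := ⟨_, rfl⟩
  have key : ∑ S ∈ A, AV B M (fun x => Real.sqrt 2 ^ x i) (S \ Win (GG GI GT) H m S) e ≤
      ∑ S ∈ A, (A' + C * ∏ P ∈ S, h P.1.natDegree) := by
    rw [← Finset.sum_fiberwise_of_maps_to (g := g) (t := A.image g)
        (fun S hS => Finset.mem_image_of_mem g hS),
      ← Finset.sum_fiberwise_of_maps_to (g := g) (t := A.image g)
        (fun S hS => Finset.mem_image_of_mem g hS)
        (fun S => (A' + C * ∏ P ∈ S, h P.1.natDegree))]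
    apply Finset.sum_le_sum
    intro S₁ hS₁
    rw [Finset.mem_image] at hS₁
    obtain ⟨S, hS, hgS⟩ := hS₁
    rw [hAdef, Finset.mem_filter, hSM] at hS
    obtain ⟨hSm, hSG⟩ := hS
    have hgS' : S.filter (fun P => P.1.natDegree ≤ L) = S₁ := by rw [← hgS, hg]
    have hsub : S₁ ⊆ S := by rw [← hgS']; exact Finset.filter_subset _ _
    have hdg : dgS S₁ ≤ m := by
      rw [← hSm]
      unfold dgS
      exact Finset.sum_le_sum_of_subset hsub
    have hG1 : ∀ P ∈ S₁, Gp P ∧ P.1.natDegree ≤ L := by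
      intro P hP
      rw [← hgS', Finset.mem_filter] at hP
      exact ⟨hSG P hP.1, hP.2⟩
    have f1 := fib_VS hSM Gp m L S₁ hdg hG1
      (fun S => AV B M (fun x => Real.sqrt 2 ^ x i) (S \ Win (GG GI GT) H m S) e)
    have f2 := fib_VS hSM Gp m L S₁ hdg hG1
      (fun S => (A' + C * ∏ P ∈ S, h P.1.natDegree))
    rw [hAdef, hg, f1, f2]
    have hWdeg : ∀ S P, P ∈ Win (GG GI GT) H m S → P.1.natDegree ≤ L := by
      intro S P hP
      unfold Win at hP
      rw [Finset.mem_filter] at hP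
      rw [hLdef]
      exact hP.2.2.2
    have heq : ∀ T ∈ (SmF F (m - dgS S₁)).filter fun T => ∀ P ∈ T, Gp P ∧ L < P.1.natDegree,
        AV B M (fun x => Real.sqrt 2 ^ x i) ((S₁ ∪ T) \ Win (GG GI GT) H m (S₁ ∪ T)) e =
          AV B M (fun x => Real.sqrt 2 ^ x i) ((S₁ \ Win (GG GI GT) H m S₁) ∪ T) e := by
      intro T hT
      rw [Finset.mem_filter] at hT
      congr 1
      ext P
      unfold Win
      simp only [Finset.mem_sdiff, Finset.mem_union, Finset.mem_filter]
      constructor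
      · rintro ⟨h | h, h'⟩
        · exact Or.inl ⟨h, fun hh => h' ⟨Or.inl hh.1, hh.2⟩⟩
        · exact Or.inr h
      · rintro (⟨h, h'⟩ | h)
        · refine ⟨Or.inl h, ?_⟩
          rintro ⟨_, hh⟩
          exact h' ⟨h, hh⟩
        · refine ⟨Or.inr h, ?_⟩
          rintro ⟨_, hh⟩
          have := (hT.2 P h).2
          rw [hLdef] at this
          omega
    rw [Finset.sum_congr rfl heq]
    have hE₀ : ∀ P ∈ S₁ \ Win (GG GI GT) H m S₁, Gp P ∧ P.1.natDegree ≤ L :=
      fun P hP => hG1 P (Finset.mem_sdiff.1 hP).1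
    have hdgE : dgS (S₁ \ Win (GG GI GT) H m S₁) + (m - dgS S₁) ≤ m := by
      have : dgS (S₁ \ Win (GG GI GT) H m S₁) ≤ dgS S₁ := by
        unfold dgS
        exact Finset.sum_le_sum_of_subset Finset.sdiff_subset
      omega
    refine (hW m L hK₀L hLbig i e (S₁ \ Win (GG GI GT) H m S₁) hE₀ (m - dgS S₁) hdgE).trans ?_
    apply Finset.sum_le_sum
    intro T hT
    rw [Finset.mem_filter] at hT
    have hV := bndV_VS hL i e (S₁ \ Win (GG GI GT) H m S₁) (fun P hP => (hE₀ P hP).1)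
    have hV2 : AV B M (fun x => Real.sqrt 2 ^ x i) (S₁ \ Win (GG GI GT) H m S₁) e ≤
        C ^ (S₁.card + 1) := by
      refine hV.trans ?_
      apply pow_le_pow_right₀ hC1
      have := Finset.card_le_card (Finset.sdiff_subset (s := S₁) (t := Win (GG GI GT) H m S₁))
      omega
    have dis : Disjoint S₁ T := by
      rw [Finset.disjoint_left]
      intro P h1 h2
      have := (hG1 P h1).2
      have := (hT.2 P h2).2
      omega
    have hprod : ∏ P ∈ S₁ ∪ T, h P.1.natDegree = C ^ S₁.card * ρ' ^ T.card := by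
      rw [Finset.prod_union dis]
      congr 1
      · rw [Finset.prod_congr rfl (g := fun _ => C), Finset.prod_const]
        intro P hP
        rw [hh]
        dsimp only
        rw [if_pos (hG1 P hP).2]
      · rw [Finset.prod_congr rfl (g := fun _ => ρ'), Finset.prod_const]
        intro P hP
        rw [hh]
        dsimp only
        rw [if_neg (by have := (hT.2 P hP).2; omega)]
    rw [hprod]
    have := mul_le_mul_of_nonneg_left hV2 (by positivity : 0 ≤ ρ' ^ T.card)
    have e9 : ρ' ^ T.card * C ^ (S₁.card + 1) = C * (C ^ S₁.card * ρ' ^ T.card) := by ring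
    linarith
  rw [← hAdef]
  refine key.trans ?_
  have hsubA : A ⊆ SmF F m := by rw [hAdef]; exact Finset.filter_subset _ _
  have hnn : ∀ S ∈ SmF F m, S ∉ A → 0 ≤ A' + C * ∏ P ∈ S, h P.1.natDegree := by
    intro S _ _
    have : 0 ≤ ∏ P ∈ S, h P.1.natDegree := Finset.prod_nonneg fun P _ => (hh01 _).1
    positivity
  refine (Finset.sum_le_sum_of_subset_of_nonneg hsubA hnn).trans ?_
  rw [Finset.sum_add_distrib, Finset.sum_const, nsmul_eq_mul, ← Finset.mul_sum]
  have hc : ((SmF F m).card : ℝ) ≤ (Fintype.card F : ℝ) ^ m := by exact_mod_cast hcard m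
  have := mul_le_mul_of_nonneg_right hc hA
  linarith

end Pool.Agent.Helper54.GL
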