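import Pool.Agent.Helper54.GL.StP

/-!
# GL: module W4, propagation of the potential along large primes
-/

set_option autoImplicit false

namespace Pool.Agent.Helper54.GL

open Polynomial Finset Filter Topology
open Pool.Agent.Helper54.PT (Prm prm)
open Pool.Agent.Helper3.HY (kp red)
open Pool.Agent.Helper3.GT (dgS)

namespace W4

open Classical in
/-- The allowed sets of large primes. -/
noncomputable def TT {F : Type} [Field F] (Gp : Prm F → Prop) (L j : ℕ) :
    Finset (Finset (Prm F)) :=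
  (SmF F j).filter fun T => ∀ P ∈ T, Gp P ∧ L < P.1.natDegree

open Classical in
/-- The allowed primes of degree `k` outside `S`. -/
noncomputable def PP {F : Type} [Field F] [Fintype F] (Gp : Prm F → Prop) (k : ℕ)
    (S : Finset (Prm F)) : Finset (Prm F) :=
  (prm F k).filter fun P => Gp P ∧ P ∉ S

theorem double_W4 {F : Type} [Field F] [Fintype F]
    (hS : ∀ (m : ℕ) (S : Finset (Prm F)), S ∈ SmF F m ↔ dgS S = m)
    (hp : ∀ (k : ℕ) (P : Prm F), P ∈ prm F k ↔ P.1.natDegree = k)
    (Gp : Prm F → Prop) (L j : ℕ) (g : Finset (Prm F) → ℝ) :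
    (j : ℝ) * ∑ T ∈ TT Gp L j, g T =
      ∑ k ∈ Icc (L + 1) j, ∑ T' ∈ TT Gp L (j - k), ∑ P ∈ PP Gp k T', (k : ℝ) * g (insert P T') := by
  classical
  have h1 : (j : ℝ) * ∑ T ∈ TT Gp L j, g T =
      ∑ T ∈ TT Gp L j, ∑ P ∈ T, (P.1.natDegree : ℝ) * g T := by
    rw [Finset.mul_sum]
    refine Finset.sum_congr rfl fun T hT => ?_
    rw [← Finset.sum_mul]
    congr 1
    have := (hS j T).1 (mem_filter.1 hT).1
    rw [← this, dgS]
    push_cast
    rfl
  have h2 : ∑ T ∈ TT Gp L j, ∑ P ∈ T, (P.1.natDegree : ℝ) * g T =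
      ∑ x ∈ (TT Gp L j).sigma (fun T => T), ((x.2.1.natDegree : ℝ) * g x.1) := by
    rw [Finset.sum_sigma]
  have h3 : ∑ k ∈ Icc (L + 1) j, ∑ T' ∈ TT Gp L (j - k), ∑ P ∈ PP Gp k T',
      (k : ℝ) * g (insert P T') =
      ∑ x ∈ (Icc (L + 1) j).sigma (fun k => (TT Gp L (j - k)).sigma (fun T' => PP Gp k T')),
        (x.1 : ℝ) * g (insert x.2.2 x.2.1) := by
    rw [Finset.sum_sigma]
    refine Finset.sum_congr rfl fun k _ => ?_
    rw [Finset.sum_sigma]
  rw [h1, h2, h3]
  refine Finset.sum_bij' (fun x _ => ⟨x.2.1.natDegree, ⟨x.1.erase x.2, x.2⟩⟩)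
    (fun y _ => ⟨insert y.2.2 y.2.1, y.2.2⟩) ?_ ?_ ?_ ?_ ?_
  · rintro ⟨T, P⟩ hx
    rw [mem_sigma] at hx
    obtain ⟨hT, hP⟩ := hx
    simp only at hT hP ⊢
    have hT' := mem_filter.1 hT
    have hdeg := (hS j T).1 hT'.1
    have hPd := hT'.2 P hP
    have hsum : P.1.natDegree + dgS (T.erase P) = dgS T := by
      rw [dgS, dgS, Finset.add_sum_erase T (fun P => P.1.natDegree) hP]
    rw [mem_sigma, mem_Icc, mem_sigma]
    refine ⟨⟨hPd.2, by show P.1.natDegree ≤ j; omega⟩, ?_, ?_⟩
    · simp only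
      refine mem_filter.2 ⟨(hS _ _).2 ?_, fun Q hQ => hT'.2 Q (mem_of_mem_erase hQ)⟩
      show dgS (T.erase P) = j - P.1.natDegree
      omega
    · simp only
      exact mem_filter.2 ⟨(hp _ _).2 rfl, hPd.1, notMem_erase _ _⟩
  · rintro ⟨k, T, P⟩ hx
    rw [mem_sigma, mem_Icc, mem_sigma] at hx
    obtain ⟨hk, hT, hP⟩ := hx
    simp only at hk hT hP ⊢
    have hT' := mem_filter.1 hT
    have hdeg := (hS _ T).1 hT'.1
    have hP' := mem_filter.1 hP
    have hPd := (hp _ _).1 hP'.1
    rw [mem_sigma]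
    refine ⟨mem_filter.2 ⟨(hS _ _).2 ?_, fun Q hQ => ?_⟩, mem_insert_self _ _⟩
    · rw [dgS, Finset.sum_insert hP'.2.2, ← dgS]
      omega
    · rcases mem_insert.1 hQ with rfl | hQ
      · exact ⟨hP'.2.1, by omega⟩
      · exact hT'.2 Q hQ
  · rintro ⟨T, P⟩ hx
    rw [mem_sigma] at hx
    simp only at hx ⊢
    rw [insert_erase hx.2]
  · rintro ⟨k, T, P⟩ hx
    rw [mem_sigma, mem_Icc, mem_sigma] at hx
    obtain ⟨hk, hT, hP⟩ := hx
    simp only at hk hT hP ⊢
    have hP' := mem_filter.1 hP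
    have hPd := (hp _ _).1 hP'.1
    rw [erase_insert hP'.2.2, hPd]
  · rintro ⟨T, P⟩ hx
    rw [mem_sigma] at hx
    simp only at hx ⊢
    rw [insert_erase hx.2]

/-- The potential. -/
noncomputable def VV {F : Type} [Field F] {ι : Type} (B : Finset (Prm F))
    (M : ι → Finset (Prm F) → Finset (Prm F) → Finset (Prm F) → ℕ → ℕ) (i : ι)
    (S : Finset (Prm F)) (e : ℕ) : ℝ :=
  AV B M (fun x => Real.sqrt 2 ^ x i) S e

theorem VV_nonneg_W4 {F : Type} [Field F] {ι : Type} (B : Finset (Prm F))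
    (M : ι → Finset (Prm F) → Finset (Prm F) → Finset (Prm F) → ℕ → ℕ) (i : ι)
    (S : Finset (Prm F)) (e : ℕ) : 0 ≤ VV B M i S e := by
  unfold VV AV
  positivity

/-- One more prime of degree `k`. -/
theorem stepW4 {F : Type} [Field F] [Fintype F] {ι : Type} [Fintype ι] {B : Finset (Prm F)}
    {Gp : Prm F → Prop} {GI : ℕ → Finset (Prm F)} {GT : ι → ℕ → Finset (Prm F)} {kI : ℝ}
    {kT : ι → ℝ} {M : ι → Finset (Prm F) → Finset (Prm F) → Finset (Prm F) → ℕ → ℕ}
    {C ρ : ℝ} (H : LawH B Gp GI GT kI kT M C ρ)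
    (i : ι) (S : Finset (Prm F)) (e k : ℕ) (hS : ∀ P ∈ S, Gp P)
    (hk : C * (dgS S + 1) ≤ Real.sqrt (Fintype.card F) ^ k) :
    (k : ℝ) * ∑ P ∈ PP Gp k S, VV B M i (insert P S) e ≤
      (Fintype.card F : ℝ) ^ k * (C + ρ * VV B M i S e) := by
  classical
  have hsq : ∀ S U Δ : Finset (Prm F), (∀ P ∈ S, Gp P) → U ⊆ S → Δ ⊆ B →
      Real.sqrt 2 ^ Nat.log 2 (M i S U Δ e) = Real.sqrt (M i S U Δ e) := by
    intro S U Δ h1 h2 h3
    obtain ⟨x, hx⟩ := H.pow i S U Δ e h1 h2 h3
    rw [hx, Nat.log_pow (by norm_num)]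
    push_cast
    rw [Real.sqrt_eq_rpow, Real.sqrt_eq_rpow, ← Real.rpow_natCast, ← Real.rpow_mul (by norm_num),
      ← Real.rpow_natCast, ← Real.rpow_mul (by norm_num), mul_comm]
  set D : ℝ := 2 ^ S.card * 2 ^ B.card with hD
  have hDpos : 0 < D := by positivity
  have hV : VV B M i S e =
      (∑ U ∈ S.powerset, ∑ Δ ∈ B.powerset, Real.sqrt (M i S U Δ e)) / D := by
    unfold VV AV
    rw [hD]
    congr 1
    refine Finset.sum_congr rfl fun U hU => Finset.sum_congr rfl fun Δ hΔ => ?_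
    exact hsq S U Δ hS (mem_powerset.1 hU) (mem_powerset.1 hΔ)
  have hVi : ∀ P ∈ PP Gp k S, VV B M i (insert P S) e =
      (∑ U ∈ S.powerset, ∑ Δ ∈ B.powerset, (Real.sqrt (M i (insert P S) U Δ e) +
        Real.sqrt (M i (insert P S) (insert P U) Δ e))) / (2 * D) := by
    intro P hP
    obtain ⟨hP1, hP2, hP3⟩ := mem_filter.1 hP
    have hS' : ∀ Q ∈ insert P S, Gp Q := by
      intro Q hQ
      rcases mem_insert.1 hQ with rfl | hQ
      · exact hP2
      · exact hS Q hQ
    unfold VV AV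
    rw [Finset.sum_powerset_insert hP3, card_insert_of_notMem hP3, ← Finset.sum_add_distrib]
    congr 1
    · refine Finset.sum_congr rfl fun U hU => ?_
      rw [← Finset.sum_add_distrib]
      refine Finset.sum_congr rfl fun Δ hΔ => ?_
      have hU' := mem_powerset.1 hU
      have hΔ' := mem_powerset.1 hΔ
      beta_reduce
      rw [hsq (insert P S) U Δ hS' (hU'.trans (subset_insert _ _)) hΔ',
        hsq (insert P S) (insert P U) Δ hS' (insert_subset_insert _ hU') hΔ']
    · rw [hD]; ring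
  have h1 : (k : ℝ) * ∑ P ∈ PP Gp k S, VV B M i (insert P S) e =
      (∑ U ∈ S.powerset, ∑ Δ ∈ B.powerset,
        ((k : ℝ) * ∑ P ∈ PP Gp k S, Real.sqrt (M i (insert P S) U Δ e) +
          (k : ℝ) * ∑ P ∈ PP Gp k S, Real.sqrt (M i (insert P S) (insert P U) Δ e))) / (2 * D) := by
    rw [Finset.sum_congr rfl hVi, ← Finset.sum_div, mul_div_assoc', Finset.sum_comm]
    congr 1
    rw [Finset.mul_sum]
    refine Finset.sum_congr rfl fun U _ => ?_
    rw [Finset.sum_comm, Finset.mul_sum]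
    refine Finset.sum_congr rfl fun Δ _ => ?_
    rw [Finset.sum_add_distrib, mul_add]
  rw [h1, hV, div_le_iff₀ (by positivity)]
  have h2 : ∑ U ∈ S.powerset, ∑ Δ ∈ B.powerset,
        ((k : ℝ) * ∑ P ∈ PP Gp k S, Real.sqrt (M i (insert P S) U Δ e) +
          (k : ℝ) * ∑ P ∈ PP Gp k S, Real.sqrt (M i (insert P S) (insert P U) Δ e)) ≤
      ∑ U ∈ S.powerset, ∑ Δ ∈ B.powerset,
        2 * ((Fintype.card F : ℝ) ^ k * (C + ρ * Real.sqrt (M i S U Δ e))) := by
    refine Finset.sum_le_sum fun U hU => Finset.sum_le_sum fun Δ hΔ => ?_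
    have e1 := H.ctr i S U Δ e k (fun _ => U) hS (mem_powerset.1 hU) (mem_powerset.1 hΔ) hk
      (fun P => Or.inl rfl)
    have e2 := H.ctr i S U Δ e k (fun P => insert P U) hS (mem_powerset.1 hU)
      (mem_powerset.1 hΔ) hk (fun P => Or.inr rfl)
    unfold PP
    linarith
  refine h2.trans (le_of_eq ?_)
  have h3 : ∑ U ∈ S.powerset, ∑ Δ ∈ B.powerset,
        2 * ((Fintype.card F : ℝ) ^ k * (C + ρ * Real.sqrt (M i S U Δ e))) =
      2 * (Fintype.card F : ℝ) ^ k * (C * D + ρ *
        ∑ U ∈ S.powerset, ∑ Δ ∈ B.powerset, Real.sqrt (M i S U Δ e)) := by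
    simp only [← Finset.mul_sum, Finset.sum_add_distrib, Finset.sum_const, card_powerset,
      nsmul_eq_mul]
    rw [hD]
    push_cast
    ring
  rw [h3]
  field_simp

/-- The count of allowed primes. -/
theorem cntW4 {F : Type} [Field F] [Fintype F] {ι : Type} [Fintype ι] {B : Finset (Prm F)}
    {Gp : Prm F → Prop} {GI : ℕ → Finset (Prm F)} {GT : ι → ℕ → Finset (Prm F)} {kI : ℝ}
    {kT : ι → ℝ} {M : ι → Finset (Prm F) → Finset (Prm F) → Finset (Prm F) → ℕ → ℕ}
    {C ρ : ℝ} (H : LawH B Gp GI GT kI kT M C ρ)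
    (hp : ∀ (k : ℕ) (P : Prm F), P ∈ prm F k ↔ P.1.natDegree = k)
    (S : Finset (Prm F)) (k : ℕ) (hk : 1 ≤ k) :
    (Fintype.card F : ℝ) ^ k ≤ k * ((PP Gp k S).card : ℝ) +
      C * Real.sqrt (Fintype.card F) ^ k + dgS S := by
  classical
  have h1 := H.cntG k hk
  have h2 : ((prm F k).filter Gp).card ≤ (PP Gp k S).card + (S.filter fun P => P ∈ prm F k).card := by
    refine (card_le_card ?_).trans (card_union_le _ _)
    intro P hP
    obtain ⟨ha, hb⟩ := mem_filter.1 hP
    by_cases hPS : P ∈ S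
    · exact mem_union_right _ (mem_filter.2 ⟨hPS, ha⟩)
    · exact mem_union_left _ (mem_filter.2 ⟨ha, hb, hPS⟩)
  have h3 : k * (S.filter fun P => P ∈ prm F k).card ≤ dgS S := by
    rw [dgS, mul_comm, ← smul_eq_mul]
    refine le_trans ?_ (Finset.sum_le_sum_of_subset (filter_subset (fun P => P ∈ prm F k) S))
    refine Finset.card_nsmul_le_sum _ _ _ fun P hP => ?_
    exact ((hp k P).1 (mem_filter.1 hP).2).ge
  have h2' : (k : ℝ) * (((prm F k).filter Gp).card : ℝ) ≤ k * ((PP Gp k S).card : ℝ) +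
      k * ((S.filter fun P => P ∈ prm F k).card : ℝ) := by
    rw [← mul_add]
    refine mul_le_mul_of_nonneg_left ?_ (by positivity)
    exact_mod_cast h2
  have h3' : (k : ℝ) * ((S.filter fun P => P ∈ prm F k).card : ℝ) ≤ dgS S := by
    exact_mod_cast h3
  linarith

end W4

open W4 in
theorem gW4 (h1 : StSM) : StW4 := by
  intro F _ _ ι _ B Gp GI GT kI kT M C ρ H
  classical
  obtain ⟨hSm, _, hq3, hp, _⟩ := h1 F H.odd
  have hC := H.one_le
  obtain ⟨hρ0, hρ1⟩ := H.rho
  set q : ℝ := (Fintype.card F : ℝ) with hq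
  have hq3' : (3 : ℝ) ≤ q := by rw [hq]; exact_mod_cast hq3
  have hsq1 : 1 < Real.sqrt q := by
    rw [Real.lt_sqrt (by norm_num)]
    linarith
  set δ : ℝ := (1 - ρ) / 4 with hδ
  have hδ0 : 0 < δ := by rw [hδ]; linarith
  obtain ⟨K₀, hK₀⟩ := pow_unbounded_of_one_lt ((C + 1) / δ) hsq1
  refine ⟨2 * C / (1 - ρ), (1 + ρ) / 2, K₀, ?_, by linarith, by linarith, ?_⟩
  · have : 0 < 1 - ρ := by linarith
    positivity
  intro m L hL hCm i e E₀ hE₀
  set A' : ℝ := 2 * C / (1 - ρ) with hA'
  set ρ' : ℝ := (1 + ρ) / 2 with hρ'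
  have hA1 : C + ρ * A' ≤ (1 - δ) * A' := by
    have h1ρ : 0 < 1 - ρ := by linarith
    have e1 : A' * (1 - ρ) = 2 * C := by rw [hA']; field_simp
    have e2 : (1 - δ) * A' = ρ * A' + 3 / 4 * (A' * (1 - ρ)) := by rw [hδ]; ring
    rw [e2, e1]
    linarith
  have hρ2 : ρ ≤ (1 - δ) * ρ' := by
    rw [hδ, hρ']
    nlinarith
  have hρ'0 : 0 ≤ ρ' := by rw [hρ']; linarith
  have hδ1 : δ ≤ 1 := by rw [hδ]; linarith
  have hgoal : ∀ j : ℕ, dgS E₀ + j ≤ m →
      ∑ T ∈ TT Gp L j, VV B M i (E₀ ∪ T) e ≤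
        ∑ T ∈ TT Gp L j, (A' + ρ' ^ T.card * VV B M i E₀ e) := by
    intro j
    induction j using Nat.strong_induction_on with
    | _ j IH =>
    intro hj
    rcases Nat.eq_zero_or_pos j with hj0 | hjpos
    · subst hj0
      refine Finset.sum_le_sum fun T hT => ?_
      obtain ⟨ha, hb⟩ := mem_filter.1 hT
      have hT0 : T = ∅ := by
        by_contra hne
        obtain ⟨P, hP⟩ := Finset.nonempty_iff_ne_empty.2 hne
        have h1 : P.1.natDegree ≤ dgS T := by
          rw [dgS]
          exact Finset.single_le_sum (f := fun P : Prm F => P.1.natDegree)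
            (fun _ _ => Nat.zero_le _) hP
        have h2 := (hSm 0 T).1 ha
        have h3 := (hb P hP).2
        omega
      subst hT0
      rw [union_empty, card_empty, pow_zero, one_mul]
      have : 0 ≤ A' := by
        have : 0 < 1 - ρ := by linarith
        rw [hA']; positivity
      linarith
    · have hjr : (0 : ℝ) < j := by exact_mod_cast hjpos
      refine le_of_mul_le_mul_left ?_ hjr
      rw [double_W4 hSm hp Gp L j (fun T => VV B M i (E₀ ∪ T) e),
        double_W4 hSm hp Gp L j (fun T => A' + ρ' ^ T.card * VV B M i E₀ e)]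
      refine Finset.sum_le_sum fun k hk => ?_
      obtain ⟨hk1, hk2⟩ := mem_Icc.1 hk
      have hqk : Real.sqrt q ^ L ≤ Real.sqrt q ^ k :=
        pow_le_pow_right₀ hsq1.le (by omega)
      have hqK : Real.sqrt q ^ K₀ ≤ Real.sqrt q ^ k :=
        pow_le_pow_right₀ hsq1.le (by omega)
      have hqsq : Real.sqrt q ^ k * Real.sqrt q ^ k = q ^ k := by
        rw [← mul_pow, Real.mul_self_sqrt (by linarith)]
      have hsk : 0 < Real.sqrt q ^ k := by positivity
      -- the left side
      have hle : ∀ T' ∈ TT Gp L (j - k),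
          ∑ P ∈ PP Gp k T', (k : ℝ) * VV B M i (E₀ ∪ insert P T') e ≤
            q ^ k * (C + ρ * VV B M i (E₀ ∪ T') e) := by
        intro T' hT'
        obtain ⟨ha, hb⟩ := mem_filter.1 hT'
        have hdT := (hSm _ T').1 ha
        have hdis : Disjoint E₀ T' := by
          rw [Finset.disjoint_left]
          intro P hP hP'
          have h1 := (hE₀ P hP).2
          have h2 := (hb P hP').2
          omega
        have hdS : dgS (E₀ ∪ T') ≤ m := by
          rw [dgS, Finset.sum_union hdis, ← dgS, ← dgS]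
          omega
        have hcond : C * (dgS (E₀ ∪ T') + 1) ≤ Real.sqrt q ^ k := by
          refine le_trans ?_ (hCm.trans hqk)
          have : (dgS (E₀ ∪ T') : ℝ) ≤ m := by exact_mod_cast hdS
          nlinarith
        have hS : ∀ P ∈ E₀ ∪ T', Gp P := by
          intro P hP
          rcases mem_union.1 hP with hP | hP
          · exact (hE₀ P hP).1
          · exact (hb P hP).1
        have h := stepW4 H i (E₀ ∪ T') e k hS hcond
        have hPP : PP Gp k (E₀ ∪ T') = PP Gp k T' := by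
          unfold PP
          refine Finset.filter_congr fun P hP => ?_
          have hd := (hp k P).1 hP
          rw [mem_union, not_or]
          constructor
          · rintro ⟨h1, _, h2⟩
            exact ⟨h1, h2⟩
          · rintro ⟨h1, h2⟩
            refine ⟨h1, fun hPE => ?_, h2⟩
            have := (hE₀ P hPE).2
            omega
        rw [hPP, Finset.mul_sum] at h
        refine le_trans (le_of_eq ?_) h
        refine Finset.sum_congr rfl fun P _ => ?_
        rw [union_insert]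
      -- the count
      have hcnt : ∀ T' ∈ TT Gp L (j - k), (1 - δ) * q ^ k ≤ k * ((PP Gp k T').card : ℝ) := by
        intro T' hT'
        have hdT := (hSm _ T').1 (mem_filter.1 hT').1
        have h := cntW4 H hp T' k (by omega)
        rw [hdT] at h
        have h2 : ((j - k : ℕ) : ℝ) ≤ m := by
          have : j - k ≤ m := by omega
          exact_mod_cast this
        have h3 : (m : ℝ) ≤ Real.sqrt q ^ k := by
          have : (m : ℝ) + 1 ≤ C * (m + 1) := by nlinarith [(Nat.cast_nonneg m : (0 : ℝ) ≤ m)]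
          linarith
        have h4 : (C + 1) ≤ δ * Real.sqrt q ^ k := by
          have := (div_lt_iff₀ hδ0).1 hK₀
          nlinarith
        have h5 : (C + 1) * Real.sqrt q ^ k ≤ δ * q ^ k := by
          rw [← hqsq, ← mul_assoc]
          exact mul_le_mul_of_nonneg_right h4 hsk.le
        have h6 : q ^ k ≤ k * ((PP Gp k T').card : ℝ) + C * Real.sqrt q ^ k + (j - k : ℕ) := h
        linarith
      have hid : ∀ g : Finset (Prm F) → ℝ, ∑ T' ∈ TT Gp L (j - k), q ^ k * (C + ρ * g T') =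
          q ^ k * ((TT Gp L (j - k)).card * C + ρ * ∑ T' ∈ TT Gp L (j - k), g T') := by
        intro g
        rw [← Finset.mul_sum, Finset.sum_add_distrib, Finset.sum_const, nsmul_eq_mul,
          ← Finset.mul_sum]
      calc ∑ T' ∈ TT Gp L (j - k), ∑ P ∈ PP Gp k T', (k : ℝ) * VV B M i (E₀ ∪ insert P T') e
          ≤ ∑ T' ∈ TT Gp L (j - k), q ^ k * (C + ρ * VV B M i (E₀ ∪ T') e) :=
            Finset.sum_le_sum hle
        _ = q ^ k * ((TT Gp L (j - k)).card * C + ρ *
              ∑ T' ∈ TT Gp L (j - k), VV B M i (E₀ ∪ T') e) :=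
            hid fun T' => VV B M i (E₀ ∪ T') e
        _ ≤ q ^ k * ((TT Gp L (j - k)).card * C + ρ *
              ∑ T' ∈ TT Gp L (j - k), (A' + ρ' ^ T'.card * VV B M i E₀ e)) := by
            have := IH (j - k) (by omega) (by omega)
            gcongr
        _ = ∑ T' ∈ TT Gp L (j - k),
              q ^ k * (C + ρ * (A' + ρ' ^ T'.card * VV B M i E₀ e)) :=
            (hid fun T' => A' + ρ' ^ T'.card * VV B M i E₀ e).symm
        _ ≤ ∑ T' ∈ TT Gp L (j - k), ∑ P ∈ PP Gp k T',
              (k : ℝ) * (A' + ρ' ^ (insert P T').card * VV B M i E₀ e) := by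
            refine Finset.sum_le_sum fun T' hT' => ?_
            have hc := hcnt T' hT'
            have hV0 := VV_nonneg_W4 B M i E₀ e
            have e1 : ∑ P ∈ PP Gp k T', (k : ℝ) * (A' + ρ' ^ (insert P T').card *
                VV B M i E₀ e) = (k * ((PP Gp k T').card : ℝ)) *
                  (A' + ρ' ^ (T'.card + 1) * VV B M i E₀ e) := by
              rw [Finset.sum_congr rfl (g := fun _ => (k : ℝ) * (A' + ρ' ^ (T'.card + 1) *
                VV B M i E₀ e)) fun P hP => by
                  rw [card_insert_of_notMem (mem_filter.1 hP).2.2]]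
              rw [Finset.sum_const, nsmul_eq_mul]
              ring
            rw [e1]
            have hA0 : 0 ≤ A' := by
              have : 0 < 1 - ρ := by linarith
              rw [hA']; positivity
            have h7 : 0 ≤ A' + ρ' ^ (T'.card + 1) * VV B M i E₀ e := by positivity
            refine le_trans ?_ (mul_le_mul_of_nonneg_right hc h7)
            have h8 : C + ρ * (A' + ρ' ^ T'.card * VV B M i E₀ e) ≤
                (1 - δ) * (A' + ρ' ^ (T'.card + 1) * VV B M i E₀ e) := by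
              have h9 : ρ * (ρ' ^ T'.card * VV B M i E₀ e) ≤
                  (1 - δ) * ρ' * (ρ' ^ T'.card * VV B M i E₀ e) :=
                mul_le_mul_of_nonneg_right hρ2 (by positivity)
              rw [pow_succ]
              linarith
            have hqk0 : 0 ≤ q ^ k := by positivity
            calc q ^ k * (C + ρ * (A' + ρ' ^ T'.card * VV B M i E₀ e))
                ≤ q ^ k * ((1 - δ) * (A' + ρ' ^ (T'.card + 1) * VV B M i E₀ e)) :=
                  mul_le_mul_of_nonneg_left h8 hqk0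
              _ = _ := by ring
  intro j hj
  have := hgoal j hj
  unfold TT VV at this
  exact this

end Pool.Agent.Helper54.GL
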