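import Pool.Agent.Helper54.GL.K_KA
import Pool.Agent.Helper54.GL.K_KB
import Pool.Agent.Helper54.GL.K_KC
import Pool.Agent.Helper54.GL.K_KD
import Pool.Agent.Helper54.GL.K_KE
import Pool.Agent.Helper54.GL.K_KF
import Pool.Agent.Helper54.GL.P_SM
import Pool.Agent.Helper54.GL.P_DUP
import Pool.Agent.Helper54.GL.P_OM
import Pool.Agent.Helper54.GL.P_TK
import Pool.Agent.Helper54.GL.P_MUL
import Pool.Agent.Helper54.GL.P_W4
import Pool.Agent.Helper54.GL.P_VS
import Pool.Agent.Helper54.GL.P_STI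
import Pool.Agent.Helper54.GL.P_STL
import Pool.Agent.Helper54.GL.P_IT
import Pool.Agent.Helper54.GL.P_NRG
import Pool.Agent.Helper54.GL.P_GRP
import Pool.Agent.Helper54.GL.P_LAW

/-!
# GL: parts K and P assembled
-/

set_option autoImplicit false

namespace Pool.Agent.Helper54.GL

theorem kKE : StKE := gKE gKA gKB (gKC gKA) (gKD gKA)
theorem pMUL : StMUL := gMUL gSM
theorem pW4 : StW4 := gW4 gSM
theorem pVS : StVS := gVS gSM pMUL pW4
theorem pIT : StIT := gIT gSM gSTI gSTL gKF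
theorem pNRG : StNRG := gNRG gSM (gDUP gSM) (gOM gSM) (gTK gSM)
theorem pGRP : StGRP := gGRP gSM pIT
theorem pLAW : StLAW := gLAW gSM kKE pVS pNRG pGRP

end Pool.Agent.Helper54.GL
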