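import Pool.Agent.Helper54.GL.StP

/-!
# GL: numerics of the law
-/

set_option autoImplicit false

namespace Pool.Agent.Helper54.GL

open Finset

private lemma den_pos_KA (r : ℕ) : (0 : ℝ) < 2 ^ (r + 1) - 1 := by
  have h : (1 : ℝ) ≤ 2 ^ r := one_le_pow₀ (by norm_num)
  rw [pow_succ]; linarith

private lemma cr_succ_KA (r : ℕ) : cr (r + 1) = cr r * (2 / (2 ^ (r + 1) - 1)) := by
  unfold cr; rw [prod_range_succ]

private lemma cr_pos_KA (r : ℕ) : 0 < cr r := by
  unfold cr
  exact prod_pos fun j _ => div_pos (by norm_num) (den_pos_KA j)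

private lemma sqrt_two_le_KA : Real.sqrt 2 ≤ 3 / 2 := by
  rw [Real.sqrt_le_left (by norm_num)]; norm_num

private lemma one_le_sqrt_two_KA : 1 ≤ Real.sqrt 2 := by
  rw [Real.one_le_sqrt]; norm_num

private lemma summable_sqrt_KA : Summable (fun r => cr r * Real.sqrt 2 ^ r) := by
  refine summable_of_ratio_norm_eventually_le (r := 1 / 2) (by norm_num) ?_
  filter_upwards [Filter.eventually_ge_atTop 2] with n hn
  have hs : 0 < Real.sqrt 2 := by positivity
  have h0 : 0 < cr n * Real.sqrt 2 ^ n := mul_pos (cr_pos_KA n) (pow_pos hs n)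
  have h1 : 0 < cr (n + 1) * Real.sqrt 2 ^ (n + 1) :=
    mul_pos (cr_pos_KA _) (pow_pos hs _)
  rw [Real.norm_of_nonneg h0.le, Real.norm_of_nonneg h1.le, cr_succ_KA]
  have h2 : cr n * (2 / (2 ^ (n + 1) - 1)) * Real.sqrt 2 ^ (n + 1) =
      (2 * Real.sqrt 2 / (2 ^ (n + 1) - 1)) * (cr n * Real.sqrt 2 ^ n) := by
    rw [pow_succ (Real.sqrt 2)]; ring
  rw [h2]
  refine mul_le_mul_of_nonneg_right ?_ h0.le
  rw [div_le_iff₀ (den_pos_KA n)]
  have h3 : (2 : ℝ) ^ 3 ≤ 2 ^ (n + 1) := pow_le_pow_right₀ (by norm_num) (by omega)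
  have := sqrt_two_le_KA
  norm_num at h3
  linarith

private lemma summable_cr_KA : Summable cr := by
  refine Summable.of_nonneg_of_le (fun r => (cr_pos_KA r).le) (fun r => ?_) summable_sqrt_KA
  exact le_mul_of_one_le_right (cr_pos_KA r).le (one_le_pow₀ one_le_sqrt_two_KA)

private lemma tsum_pos_KA : 0 < ∑' s, cr s := by
  have h := summable_cr_KA.le_tsum 0 (fun j _ => (cr_pos_KA j).le)
  exact lt_of_lt_of_le (cr_pos_KA 0) h

/-- Module KA. -/
theorem gKA : StKA := by
  have hp := tsum_pos_KA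
  refine ⟨cr_pos_KA, summable_cr_KA, summable_sqrt_KA, fun r => div_pos (cr_pos_KA r) hp, ?_, ?_,
    ?_, ?_⟩
  · exact summable_cr_KA.div_const _
  · have h := summable_sqrt_KA.div_const (∑' s, cr s)
    refine h.congr fun r => ?_
    unfold pr; ring
  · have : ∑' r, pr r = (∑' r, cr r) / ∑' s, cr s := by
      unfold pr; rw [tsum_div_const]
    rw [this, div_self hp.ne']
  · intro r
    unfold pr
    rw [cr_succ_KA]
    have h1 := (den_pos_KA r).ne'
    have h2 : (1 : ℝ) - (1 / 2) ^ (r + 1) = (2 ^ (r + 1) - 1) / 2 ^ (r + 1) := by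
      rw [one_div, inv_pow, eq_div_iff (by positivity), sub_mul, inv_mul_cancel₀ (by positivity)]
      ring
    rw [h2, one_div, inv_pow]
    field_simp
    ring

end Pool.Agent.Helper54.GL
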