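import Pool.Agent.Helper54.GL.StM
import Pool.Agent.Helper3.GT.M_CTR

/-!
# GL, module M_CU: the primes where the whole Selmer group is locally trivial
-/

set_option autoImplicit false

namespace Pool.Agent.Helper54.GL

open Polynomial Finset Filter Topology
open Pool.Agent.Helper54.PT (Prm prm IsAbsP IsAbsInf mem_prm)
open Pool.Agent.Helper3.HY (fK RR LL kp red TwAt selmerSet TType)
open Pool.Agent.Helper3.GT (Gd Bd GdF HypF facs TyI TyT Rp ep om SelS MS XS dgS GeoSn EvP StOE StFAC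
  StSG StFIN StXH StIRR)
open Pool.Agent.Helper54.GT (Hyp0)
open Pool.Agent.Helper3.GT.CTR (Tr)

theorem z2_CU (x : ZMod 2) : x = 0 ∨ x = 1 := by
  revert x; decide

theorem epsq_CU (hOE : StOE) {F : Type} [Field F] [Fintype F] (h2 : (2 : F) ≠ 0) {g : ℕ}
    (hg : 1 ≤ g) {f : F[X][X]} (hm : f.Monic) (hd : f.natDegree = 2 * g + 1)
    (hsep : (fK f).Separable) [Fact (Irreducible (fK f))] {P : Prm F} (hP : Gd f P)
    {ψ : (kp P)[X]} (hψ : ψ ∈ facs f P) {z w : LL f} (hz : z ≠ 0) (hw : w ≠ 0) :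
    ep P ψ (z * w ^ 2) = ep P ψ z := by
  obtain ⟨h1, -⟩ := hOE F h2 g hg f hm hd hsep P hP
  rw [(h1 ψ hψ z (w ^ 2) hz (pow_ne_zero 2 hw)).2, sq, (h1 ψ hψ w w hw hw).2,
    CharTwo.add_self_eq_zero, add_zero]

theorem tr_CU (hOE : StOE) {F : Type} [Field F] [Fintype F] (h2 : (2 : F) ≠ 0) {g : ℕ}
    (hg : 1 ≤ g) {f : F[X][X]} (hm : f.Monic) (hd : f.natDegree = 2 * g + 1)
    (hsep : (fK f).Separable) [Fact (Irreducible (fK f))] {P : Prm F} (hP : Gd f P)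
    (S : Finset (Prm F)) (D : F[X]) {z : (LL f)ˣ} (hz : z ∈ SelS f S D) :
    Tr f S D P (QuotientGroup.mk z) ↔ ∀ ψ ∈ facs f P, ep P ψ (z : LL f) = 0 := by
  constructor
  · rintro ⟨z', ⟨hz', hep⟩, hzz⟩ ψ hψ
    rw [QuotientGroup.eq] at hzz
    obtain ⟨u, hu⟩ := hzz
    rw [powMonoidHom_apply] at hu
    have h5 : z = z' * u ^ 2 := by rw [hu, mul_inv_cancel_left]
    have h6 : (z : LL f) = (z' : LL f) * (u : LL f) ^ 2 := by
      rw [h5, Units.val_mul, Units.val_pow_eq_pow_val]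
    rw [h6, epsq_CU hOE h2 hg hm hd hsep hP hψ z'.ne_zero u.ne_zero]
    exact hep ψ hψ
  · intro h
    exact ⟨z, ⟨hz, h⟩, rfl⟩

/-- At a prime of type `T` all the components are equal. -/
theorem alt_CU (hOE : StOE) (hFAC : StFAC) {F : Type} [Field F] [Fintype F] (h2 : (2 : F) ≠ 0)
    {g : ℕ} (hg : 1 ≤ g) {f : F[X][X]} (hm : f.Monic) (hd : f.natDegree = 2 * g + 1)
    (hsep : (fK f).Separable) [Fact (Irreducible (fK f))] {P : Prm F} (hP : Gd f P)
    (hT : TyT g f P) {S : Finset (Prm F)} (hPS : P ∉ S) {D : F[X]} {z : (LL f)ˣ}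
    (hz : z ∈ SelS f S D) :
    (∀ ψ ∈ facs f P, ep P ψ (z : LL f) = 0) ∨ ∀ ψ ∈ facs f P, ep P ψ (z : LL f) = 1 := by
  classical
  obtain ⟨-, -, h3, -⟩ := hOE F h2 g hg f hm hd hsep P hP
  obtain ⟨-, -, -, -, -, -, h4⟩ := hFAC F h2 g hg f hm hd P hP
  have h5 : ¬ Bd f P := by
    intro h
    exact hP ((dvd_pow_self P.1 two_ne_zero).trans h)
  have h6 := (h3 (z : LL f) z.ne_zero hz.1).2 (hz.2.1 P hPS h5)
  obtain ⟨ψ₁, ψ₂, hne, h7⟩ := Finset.card_eq_two.1 (h4 hT)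
  rw [h7, Finset.sum_pair hne] at h6
  rw [h7]
  rcases z2_CU (ep P ψ₁ (z : LL f)) with h8 | h8
  · left
    rw [h8, zero_add] at h6
    intro ψ hψ
    rcases Finset.mem_insert.1 hψ with h | h
    · rw [h]; exact h8
    · rw [Finset.mem_singleton.1 h]; exact h6
  · right
    have h9 : ep P ψ₂ (z : LL f) = 1 := by
      rcases z2_CU (ep P ψ₂ (z : LL f)) with h | h
      · rw [h8, h] at h6
        exact absurd h6 (by decide)
      · exact h
    intro ψ hψ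
    rcases Finset.mem_insert.1 hψ with h | h
    · rw [h]; exact h8
    · rw [Finset.mem_singleton.1 h]; exact h9

open Classical in
/-- At least half of the classes are trivial at a prime of type `T`. -/
theorem sumnn_CU (hOE : StOE) (hFAC : StFAC) (hSG : StSG) {F : Type} [Field F] [Fintype F]
    (h2 : (2 : F) ≠ 0)
    {g : ℕ} (hg : 1 ≤ g) {f : F[X][X]} (hm : f.Monic) (hd : f.natDegree = 2 * g + 1)
    (hsep : (fK f).Separable) [Fact (Irreducible (fK f))] {P : Prm F} (hP : Gd f P)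
    (hT : TyT g f P) {S : Finset (Prm F)} (hPS : P ∉ S) {D : F[X]}
    (V : Finset ((LL f)ˣ ⧸ (powMonoidHom 2 : (LL f)ˣ →* (LL f)ˣ).range))
    (hV : (V : Set ((LL f)ˣ ⧸ (powMonoidHom 2 : (LL f)ˣ →* (LL f)ˣ).range)) =
      (QuotientGroup.mk : (LL f)ˣ → (LL f)ˣ ⧸ (powMonoidHom 2 : (LL f)ˣ →* (LL f)ˣ).range) ''
        SelS f S D) :
    0 ≤ ∑ κ ∈ V, (if Tr f S D P κ then (1 : ℝ) else -1) := by
  have hmem : ∀ κ, κ ∈ V ↔ ∃ z ∈ SelS f S D, (QuotientGroup.mk z :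
      (LL f)ˣ ⧸ (powMonoidHom 2 : (LL f)ˣ →* (LL f)ˣ).range) = κ := by
    intro κ
    rw [← Finset.mem_coe, hV]
    rfl
  have h1 : (V.filter fun κ => ¬ Tr f S D P κ).card ≤ (V.filter fun κ => Tr f S D P κ).card := by
    rcases (V.filter fun κ => ¬ Tr f S D P κ).eq_empty_or_nonempty with h | ⟨κ₀, hκ₀⟩
    · rw [h, Finset.card_empty]
      exact Nat.zero_le _
    · rw [Finset.mem_filter, hmem] at hκ₀
      obtain ⟨⟨z₀, hz₀, rfl⟩, hn₀⟩ := hκ₀
      rw [tr_CU hOE h2 hg hm hd hsep hP S D hz₀] at hn₀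
      have h3 := (alt_CU hOE hFAC h2 hg hm hd hsep hP hT hPS hz₀).resolve_left hn₀
      obtain ⟨H, hH, -⟩ := hSG F f hm S D
      have hmul : ∀ z w : (LL f)ˣ, z ∈ SelS f S D → w ∈ SelS f S D → z * w ∈ SelS f S D := by
        intro z w hz hw
        rw [← hH] at hz hw ⊢
        exact H.mul_mem hz hw
      refine Finset.card_le_card_of_injOn (fun κ => κ * QuotientGroup.mk z₀) ?_ ?_
      · intro κ hκ
        rw [Finset.mem_coe, Finset.mem_filter, hmem] at hκ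
        obtain ⟨⟨z, hz, rfl⟩, hn⟩ := hκ
        rw [tr_CU hOE h2 hg hm hd hsep hP S D hz] at hn
        have h4 := (alt_CU hOE hFAC h2 hg hm hd hsep hP hT hPS hz).resolve_left hn
        have h5 := hmul z z₀ hz hz₀
        rw [Finset.mem_coe, Finset.mem_filter, hmem]
        refine ⟨⟨z * z₀, h5, rfl⟩, ?_⟩
        show Tr f S D P (QuotientGroup.mk (z * z₀))
        rw [tr_CU hOE h2 hg hm hd hsep hP S D h5]
        intro ψ hψ
        obtain ⟨h6, -⟩ := hOE F h2 g hg f hm hd hsep P hP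
        rw [Units.val_mul, (h6 ψ hψ _ _ z.ne_zero z₀.ne_zero).2, h4 ψ hψ, h3 ψ hψ]
        decide
      · intro κ _ κ' _ h
        have h' : κ * QuotientGroup.mk z₀ * (QuotientGroup.mk z₀)⁻¹ =
            κ' * QuotientGroup.mk z₀ * (QuotientGroup.mk z₀)⁻¹ := congrArg (· * _) h
        rwa [mul_inv_cancel_right, mul_inv_cancel_right] at h'
  rw [← Finset.sum_filter_add_sum_filter_not V (fun κ => Tr f S D P κ),
    Finset.sum_congr rfl (fun κ hκ => if_pos (Finset.mem_filter.1 hκ).2),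
    Finset.sum_congr (s₁ := V.filter fun κ => ¬ Tr f S D P κ) rfl
      (fun κ hκ => if_neg (Finset.mem_filter.1 hκ).2),
    Finset.sum_const, Finset.sum_const, nsmul_eq_mul, nsmul_eq_mul]
  have h2 : ((V.filter fun κ => ¬ Tr f S D P κ).card : ℝ) ≤
      (V.filter fun κ => Tr f S D P κ).card := by exact_mod_cast h1
  linarith

open Classical in
/-- The character of a class in terms of a representative. -/
theorem chA_CU (hOE : StOE) {F : Type} [Field F] [Fintype F] (h2 : (2 : F) ≠ 0) {g : ℕ}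
    (hg : 1 ≤ g) {f : F[X][X]} (hm : f.Monic) (hd : f.natDegree = 2 * g + 1)
    (hsep : (fK f).Separable) [Fact (Irreducible (fK f))] {P : Prm F} (hP : Gd f P)
    (S : Finset (Prm F)) (D : F[X]) {z : (LL f)ˣ} (hz : z ∈ SelS f S D) {β : LL f} (hβ : β ≠ 0)
    {a : F[X][X]} (ha : (z : LL f) * β ^ 2 = algebraMap (RR f) (LL f) (AdjoinRoot.mk f a))
    (hres : ∀ ψ ∈ facs f P, AdjoinRoot.mk ψ (a.map (red P)) ≠ 0) :
    (if Tr f S D P (QuotientGroup.mk z) then (1 : ℝ) else -1) = chA f a P := by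
  unfold chA
  have h1 : Tr f S D P (QuotientGroup.mk z) ↔
      ∀ ψ ∈ facs f P, IsSquare (AdjoinRoot.mk ψ (a.map (red P))) := by
    rw [tr_CU hOE h2 hg hm hd hsep hP S D hz]
    refine forall_congr' fun ψ => forall_congr' fun hψ => ?_
    obtain ⟨-, -, -, h4⟩ := hOE F h2 g hg f hm hd hsep P hP
    rw [← (h4 ψ hψ a (hres ψ hψ)).2, ← ha, epsq_CU hOE h2 hg hm hd hsep hP hψ z.ne_zero hβ]
  by_cases h : Tr f S D P (QuotientGroup.mk z)
  · rw [if_pos h, if_pos (h1.1 h)]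
  · rw [if_neg h, if_neg (fun h' => h (h1.2 h'))]

theorem abs_chD_CU {F : Type} [Field F] (d : F[X]) (P : Prm F) : |chD d P| = 1 := by
  unfold chD
  split_ifs <;> simp

theorem abs_chA_CU {F : Type} [Field F] (f a : F[X][X]) (P : Prm F) : |chA f a P| = 1 := by
  unfold chA
  split_ifs <;> simp

open Classical in
/-- The character sums over the primes of type `T` which are not in `S`. -/
theorem sig_CU (hCST : StCST) (hBBF : StBBF) (hFIN : StFIN) (hOE : StOE) (hFAC : StFAC)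
    (hIRR : StIRR) (F : Type) [Field F] [Fintype F] (h2 : (2 : F) ≠ 0) (ι : Type) [Fintype ι]
    [Nonempty ι] (g : ι → ℕ) (f : ι → F[X][X]) (hf : HypF g f) (i : ι)
    [Fact (Irreducible (fK (f i)))] :
    ∃ C₀ : ℝ, 0 ≤ C₀ ∧ ∀ (S : Finset (Prm F)) (D : F[X]) (k : ℕ), 1 ≤ k → (∀ P ∈ S, GdF f P) →
      ∀ z ∈ SelS (f i) S D, ∀ W : Finset (Prm F), W ⊆ S ∪ BB f →
        ((QuotientGroup.mk z : (LL (f i))ˣ ⧸
          (powMonoidHom 2 : (LL (f i))ˣ →* (LL (f i))ˣ).range) = 1 → W.Nonempty) →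
        |k * ∑ P ∈ (GTs g f i k).filter (fun P => P ∉ S),
          (if Tr (f i) S D P (QuotientGroup.mk z) then (1 : ℝ) else -1) * chD (∏ v ∈ W, v.1) P| ≤
            C₀ * (dgS S + 1) * Real.sqrt (Fintype.card F) ^ k := by
  obtain ⟨-, hsep, -, hdisc⟩ := hIRR F h2 ι g f hf i
  obtain ⟨C1, hC1⟩ := hFIN F (f i) (hf.monic i) hsep hdisc
  obtain ⟨C2, hC2, hcst⟩ := hCST F h2 ι g f hf i
  obtain ⟨B, hB⟩ := Pool.Agent.Helper3.GT.CTR.card_bad (f i)
  obtain ⟨hB1, hB2, hB3⟩ := hBBF F h2 ι g f hf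
  have hq1 : (1 : ℝ) ≤ Real.sqrt (Fintype.card F) := by
    rw [Real.one_le_sqrt]
    exact_mod_cast Fintype.card_pos
  set b : ℝ := (dgS (BB f) : ℝ) with hb
  have hb0 : 0 ≤ b := Nat.cast_nonneg _
  refine ⟨C2 * (C1 + b + 2) + B * (C1 + 1) + 1, by positivity, ?_⟩
  intro S D k hk hS z hz W hW hne
  obtain ⟨hd1, hd2, hd3, hd4, hd5, hd6⟩ := hB3 S W hS hW
  set d : F[X] := ∏ v ∈ W, v.1 with hd
  obtain ⟨β, a, hβ, hRp, ha⟩ := (hC1 S D).2 z hz
  set c : ℕ := C1 * (dgS S + 1) with hc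
  have ha0 : a ≠ 0 := by
    rintro rfl
    rw [map_zero, map_zero] at ha
    exact mul_ne_zero z.ne_zero (pow_ne_zero 2 hβ) ha
  have hnorm : IsSquare (Algebra.norm (RatFunc F) (algebraMap (RR (f i)) (LL (f i))
      (AdjoinRoot.mk (f i) a))) := by
    rw [← ha, map_mul, map_pow]
    exact hz.1.mul (IsSquare.sq _)
  have hdne : IsSquare (algebraMap (RR (f i)) (LL (f i)) (AdjoinRoot.mk (f i) a)) → d ≠ 1 := by
    rintro ⟨y, hy⟩
    apply hd3
    apply hne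
    rw [← ha] at hy
    have h1 : (z : LL (f i)) = (y / β) ^ 2 := by
      field_simp
      rw [hy, sq]
    have h2 : y / β ≠ 0 := by
      intro h
      rw [h] at h1
      exact z.ne_zero (h1.trans (by ring))
    rw [QuotientGroup.eq_one_iff]
    refine ⟨Units.mk0 (y / β) h2, ?_⟩
    apply Units.ext
    rw [powMonoidHom_apply, Units.val_pow_eq_pow_val, Units.val_mk0, ← h1]
  have hmain := hcst c a d hRp ha0 hnorm hd1 hd2 hd4 hdne k hk
  set G := (GTs g f i k).filter (fun P => P ∉ S) with hG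
  set Ga := GTa g f i a d k with hGa
  have hmemT : ∀ P, P ∈ GTs g f i k ↔ P ∈ prm F k ∧ GdF f P ∧ TyT (g i) (f i) P ∧
      ∀ j, j ≠ i → TyI (f j) P := by
    intro P
    simp only [GTs, Finset.mem_filter]
  have hmemGa : ∀ P, P ∈ Ga ↔ P ∈ GTs g f i k ∧ ¬ P.1 ∣ d ∧
      ∀ ψ ∈ facs (f i) P, AdjoinRoot.mk ψ (a.map (red P)) ≠ 0 := by
    intro P
    simp only [hGa, GTa, Finset.mem_filter]
  have hmemG : ∀ P, P ∈ G ↔ P ∈ GTs g f i k ∧ P ∉ S := by
    intro P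
    rw [hG, Finset.mem_filter]
  -- the two sums
  set u : Prm F → ℝ := fun P =>
    (if Tr (f i) S D P (QuotientGroup.mk z) then (1 : ℝ) else -1) * chD d P with hu
  set v : Prm F → ℝ := fun P => chA (f i) a P * chD d P with hv
  have huv : ∀ P ∈ G ∩ Ga, u P = v P := by
    intro P hP
    rw [Finset.mem_inter] at hP
    obtain ⟨-, h4, -, -⟩ := (hmemT P).1 ((hmemG P).1 hP.1).1
    have h5 := ((hmemGa P).1 hP.2).2.2
    simp only [hu, hv]
    rw [chA_CU hOE h2 (hf.one_le i) (hf.monic i) (hf.deg i) hsep (h4 i) S D hz hβ ha h5]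
  have hu1 : ∀ P, |u P| = 1 := by
    intro P
    simp only [hu]
    rw [abs_mul, abs_chD_CU, mul_one]
    split_ifs <;> simp
  have hv1 : ∀ P, |v P| = 1 := by
    intro P
    simp only [hv]
    rw [abs_mul, abs_chD_CU, abs_chA_CU, mul_one]
  have h3 : ∑ P ∈ G, u P = ∑ P ∈ Ga, v P + ∑ P ∈ G \ Ga, u P - ∑ P ∈ Ga \ G, v P := by
    have e1 : ∑ P ∈ G, u P = ∑ P ∈ G ∩ Ga, u P + ∑ P ∈ G \ Ga, u P :=
      (Finset.sum_inter_add_sum_sdiff G Ga u).symm
    have e2 : ∑ P ∈ Ga, v P = ∑ P ∈ Ga ∩ G, v P + ∑ P ∈ Ga \ G, v P :=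
      (Finset.sum_inter_add_sum_sdiff Ga G v).symm
    rw [Finset.inter_comm] at e2
    rw [e1, e2, Finset.sum_congr rfl huv]
    ring
  have h4 : (k : ℝ) * |∑ P ∈ G \ Ga, u P| ≤ B * (c + 1) := by
    have h5 : |∑ P ∈ G \ Ga, u P| ≤ ((G \ Ga).card : ℝ) := by
      refine (Finset.abs_sum_le_sum_abs _ _).trans ?_
      rw [Finset.sum_congr rfl fun P _ => hu1 P, Finset.sum_const, nsmul_eq_mul, mul_one]
    have h6 : k * (G \ Ga).card ≤ B * (c + 1) := by
      refine hB c a hRp ha0 k _ fun P hP => ?_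
      rw [Finset.mem_sdiff, hmemG, hmemGa] at hP
      obtain ⟨⟨hP1, hP2⟩, hP3⟩ := hP
      obtain ⟨h7, h8, -, -⟩ := (hmemT P).1 hP1
      refine ⟨mem_prm.1 h7, ?_⟩
      have h9 : ¬ P.1 ∣ d := by
        intro h
        rcases Finset.mem_union.1 (hW (hd6 P h)) with h10 | h10
        · exact hP2 h10
        · exact hB2 P h8 h10
      have h10 : ∃ ψ ∈ facs (f i) P, AdjoinRoot.mk ψ (a.map (red P)) = 0 := by
        by_contra hcon
        push Not at hcon
        exact hP3 ⟨hP1, h9, hcon⟩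
      obtain ⟨ψ, hψ, hψ0⟩ := h10
      have h11 := ((hFAC F h2 (g i) (hf.one_le i) (f i) (hf.monic i) (hf.deg i) P (h8 i)).1 ψ).1 hψ
      exact ⟨ψ, h11.2.2, h11.2.1.not_isUnit, hψ0⟩
    have h7 : ((k * (G \ Ga).card : ℕ) : ℝ) ≤ ((B * (c + 1) : ℕ) : ℝ) := by exact_mod_cast h6
    push_cast at h7
    exact (mul_le_mul_of_nonneg_left h5 (Nat.cast_nonneg k)).trans h7
  have h5 : (k : ℝ) * |∑ P ∈ Ga \ G, v P| ≤ dgS S := by
    have h5 : |∑ P ∈ Ga \ G, v P| ≤ ((Ga \ G).card : ℝ) := by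
      refine (Finset.abs_sum_le_sum_abs _ _).trans ?_
      rw [Finset.sum_congr rfl fun P _ => hv1 P, Finset.sum_const, nsmul_eq_mul, mul_one]
    have h6 : k * (Ga \ G).card ≤ dgS S := by
      have h7 : ∀ P ∈ Ga \ G, P ∈ S ∧ P.1.natDegree = k := by
        intro P hP
        rw [Finset.mem_sdiff, hmemG, hmemGa] at hP
        obtain ⟨⟨hP1, -⟩, hP3⟩ := hP
        refine ⟨?_, mem_prm.1 ((hmemT P).1 hP1).1⟩
        by_contra h
        exact hP3 ⟨hP1, h⟩
      calc k * (Ga \ G).card = ∑ P ∈ Ga \ G, P.1.natDegree := by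
            rw [Finset.sum_congr rfl fun P hP => (h7 P hP).2, Finset.sum_const, smul_eq_mul,
              mul_comm]
        _ ≤ ∑ P ∈ S, P.1.natDegree :=
            Finset.sum_le_sum_of_subset fun P hP => (h7 P hP).1
    have h7 : ((k * (Ga \ G).card : ℕ) : ℝ) ≤ ((dgS S : ℕ) : ℝ) := by exact_mod_cast h6
    push_cast at h7
    exact (mul_le_mul_of_nonneg_left h5 (Nat.cast_nonneg k)).trans h7
  have h6 : |(k : ℝ) * ∑ P ∈ G, u P| ≤ |(k : ℝ) * ∑ P ∈ Ga, v P| +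
      (k : ℝ) * |∑ P ∈ G \ Ga, u P| + (k : ℝ) * |∑ P ∈ Ga \ G, v P| := by
    rw [h3]
    have e3 : (k : ℝ) * (∑ P ∈ Ga, v P + ∑ P ∈ G \ Ga, u P - ∑ P ∈ Ga \ G, v P) =
        k * ∑ P ∈ Ga, v P + k * ∑ P ∈ G \ Ga, u P - k * ∑ P ∈ Ga \ G, v P := by ring
    rw [e3]
    refine (abs_sub _ _).trans (add_le_add ((abs_add_le _ _).trans (add_le_add le_rfl ?_)) ?_)
    · rw [abs_mul, Nat.abs_cast]
    · rw [abs_mul, Nat.abs_cast]
  refine h6.trans ?_
  have hs : (1 : ℝ) ≤ Real.sqrt (Fintype.card F) ^ k := one_le_pow₀ hq1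
  have hcR : (c : ℝ) = C1 * (dgS S + 1) := by
    rw [hc]
    push_cast
    ring
  have hdR : (d.natDegree : ℝ) ≤ dgS S + b := by
    rw [hb]
    exact_mod_cast hd5
  have hSn : (0 : ℝ) ≤ dgS S := Nat.cast_nonneg _
  have e1 : C2 * ((c : ℝ) + d.natDegree + 1) ≤ C2 * (C1 + b + 2) * (dgS S + 1) := by
    rw [mul_assoc]
    refine mul_le_mul_of_nonneg_left ?_ hC2
    rw [hcR]
    nlinarith
  have e2 : (B : ℝ) * (c + 1) ≤ B * (C1 + 1) * (dgS S + 1) := by
    rw [mul_assoc]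
    refine mul_le_mul_of_nonneg_left ?_ (Nat.cast_nonneg _)
    rw [hcR]
    nlinarith
  have e4 : |(k : ℝ) * ∑ P ∈ Ga, v P| ≤ C2 * (C1 + b + 2) * (dgS S + 1) *
      Real.sqrt (Fintype.card F) ^ k :=
    hmain.trans (mul_le_mul_of_nonneg_right e1 (by positivity))
  have e5 : (B : ℝ) * (C1 + 1) * (dgS S + 1) ≤ B * (C1 + 1) * (dgS S + 1) *
      Real.sqrt (Fintype.card F) ^ k := le_mul_of_one_le_right (by positivity) hs
  have e6 : (dgS S : ℝ) ≤ 1 * (dgS S + 1) * Real.sqrt (Fintype.card F) ^ k := by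
    have : (dgS S : ℝ) ≤ 1 * (dgS S + 1) := by linarith
    exact this.trans (le_mul_of_one_le_right (by positivity) hs)
  calc _ ≤ C2 * (C1 + b + 2) * (dgS S + 1) * Real.sqrt (Fintype.card F) ^ k +
        B * (C1 + 1) * (dgS S + 1) * Real.sqrt (Fintype.card F) ^ k +
        1 * (dgS S + 1) * Real.sqrt (Fintype.card F) ^ k :=
        add_le_add (add_le_add e4 (h4.trans (e2.trans e5))) (h5.trans e6)
    _ = _ := by ring

/-- An averaging inequality. -/
theorem avg_CU {α β : Type} (G T : Finset α) (V : Finset β) (hTG : T ⊆ G) (χ : α → β → ℝ)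
    (hT : ∀ P ∈ T, ∑ κ ∈ V, χ P κ = V.card) (hG : ∀ P ∈ G, 0 ≤ ∑ κ ∈ V, χ P κ) (w : α → ℝ)
    (hw : ∀ P ∈ G, 0 ≤ w P) :
    V.card * ∑ P ∈ T, w P ≤ ∑ κ ∈ V, ∑ P ∈ G, χ P κ * w P := by
  rw [Finset.sum_comm]
  calc (V.card : ℝ) * ∑ P ∈ T, w P = ∑ P ∈ T, (∑ κ ∈ V, χ P κ) * w P := by
        rw [Finset.mul_sum]
        exact Finset.sum_congr rfl fun P hP => by rw [hT P hP]
    _ ≤ ∑ P ∈ G, (∑ κ ∈ V, χ P κ) * w P :=
        Finset.sum_le_sum_of_subset_of_nonneg hTG fun P hP _ => mul_nonneg (hG P hP) (hw P hP)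
    _ = _ := Finset.sum_congr rfl fun P _ => Finset.sum_mul _ _ _

theorem div_CU (v x y c : ℝ) (hv : 0 < v) (h : v * y ≤ x + v * c) : y ≤ x / v + c := by
  rw [← mul_le_mul_iff_of_pos_left hv]
  refine h.trans (le_of_eq ?_)
  field_simp

theorem chD_one_CU {F : Type} [Field F] (P : Prm F) : chD 1 P = 1 := by
  unfold chD
  rw [map_one, if_pos (IsSquare.one)]

open Classical in
/-- (CU) -/
theorem gCU (hCST : StCST) (hEXPN : StEXPN) (hBBF : StBBF) (hCNI : StCNI) (hFIN : StFIN)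
    (hSG : StSG) (hOE : StOE) (hFAC : StFAC) (hXH : StXH) (hIRR : StIRR) : StCU := by
  intro F _ _ h2 ι _ _ g f hf i
  obtain ⟨hirr, hsep, -, hdisc⟩ := hIRR F h2 ι g f hf i
  have hfact : Fact (Irreducible (fK (f i))) := ⟨hirr⟩
  obtain ⟨C1, hC1, hcni⟩ := hCNI F h2 ι g f ⟨hf.one_le, hf.monic, hf.deg, hf.geo⟩
  obtain ⟨C2, hC2, hsig⟩ := sig_CU hCST hBBF hFIN hOE hFAC hIRR F h2 ι g f hf i
  obtain ⟨hB1, hB2, hB3⟩ := hBBF F h2 ι g f hf
  refine ⟨C1 + 2 ^ (BB f).card * C2, by positivity, ?_⟩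
  intro S U Δ D k hk hS hU hΔ
  have hfin := (hFIN F (f i) (hf.monic i) hsep hdisc).choose_spec S D
  obtain ⟨V, hV⟩ : ∃ V : Finset ((LL (f i))ˣ ⧸ (powMonoidHom 2 : (LL (f i))ˣ →* (LL (f i))ˣ).range),
      (V : Set ((LL (f i))ˣ ⧸ (powMonoidHom 2 : (LL (f i))ˣ →* (LL (f i))ˣ).range)) =
      (QuotientGroup.mk : (LL (f i))ˣ → (LL (f i))ˣ ⧸
        (powMonoidHom 2 : (LL (f i))ˣ →* (LL (f i))ˣ).range) '' SelS (f i) S D :=
    ⟨hfin.1.toFinset, Set.Finite.coe_toFinset _⟩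
  have hmemV : ∀ κ, κ ∈ V ↔ ∃ z ∈ SelS (f i) S D, (QuotientGroup.mk z :
      (LL (f i))ˣ ⧸ (powMonoidHom 2 : (LL (f i))ˣ →* (LL (f i))ˣ).range) = κ := by
    intro κ
    rw [← Finset.mem_coe, hV]
    rfl
  have hM : MS (f i) S D = V.card := by
    rw [MS, ← hV, Set.ncard_coe_finset]
  obtain ⟨H, hH, -⟩ := hSG F (f i) (hf.monic i) S D
  have h1S : (1 : (LL (f i))ˣ) ∈ SelS (f i) S D := by
    rw [← hH]
    exact H.one_mem
  have h1V : (1 : (LL (f i))ˣ ⧸ (powMonoidHom 2 : (LL (f i))ˣ →* (LL (f i))ˣ).range) ∈ V :=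
    (hmemV _).2 ⟨1, h1S, rfl⟩
  have hMpos : 1 ≤ V.card := Finset.card_pos.2 ⟨_, h1V⟩
  have hMR : (1 : ℝ) ≤ V.card := by exact_mod_cast hMpos
  set q : ℝ := (Fintype.card F : ℝ) with hq
  have hq1 : (1 : ℝ) ≤ Real.sqrt q := by
    rw [Real.one_le_sqrt, hq]
    exact_mod_cast Fintype.card_pos
  have hs : (1 : ℝ) ≤ Real.sqrt q ^ k := one_le_pow₀ hq1
  set G := (GTs g f i k).filter (fun P => P ∉ S) with hG
  have hmemT : ∀ P, P ∈ GTs g f i k ↔ P ∈ prm F k ∧ GdF f P ∧ TyT (g i) (f i) P ∧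
      ∀ j, j ≠ i → TyI (f j) P := by
    intro P
    simp only [GTs, Finset.mem_filter]
  have hmemG : ∀ P, P ∈ G ↔ P ∈ GTs g f i k ∧ P ∉ S := by
    intro P
    rw [hG, Finset.mem_filter]
  obtain ⟨T, hT⟩ : ∃ T : Finset (Prm F), ∀ P, P ∈ T ↔ P ∈ G ∧ ∀ κ ∈ V, Tr (f i) S D P κ :=
    ⟨G.filter fun P => ∀ κ ∈ V, Tr (f i) S D P κ, fun P => Finset.mem_filter⟩
  have hTG : T ⊆ G := fun P hP => ((hT P).1 hP).1
  obtain ⟨χ, hχ⟩ : ∃ χ : Prm F →
      ((LL (f i))ˣ ⧸ (powMonoidHom 2 : (LL (f i))ˣ →* (LL (f i))ˣ).range) → ℝ, ∀ P κ, χ P κ =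
      if Tr (f i) S D P κ then (1 : ℝ) else -1 := ⟨_, fun P κ => rfl⟩
  have hχT : ∀ P ∈ T, ∑ κ ∈ V, χ P κ = V.card := by
    intro P hP
    rw [Finset.sum_congr rfl (fun κ hκ => (hχ P κ).trans (if_pos (((hT P).1 hP).2 κ hκ))),
      Finset.sum_const, nsmul_eq_mul, mul_one]
  have hχG : ∀ P ∈ G, 0 ≤ ∑ κ ∈ V, χ P κ := by
    intro P hP
    obtain ⟨h3, h4⟩ := (hmemG P).1 hP
    obtain ⟨-, h5, h6, -⟩ := (hmemT P).1 h3
    rw [Finset.sum_congr rfl (fun κ _ => hχ P κ)]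
    exact sumnn_CU hOE hFAC hSG h2 (hf.one_le i) (hf.monic i) (hf.deg i) hsep (h5 i) h6 h4 V hV
  have hχ1 : ∀ P κ, χ P κ ≤ 1 := by
    intro P κ
    rw [hχ]
    split_ifs <;> norm_num
  -- the bound for the trivial class
  set X : ℝ := kTc g i * q ^ k + C1 * Real.sqrt q ^ k with hX
  have hX0 : (k : ℝ) * (G.card : ℝ) ≤ X := by
    have h3 := (abs_le.1 ((hcni k hk).2 i)).2
    have h4 : (G.card : ℝ) ≤ ((GTs g f i k).card : ℝ) := by
      exact_mod_cast Finset.card_le_card (Finset.filter_subset _ _)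
    have h5 := mul_le_mul_of_nonneg_left h4 (Nat.cast_nonneg (α := ℝ) k)
    rw [hX]
    linarith
  set E : ℝ := C2 * (dgS S + 1) * Real.sqrt q ^ k with hE
  have hE0 : 0 ≤ E := by positivity
  -- one term
  have hterm : ∀ κ ∈ V, ∀ W ∈ (S ∪ BB f).powerset, ∀ cW : ℝ, |cW| ≤ 1 → (W = ∅ → cW = 1) →
      cW * (k * ∑ P ∈ G, χ P κ * chD (∏ v ∈ W, v.1) P) ≤
        (if κ = 1 ∧ W = ∅ then X else 0) + E := by
    intro κ hκ W hW cW hc hc1
    by_cases h : κ = 1 ∧ W = ∅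
    · rw [if_pos h]
      obtain ⟨rfl, rfl⟩ := h
      rw [hc1 rfl, one_mul, Finset.prod_empty]
      have h3 : ∑ P ∈ G, χ P 1 * chD 1 P ≤ (G.card : ℝ) := by
        rw [Finset.sum_congr rfl (fun P _ => by rw [chD_one_CU, mul_one])]
        refine (Finset.sum_le_card_nsmul _ _ 1 fun P _ => hχ1 P 1).trans ?_
        rw [nsmul_eq_mul, mul_one]
      have h4 := mul_le_mul_of_nonneg_left h3 (Nat.cast_nonneg (α := ℝ) k)
      linarith
    · rw [if_neg h, zero_add]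
      obtain ⟨z, hz, rfl⟩ := (hmemV κ).1 hκ
      have h3 := hsig S D k hk hS z hz W (Finset.mem_powerset.1 hW) (fun h4 => by
        rw [Finset.nonempty_iff_ne_empty]
        intro h5
        exact h ⟨h4, h5⟩)
      rw [Finset.sum_congr rfl (fun P _ => by rw [← hχ])] at h3
      refine (le_abs_self _).trans ?_
      rw [abs_mul]
      calc |cW| * |(k : ℝ) * ∑ P ∈ G, χ P (QuotientGroup.mk z) * chD (∏ v ∈ W, v.1) P| ≤ 1 * E :=
            mul_le_mul hc h3 (abs_nonneg _) zero_le_one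
        _ = E := one_mul _
  have hMX : X / V.card ≤ kTc g i * q ^ k / V.card + C1 * Real.sqrt q ^ k := by
    rw [hX, add_div]
    have : C1 * Real.sqrt q ^ k / V.card ≤ C1 * Real.sqrt q ^ k :=
      div_le_self (by positivity) hMR
    linarith
  have hSn : (0 : ℝ) ≤ dgS S := Nat.cast_nonneg _
  have hC1s : C1 * Real.sqrt q ^ k ≤ C1 * (dgS S + 1) * Real.sqrt q ^ k := by
    refine mul_le_mul_of_nonneg_right ?_ (by positivity)
    exact le_mul_of_one_le_right hC1 (by linarith)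
  refine ⟨T, fun P hP => ((hmemG P).1 (hTG hP)).1, ?_, ?_, ?_⟩
  · intro P hP hPS hPT
    obtain ⟨-, h5, h6, -⟩ := (hmemT P).1 hP
    have h3 : ¬ ∀ κ ∈ V, Tr (f i) S D P κ := fun h => hPT ((hT P).2 ⟨(hmemG P).2 ⟨hP, hPS⟩, h⟩)
    push Not at h3
    obtain ⟨κ, hκ, hκ'⟩ := h3
    obtain ⟨z, hz, rfl⟩ := (hmemV κ).1 hκ
    rw [tr_CU hOE h2 (hf.one_le i) (hf.monic i) (hf.deg i) hsep (h5 i) S D hz] at hκ'
    push Not at hκ'
    obtain ⟨ψ, hψ, h7⟩ := hκ'
    exact (hXH F h2 (g i) (hf.one_le i) (f i) (hf.monic i) (hf.deg i) hsep hdisc P (h5 i) S D).2.2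
      ⟨z, hz, ψ, hψ, h7⟩
  · -- first count
    have h3 := avg_CU G T V hTG χ hχT hχG (fun _ => 1) (fun _ _ => zero_le_one)
    rw [Finset.sum_const, nsmul_eq_mul, mul_one] at h3
    have h4 : (k : ℝ) * ∑ κ ∈ V, ∑ P ∈ G, χ P κ * 1 ≤ X + V.card * E := by
      rw [Finset.mul_sum]
      calc ∑ κ ∈ V, (k : ℝ) * ∑ P ∈ G, χ P κ * 1 ≤ ∑ κ ∈ V, ((if κ = 1 then X else 0) + E) := by
            refine Finset.sum_le_sum fun κ hκ => ?_
            have h5 := hterm κ hκ ∅ (Finset.empty_mem_powerset _) 1 (by simp) (fun _ => rfl)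
            rw [one_mul, Finset.prod_empty] at h5
            rw [Finset.sum_congr rfl (fun P _ => by rw [chD_one_CU])] at h5
            simpa using h5
        _ = X + V.card * E := by
            rw [Finset.sum_add_distrib, Finset.sum_ite_eq' V 1 (fun _ => X), if_pos h1V,
              Finset.sum_const, nsmul_eq_mul]
    have h5 : (V.card : ℝ) * (k * T.card) ≤ X + V.card * E := by
      calc (V.card : ℝ) * (k * T.card) = k * (V.card * T.card) := by ring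
        _ ≤ k * ∑ κ ∈ V, ∑ P ∈ G, χ P κ * 1 := mul_le_mul_of_nonneg_left h3 (Nat.cast_nonneg _)
        _ ≤ _ := h4
    have hVpos : (0 : ℝ) < V.card := by linarith
    have h6 : (k : ℝ) * T.card ≤ X / V.card + E := div_CU _ _ _ _ hVpos h5
    rw [hM]
    refine h6.trans ?_
    have h2b : (1 : ℝ) ≤ 2 ^ (BB f).card := one_le_pow₀ (by norm_num)
    have h7 : E ≤ 2 ^ (BB f).card * C2 * (dgS S + 1) * Real.sqrt q ^ k := by
      rw [hE]
      refine mul_le_mul_of_nonneg_right (mul_le_mul_of_nonneg_right ?_ (by positivity))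
        (by positivity)
      exact le_mul_of_one_le_left hC2 h2b
    calc X / V.card + E ≤ (kTc g i * q ^ k / V.card + C1 * (dgS S + 1) * Real.sqrt q ^ k) +
          2 ^ (BB f).card * C2 * (dgS S + 1) * Real.sqrt q ^ k :=
          add_le_add (hMX.trans (add_le_add le_rfl hC1s)) h7
      _ = _ := by ring
  · -- second count
    have hdisj : Disjoint S (BB f) := by
      rw [Finset.disjoint_left]
      intro P hP
      exact hB2 P (hS P hP)
    obtain ⟨c, hc1, hc0, hcW⟩ := hEXPN F h2 (BB f) S U Δ k hdisj hU hΔ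
    set w : Prm F → ℝ := fun P => 2 ^ S.card * 2 ^ (BB f).card *
      (if UU (insert P S) ∩ S = U ∧ DD (BB f) (insert P S) = Δ then 1 else 0) with hw
    have hw0 : ∀ P ∈ G, 0 ≤ w P := by
      intro P _
      simp only [hw]
      split_ifs <;> positivity
    have hwG : ∀ P ∈ G, w P = ∑ W ∈ (S ∪ BB f).powerset, c W * chD (∏ v ∈ W, v.1) P := by
      intro P hP
      obtain ⟨h3, h4⟩ := (hmemG P).1 hP
      obtain ⟨h5, h6, -, -⟩ := (hmemT P).1 h3
      exact hcW P h5 h4 (hB2 P h6)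
    have h3 := avg_CU G T V hTG χ hχT hχG w hw0
    have hTw : ∑ P ∈ T, w P = 2 ^ S.card * 2 ^ (BB f).card * ((T.filter fun P => P ∉ S ∧
        UU (insert P S) ∩ S = U ∧ DD (BB f) (insert P S) = Δ).card : ℝ) := by
      simp only [hw]
      rw [← Finset.mul_sum, Finset.sum_boole]
      congr 3
      refine Finset.filter_congr fun P hP => ?_
      exact ⟨fun h => ⟨((hmemG P).1 (hTG hP)).2, h⟩, fun h => h.2⟩
    rw [← hTw]
    have h4 : (k : ℝ) * ∑ κ ∈ V, ∑ P ∈ G, χ P κ * w P =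
        ∑ κ ∈ V, ∑ W ∈ (S ∪ BB f).powerset, c W * (k * ∑ P ∈ G, χ P κ * chD (∏ v ∈ W, v.1) P) := by
      rw [Finset.mul_sum]
      refine Finset.sum_congr rfl fun κ _ => ?_
      have e1 : ∑ P ∈ G, χ P κ * w P = ∑ W ∈ (S ∪ BB f).powerset,
          c W * ∑ P ∈ G, χ P κ * chD (∏ v ∈ W, v.1) P := by
        rw [Finset.sum_congr rfl (fun P hP => by rw [hwG P hP, Finset.mul_sum]), Finset.sum_comm]
        refine Finset.sum_congr rfl fun W _ => ?_
        rw [Finset.mul_sum]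
        exact Finset.sum_congr rfl fun P _ => by ring
      rw [e1, Finset.mul_sum]
      exact Finset.sum_congr rfl fun W _ => by ring
    have hpc : ((S ∪ BB f).powerset.card : ℝ) ≤ 2 ^ S.card * 2 ^ (BB f).card := by
      rw [Finset.card_powerset, ← pow_add]
      push_cast
      exact pow_le_pow_right₀ (by norm_num) (Finset.card_union_le _ _)
    have h5 : (k : ℝ) * ∑ κ ∈ V, ∑ P ∈ G, χ P κ * w P ≤
        X + V.card * (2 ^ S.card * 2 ^ (BB f).card * E) := by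
      rw [h4]
      calc _ ≤ ∑ κ ∈ V, ∑ W ∈ (S ∪ BB f).powerset, ((if κ = 1 ∧ W = ∅ then X else 0) + E) := by
            refine Finset.sum_le_sum fun κ hκ => Finset.sum_le_sum fun W hW => ?_
            exact hterm κ hκ W hW (c W) (hc1 W) (fun h => by rw [h, hc0])
        _ = X + V.card * ((S ∪ BB f).powerset.card * E) := by
            rw [Finset.sum_congr rfl (fun κ _ => Finset.sum_add_distrib), Finset.sum_add_distrib]
            congr 1
            · rw [Finset.sum_eq_single_of_mem 1 h1V, Finset.sum_eq_single_of_mem ∅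
                (Finset.empty_mem_powerset _), if_pos ⟨rfl, rfl⟩]
              · intro W _ hW
                rw [if_neg (fun h => hW h.2)]
              · intro κ _ hκ
                refine Finset.sum_eq_zero fun W _ => ?_
                rw [if_neg (fun h => hκ h.1)]
            · rw [Finset.sum_const, Finset.sum_const, nsmul_eq_mul, nsmul_eq_mul]
        _ ≤ _ := by
            refine add_le_add le_rfl (mul_le_mul_of_nonneg_left ?_ (Nat.cast_nonneg _))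
            exact mul_le_mul_of_nonneg_right hpc hE0
    have h6 : (V.card : ℝ) * (k * ∑ P ∈ T, w P) ≤
        X + V.card * (2 ^ S.card * 2 ^ (BB f).card * E) := by
      calc (V.card : ℝ) * (k * ∑ P ∈ T, w P) = k * (V.card * ∑ P ∈ T, w P) := by ring
        _ ≤ k * ∑ κ ∈ V, ∑ P ∈ G, χ P κ * w P := mul_le_mul_of_nonneg_left h3 (Nat.cast_nonneg _)
        _ ≤ _ := h5
    have hVpos : (0 : ℝ) < V.card := by linarith
    have h7 : (k : ℝ) * ∑ P ∈ T, w P ≤ X / V.card + 2 ^ S.card * 2 ^ (BB f).card * E :=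
      div_CU _ _ _ _ hVpos h6
    rw [hM]
    refine h7.trans ?_
    have h2s : (1 : ℝ) ≤ 2 ^ S.card := one_le_pow₀ (by norm_num)
    have h8 : C1 * (dgS S + 1) * Real.sqrt q ^ k ≤
        C1 * (dgS S + 1) * 2 ^ S.card * Real.sqrt q ^ k := by
      refine mul_le_mul_of_nonneg_right ?_ (by positivity)
      exact le_mul_of_one_le_right (by positivity) h2s
    calc X / V.card + 2 ^ S.card * 2 ^ (BB f).card * E ≤
          (kTc g i * q ^ k / V.card + C1 * (dgS S + 1) * 2 ^ S.card * Real.sqrt q ^ k) +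
          2 ^ S.card * 2 ^ (BB f).card * E :=
          add_le_add (hMX.trans (add_le_add le_rfl (hC1s.trans h8))) le_rfl
      _ = _ := by
          rw [hE]
          ring

end Pool.Agent.Helper54.GL
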