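import Pool.Agent.Helper3.GT.AsmAll
import Pool.Agent.Helper3.GT.Bridge

/-!
# Simultaneous quadratic twists of generic odd hyperelliptic curves over `F(t)`

Let `F` be a finite field of odd characteristic and `f_1, ..., f_r ∈ F[t][x]`, `r ≥ 1`, monic of odd degrees
`2 g_i + 1 ≥ 3`, such that the Galois group of `f_1 ... f_r` over `F'(t)`, `F'` the algebraic closure of `F`, is the full
product of symmetric groups, and such that for every `i` some irreducible polynomial of `F[t]` divides
the discriminant of `f_i` exactly once and no other discriminant.  Then for a positive proportion of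
all monic squarefree `D ∈ F[t]` (ordered by the degree) the Jacobians over `F(t)` of ALL the quadratic
twists `D y ^ 2 = f_i(x)`, `i = 1, ..., r`, have trivial `2`-Selmer group (so rank `0` and no
`2`-torsion in the Tate–Shafarevich group).
-/

set_option autoImplicit false

namespace Pool.Agent.Helper54.GL.OldSimultaneousTwists

open Filter Polynomial Pool.Agent.Helper3.GTR

theorem result (F : Type) [Field F] [Finite F] (h2 : (2 : F) ≠ 0) (ι : Type) [Fintype ι] [Nonempty ι]
    (g : ι → ℕ) (f : ι → F[X][X]) (hf : IsGenericFamily g f) :
    ∃ c : ℝ, 0 < c ∧ ∀ᶠ m : ℕ in atTop,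
      c * ((squarefreeMonic F m).ncard : ℝ) ≤ ((trivialTwists f m).ncard : ℝ) :=
  main_of Pool.Agent.Helper3.GT.main F h2 ι g f hf

end Pool.Agent.Helper54.GL.OldSimultaneousTwists
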