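import Pool.Agent.Helper54.GL.StP

set_option autoImplicit false

namespace Pool.Agent.Helper54.GL

open Polynomial Finset Filter Topology
open Pool.Agent.Helper54.PT (Prm prm)
open Pool.Agent.Helper3.HY (kp red)
open Pool.Agent.Helper3.GT (dgS)

/-- the bound for one class -/
private theorem class_STI {ι : Type} [Fintype ι] [DecidableEq ι] (k q C D kI : ℝ) (kT : ι → ℝ)
    (hk : 1 ≤ k) (hC : 0 ≤ C) (hD : 1 ≤ D) (hkI : 0 < kI) (hkT : ∀ i, 0 < kT i) (hq : 0 ≤ q)
    (s : ℝ) (hs : 0 ≤ s) (nI : ℝ) (nT tT : ι → ℝ)
    (hnI : |k * nI - kI * q| ≤ C * s) (hnT : ∀ i, |k * nT i - kT i * q| ≤ C * s)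
    (y : ι → ℕ) (htT : ∀ i, k * tT i ≤ kT i * q * (1 / 2) ^ y i + C * D * s)
    (φ : (ι → ℕ) → ℝ) (hφ : ∀ x, 0 ≤ φ x ∧ φ x ≤ 1) (hanti : Antitone φ) :
    (nI + ∑ i, nT i) *
        Kn (kI / (kI + ∑ i, kT i)) (fun i => kT i / (kI + ∑ i, kT i)) φ y -
        C * (3 * Fintype.card ι + 2) * D * s ≤
      nI * φ y + ∑ i, ((nT i - tT i) * φ (Function.update y i (y i - 1)) +
        tT i * φ (Function.update y i (y i + 1))) := by
  set κ := kI + ∑ i, kT i with hκ
  have hκ0 : 0 < κ := by
    have : 0 ≤ ∑ i, kT i := Finset.sum_nonneg fun i _ => (hkT i).le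
    linarith
  set a := fun i => φ (Function.update y i (y i - 1)) with ha
  set b := fun i => φ (Function.update y i (y i + 1)) with hb
  have hab : ∀ i, b i ≤ a i := by
    intro i
    apply hanti
    intro j
    by_cases hj : j = i
    · subst hj
      rw [Function.update_self, Function.update_self]
      exact (Nat.sub_le _ _).trans (Nat.le_succ _)
    · simp [Function.update_of_ne hj]
  have ha0 : ∀ i, 0 ≤ a i ∧ a i ≤ 1 := fun i => hφ _
  have hb0 : ∀ i, 0 ≤ b i ∧ b i ≤ 1 := fun i => hφ _
  have hpw : ∀ i, (0 : ℝ) ≤ (1 / 2) ^ y i ∧ ((1 : ℝ) / 2) ^ y i ≤ 1 := by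
    intro i
    refine ⟨by positivity, pow_le_one₀ (by norm_num) (by norm_num)⟩
  set Kv := Kn (kI / κ) (fun i => kT i / κ) φ y with hKv
  have hK : κ * Kv = kI * φ y + ∑ i, kT i * ((1 / 2) ^ y i * b i + (1 - (1 / 2) ^ y i) * a i) := by
    rw [hKv, Kn, mul_add, Finset.mul_sum]
    congr 1
    · field_simp
    · refine Finset.sum_congr rfl fun i _ => ?_
      rw [Bi, ha, hb]
      field_simp
  have hB : ∀ i, 0 ≤ (1 / 2) ^ y i * b i + (1 - (1 / 2) ^ y i) * a i ∧
      (1 / 2) ^ y i * b i + (1 - (1 / 2) ^ y i) * a i ≤ 1 := by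
    intro i
    have h1 := hpw i
    have h2 := ha0 i
    have h3 := hb0 i
    constructor
    · nlinarith [mul_nonneg h1.1 h3.1, mul_nonneg (sub_nonneg.2 h1.2) h2.1]
    · nlinarith [mul_nonneg h1.1 (sub_nonneg.2 h3.2),
        mul_nonneg (sub_nonneg.2 h1.2) (sub_nonneg.2 h2.2)]
  have hKv0 : 0 ≤ Kv := by
    have : 0 ≤ κ * Kv := by
      rw [hK]
      have h1 : 0 ≤ ∑ i, kT i * ((1 / 2) ^ y i * b i + (1 - (1 / 2) ^ y i) * a i) :=
        Finset.sum_nonneg fun i _ => mul_nonneg (hkT i).le (hB i).1
      have h2 := mul_nonneg hkI.le (hφ y).1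
      linarith
    exact nonneg_of_mul_nonneg_right this hκ0
  have hKv1 : Kv ≤ 1 := by
    have : κ * Kv ≤ κ * 1 := by
      rw [hK, mul_one, hκ]
      have h1 : ∑ i, kT i * ((1 / 2) ^ y i * b i + (1 - (1 / 2) ^ y i) * a i) ≤ ∑ i, kT i := by
        refine Finset.sum_le_sum fun i _ => ?_
        have := mul_le_mul_of_nonneg_left (hB i).2 (hkT i).le
        linarith
      have h2 := mul_le_mul_of_nonneg_left (hφ y).2 hkI.le
      linarith
    exact le_of_mul_le_mul_left this hκ0
  -- lower bound of the right side times k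
  have hterm : ∀ i, kT i * q * ((1 / 2) ^ y i * b i + (1 - (1 / 2) ^ y i) * a i) -
      (C * s + C * D * s) ≤ k * ((nT i - tT i) * a i + tT i * b i) := by
    intro i
    have h1 := abs_le.1 (hnT i)
    have h2 := htT i
    have h3 := ha0 i
    have h4 := hb0 i
    have h5 : 0 ≤ a i - b i := sub_nonneg.2 (hab i)
    have h6 : a i - b i ≤ 1 := by linarith
    have h7 : (kT i * q - C * s) * a i ≤ k * nT i * a i :=
      mul_le_mul_of_nonneg_right (by linarith) h3.1
    have h8 : k * tT i * (a i - b i) ≤ (kT i * q * (1 / 2) ^ y i + C * D * s) * (a i - b i) :=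
      mul_le_mul_of_nonneg_right h2 h5
    have h9 : C * D * s * (a i - b i) ≤ C * D * s :=
      mul_le_of_le_one_right (by positivity) h6
    have h10 : C * s * a i ≤ C * s := mul_le_of_le_one_right (by positivity) h3.2
    nlinarith
  have hsum : (∑ i, kT i * q * ((1 / 2) ^ y i * b i + (1 - (1 / 2) ^ y i) * a i)) -
      Fintype.card ι * (C * s + C * D * s) ≤
      k * ∑ i, ((nT i - tT i) * a i + tT i * b i) := by
    rw [Finset.mul_sum]
    have := Finset.sum_le_sum fun i (_ : i ∈ (univ : Finset ι)) => hterm i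
    rw [Finset.sum_sub_distrib, Finset.sum_const, Finset.card_univ, nsmul_eq_mul] at this
    exact this
  have hI : kI * q * φ y - C * s ≤ k * (nI * φ y) := by
    have h1 := abs_le.1 hnI
    have h2 : (kI * q - C * s) * φ y ≤ k * nI * φ y :=
      mul_le_mul_of_nonneg_right (by linarith) (hφ y).1
    have h3 : C * s * φ y ≤ C * s := mul_le_of_le_one_right (by positivity) (hφ y).2
    nlinarith
  -- upper bound of the count
  have hcount : k * (nI + ∑ i, nT i) ≤ κ * q + (Fintype.card ι + 1) * (C * s) := by
    have h1 := abs_le.1 hnI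
    have h2 : k * ∑ i, nT i ≤ ∑ i, (kT i * q + C * s) := by
      rw [Finset.mul_sum]
      refine Finset.sum_le_sum fun i _ => ?_
      have := abs_le.1 (hnT i)
      linarith
    rw [Finset.sum_add_distrib, ← Finset.sum_mul] at h2
    simp only [Finset.sum_const, Finset.card_univ, nsmul_eq_mul] at h2
    rw [hκ]
    linarith
  have hcK : k * ((nI + ∑ i, nT i) * Kv) ≤ κ * q * Kv + (Fintype.card ι + 1) * (C * s) := by
    have h1 := mul_le_mul_of_nonneg_right hcount hKv0
    have h2 : (Fintype.card ι + 1) * (C * s) * Kv ≤ (Fintype.card ι + 1) * (C * s) :=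
      mul_le_of_le_one_right (by positivity) hKv1
    nlinarith
  have hKq : κ * q * Kv = kI * q * φ y +
      ∑ i, kT i * q * ((1 / 2) ^ y i * b i + (1 - (1 / 2) ^ y i) * a i) := by
    have : κ * q * Kv = q * (κ * Kv) := by ring
    rw [this, hK, mul_add, Finset.mul_sum]
    congr 1
    · ring
    · refine Finset.sum_congr rfl fun i _ => ?_
      ring
  -- combine
  have hn : (0 : ℝ) ≤ Fintype.card ι := Nat.cast_nonneg _
  have hCs : 0 ≤ C * s := mul_nonneg hC hs
  have hCDs : C * s ≤ C * D * s := by nlinarith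
  have hfin : k * ((nI + ∑ i, nT i) * Kv) - C * (3 * Fintype.card ι + 2) * D * s ≤
      k * (nI * φ y + ∑ i, ((nT i - tT i) * a i + tT i * b i)) := by
    rw [mul_add]
    have e1 : (Fintype.card ι : ℝ) * (C * s + C * D * s) ≤ Fintype.card ι * (2 * (C * D * s)) :=
      mul_le_mul_of_nonneg_left (by linarith) hn
    have e2 : ((Fintype.card ι : ℝ) + 1) * (C * s) ≤ (Fintype.card ι + 1) * (C * D * s) :=
      mul_le_mul_of_nonneg_left hCDs (by linarith)
    nlinarith
  have hX : 0 ≤ C * (3 * Fintype.card ι + 2) * D * s := by positivity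
  by_contra hcon
  push Not at hcon
  have h1 : nI * φ y + ∑ i, ((nT i - tT i) * a i + tT i * b i) -
      ((nI + ∑ i, nT i) * Kv - C * (3 * Fintype.card ι + 2) * D * s) < 0 := by
    linarith
  have h2 : k * (nI * φ y + ∑ i, ((nT i - tT i) * a i + tT i * b i) -
      ((nI + ∑ i, nT i) * Kv - C * (3 * Fintype.card ι + 2) * D * s)) < 0 :=
    mul_neg_of_pos_of_neg (by linarith) h1
  have h3 : C * (3 * Fintype.card ι + 2) * D * s ≤ k * (C * (3 * Fintype.card ι + 2) * D * s) :=
    le_mul_of_one_le_left hX hk
  nlinarith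

open Classical in
theorem gSTI : StSTI := by
  intro F _ _ ι _ _ B Gp GI GT kI kT M C ρ hL
  have hC0 : 0 ≤ C := zero_le_one.trans hL.one_le
  refine ⟨C * (3 * Fintype.card ι + 2), by positivity, ?_⟩
  intro φ hφ hanti S e k hk hS hSG
  have hq0 : (0 : ℝ) ≤ (Fintype.card F : ℝ) ^ k := by positivity
  have hs0 : (0 : ℝ) ≤ Real.sqrt (Fintype.card F) ^ k := by positivity
  set κ := kI + ∑ i, kT i with hκ
  have hD : (1 : ℝ) ≤ (dgS S : ℝ) + 1 := by
    have : (0 : ℝ) ≤ dgS S := Nat.cast_nonneg _
    linarith
  have hk1 : (1 : ℝ) ≤ k := by exact_mod_cast hk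
  -- the vector of a class
  set X : Finset (Prm F) → Finset (Prm F) → Finset (Prm F) → ι → ℕ :=
    fun S' U Δ i => Nat.log 2 (M i S' U Δ e) with hX
  have hcardG : ((GG GI GT k).card : ℝ) = ((GI k).card : ℝ) + ∑ i, ((GT i k).card : ℝ) := by
    rw [GG, Finset.card_union_of_disjoint]
    · rw [Finset.card_biUnion]
      · push_cast
        rfl
      · intro i _ j _ hij
        exact hL.disT i j k hij
    · rw [Finset.disjoint_biUnion_right]
      intro i _
      exact hL.disI i k
  -- class bound
  have hclass : ∀ U ∈ S.powerset, ∀ Δ ∈ B.powerset,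
      ((GG GI GT k).card : ℝ) * Kn (kI / κ) (fun i => kT i / κ) φ (X S U Δ) -
        C * (3 * Fintype.card ι + 2) * (dgS S + 1) * Real.sqrt (Fintype.card F) ^ k ≤
      ∑ P ∈ GG GI GT k, (φ (X (insert P S) U Δ) + φ (X (insert P S) (insert P U) Δ)) / 2 := by
    intro U hU Δ hΔ
    rw [Finset.mem_powerset] at hU hΔ
    set y := X S U Δ with hy
    choose T hTsub hTnot hTcard _ using fun i => hL.cntU i S U Δ e k hk hS hU hΔ
    have hMy : ∀ i, ((M i S U Δ e : ℕ) : ℝ) = 2 ^ y i := by
      intro i
      obtain ⟨x, hx⟩ := hL.pow i S U Δ e hS hU hΔ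
      have : y i = x := by
        rw [hy, hX]
        simp only
        rw [hx, Nat.log_pow (by norm_num)]
      rw [this, hx]
      push_cast
      rfl
    have hb := class_STI (k : ℝ) ((Fintype.card F : ℝ) ^ k) C (dgS S + 1) kI kT hk1 hC0 hD
      hL.kI_pos hL.kT_pos hq0 (Real.sqrt (Fintype.card F) ^ k) hs0 ((GI k).card : ℝ)
      (fun i => ((GT i k).card : ℝ)) (fun i => ((T i).card : ℝ)) (hL.cntI k hk)
      (fun i => hL.cntT i k hk) y (fun i => by
        have := hTcard i
        rw [hMy i] at this
        rw [one_div_pow]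
        rw [div_eq_mul_one_div] at this
        linarith) φ hφ hanti
    rw [hcardG]
    refine hb.trans ?_
    -- split the sum
    have hsplit : ∑ P ∈ GG GI GT k,
        (φ (X (insert P S) U Δ) + φ (X (insert P S) (insert P U) Δ)) / 2 =
        ∑ P ∈ GI k, (φ (X (insert P S) U Δ) + φ (X (insert P S) (insert P U) Δ)) / 2 +
        ∑ i, ∑ P ∈ GT i k,
          (φ (X (insert P S) U Δ) + φ (X (insert P S) (insert P U) Δ)) / 2 := by
      rw [GG, Finset.sum_union]
      · rw [Finset.sum_biUnion]
        intro i _ j _ hij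
        exact hL.disT i j k hij
      · rw [Finset.disjoint_biUnion_right]
        intro i _
        exact hL.disI i k
    rw [hsplit]
    have hnotS : ∀ P ∈ GG GI GT k, P ∉ S := fun P hP hPS => hSG P hPS hP
    refine add_le_add ?_ (Finset.sum_le_sum fun i _ => ?_)
    · -- type I
      have : ∀ P ∈ GI k, φ y ≤
          (φ (X (insert P S) U Δ) + φ (X (insert P S) (insert P U) Δ)) / 2 := by
        intro P hP
        have hPS : P ∉ S := hnotS P (by rw [GG]; exact Finset.mem_union_left _ hP)
        have h1 : X (insert P S) U Δ ≤ y := by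
          intro j
          exact Nat.log_mono_right (hL.stI j S U Δ e k P hP hS hU hΔ hPS).1
        have h2 : X (insert P S) (insert P U) Δ ≤ y := by
          intro j
          exact Nat.log_mono_right (hL.stI j S U Δ e k P hP hS hU hΔ hPS).2
        have := hanti h1
        have := hanti h2
        linarith
      have h3 := Finset.sum_le_sum this
      rw [Finset.sum_const, nsmul_eq_mul] at h3
      exact h3
    · -- type T
      have hTn : (GT i k).card = ((GT i k) \ T i).card + (T i).card := by
        rw [Finset.card_sdiff_add_card_eq_card (hTsub i)]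
      have hnotS' : ∀ P ∈ GT i k, P ∉ S := fun P hP => hnotS P (by
        rw [GG]
        exact Finset.mem_union_right _ (Finset.mem_biUnion.2 ⟨i, Finset.mem_univ _, hP⟩))
      rw [← Finset.sum_sdiff (hTsub i)]
      have hA : (((GT i k).card : ℝ) - ((T i).card : ℝ)) *
          φ (Function.update y i (y i - 1)) ≤ ∑ P ∈ (GT i k) \ T i,
          (φ (X (insert P S) U Δ) + φ (X (insert P S) (insert P U) Δ)) / 2 := by
        have : ∀ P ∈ (GT i k) \ T i, φ (Function.update y i (y i - 1)) ≤
            (φ (X (insert P S) U Δ) + φ (X (insert P S) (insert P U) Δ)) / 2 := by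
          intro P hP
          rw [Finset.mem_sdiff] at hP
          have hPS := hnotS' P hP.1
          have hT := hTnot i P hP.1 hPS hP.2
          have key : ∀ m n : ℕ, 2 * m ≤ n → Nat.log 2 m ≤ Nat.log 2 n - 1 := by
            intro m n hmn
            rcases Nat.eq_zero_or_pos m with h0 | h0
            · subst h0
              simp
            · have h1 : Nat.log 2 (m * 2) = Nat.log 2 m + 1 :=
                Nat.log_mul_base (by norm_num) (by omega)
              have h2 : Nat.log 2 (m * 2) ≤ Nat.log 2 n := Nat.log_mono_right (by omega)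
              omega
          have h1 : X (insert P S) U Δ ≤ Function.update y i (y i - 1) := by
            intro j
            by_cases hj : j = i
            · subst hj
              rw [Function.update_self]
              exact key _ _ hT.1
            · rw [Function.update_of_ne hj]
              exact Nat.log_mono_right (hL.stJ i j S U Δ e k hj P hP.1 hS hU hΔ hPS).1
          have h2 : X (insert P S) (insert P U) Δ ≤ Function.update y i (y i - 1) := by
            intro j
            by_cases hj : j = i
            · subst hj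
              rw [Function.update_self]
              exact key _ _ hT.2
            · rw [Function.update_of_ne hj]
              exact Nat.log_mono_right (hL.stJ i j S U Δ e k hj P hP.1 hS hU hΔ hPS).2
          have := hanti h1
          have := hanti h2
          linarith
        have h3 := Finset.sum_le_sum this
        rw [Finset.sum_const, nsmul_eq_mul] at h3
        have h4 : (((GT i k) \ T i).card : ℝ) = ((GT i k).card : ℝ) - ((T i).card : ℝ) := by
          rw [hTn]
          push_cast
          ring
        rw [h4] at h3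
        exact h3
      have hBb : ((T i).card : ℝ) * φ (Function.update y i (y i + 1)) ≤ ∑ P ∈ T i,
          (φ (X (insert P S) U Δ) + φ (X (insert P S) (insert P U) Δ)) / 2 := by
        have : ∀ P ∈ T i, φ (Function.update y i (y i + 1)) ≤
            (φ (X (insert P S) U Δ) + φ (X (insert P S) (insert P U) Δ)) / 2 := by
          intro P hP
          have hPG := hTsub i hP
          have hPS := hnotS' P hPG
          have key : ∀ m n : ℕ, m ≤ 2 * n → Nat.log 2 m ≤ Nat.log 2 n + 1 := by
            intro m n hmn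
            rcases Nat.eq_zero_or_pos n with h0 | h0
            · subst h0
              have : m = 0 := by omega
              subst this
              simp
            · have h1 : Nat.log 2 (n * 2) = Nat.log 2 n + 1 :=
                Nat.log_mul_base (by norm_num) (by omega)
              have h2 : Nat.log 2 m ≤ Nat.log 2 (n * 2) := Nat.log_mono_right (by omega)
              omega
          have h1 : X (insert P S) U Δ ≤ Function.update y i (y i + 1) := by
            intro j
            by_cases hj : j = i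
            · subst hj
              rw [Function.update_self]
              exact key _ _ (hL.stT j S U Δ e k P hPG hS hU hΔ hPS).1
            · rw [Function.update_of_ne hj]
              exact Nat.log_mono_right (hL.stJ i j S U Δ e k hj P hPG hS hU hΔ hPS).1
          have h2 : X (insert P S) (insert P U) Δ ≤ Function.update y i (y i + 1) := by
            intro j
            by_cases hj : j = i
            · subst hj
              rw [Function.update_self]
              exact key _ _ (hL.stT j S U Δ e k P hPG hS hU hΔ hPS).2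
            · rw [Function.update_of_ne hj]
              exact Nat.log_mono_right (hL.stJ i j S U Δ e k hj P hPG hS hU hΔ hPS).2
          have := hanti h1
          have := hanti h2
          linarith
        have h3 := Finset.sum_le_sum this
        rw [Finset.sum_const, nsmul_eq_mul] at h3
        exact h3
      exact add_le_add hA hBb
  -- average over the classes
  have hAV : ∀ P ∈ GG GI GT k, AV B M φ (insert P S) e =
      (∑ U ∈ S.powerset, ∑ Δ ∈ B.powerset,
        (φ (X (insert P S) U Δ) + φ (X (insert P S) (insert P U) Δ)) / 2) /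
        (2 ^ S.card * 2 ^ B.card) := by
    intro P hP
    have hPS : P ∉ S := fun h => hSG P h hP
    rw [AV, Finset.card_insert_of_notMem hPS, Finset.sum_powerset_insert hPS,
      ← Finset.sum_add_distrib]
    have : ∑ U ∈ S.powerset, ∑ Δ ∈ B.powerset,
        (φ (X (insert P S) U Δ) + φ (X (insert P S) (insert P U) Δ)) / 2 =
        (∑ U ∈ S.powerset, ((∑ Δ ∈ B.powerset, φ (X (insert P S) U Δ)) +
          ∑ Δ ∈ B.powerset, φ (X (insert P S) (insert P U) Δ))) / 2 := by
      rw [Finset.sum_div]
      refine Finset.sum_congr rfl fun U _ => ?_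
      rw [← Finset.sum_add_distrib, Finset.sum_div]
    rw [this, pow_succ]
    rw [div_div]
    congr 1
    ring
  rw [Finset.sum_congr rfl hAV, ← Finset.sum_div, Finset.sum_comm]
  have hN : (0 : ℝ) < 2 ^ S.card * 2 ^ B.card := by positivity
  rw [le_div_iff₀ hN]
  have hswap : ∑ U ∈ S.powerset, ∑ P ∈ GG GI GT k, ∑ Δ ∈ B.powerset,
      (φ (X (insert P S) U Δ) + φ (X (insert P S) (insert P U) Δ)) / 2 =
      ∑ U ∈ S.powerset, ∑ Δ ∈ B.powerset, ∑ P ∈ GG GI GT k,
      (φ (X (insert P S) U Δ) + φ (X (insert P S) (insert P U) Δ)) / 2 :=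
    Finset.sum_congr rfl fun U _ => Finset.sum_comm
  rw [hswap]
  refine le_trans ?_ (Finset.sum_le_sum fun U hU => Finset.sum_le_sum fun Δ hΔ =>
    hclass U hU Δ hΔ)
  simp only [Finset.sum_sub_distrib, Finset.sum_const, Finset.card_powerset, nsmul_eq_mul,
    ← Finset.mul_sum]
  rw [AV]
  push_cast
  have : ((GG GI GT k).card : ℝ) * ((∑ U ∈ S.powerset, ∑ Δ ∈ B.powerset,
      Kn (kI / κ) (fun i => kT i / κ) φ fun i => Nat.log 2 (M i S U Δ e)) /
      (2 ^ S.card * 2 ^ B.card)) * (2 ^ S.card * 2 ^ B.card) =
      ((GG GI GT k).card : ℝ) * ∑ U ∈ S.powerset, ∑ Δ ∈ B.powerset,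
        Kn (kI / κ) (fun i => kT i / κ) φ (X S U Δ) := by
    rw [mul_assoc, div_mul_cancel₀ _ hN.ne']
  rw [sub_mul, this]
  apply le_of_eq
  ring

end Pool.Agent.Helper54.GL
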