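import Pool.Agent.Helper54.GL.StQ
import Pool.Agent.Helper54.GT.AllAB

/-!
# GL, module Q_CS2: character sums over the primes of type T and type I
-/

set_option autoImplicit false

namespace Pool.Agent.Helper54.GL

open Polynomial Finset Filter Topology
open Pool.Agent.Helper54.PT (Prm prm mem_prm)
open Pool.Agent.Helper3.HY (fK RR LL kp red TType)
open Pool.Agent.Helper3.GT (Gd GdF HypF facs TyI TyT)
open Pool.Agent.Helper54.GT (kk Om et ev av em rv Rts Hyp0 X0 X1 X2 StRT StEB StTP StCN2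
  sqr_A2 sq_A2 z2_A2 et_ne_A2 sqrt_pow_A2 perm_A2 dCN2 dTP aRT aEB)

private theorem two_ne_CS2 {F : Type} [Field F] (h20 : (2 : F) ≠ 0) : (2 : kk F) ≠ 0 := by
  intro h
  apply h20
  apply (algebraMap F (kk F)).injective
  rw [map_ofNat, map_zero, h]

private theorem neg_ne_CS2 {F : Type} [Field F] (h20 : (2 : F) ≠ 0) {r : kk F} (hr : r ≠ 0) :
    -r ≠ r := by
  intro h
  have h1 : (2 : kk F) * r = 0 := by linear_combination -h
  rcases mul_eq_zero.1 h1 with h2 | h2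
  · exact two_ne_CS2 h20 h2
  · exact hr h2

private theorem val1_CS2 : (1 : ZMod 2).val = 1 := by decide
private theorem val0_CS2 : (0 : ZMod 2).val = 0 := by decide

private theorem eps_CS2 {F : Type} [Field F] (h20 : (2 : F) ≠ 0) {r s : kk F} (hr : r ≠ 0)
    {ε : ZMod 2} (h : s = (-1) ^ ε.val * r) : s = r ↔ ε = 0 := by
  rcases z2_A2 ε with he | he
  · subst he
    rw [val0_CS2, pow_zero, one_mul] at h
    simp [h]
  · subst he
    rw [val1_CS2, pow_one, neg_one_mul] at h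
    rw [h]
    constructor
    · intro h1
      exact absurd h1 (neg_ne_CS2 h20 hr)
    · intro h1
      exact absurd h1 (by decide)

open Classical in
private theorem gen_CS2 (h1 : StTRF) (h3 : StRT) (h4 : StEB) (h5 : StTP) (F : Type) [Field F]
    [Fintype F] (h20 : (2 : F) ≠ 0) (ι : Type) [Fintype ι] (g : ι → ℕ) (f : ι → F[X][X])
    (hm : ∀ i, (f i).Monic) (hd : ∀ i, (f i).natDegree = 2 * g i + 1) (k : ℕ) (hk : 1 ≤ k)
    (d : F[X]) (Ty : (∀ i, Equiv.Perm (Fin (2 * g i + 1))) → Prop) (G : Finset (Prm F))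
    (hG : ∀ P ∈ G, P ∈ prm F k ∧ GdF f P)
    (hTy : ∀ P ∈ prm F k, ∀ t : kk F, et t P.1 = 0 → ∀ τ σ,
      (t, τ) ∈ X0 f σ (Fintype.card F ^ k) → (P ∈ G ↔ Ty σ))
    (B : ℝ) (hB0 : 0 ≤ B)
    (hB : ∀ (σ : ∀ i, Equiv.Perm (Fin (2 * g i + 1))) (ε : ZMod 2),
      (X2 f d σ ε (Fintype.card F ^ k)).Finite ∧
      |((X2 f d σ ε (Fintype.card F ^ k)).ncard : ℝ) - (Fintype.card F : ℝ) ^ k| ≤ B) :
    |k * ∑ P ∈ G.filter (fun P => ¬ P.1 ∣ d), chD d P| ≤
      B + 2 * Real.sqrt (Fintype.card F) ^ k := by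
  set φ : (∀ i, Equiv.Perm (Fin (2 * g i + 1))) → ZMod 2 → ℝ :=
    fun σ ε => if Ty σ then (if ε = 0 then 1 else -1) else 0 with hφ
  have hsub : ∀ (t : kk F) (τ : ∀ i, Fin (2 * g i + 1) → kk F),
      {r : kk F | ∃ σ ε, (t, τ, r) ∈ X2 f d σ ε (Fintype.card F ^ k)} ⊆
        {r : kk F | r ^ 2 = et t d} := by
    rintro t τ r ⟨σ, ε, h⟩
    exact h.2.2.1
  have key := h1 F h20 ι g f hm hd k hk (kk F) (ZMod 2)
    (fun σ ε => X2 f d σ ε (Fintype.card F ^ k)) φ (chD d)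
    (G.filter (fun P => ¬ P.1 ∣ d)) 2 B hB0 ?_ hB ?_ ?_ ?_ ?_ ?_
  · have hsum : ∑ σ, ∑ ε, φ σ ε = 0 := by
      refine Finset.sum_eq_zero fun σ _ => ?_
      have h7 : (univ : Finset (ZMod 2)) = {0, 1} := by decide
      rw [h7, Finset.sum_pair (by decide)]
      simp only [hφ]
      have h8 : (1 : ZMod 2) ≠ 0 := by decide
      by_cases hT : Ty σ
      · simp [hT]
      · simp [hT]
    rw [hsum, zero_mul, sub_zero, ZMod.card] at key
    set N : ℕ := ∏ i, (2 * g i + 1).factorial with hN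
    have hN0 : 0 < N := Finset.prod_pos fun i _ => Nat.factorial_pos _
    have hN1 : (0 : ℝ) < N := by exact_mod_cast hN0
    set T := ∑ P ∈ G.filter (fun P => ¬ P.1 ∣ d), chD d P with hT
    rw [show ((N : ℝ) * ((2 : ℕ) : ℝ) * k * T) = (2 * N) * (k * T) by push_cast; ring, abs_mul,
      abs_of_pos (by positivity : (0 : ℝ) < 2 * N)] at key
    push_cast at key
    have h9 : (2 * (N : ℝ)) * |k * T| ≤ (2 * N) * (B + 2 * Real.sqrt (Fintype.card F) ^ k) := by
      refine key.trans (le_of_eq ?_)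
      ring
    exact le_of_mul_le_mul_left h9 (by positivity)
  · intro σ ε
    simp only [hφ]
    split_ifs <;> simp
  · intro σ ε y hy
    exact hy.1
  · intro σ ε ε' y hy hy'
    have h7 := eps_CS2 h20 hy.2.1 hy.2.2.2
    have h8 := eps_CS2 h20 hy'.2.1 hy'.2.2.2
    rcases z2_A2 ε with he | he <;> rcases z2_A2 ε' with he' | he'
    · rw [he, he']
    · exact absurd (h8.1 (h7.2 he)) (by rw [he']; decide)
    · exact absurd (h7.1 (h8.2 he')) (by rw [he]; decide)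
    · rw [he, he']
  · intro t τ
    exact ⟨(sqr_A2 _).1.subset (hsub t τ),
      (Set.ncard_le_ncard (hsub t τ) (sqr_A2 _).1).trans (sqr_A2 _).2.1⟩
  · intro P hP
    rw [Finset.mem_filter] at hP
    obtain ⟨hP1, hP2⟩ := hP
    obtain ⟨hPk, hPg⟩ := hG P hP1
    refine ⟨hPk, hPg, fun t ht τ hτ hinj => ?_⟩
    obtain ⟨-, σ, hσ⟩ := (h5 F h20 ι g f hm hd k P hk hPk t ht).2 τ hτ hinj
    have hd0 : et t d ≠ 0 := fun h => hP2 ((et_ne_A2 P t ht d).1 h)
    have htQ : t ^ Fintype.card F ^ k = t := hσ.1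
    constructor
    · have heq : {r : kk F | ∃ σ ε, (t, τ, r) ∈ X2 f d σ ε (Fintype.card F ^ k)} =
          {r : kk F | r ^ 2 = et t d} := by
        refine Set.Subset.antisymm (hsub t τ) ?_
        intro r hr
        have hr : r ^ 2 = et t d := hr
        have hr0 : r ≠ 0 := by
          intro h
          rw [h] at hr
          exact hd0 (by rw [← hr]; ring)
        have hfrob : (et t d) ^ Fintype.card F ^ k = et t d := by
          obtain ⟨-, -, j, hj⟩ := h4 F P t ht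
          obtain ⟨_, hc, -⟩ := h4 F P t ht
          have := (h4 F P t ht).1
          have := Fintype.ofFinite (kp P)
          have hc' : Fintype.card (kp P) = Fintype.card F ^ k := by
            rw [← Nat.card_eq_fintype_card, hc, mem_prm.1 hPk]
          rw [← hj, ← map_pow, ← hc', FiniteField.pow_card]
        have h8 : (r ^ Fintype.card F ^ k) ^ 2 = r ^ 2 := by
          rw [← pow_mul, mul_comm, pow_mul, hr, hfrob]
        rcases sq_eq_sq_iff_eq_or_eq_neg.1 h8 with h9 | h9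
        · exact ⟨σ, 0, hσ, hr0, hr, by rw [val0_CS2, pow_zero, one_mul]; exact h9⟩
        · exact ⟨σ, 1, hσ, hr0, hr, by rw [val1_CS2, pow_one, neg_one_mul]; exact h9⟩
      rw [heq]
      exact (sqr_A2 _).2.2 h20 hd0
    · intro r σ' ε hy
      have h7 : Ty σ' := (hTy P hPk t ht τ σ' hy.1).1 hP1
      have h8 := sq_A2 h3 h4 k hk P hPk t ht d r hy.2.2.1
      have h9 := eps_CS2 h20 hy.2.1 hy.2.2.2
      simp only [hφ, if_pos h7, chD]
      have h10 : IsSquare (red P d) ↔ ε = 0 := h8.trans h9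
      by_cases he : ε = 0
      · rw [if_pos he, if_pos (h10.2 he)]
      · rw [if_neg he, if_neg (fun h => he (h10.1 h))]
  · intro P hPk hPQ t ht τ r σ ε hy
    have h7 : ¬ P.1 ∣ d := by
      rw [← et_ne_A2 P t ht, ← show r ^ 2 = et t d from hy.2.2.1]
      exact pow_ne_zero 2 hy.2.1
    have h8 : P ∉ G := fun h => hPQ (Finset.mem_filter.2 ⟨h, h7⟩)
    have h9 : ¬ Ty σ := fun h => h8 ((hTy P hPk t ht τ σ hy.1).2 h)
    simp only [hφ, if_neg h9]

private theorem mem_GTs_CS2 {F : Type} [Field F] [Fintype F] {ι : Type} (g : ι → ℕ)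
    (f : ι → F[X][X]) (i : ι) (k : ℕ) (P : Prm F) : P ∈ GTs g f i k ↔
      P ∈ prm F k ∧ GdF f P ∧ TyT (g i) (f i) P ∧ ∀ j, j ≠ i → TyI (f j) P := by
  classical
  rw [GTs, Finset.mem_filter]

private theorem mem_GIs_CS2 {F : Type} [Field F] [Fintype F] {ι : Type}
    (f : ι → F[X][X]) (k : ℕ) (P : Prm F) : P ∈ GIs f k ↔
      P ∈ prm F k ∧ GdF f P ∧ ∀ j, TyI (f j) P := by
  classical
  rw [GIs, Finset.mem_filter]

open Classical in
theorem gCS2 (h1 : StTRF) (h2 : StTYP) : StCS2 := by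
  intro F _ _ h20 ι _ _ g f hF
  have hf : Hyp0 g f := ⟨hF.one_le, hF.monic, hF.deg, hF.geo⟩
  obtain ⟨C₂, hC₂, hp2⟩ := dCN2 F h20 ι g f hf
  refine ⟨C₂ + 2, by positivity, fun d hd hsq hd1 hS k hk => ?_⟩
  set S := Real.sqrt (Fintype.card F) ^ k with hSdef
  have hS0 : 0 ≤ S := by positivity
  have hB : ∀ (σ : ∀ i, Equiv.Perm (Fin (2 * g i + 1))) (ε : ZMod 2),
      (X2 f d σ ε (Fintype.card F ^ k)).Finite ∧
      |((X2 f d σ ε (Fintype.card F ^ k)).ncard : ℝ) - (Fintype.card F : ℝ) ^ k| ≤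
        C₂ * (d.natDegree + 1) * S := by
    intro σ ε
    have h8 := hp2 d hd hsq hd1 hS σ ε k hk
    rw [sqrt_pow_A2 _ (Nat.cast_nonneg _)] at h8
    exact h8
  have hfin : C₂ * (d.natDegree + 1) * S + 2 * S ≤ (C₂ + 2) * (d.natDegree + 1) * S := by
    have h9 : 0 ≤ 2 * (d.natDegree : ℝ) * S := by positivity
    nlinarith
  have htp : ∀ P ∈ prm F k, ∀ t : kk F, et t P.1 = 0 →
      ∀ (τ : ∀ i, Fin (2 * g i + 1) → kk F) (σ : ∀ i, Equiv.Perm (Fin (2 * g i + 1))),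
      (t, τ) ∈ X0 f σ (Fintype.card F ^ k) → GdF f P := by
    intro P hP t ht τ σ h
    exact ((dTP F h20 ι g f hf.monic hf.deg k P hk hP t ht).2 τ h.2.1 h.2.2.1).1
  constructor
  · intro i
    refine le_trans ?_ hfin
    refine gen_CS2 h1 aRT aEB dTP F h20 ι g f hf.monic hf.deg k hk d
      (fun σ => (∃ b₀, CycT (σ i) b₀) ∧ ∀ j, j ≠ i → CycI (σ j)) (GTs g f i k) ?_ ?_ _
      (by positivity) hB
    · intro P hP
      rw [mem_GTs_CS2] at hP
      exact ⟨hP.1, hP.2.1⟩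
    · intro P hP t ht τ σ h
      have h8 := fun j => h2 F h20 ι g f hf.one_le hf.monic hf.deg k hk P hP t ht τ σ h j
      rw [mem_GTs_CS2]
      constructor
      · rintro ⟨-, -, h9, h10⟩
        exact ⟨(h8 i).2.1 h9, fun j hj => (h8 j).1.1 (h10 j hj)⟩
      · rintro ⟨h9, h10⟩
        exact ⟨hP, htp P hP t ht τ σ h, (h8 i).2.2 h9, fun j hj => (h8 j).1.2 (h10 j hj)⟩
  · refine le_trans ?_ hfin
    refine gen_CS2 h1 aRT aEB dTP F h20 ι g f hf.monic hf.deg k hk d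
      (fun σ => ∀ j, CycI (σ j)) (GIs f k) ?_ ?_ _ (by positivity) hB
    · intro P hP
      rw [mem_GIs_CS2] at hP
      exact ⟨hP.1, hP.2.1⟩
    · intro P hP t ht τ σ h
      have h8 := fun j => h2 F h20 ι g f hf.one_le hf.monic hf.deg k hk P hP t ht τ σ h j
      rw [mem_GIs_CS2]
      constructor
      · rintro ⟨-, -, h10⟩
        exact fun j => (h8 j).1.1 (h10 j)
      · intro h10
        exact ⟨hP, htp P hP t ht τ σ h, fun j => (h8 j).1.2 (h10 j)⟩

end Pool.Agent.Helper54.GL
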