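import Pool.Agent.Helper54.GL.StQ

/-!
# GL: the explicit law.  Part M: the Selmer groups satisfy the hypotheses of the law; the main theorem

Every `St...` is a proposition which is proved in its own module `Pool/Agent/Helper54/GL/M_<Name>.lean`.  The statements
of project GT (`Pool/Agent/Helper3/GT/St.lean`) are all proved; use them as hypotheses (`(h : Pool.Agent.Helper3.GT.StCONTR)` ...), I assemble.
-/

set_option autoImplicit false

namespace Pool.Agent.Helper54.GL

open Polynomial Finset Filter Topology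
open Pool.Agent.Helper54.PT (Prm prm IsAbsP IsAbsInf)
open Pool.Agent.Helper3.HY (fK RR LL kp red TwAt selmerSet TType)
open Pool.Agent.Helper3.GT (Gd Bd GdF HypF facs TyI TyT Rp ep om SelS MS XS dgS GeoSn EvP)

/-! ### One polynomial -/

/-- (STE) Steps.  PROOF.  `StCONTR` (hypothesis), `D' = P * E`: `MS f (insert P S) D' * MS f S D' ≤ 2^(m - 1) (XS f S D' P)^2`, `m = (facs f P).card ≤ 2 g + 1` (`StFAC`).  `MS`, `XS` depend on the set `SelS f S D' = SelS f S D` only.  With `M = MS f S D ≥ 1`,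
`X = XS f S D P`, `1 ≤ X ≤ M` (`StXH`): `M' M ≤ 2^(m-1) X^2 ≤ 2^(m-1) M^2`, so `M' ≤ 2^(m-1) M`.  If `m = 2` and `2 X ≤ M`: `2 M' M ≤ 4 X^2 ≤ M^2`, so `2 M' ≤ M`. -/
def StSTE : Prop :=
  ∀ (F : Type) [Field F] [Fintype F], (2 : F) ≠ 0 → ∀ (g : ℕ), 1 ≤ g → ∀ (f : F[X][X]), f.Monic →
    f.natDegree = 2 * g + 1 → (fK f).Separable → f.discr ≠ 0 → ∀ [Fact (Irreducible (fK f))]
    (P : Prm F), Gd f P → ∀ S : Finset (Prm F), P ∉ S → ∀ D D' : F[X],
      SelS f S D' = SelS f S D → (∃ E, D' = P.1 * E ∧ ¬ P.1 ∣ E) →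
      MS f (insert P S) D' ≤ 2 ^ (2 * g) * MS f S D ∧
      ((facs f P).card = 1 → MS f (insert P S) D' ≤ MS f S D) ∧
      ((facs f P).card = 2 → MS f (insert P S) D' ≤ 2 * MS f S D ∧
        (2 * XS f S D P ≤ MS f S D → 2 * MS f (insert P S) D' ≤ MS f S D))

/-- (POW) PROOF.  First part: `StSG`, `StFIN` (hypotheses): the image of `SelS f S D` in the quotient by the squares is a finite subgroup of exponent `2`: its order is a power of `2` (e.g. `Module (ZMod 2)` structure, or
Cauchy: a prime divisor `p` of the order gives an element of order `p`, so `p = 2`; `Nat.eq_prime_pow_of_unique_prime_dvd` or `IsPGroup`).  Second part: `StFIN` for `S = ∅`: every class contains an element `z` with `z β² = mk a`, `Rp f (C * (0 + 1)) a`; the class is determined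
by `a`; the `a` with `Rp f C a` are finite in number (independent of `D`). -/
def StPOW : Prop :=
  ∀ (F : Type) [Field F] [Fintype F] (f : F[X][X]), f.Monic → (fK f).Separable → f.discr ≠ 0 →
    ∀ [Fact (Irreducible (fK f))],
    (∀ (S : Finset (Prm F)) (D : F[X]), ∃ x : ℕ, MS f S D = 2 ^ x) ∧
      ∃ C₀ : ℕ, ∀ D : F[X], MS f ∅ D ≤ C₀

/-- (CTR2) PROOF.  The proof of `StCTR` (theorem `hCTR` in `Pool/Agent/Helper3/GT/M_CTR.lean`, with its lemmas) with another treatment of the error terms.  With `M = MS f S D`, `V` the set of classes, for the trivial class the contribution is at most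
`√2^(n-1) q^k`; for a nontrivial class (represented by `a` with `Rp f c a`, `c = C' (dgS S + 1)`, `StFIN`) at most `ρ₀ q^k + C₁ (c + 1) √q^k + C₂ (c + 1)` (`StA1` with `ρ₀`, and the primes dividing the norm).  Now
`(c + 1) ≤ (C' + 1) (dgS S + 1) ≤ ((C' + 1) / C) √q^k`, so if `C` is large the contribution is at most `(ρ₀ + (1 - ρ₀)/2) q^k` (`1 ≤ √q^k`).  `ρ = (1 + ρ₀)/2`.  (For `k = 0` the left side is `0`.) -/
def StCTR2 : Prop :=
  ∀ (F : Type) [Field F] [Fintype F], (2 : F) ≠ 0 → ∀ (g : ℕ), 1 ≤ g → ∀ (f : F[X][X]), f.Monic →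
    f.natDegree = 2 * g + 1 → GeoSn f → (fK f).Separable → f.discr ≠ 0 →
    ∀ [Fact (Irreducible (fK f))], ∃ C₀ ρ : ℝ, 1 ≤ C₀ ∧ 0 ≤ ρ ∧ ρ < 1 ∧
      ∀ (k : ℕ) (S : Finset (Prm F)) (D : F[X]) (D' : Prm F → F[X]),
      C₀ * (dgS S + 1) ≤ Real.sqrt (Fintype.card F) ^ k →
      ∀ Q : Finset (Prm F), (∀ P ∈ Q, P.1.natDegree = k ∧ Gd f P ∧ P ∉ S ∧
        SelS f S (D' P) = SelS f S D ∧ ∃ E, D' P = P.1 * E ∧ ¬ P.1 ∣ E) →
      (k : ℝ) * ∑ P ∈ Q, Real.sqrt (MS f (insert P S) (D' P)) ≤
        (Fintype.card F : ℝ) ^ k * (C₀ + ρ * Real.sqrt (MS f S D))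

/-- (SB2) Transport of the Selmer group of the twist.  PROOF.  `D = ∏ S ≠ 0`.  As in the proof of `StTrans` (`Pool/Agent/Helper54/HL/M_Trans.lean`, theorem `hTrans`, its first part): there is an isomorphism `φ : AdjoinRoot (fK (f.scaleRoots D)) ≃ₐ LL f` such that
for every `z ∈ selmerSet (fK (f.scaleRoots D))` the element `w = φ z` has square norm and satisfies `TwAt f D v w` for all nontrivial `v` (repeat that part of the proof).  Then `w ∈ SelS f S D`: for `P ∉ S`, `P` not bad: `EvP P w` by `StL1`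
(hypothesis; `P ∤ D`; an absolute value from `Pool.Agent.Helper54.PT.exists_absP`): see `hSB` in `Pool/Agent/Helper3/GT/M_SB.lean`.  The set of classes of `SelS f S D` is finite (`StFIN`) with `MS f S D` elements; choose a representative
of each class and let `s` be the set of their images under `φ⁻¹`: if `φ z` and `w₀` have the same class then `φ z * w₀` is a square, so `z * φ⁻¹ w₀` is a square. -/
def StSB2 : Prop :=
  ∀ (F : Type) [Field F] [Fintype F], (2 : F) ≠ 0 → ∀ (g : ℕ), 1 ≤ g → ∀ (f : F[X][X]), f.Monic →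
    f.natDegree = 2 * g + 1 → (fK f).Separable → f.discr ≠ 0 → ∀ [Fact (Irreducible (fK f))]
    (S : Finset (Prm F)), (∀ P ∈ S, Gd f P) →
      SelLE (fK (f.scaleRoots (∏ P ∈ S, P.1))) (MS f S (∏ P ∈ S, P.1))

/-! ### Classes -/

/-- (CRT2) Existence.  PROOF.  As `StCRT` (proved, `Pool/Agent/Helper3/GT/M_CRT.lean`).  Chinese remainder theorem: the moduli are `P ^ 2` for `P ∈ S` and `P` for `P ∈ B`, pairwise coprime (`Disjoint S B`).  Modulo `P ^ 2` prescribe `P * E_P`, where `E_P` is `1` if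
`P ∉ U` and a polynomial which is not a square modulo `P` if `P ∈ U` (the finite field `kp P` has odd characteristic, so it has nonsquares); modulo `P ∈ B` prescribe `1` or a nonsquare.  Let `D₀` be a solution, `M` the product of the moduli;
`D = D₀ + M t^j` for large `j` of the right parity is monic of degree `deg M + j`. -/
def StCRT2 : Prop :=
  ∀ (F : Type) [Field F] [Fintype F], (2 : F) ≠ 0 → ∀ (B S U Δ : Finset (Prm F)) (e : ℕ),
    Disjoint S B → ∃ D : F[X], HasB B S U Δ e D

/-- (SC2) PROOF.  First part: `StINV` (hypothesis), compare `StSC` (proved, `M_SC.lean`): at `P ∈ S`: `D = P E`, `D' = P E'`, `red P (E E')` is a square (both squares or both nonsquares in a finite field of odd order); at the bad `P` (in `B`; if also `P ∈ S` use the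
first case): `D`, `D'` are prime to `P` and both squares or both nonsquares; at infinity monic of degrees of the same parity.  Second part: restriction, trivial.  Third part: `∏_{P ∈ S} P` is monic of degree `dgS S`; for `P ∈ S` `E = ∏_{R ∈ S - P} R`, prime
to `P` (distinct monic irreducible polynomials are not divisible by each other), `UU`, `DD` are defined accordingly. -/
def StSC2 : Prop :=
  ∀ (F : Type) [Field F] [Fintype F], (2 : F) ≠ 0 →
    (∀ f : F[X][X], f.Monic → f ≠ 1 → ∀ (B S U Δ : Finset (Prm F)) (e : ℕ) (D D' : F[X]),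
      (∀ P, Bd f P → P ∈ B) → HasB B S U Δ e D → HasB B S U Δ e D' → SelS f S D = SelS f S D') ∧
    (∀ (B S U U' Δ : Finset (Prm F)) (P : Prm F) (e : ℕ) (D : F[X]), P ∉ S → U ⊆ S →
      (U' = U ∨ U' = insert P U) → HasB B (insert P S) U' Δ e D →
        HasB B S U Δ e D ∧ ∃ E, D = P.1 * E ∧ ¬ P.1 ∣ E) ∧
    ∀ B S : Finset (Prm F), Disjoint S B →
      HasB B S (UU S) (DD B S) (dgS S) (∏ P ∈ S, P.1)

/-! ### Counting -/

open Classical in
/-- (CG) PROOF.  Let `q = #F`.  The set `{t ∈ kk F | t^(q^k) = t}` has `q^k` elements; all but at most `2 √q^k` of them are roots of elements of `prm F k`, which have `k` roots each (`StRT`, proved: `Pool.Agent.Helper54.GT.aRT`): `q^k ≤ k #(prm F k) + 2 √q^k`.  The primes which are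
not good divide `∏ (f i).discr ≠ 0` (`StIRR`, proved, `Pool/Agent/Helper3/GT/M_IRR.lean`): `k` times the number of those of degree `k` is at most the degree (`card_dvd` in `M_CTR.lean`), a constant, `≤ C √q^k`. -/
def StCG : Prop :=
  ∀ (F : Type) [Field F] [Fintype F], (2 : F) ≠ 0 → ∀ (ι : Type) [Fintype ι] (g : ι → ℕ)
    (f : ι → F[X][X]), HypF g f → ∃ C₀ : ℝ, 0 ≤ C₀ ∧ ∀ k : ℕ, 1 ≤ k →
      (Fintype.card F : ℝ) ^ k ≤
        k * (((prm F k).filter (GdF f)).card : ℝ) + C₀ * Real.sqrt (Fintype.card F) ^ k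

open Classical in
/-- (CU) The primes where everything is locally trivial.  PROOF.  `B = BB f`, (BBF).  Let `M = MS (f i) S D`, `V` the group of the `M` classes of `SelS (f i) S D` modulo squares (`StFIN`, `StSG`).  For `P ∈ GTs g f i k`, `P ∉ S`: `P` is good, so every `z ∈ SelS (f i) S D` satisfies `EvP P z`; `facs (f i) P`
has two elements (`StFAC`), and by `StOE` `∑_ψ ep P ψ z = 0`, so both `ep P ψ z` are equal; `φ_P(z) = (-1)^(ep P ψ z)` is a homomorphism `V → {± 1}`.  `T` = the set of the `P ∈ GTs g f i k`, `P ∉ S`, with `φ_P = 1`.  If `P ∉ S`, `P ∉ T`, then `2 XS ≤ MS` (`StXH`).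
`∑_{κ ∈ V} φ_P(κ) = M` for `P ∈ T` and `0` for the other `P ∈ GTs \ S`.  Let `κ ∈ V`, represented by `z` with `z β² = mk a`, `Rp (f i) c a`, `c = C' (dgS S + 1)` (`StFIN`; `a ≠ 0`, norm of `mk a` a square): if `P ∈ GTa g f i a 1 k`, `P ∉ S`, then `φ_P(κ) = chA (f i) a P` (`StOE`: `ep P ψ (mk a) = 0` iff
the residue is a square; `ep P ψ z = ep P ψ (z β²)`).  For the class of `1` take `a = 1`.  For `d = ∏ W`, `W ⊆ S ∪ B`, put `Σ(κ, d) = k ∑_{P ∈ GTs \ S} φ_P(κ) chD d P`.  `Σ(1, 1) = k #(GTs \ S) ≤ kTc g i q^k + C √q^k` (CNI).  If `κ ≠ 1` or `d ≠ 1`: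
`|Σ(κ, d)| ≤ C'' (dgS S + 1) √q^k` by (CST) (`κ ≠ 1` means that `mk a` is not a square), the primes `P` with a zero residue of `a` (`card_bad` in `M_CTR.lean`: `k` times their number is at most `C (c + 1)`), and the elements of `S` of degree `k` (at most `dgS S / k`); a `P ∈ GTs`, `P ∉ S` does not divide `d`
(BBF).  FIRST COUNT: `k M #T = ∑_κ Σ(κ, 1) ≤ kTc q^k + C √q^k + (M - 1) C'' (dgS S + 1) √q^k`; divide by `M`.  SECOND COUNT: (EXPN) with coefficients `c_W`: `k 2^(card S + card B) #{P ∈ T | class (U, Δ)} = (1 / M) ∑_W c_W ∑_κ Σ(κ, ∏ W)`; the term `W = ∅`, `κ = 1` is at most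
`kTc q^k / M + C √q^k`, all the others are at most `C'' (dgS S + 1) √q^k / M` in absolute value, there are less than `2^(card S + card B) M` of them. -/
def StCU : Prop :=
  ∀ (F : Type) [Field F] [Fintype F], (2 : F) ≠ 0 → ∀ (ι : Type) [Fintype ι] [Nonempty ι]
    (g : ι → ℕ) (f : ι → F[X][X]), HypF g f → ∀ i : ι, ∃ C₀ : ℝ, 0 ≤ C₀ ∧
    ∀ (S U Δ : Finset (Prm F)) (D : F[X]) (k : ℕ), 1 ≤ k → (∀ P ∈ S, GdF f P) → U ⊆ S →
      Δ ⊆ BB f → ∃ T : Finset (Prm F), T ⊆ GTs g f i k ∧
        (∀ P ∈ GTs g f i k, P ∉ S → P ∉ T → 2 * XS (f i) S D P ≤ MS (f i) S D) ∧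
        k * (T.card : ℝ) ≤ kTc g i * (Fintype.card F : ℝ) ^ k / MS (f i) S D +
          C₀ * (dgS S + 1) * Real.sqrt (Fintype.card F) ^ k ∧
        k * (2 ^ S.card * 2 ^ (BB f).card * ((T.filter fun P => P ∉ S ∧
          UU (insert P S) ∩ S = U ∧ DD (BB f) (insert P S) = Δ).card : ℝ)) ≤
            kTc g i * (Fintype.card F : ℝ) ^ k / MS (f i) S D +
              C₀ * (dgS S + 1) * 2 ^ S.card * Real.sqrt (Fintype.card F) ^ k

/-! ### The law for the Selmer groups -/

/-- A polynomial with the given class. -/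
noncomputable def Dch {F : Type} [Field F] (B S U Δ : Finset (Prm F)) (e : ℕ) : F[X] := by
  classical exact if h : ∃ D, HasB B S U Δ e D then h.choose else 1

/-- The number of elements of the Selmer group. -/
noncomputable def Mc {F : Type} [Field F] {ι : Type} [Fintype ι] (f : ι → F[X][X]) (i : ι)
    (S U Δ : Finset (Prm F)) (e : ℕ) : ℕ := MS (f i) S (Dch (BB f) S U Δ e)

/-- (LWI) PROOF.  `StIRR` gives irreducibility, separability, `GeoSn`, `discr ≠ 0` for all `f i`.  Good primes are not in `BB f` (BBF), so for a set `S` of good primes `Disjoint S (BB f)` and `HasB (BB f) S U Δ e (Dch ..)` holds by (CRT2).  `C` = the maximum of the finitely many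
constants below (all the fields are monotone in `C`, for `ctr` also the hypothesis), `ρ` the maximum of those of (CTR2) for the `f i` (`ι` nonempty).  `kT_le`: `kTc g i = kIc g (2 g_i + 1) / (2 g_i) ≤ 2 kIc g`.  `disI`, `disT`: modulo `P` `f i` is irreducible for `TyI`, and has a proper factor of degree `1`
for `TyT` (`TType`, `1 ≤ g i`).  `cntG`: (CG).  `cntI`, `cntT`: (CNI) (`Hyp0` from `HypF`).  `sqf`: `StSQF` with `D₀ = ∏ (f i).discr` and `SmF` (`P ∤ D₀` iff `GdF f P`; (SM)).  `pow`, `base`: (POW).  For the steps: let `P` be good, `P ∉ S`, `U' = U` or `insert P U`, `D' = Dch .. (insert P S) U' ..`,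
`D = Dch .. S U ..`; by (SC2) (second part) `D'` has the class `(S, U, Δ, e)` and `D' = P E`, and (first part) `SelS (f i) S D' = SelS (f i) S D`.  So (STE) applies: `step` with `C ≥ 2^(2 g_i)`; `stI`, `stJ`: `#facs = 1` for `TyI` (`StFAC`); `stT`: `#facs = 2` for `TyT`.  `ctr`: (CTR2) with
`D' P = Dch .. (insert P S) (U' P) ..`, `Q` the set of all good `P ∉ S` of degree `k`.  `cntU`: (CU) with `D = Dch ..`, and (STE) last part.  `sgI`, `sgT`: (SGI). -/
def StLWI : Prop :=
  ∀ (F : Type) [Field F] [Fintype F], (2 : F) ≠ 0 → ∀ (ι : Type) [Fintype ι] [Nonempty ι]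
    (g : ι → ℕ) (f : ι → F[X][X]), HypF g f → ∃ C ρ : ℝ,
      LawH (BB f) (GdF f) (GIs f) (GTs g f) (kIc g) (kTc g) (Mc f) C ρ

/-- (GLM) The main theorem for the `D` prime to the discriminants.  PROOF.  `S ↦ ∏ S` is a bijection of `{S ∈ SmF F m | ∀ P ∈ S, GdF f P}` onto the set of the monic squarefree `D` of degree `m` which are prime to all `(f i).discr` (unique factorization; `SQF.prod_inj` in
`Pool/Agent/Helper3/GT/M_SQF.lean` for the injectivity; `P` is good iff it is prime to all the discriminants).  (LWI) and (LAW): for large `m` at least `(∏_i ∑_{j ≤ r_i} pr j - ε)` times the number of these `S` satisfy `Mc f i S (UU S) (DD (BB f) S) m ≤ 2^(r i)` for all `i`.  By (SC2) (third and first part; `m = dgS S`)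
`Mc f i S (UU S) (DD (BB f) S) m = MS (f i) S (∏ S)`, and (SB2) gives `SelLE (fK ((f i).scaleRoots D)) (2^(r i))` (monotone in `N`) for `D = ∏ S`. -/
def StGLM : Prop :=
  ∀ (F : Type) [Field F] [Fintype F], (2 : F) ≠ 0 → ∀ (ι : Type) [Fintype ι] [Nonempty ι]
    (g : ι → ℕ) (f : ι → F[X][X]), HypF g f → ∀ (r : ι → ℕ) (ε : ℝ), 0 < ε → ∀ᶠ m : ℕ in atTop,
      (∏ i, ∑ j ∈ range (r i + 1), pr j - ε) *
          ({D : F[X] | D.Monic ∧ Squarefree D ∧ D.natDegree = m ∧
            ∀ i, IsCoprime D (f i).discr}.ncard : ℝ) ≤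
        ({D : F[X] | D.Monic ∧ Squarefree D ∧ D.natDegree = m ∧ (∀ i, IsCoprime D (f i).discr) ∧
          ∀ i, SelLE (fK ((f i).scaleRoots D)) (2 ^ r i)}.ncard : ℝ)

/-! ### All `D` -/

/-- (DSR) The discriminant of the twist.  PROOF.  Both sides are the images of universal polynomials; or: over an algebraically closed field containing `F(t)` with `f = ∏ (X - τ_b)`, `f.scaleRoots D = ∏ (X - D τ_b)`, and (see `StDSC`, proved, `Pool/Agent/Helper54/GT/A_DSC.lean`)
`disc = ± ∏_{b < b'} (τ_b - τ_b')^2` with a sign depending on `n` only; or by the resultant: `f.discr` is up to a sign depending on `n` the resultant of `f` and its derivative, and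
`resultant (f.scaleRoots D) ...`.  (Sign: only `±` is needed.) -/
def StDSR : Prop :=
  ∀ (F : Type) [Field F] (f : F[X][X]) (D : F[X]), f.Monic → 1 ≤ f.natDegree →
    (f.scaleRoots D).discr = D ^ (f.natDegree * (f.natDegree - 1)) * f.discr ∨
      (f.scaleRoots D).discr = -(D ^ (f.natDegree * (f.natDegree - 1)) * f.discr)

/-- (GSR) The Galois group of the twists.  PROOF.  Over the algebraic closure `Ω` of `K' = F'(t)` the roots of `(h i).scaleRoots D₀` are `D₀ τ`, `τ` a root of `h i`, and `D₀ ∈ K'`, so the products `∏ h i` and `∏ (h i).scaleRoots D₀` have the same splitting field in `Ω`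
(`IsSplittingField`, or `Polynomial.Gal` of a polynomial is isomorphic to the group of automorphisms of any splitting field: `IsSplittingField.algEquiv`, `AlgEquiv.autCongr`). -/
def StGSR : Prop :=
  ∀ (F : Type) [Field F] (ι : Type) [Fintype ι] (f : ι → F[X][X]) (D : F[X]), D ≠ 0 →
    (∀ i, (f i).Monic) →
    Nat.card (fK ((∏ i, (f i).scaleRoots D).map
      (mapRingHom (algebraMap F (AlgebraicClosure F))))).Gal =
    Nat.card (fK ((∏ i, f i).map (mapRingHom (algebraMap F (AlgebraicClosure F))))).Gal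

/-- (HSR) PROOF.  `monic`, `deg`: `scaleRoots` preserves them.  `geo`: (GSR) (degrees).  `simple`: the prime `P` of `SimD f D₀` for `i`: (DSR), `P ∤ D₀`. -/
def StHSR : Prop :=
  ∀ (F : Type) [Field F] (ι : Type) [Fintype ι] (g : ι → ℕ) (f : ι → F[X][X]), HypF g f →
    ∀ D₀ : F[X], D₀ ≠ 0 → SimD f D₀ → HypF g fun i => (f i).scaleRoots D₀

/-- (GLX) The main theorem.  PROOF.  Let `R = ∏ (f i).discr ≠ 0` (`StIRR`).  Every monic squarefree `D` is uniquely `D₀ D₁`, `D₀` the product of the monic irreducible divisors of `D` which divide `R`, `D₁` prime to `R`; `D₀` belongs to the finite set `𝒟` of the monic squarefree polynomials all of whose prime divisors divide `R`.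
`SimD f D` iff `SimD f D₀` (the primes in the definition divide `R`).  For `D₀ ∈ 𝒟` with `SimD f D₀` apply (GLM) to the family `(f i).scaleRoots D₀` ((HSR)), `m - deg D₀` instead of `m`: `D₁` is prime to the discriminants of this family iff it is prime to `D₀` and to `R` ((DSR), degrees `≥ 3`) iff it is prime to `R`
(if it is prime to `R` then also to `D₀ ∣ R^∞`).  `((f i).scaleRoots D₀).scaleRoots D₁ = (f i).scaleRoots (D₀ * D₁)` (`Polynomial.scaleRoots_mul`).  Sum the inequalities over the finitely many `D₀`: `D ↦ (D₀, D₁)` is a bijection of the set of the `D` of degree `m` with `SimD f D` onto the disjoint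
union of the sets of the `D₁` of degree `m - deg D₀` (`m` large); the same for the sets on the right. -/
def StGLX : Prop :=
  ∀ (F : Type) [Field F] [Fintype F], (2 : F) ≠ 0 → ∀ (ι : Type) [Fintype ι] [Nonempty ι]
    (g : ι → ℕ) (f : ι → F[X][X]), HypF g f → ∀ (r : ι → ℕ) (ε : ℝ), 0 < ε → ∀ᶠ m : ℕ in atTop,
      (∏ i, ∑ j ∈ range (r i + 1), pr j - ε) *
          ({D : F[X] | D.Monic ∧ Squarefree D ∧ D.natDegree = m ∧ SimD f D}.ncard : ℝ) ≤
        ({D : F[X] | D.Monic ∧ Squarefree D ∧ D.natDegree = m ∧ SimD f D ∧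
          ∀ i, SelLE (fK ((f i).scaleRoots D)) (2 ^ r i)}.ncard : ℝ)

end Pool.Agent.Helper54.GL
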