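import Pool.Agent.Helper3.GT.St

/-!
# GL: the explicit law.  Part K: the kernel on the ranks.  Part P: counting in the natural order

`F` is a finite field of odd order `q`.  Every `St...` is a proposition which is proved in its own module
`Pool/Agent/Helper54/GL/K_*.lean` or `P_*.lean`.
-/

set_option autoImplicit false

namespace Pool.Agent.Helper54.GL

open Polynomial Finset Filter Topology
open Pool.Agent.Helper54.PT (Prm prm)
open Pool.Agent.Helper3.HY (kp red)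
open Pool.Agent.Helper3.GT (dgS)

/-! ### The kernel -/

/-- `∏_{j=1}^r 2 / (2^j - 1)`. -/
noncomputable def cr (r : ℕ) : ℝ := ∏ j ∈ range r, 2 / (2 ^ (j + 1) - 1)

/-- The limiting probability of the rank `r`. -/
noncomputable def pr (r : ℕ) : ℝ := cr r / ∑' s, cr s

/-- One step in the coordinate `i`: up with probability `2 ^ (-x i)`, down otherwise. -/
noncomputable def Bi {ι : Type} [DecidableEq ι] (i : ι) (φ : (ι → ℕ) → ℝ) (x : ι → ℕ) : ℝ :=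
  (1 / 2) ^ x i * φ (Function.update x i (x i + 1)) +
    (1 - (1 / 2) ^ x i) * φ (Function.update x i (x i - 1))

/-- The kernel: no change with probability `a`, a step in the coordinate `i` with probability `b i`. -/
noncomputable def Kn {ι : Type} [Fintype ι] [DecidableEq ι] (a : ℝ) (b : ι → ℝ)
    (φ : (ι → ℕ) → ℝ) (x : ι → ℕ) : ℝ :=
  a * φ x + ∑ i, b i * Bi i φ x

/-- Lipschitz functions. -/
def LipK {ι : Type} [DecidableEq ι] (Λ : ℝ) (φ : (ι → ℕ) → ℝ) : Prop :=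
  ∀ (x : ι → ℕ) (i : ι), |φ (Function.update x i (x i + 1)) - φ x| ≤ Λ * Real.sqrt 2 ^ x i

/-- The mean value in the coordinate `i` is zero. -/
def Mz {ι : Type} [DecidableEq ι] (i : ι) (φ : (ι → ℕ) → ℝ) : Prop :=
  ∀ x : ι → ℕ, ∑' j, pr j * φ (Function.update x i j) = 0

/-- (KA) PROOF.  `cr (r + 1) = cr r * (2 / (2 ^ (r + 1) - 1))` and `2 / (2 ^ (r + 1) - 1) ≤ 2 / 2 ^ r`, so the ratios of both series tend
to `0` (`summable_of_ratio_test_tendsto_lt_one`, or comparison: `cr (r + 1) √2^(r+1) ≤ cr r √2^r * (2 √2 / 2 ^ r)`, at most half of the previous term for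
`r ≥ 3`).  The sum of `cr` is at least `cr 0 = 1`.  Last: `2 / (2^(r+1) - 1) * (1 - 2^(-(r+1))) = 2 * 2^(-(r+1)) = 2^(-r)`. -/
def StKA : Prop :=
  (∀ r, 0 < cr r) ∧ Summable cr ∧ Summable (fun r => cr r * Real.sqrt 2 ^ r) ∧
    (∀ r, 0 < pr r) ∧ Summable pr ∧ Summable (fun r => pr r * Real.sqrt 2 ^ r) ∧ ∑' r, pr r = 1 ∧
    ∀ r, pr r * (1 / 2) ^ r = pr (r + 1) * (1 - (1 / 2) ^ (r + 1))

/-- (KB) Contraction.  PROOF.  Let `ψ = Kn a b φ`, `x`, `i`, `j = x i`, `x⁺ = update x i (j + 1)`, `x⁻ = update x i (j - 1)`, `x⁺⁺ = update x i (j + 2)`,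
`D y = φ (update y i (y i + 1)) - φ y`.  Then `ψ x⁺ - ψ x = a D x + ∑_l b l (Bi l φ x⁺ - Bi l φ x)`.  For `l ≠ i` (updates at different places
commute, `x⁺ l = x l`): `Bi l φ x⁺ - Bi l φ x = (1/2)^(x l) D (update x l (x l + 1)) + (1 - (1/2)^(x l)) D (update x l (x l - 1))`, of absolute value at most
`Λ √2^j`.  For `l = i`: `Bi i φ x⁺ - Bi i φ x = (1/2)^(j+1) (φ x⁺⁺ - φ x⁺) - (1/2)^(j+1) (φ x⁺ - φ x) + (1 - (1/2)^j) (φ x - φ x⁻)`: check
`(1/2)^(j+1) φ x⁺⁺ + (1 - (1/2)^(j+1)) φ x - (1/2)^j φ x⁺ - (1 - (1/2)^j) φ x⁻` (`x⁻` has `x⁺` as `+`-neighbour... `update x⁺ i (j + 1 - 1) = x`).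
For `j = 0` the last term has the factor `0`; for `j ≥ 1` `|φ x - φ x⁻| ≤ Λ √2^(j-1)`.  So
`|ψ x⁺ - ψ x| ≤ Λ √2^j (∑_{l ≠ i} b l + |a - b i (1/2)^(j+1)| + b i (1/2)^(j+1) √2 + b i (1 - (1/2)^j) / √2)`, and `a - b i (1/2)^(j+1) ≥ 0` because
`b i ≤ 2 a`.  The bracket is `1 - b i (1 + (1/2)^(j+1) - √2 (1/2)^(j+1) - (1 - (1/2)^j) / √2) = 1 - b i (1 - 1/√2 + (1/2)^(j+1))`
(`√2 / 2 = 1/√2`), at most `1 - b i (1 - 1/√2) ≤ 1 - b i / 4`.  `ρ = 1 - (min_i b i) / 4` (and `ρ = 0` if `ι` is empty). -/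
def StKB : Prop :=
  ∀ (ι : Type) [Fintype ι] [DecidableEq ι] (a : ℝ) (b : ι → ℝ), 0 < a → (∀ i, 0 < b i) →
    (∀ i, b i ≤ 2 * a) → a + ∑ i, b i = 1 → ∃ ρ : ℝ, 0 ≤ ρ ∧ ρ < 1 ∧
      ∀ (Λ : ℝ) (φ : (ι → ℕ) → ℝ), 0 ≤ Λ → LipK Λ φ → LipK (ρ * Λ) (Kn a b φ)

/-- (KC) PROOF.  `|φ (update x i j) - φ x| ≤ Λ ∑_l √2^l` over the integers `l` between `x i` and `j` (walk from one to the other),
`≤ 3 Λ (√2^(x i) + √2^j)` (`∑_{l < n} √2^l ≤ √2^n / (√2 - 1)`).  As `∑ pr j = 1` and `∑ pr j φ (update x i j) = 0` (all series converge absolutely, `φ` is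
bounded): `|φ x| = |∑ pr j (φ x - φ (update x i j))| ≤ 3 Λ (√2^(x i) + ∑ pr j √2^j)`, and `√2^(x i) ≥ 1`. -/
def StKC : Prop :=
  ∃ C₁ : ℝ, 0 ≤ C₁ ∧ ∀ (ι : Type) [Fintype ι] [DecidableEq ι] (i : ι) (Λ N : ℝ)
    (φ : (ι → ℕ) → ℝ), 0 ≤ Λ → (∀ x, |φ x| ≤ N) → LipK Λ φ → Mz i φ →
    ∀ x, |φ x| ≤ C₁ * Λ * Real.sqrt 2 ^ x i

/-- (KD) PROOF.  The bound: all the coefficients are nonnegative with sum `1` (`0 ≤ (1/2)^n ≤ 1`).  Mean value: the series converge absolutely, so it is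
enough to treat `φ` and the `Bi l φ`.  `l ≠ i`: `Bi l φ (update x i j)` is a combination, with coefficients which do not depend on `j`, of
`φ (update (update x l _) i j)` (updates at different places commute): the sum is `0` by `Mz i φ`.  `l = i`, `f j = φ (update x i j)`:
`∑_j pr j ((1/2)^j f (j+1) + (1 - (1/2)^j) f (j-1))`; by (KA) `pr j (1/2)^j = pr (j+1) (1 - (1/2)^(j+1))`, so the first part is
`∑_j pr (j+1) (1 - (1/2)^(j+1)) f (j+1) = ∑_{j ≥ 0} pr j (1 - (1/2)^j) f j` (the term `j = 0` is `0`), and the second part is (term `j = 0` is `0`)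
`∑_j pr (j+1) (1 - (1/2)^(j+1)) f j = ∑_j pr j (1/2)^j f j`.  The sum is `∑ pr j f j = 0`. -/
def StKD : Prop :=
  ∀ (ι : Type) [Fintype ι] [DecidableEq ι] (a : ℝ) (b : ι → ℝ), 0 ≤ a → (∀ i, 0 ≤ b i) →
    a + ∑ i, b i = 1 → ∀ (N : ℝ) (φ : (ι → ℕ) → ℝ), (∀ x, |φ x| ≤ N) →
      (∀ x, |Kn a b φ x| ≤ N) ∧ ∀ i, Mz i φ → Mz i (Kn a b φ)

/-- (KE) PROOF.  Let `ℓ i = ∑_{j ≤ r i} pr j ∈ [0, 1]`, `φ_i(y) = 1` if `y i ≤ r i` and `0` otherwise, and for a finite set `J` of indices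
`Φ_J = ∏_{i ∈ J} φ_i ∏_{i ∉ J} ℓ i`.  `Φ_∅` is the constant `∏ ℓ i`, fixed by `Kn` (`a + ∑ b = 1`), and `Φ_univ` is the function of the statement.  For `i ∉ J` the function
`ψ = Φ_(J + i) - Φ_J = (φ_i - ℓ i) ∏_{l ∈ J} φ_l ∏_{l ∉ J + i} ℓ l` is bounded by `1`, satisfies `Mz i` (`∑ pr j (φ_i(j) - ℓ i) = ℓ i - ℓ i = 0`), and `LipK 1` (values in `[-1, 1]`, `√2^n ≥ 1`; use
`LipK 2` if convenient).  By (KB), (KD), (KC) and induction `|(Kn a b)^[n] ψ x| ≤ C₁ 2 ρ^n √2^(x i)`.  `Kn` is additive; sum over the `#ι` steps from `∅` to `univ`. -/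
def StKE : Prop :=
  ∀ (ι : Type) [Fintype ι] [DecidableEq ι] (a : ℝ) (b : ι → ℝ), 0 < a → (∀ i, 0 < b i) →
    (∀ i, b i ≤ 2 * a) → a + ∑ i, b i = 1 → ∃ ρ : ℝ, 0 ≤ ρ ∧ ρ < 1 ∧ ∀ r : ι → ℕ, ∃ C : ℝ, 0 ≤ C ∧
      ∀ (n : ℕ) (x : ι → ℕ), ∏ i, ∑ j ∈ range (r i + 1), pr j - C * ρ ^ n * ∑ i, Real.sqrt 2 ^ x i ≤
        (Kn a b)^[n] (fun y => if ∀ i, y i ≤ r i then 1 else 0) x

/-- (KF) The kernel is monotone.  PROOF.  First: a function with `φ (update x i (x i + 1)) ≤ φ x` for all `x`, `i` is antitone (for `x ≤ y` walk from `x` to `y`, induction on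
`∑ (y i - x i)`).  Let `φ` be antitone.  `φ x` and, for `i ≠ l`, `Bi i φ x` (nonnegative coefficients which depend only on `x i`; updates at different places commute) do not increase when
`x l` is increased by `1`.  For `i = l`, `j = x l`, `f n = φ (update x l n)`, `d n = f n - f (n + 1) ≥ 0`: `a f j + b (2^(-j) f (j+1) + (1 - 2^(-j)) f (j-1))` minus the same for `j + 1` equals
`(a - b 2^(-j-1)) d j + b (1 - 2^(-j)) d (j-1) + b 2^(-j-1) d (j+1) ≥ 0` (for `j = 0` the middle term has the factor `0`), as `b ≤ 2 a`.  The other `i` contribute `≥ 0`. -/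
def StKF : Prop :=
  ∀ (ι : Type) [Fintype ι] [DecidableEq ι] (a : ℝ) (b : ι → ℝ), 0 ≤ a → (∀ i, 0 ≤ b i) →
    (∀ i, b i ≤ 2 * a) → ∀ φ : (ι → ℕ) → ℝ, Antitone φ → Antitone (Kn a b φ)

/-! ### Counting -/

section defs

variable {F : Type} [Field F]

/-- The finite sets of primes of total degree `m`. -/
noncomputable def SmF (F : Type) [Field F] (m : ℕ) : Finset (Finset (Prm F)) := by
  classical exact if h : {S : Finset (Prm F) | dgS S = m}.Finite then h.toFinset else ∅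

open Classical in
/-- The primes of `S` modulo which the product of the other ones is not a square. -/
noncomputable def UU (S : Finset (Prm F)) : Finset (Prm F) :=
  S.filter fun Q => ¬ IsSquare (red Q (∏ R ∈ S.erase Q, R.1))

open Classical in
/-- The primes of `B` modulo which the product of `S` is not a square. -/
noncomputable def DD (B S : Finset (Prm F)) : Finset (Prm F) :=
  B.filter fun Q => ¬ IsSquare (red Q (∏ R ∈ S, R.1))

open Classical in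
/-- The primes of good type of degree `k`. -/
noncomputable def GG {ι : Type} [Fintype ι] (GI : ℕ → Finset (Prm F))
    (GT : ι → ℕ → Finset (Prm F)) (k : ℕ) : Finset (Prm F) :=
  GI k ∪ univ.biUnion fun i => GT i k

/-- The average over the classes. -/
noncomputable def AV {ι : Type} (B : Finset (Prm F))
    (M : ι → Finset (Prm F) → Finset (Prm F) → Finset (Prm F) → ℕ → ℕ) (φ : (ι → ℕ) → ℝ)
    (S : Finset (Prm F)) (e : ℕ) : ℝ :=
  (∑ U ∈ S.powerset, ∑ Δ ∈ B.powerset, φ fun i => Nat.log 2 (M i S U Δ e)) /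
    (2 ^ S.card * 2 ^ B.card)

open Classical in
/-- The sets with exactly one element in `G k` for `k ∈ Π`. -/
noncomputable def Sec (G : ℕ → Finset (Prm F)) (Pi : Finset ℕ) : Finset (Finset (Prm F)) :=
  (Pi.biUnion G).powerset.filter fun T => ∀ k ∈ Pi, (T.filter fun P => P ∈ G k).card = 1

/-- The lower end of the window of degrees. -/
def KK (m : ℕ) : ℕ := 16 * (Nat.log 2 m + 1)

open Classical in
/-- The part of `S` in the window. -/
noncomputable def Win (G : ℕ → Finset (Prm F)) (H m : ℕ) (S : Finset (Prm F)) :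
    Finset (Prm F) :=
  S.filter fun P => P ∈ G P.1.natDegree ∧ KK m ≤ P.1.natDegree ∧ P.1.natDegree ≤ H * KK m

end defs

open Classical in
/-- The hypotheses for the law.  `Gp`: allowed primes; `B`: bad primes; `GI k`, `GT i k`: the primes of degree `k` of type `I` and of type
`T` for the index `i`; `M i S U Δ e`: the number of elements of the Selmer group. -/
structure LawH {F : Type} [Field F] [Fintype F] {ι : Type} [Fintype ι] (B : Finset (Prm F))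
    (Gp : Prm F → Prop) (GI : ℕ → Finset (Prm F)) (GT : ι → ℕ → Finset (Prm F)) (kI : ℝ)
    (kT : ι → ℝ) (M : ι → Finset (Prm F) → Finset (Prm F) → Finset (Prm F) → ℕ → ℕ)
    (C ρ : ℝ) : Prop where
  odd : (2 : F) ≠ 0
  kI_pos : 0 < kI
  kT_pos : ∀ i, 0 < kT i
  kT_le : ∀ i, kT i ≤ 2 * kI
  one_le : 1 ≤ C
  rho : 0 ≤ ρ ∧ ρ < 1
  subI : ∀ k, ∀ P ∈ GI k, P ∈ prm F k ∧ Gp P
  subT : ∀ i k, ∀ P ∈ GT i k, P ∈ prm F k ∧ Gp P
  disI : ∀ i k, Disjoint (GI k) (GT i k)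
  disT : ∀ i j k, i ≠ j → Disjoint (GT i k) (GT j k)
  cntG : ∀ k : ℕ, 1 ≤ k → (Fintype.card F : ℝ) ^ k ≤
    k * (((prm F k).filter Gp).card : ℝ) + C * Real.sqrt (Fintype.card F) ^ k
  cntI : ∀ k : ℕ, 1 ≤ k → |k * ((GI k).card : ℝ) - kI * (Fintype.card F : ℝ) ^ k| ≤
    C * Real.sqrt (Fintype.card F) ^ k
  cntT : ∀ (i : ι) (k : ℕ), 1 ≤ k → |k * ((GT i k).card : ℝ) - kT i * (Fintype.card F : ℝ) ^ k| ≤
    C * Real.sqrt (Fintype.card F) ^ k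
  sqf : ∃ c : ℝ, 0 < c ∧ ∀ᶠ m : ℕ in atTop, c * (Fintype.card F : ℝ) ^ m ≤
    (((SmF F m).filter fun S => ∀ P ∈ S, Gp P).card : ℝ)
  pow : ∀ i S U Δ e, (∀ P ∈ S, Gp P) → U ⊆ S → Δ ⊆ B → ∃ x : ℕ, M i S U Δ e = 2 ^ x
  base : ∀ i Δ e, Δ ⊆ B → (M i ∅ ∅ Δ e : ℝ) ≤ C
  step : ∀ i S U Δ e P U', (∀ P ∈ S, Gp P) → U ⊆ S → Δ ⊆ B → Gp P → P ∉ S →
    (U' = U ∨ U' = insert P U) → (M i (insert P S) U' Δ e : ℝ) ≤ C * M i S U Δ e
  ctr : ∀ i S U Δ e (k : ℕ) (U' : Prm F → Finset (Prm F)), (∀ P ∈ S, Gp P) → U ⊆ S → Δ ⊆ B →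
    C * (dgS S + 1) ≤ Real.sqrt (Fintype.card F) ^ k → (∀ P, U' P = U ∨ U' P = insert P U) →
    (k : ℝ) * ∑ P ∈ (prm F k).filter fun P => Gp P ∧ P ∉ S,
      Real.sqrt (M i (insert P S) (U' P) Δ e) ≤
        (Fintype.card F : ℝ) ^ k * (C + ρ * Real.sqrt (M i S U Δ e))
  stI : ∀ i S U Δ e k, ∀ P ∈ GI k, (∀ P ∈ S, Gp P) → U ⊆ S → Δ ⊆ B → P ∉ S →
    M i (insert P S) U Δ e ≤ M i S U Δ e ∧ M i (insert P S) (insert P U) Δ e ≤ M i S U Δ e
  stJ : ∀ i j S U Δ e k, j ≠ i → ∀ P ∈ GT i k, (∀ P ∈ S, Gp P) → U ⊆ S → Δ ⊆ B → P ∉ S →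
    M j (insert P S) U Δ e ≤ M j S U Δ e ∧ M j (insert P S) (insert P U) Δ e ≤ M j S U Δ e
  stT : ∀ i S U Δ e k, ∀ P ∈ GT i k, (∀ P ∈ S, Gp P) → U ⊆ S → Δ ⊆ B → P ∉ S →
    M i (insert P S) U Δ e ≤ 2 * M i S U Δ e ∧
      M i (insert P S) (insert P U) Δ e ≤ 2 * M i S U Δ e
  cntU : ∀ i S U Δ e (k : ℕ), 1 ≤ k → (∀ P ∈ S, Gp P) → U ⊆ S → Δ ⊆ B →
    ∃ T : Finset (Prm F), T ⊆ GT i k ∧ (∀ P ∈ GT i k, P ∉ S → P ∉ T →
        2 * M i (insert P S) U Δ e ≤ M i S U Δ e ∧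
          2 * M i (insert P S) (insert P U) Δ e ≤ M i S U Δ e) ∧
      k * (T.card : ℝ) ≤ kT i * (Fintype.card F : ℝ) ^ k / M i S U Δ e +
        C * (dgS S + 1) * Real.sqrt (Fintype.card F) ^ k ∧
      k * (2 ^ S.card * 2 ^ B.card * ((T.filter fun P => P ∉ S ∧
        UU (insert P S) ∩ S = U ∧ DD B (insert P S) = Δ).card : ℝ)) ≤
          kT i * (Fintype.card F : ℝ) ^ k / M i S U Δ e +
            C * (dgS S + 1) * 2 ^ S.card * Real.sqrt (Fintype.card F) ^ k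
  sgI : ∀ (S U Δ : Finset (Prm F)) (k : ℕ), 1 ≤ k → (∀ P ∈ S, Gp P) → U ⊆ S → Δ ⊆ B →
    |k * (2 ^ S.card * 2 ^ B.card * (((GI k).filter fun P => P ∉ S ∧
      UU (insert P S) ∩ S = U ∧ DD B (insert P S) = Δ).card : ℝ)) -
      kI * (Fintype.card F : ℝ) ^ k| ≤
        C * (dgS S + 1) * 2 ^ S.card * Real.sqrt (Fintype.card F) ^ k
  sgT : ∀ i (S U Δ : Finset (Prm F)) (k : ℕ), 1 ≤ k → (∀ P ∈ S, Gp P) → U ⊆ S → Δ ⊆ B →
    |k * (2 ^ S.card * 2 ^ B.card * (((GT i k).filter fun P => P ∉ S ∧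
      UU (insert P S) ∩ S = U ∧ DD B (insert P S) = Δ).card : ℝ)) -
      kT i * (Fintype.card F : ℝ) ^ k| ≤
        C * (dgS S + 1) * 2 ^ S.card * Real.sqrt (Fintype.card F) ^ k

/-! ### Statements without hypotheses on the groups -/

/-- (SM) PROOF.  `Pool.Agent.Helper3.GT.StSQF` (first part; proved: `Pool/Agent/Helper3/GT/M_SQF.lean`, `SQF.upper`) gives the finiteness and the bound.  The number of
elements of `prm F k` is at most `q^k / k` (in `Pool/Agent/Helper54/PT` or `Helper3/HY`: search for a bound of `(prm F k).card`; or: the product of the primes of degree `k`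
divides `X^(q^k) - X`). -/
def StSM : Prop :=
  ∀ (F : Type) [Field F] [Fintype F], (2 : F) ≠ 0 → (∀ (m : ℕ) (S : Finset (Prm F)), S ∈ SmF F m ↔ dgS S = m) ∧
    (∀ m, (SmF F m).card ≤ Fintype.card F ^ m) ∧ 3 ≤ Fintype.card F ∧
    (∀ (k : ℕ) (P : Prm F), P ∈ prm F k ↔ P.1.natDegree = k) ∧
    ∀ k : ℕ, (k : ℝ) * ((prm F k).card : ℝ) ≤ (Fintype.card F : ℝ) ^ k

open Classical in
/-- (DUP) Two primes of the same degree.  PROOF.  For each degree `k ≥ K` and each pair `P ≠ P'` of degree `k` the sets `S` of degree `m` which contain both are determined by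
`S \ {P, P'}`, of degree `m - 2 k`: at most `q^(m - 2k)`.  There are at most `(q^k / k)^2` pairs ((SM)), so the number is at most `q^m ∑_{k ≥ K} 1 / k^2 ≤ q^m / (K - 1)`. -/
def StDUP : Prop :=
  ∀ (F : Type) [Field F] [Fintype F], (2 : F) ≠ 0 → ∀ m K : ℕ, 2 ≤ K →
    (((SmF F m).filter fun S => ∃ P ∈ S, ∃ P' ∈ S, P ≠ P' ∧
      P.1.natDegree = P'.1.natDegree ∧ K ≤ P.1.natDegree).card : ℝ) ≤
        (Fintype.card F : ℝ) ^ m / (K - 1)

open Classical in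
/-- (OM) Sets with many elements.  PROOF.  `∑_{S ∈ SmF m} 2^(card S)` is the number of pairs `(T, S)` with `T ⊆ S`; the map to `(T, S \ T)` is injective and
`dgS T + dgS (S \ T) = m`: at most `∑_{j ≤ m} q^j q^(m - j) = (m + 1) q^m`. -/
def StOM : Prop :=
  ∀ (F : Type) [Field F] [Fintype F], (2 : F) ≠ 0 → ∀ m j : ℕ,
    (((SmF F m).filter fun S => j ≤ S.card).card : ℝ) * 2 ^ j ≤ (m + 1) * (Fintype.card F : ℝ) ^ m

open Classical in
/-- (TK) Sets with few elements in `Q`.  PROOF.  Map `S` to the monic polynomial `A = ∏ S` of degree `m` (injective, see `SQF.prod_inj`), `card (S ∩ Q) = ω(A)` the number of `P ∈ Q` with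
`P ∣ A`.  Over ALL monic `A` of degree `m` (there are `q^m`): the number of multiples of `P` is `q^(m - deg P)` and of `P P'` (`P ≠ P'` in `Q`) `q^(m - deg P - deg P')`, because
`deg P + deg P' ≤ m`.  So `∑ ω = λ q^m` and `∑ ω^2 = q^m (λ^2 - ∑ q^(-2 deg P) + λ)`, `∑ (ω - λ)^2 ≤ λ q^m`.  If `2 ω < λ` then `(ω - λ)^2 ≥ λ^2 / 4`: at most
`4 q^m / λ` polynomials. -/
def StTK : Prop :=
  ∀ (F : Type) [Field F] [Fintype F], (2 : F) ≠ 0 → ∀ (m : ℕ) (Q : Finset (Prm F)),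
    (∀ P ∈ Q, 2 * P.1.natDegree ≤ m) → ∀ lam : ℝ, 0 < lam →
    ∑ P ∈ Q, ((Fintype.card F : ℝ) ^ P.1.natDegree)⁻¹ = lam →
    (((SmF F m).filter fun S => 2 * ((S ∩ Q).card : ℝ) < lam).card : ℝ) ≤
      4 / lam * (Fintype.card F : ℝ) ^ m

/-- (MUL) A multiplicative function.  PROOF.  `a_j = ∑_{S ∈ SmF j} ∏_{P ∈ S} h(deg P)`.  `m a_m = ∑_S ∑_{P ∈ S} deg P ∏_S h ≤ ∑_{k=1}^m (k #(prm k)) h(k) a_(m-k)` (`S` is determined by `P` and
`S \ {P}`) `≤ C₂ ∑_{k=1}^m q^k a_(m-k)`.  So `m a_m q^(-m) ≤ C₂ ∑_{j < m} a_j q^(-j)`, and `∑_{j < m} a_j q^(-j) ≤ ∏_{deg P ≤ m} (1 + h(deg P) q^(-deg P)) ≤ exp(∑_{k=1}^m #(prm k) h(k) q^(-k))`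
(`Finset.prod_one_add`: the product over the finite set of the primes of degree at most `m`, expanded over its subsets, contains all the `S` of degree `< m`;
`1 + x ≤ exp x`), and `#(prm k) q^(-k) ≤ 1 / k`. -/
def StMUL : Prop :=
  ∀ (F : Type) [Field F] [Fintype F], (2 : F) ≠ 0 → ∀ (h : ℕ → ℝ) (C₂ : ℝ), 1 ≤ C₂ →
    (∀ k, 0 ≤ h k ∧ h k ≤ C₂) → ∀ m : ℕ, 1 ≤ m →
    ∑ S ∈ SmF F m, ∏ P ∈ S, h P.1.natDegree ≤
      C₂ / m * (Fintype.card F : ℝ) ^ m * Real.exp (∑ k ∈ Icc 1 m, h k / k)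

/-! ### The potential -/

open Classical in
/-- (W4) PROOF.  Write `V S = AV B M (fun x => √2^(x i)) S e`; since `M` is a power of `2`, `√2^(log₂ M) = √M`.  Choose `ρ'`, `δ`, `A'` with `ρ < ρ' < 1`, `0 < δ < 1`,
`(1 - δ) ρ' ≥ ρ`, `(1 - δ) A' ≥ C + ρ A'`.  For `T ∈ SmF j` with all degrees `> L` induct on `j` (strong induction) for the assertion.  `j = 0`: `T = ∅`.  `j ≥ 1`:
`j V(E₀ ∪ T) = ∑_{P ∈ T} deg P V(E₀ ∪ T)`; write `T = T' + P`; `j ∑_T V(E₀ ∪ T) = ∑_{k > L} ∑_{T'} ∑_{P ∉ T', deg P = k, Gp P} k V(insert P (E₀ ∪ T'))` over `T' ∈ SmF (j - k)`.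
The average over the classes of `insert P S`, `S = E₀ ∪ T'`, is the average over the classes `(U, Δ)` of `S` of the mean of the two values for `U' = U` and `U' = insert P U` (the subsets of `insert P S`):
by `ctr` (for the two functions `U' P = U` and `U' P = insert P U`; hypothesis `C (dgS S + 1) ≤ C (m + 1) ≤ √q^L ≤ √q^k`; `P ∉ E₀` automatically, degrees) the inner sum is at most
`q^k (C + ρ V(S))`.  By induction `j ∑_T V(E₀ ∪ T) ≤ ∑_k q^k ∑_{T'} (C + ρ A' + ρ ρ'^(card T') V(E₀))`.  On the other side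
`j ∑_T (A' + ρ'^(card T) V(E₀)) = ∑_k ∑_{T'} ∑_{P ∉ T', deg P = k, Gp P} k (A' + ρ'^(card T' + 1) V(E₀))`, and
`k #{P ∉ T', Gp P, deg P = k} ≥ q^k - C √q^k - m ≥ (1 - δ) q^k` by `cntG` (at most `m / k` elements of `T'` have degree `k`), if `K₀` is large (`m + 1 ≤ √q^L ≤ √q^k`, so
`C √q^k + m ≤ (C + 1) √q^k ≤ δ q^k`). -/
def StW4 : Prop :=
  ∀ (F : Type) [Field F] [Fintype F] (ι : Type) [Fintype ι] (B : Finset (Prm F))
    (Gp : Prm F → Prop) (GI : ℕ → Finset (Prm F)) (GT : ι → ℕ → Finset (Prm F)) (kI : ℝ)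
    (kT : ι → ℝ) (M : ι → Finset (Prm F) → Finset (Prm F) → Finset (Prm F) → ℕ → ℕ)
    (C ρ : ℝ), LawH B Gp GI GT kI kT M C ρ → ∃ (A' ρ' : ℝ) (K₀ : ℕ), 0 ≤ A' ∧ 0 ≤ ρ' ∧ ρ' < 1 ∧
      ∀ m L : ℕ, K₀ ≤ L → C * (m + 1) ≤ Real.sqrt (Fintype.card F) ^ L →
      ∀ (i : ι) (e : ℕ) (E₀ : Finset (Prm F)), (∀ P ∈ E₀, Gp P ∧ P.1.natDegree ≤ L) →
      ∀ j : ℕ, dgS E₀ + j ≤ m →
        ∑ T ∈ (SmF F j).filter fun T => ∀ P ∈ T, Gp P ∧ L < P.1.natDegree,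
            AV B M (fun x => Real.sqrt 2 ^ x i) (E₀ ∪ T) e ≤
          ∑ T ∈ (SmF F j).filter fun T => ∀ P ∈ T, Gp P ∧ L < P.1.natDegree,
            (A' + ρ' ^ T.card * AV B M (fun x => Real.sqrt 2 ^ x i) E₀ e)

open Classical in
/-- (VS) PROOF.  Let `K = KK m`, `L = H K`, `G = GG GI GT`.  Every `S` is uniquely `S = S₁ ∪ T`, `S₁` the part of degree `≤ L`, `T` the part of degree `> L`; `Win G H m S = Win G H m S₁ =: W`, and
`S \ W = (S₁ \ W) ∪ T`.  For fixed `S₁` apply (W4) with `E₀ = S₁ \ W`, `j = m - dgS S₁` (for large `m`: `√q^L ≥ √3^(16 (log₂ m + 1)) ≥ m^(12) ≥ C (m + 1)`).  By `step`, `base` and induction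
`√M(E₀) ≤ √C^(card E₀ + 1) ≤ C^(card S₁ + 1)`, so `AV(√2^(x i)) E₀ ≤ C^(card S₁ + 1)`.  The sum is at most
`∑_{S ∈ SmF m} (A' + C * C^(card S₁) ρ'^(card T)) ≤ A' q^m + C ∑_S ∏_{P ∈ S} h(deg P)` with `h k = C` for `k ≤ L`, `ρ'` for `k > L` (replace `ρ'` by a positive number if it is `0`).  (MUL):
`≤ (C / m) q^m exp(∑_{k ≤ L} C / k + ρ' ∑_{k ≤ m} 1 / k) ≤ (C / m) q^m exp(C (1 + log L) + ρ' (1 + log m))`, and `L^C m^(ρ' - 1) → 0` since `L = 16 H (log₂ m + 1)`.  So for large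
`m` the second term is at most `q^m`: `C_V = A' + 1`, independent of `H`. -/
def StVS : Prop :=
  ∀ (F : Type) [Field F] [Fintype F] (ι : Type) [Fintype ι] (B : Finset (Prm F))
    (Gp : Prm F → Prop) (GI : ℕ → Finset (Prm F)) (GT : ι → ℕ → Finset (Prm F)) (kI : ℝ)
    (kT : ι → ℝ) (M : ι → Finset (Prm F) → Finset (Prm F) → Finset (Prm F) → ℕ → ℕ)
    (C ρ : ℝ), LawH B Gp GI GT kI kT M C ρ → ∃ CV : ℝ, 0 ≤ CV ∧ ∀ H : ℕ, 1 ≤ H →
      ∀ᶠ m : ℕ in atTop, ∀ (i : ι) (e : ℕ),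
        ∑ S ∈ (SmF F m).filter fun S => ∀ P ∈ S, Gp P,
          AV B M (fun x => Real.sqrt 2 ^ x i) (S \ Win (GG GI GT) H m S) e ≤
            CV * (Fintype.card F : ℝ) ^ m

/-! ### Adding primes of good type -/

open Classical in
/-- (STI) One more prime, all classes.  PROOF.  The subsets of `insert P S` are the `U` and `insert P U`, `U ⊆ S`; so `AV φ (insert P S)` is the average over the classes `(U, Δ)` of `S` of
`(φ(x) + φ(x')) / 2` with `x`, `x'` the vectors of the `log₂ M j (insert P S) U Δ e`, `log₂ M j (insert P S) (insert P U) Δ e`.  Let `y = (log₂ M j S U Δ e)_j`.  `φ` is antitone: by `stI`, `stJ`, `stT` (and `Nat.log_mono_right`):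
for `P ∈ GI k` `φ(x), φ(x') ≥ φ(y)`; for `P ∈ GT i k` they are `≥ φ(y⁺)`, `y⁺ = update y i (y i + 1)`, and `≥ φ(y⁻)`, `y⁻ = update y i (y i - 1)`, if `P ∉ T_i`, `T_i` the set of `cntU`
(`2 M' ≤ M` gives `log₂ M' + 1 ≤ log₂ M`).  All `P ∈ GG k` are `∉ S` by hypothesis.  So for each class the sum over `P ∈ GG k` is at least
`#(GI k) φ(y) + ∑_i (#(GT i k) φ(y⁻) - #T_i (φ(y⁻) - φ(y⁺)))`, `0 ≤ φ(y⁻) - φ(y⁺) ≤ 1`, `k #T_i ≤ kT i q^k 2^(- y i) + C (dgS S + 1) √q^k` (`M i = 2^(y i)` by `pow`), `k #(GT i k) ≥ kT i q^k - C √q^k`, the same for `GI k`.  This is at least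
`(q^k / k) (kI φ(y) + ∑_i kT i Bi i φ y) - (2 #ι + 1) C (dgS S + 1) √q^k = (q^k / k) κ (Kn a b φ)(y) - ...`, `κ = kI + ∑ kT i`, and
`#(GG k) ≤ (q^k / k) κ + (#ι + 1) C √q^k` (disjoint union).  `0 ≤ Kn a b φ ≤ 1`. -/
def StSTI : Prop :=
  ∀ (F : Type) [Field F] [Fintype F] (ι : Type) [Fintype ι] [DecidableEq ι] (B : Finset (Prm F))
    (Gp : Prm F → Prop) (GI : ℕ → Finset (Prm F)) (GT : ι → ℕ → Finset (Prm F)) (kI : ℝ)
    (kT : ι → ℝ) (M : ι → Finset (Prm F) → Finset (Prm F) → Finset (Prm F) → ℕ → ℕ)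
    (C ρ : ℝ), LawH B Gp GI GT kI kT M C ρ → ∃ C' : ℝ, 0 ≤ C' ∧
      ∀ φ : (ι → ℕ) → ℝ, (∀ x, 0 ≤ φ x ∧ φ x ≤ 1) → Antitone φ →
      ∀ (S : Finset (Prm F)) (e k : ℕ), 1 ≤ k → (∀ P ∈ S, Gp P) → (∀ P ∈ S, P ∉ GG GI GT k) →
        ((GG GI GT k).card : ℝ) *
          AV B M (Kn (kI / (kI + ∑ i, kT i)) (fun i => kT i / (kI + ∑ i, kT i)) φ) S e -
            C' * (dgS S + 1) * Real.sqrt (Fintype.card F) ^ k ≤
          ∑ P ∈ GG GI GT k, AV B M φ (insert P S) e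

open Classical in
/-- (STL) The last prime, with the class of the product.  PROOF.  For `P ∈ GG k` let `U = UU (insert P S) ∩ S`, `Δ = DD B (insert P S)`; `UU (insert P S)` is `U` or `insert P U`, so by `stI`, `stJ`, `stT`, `cntU` and since `φ` is
antitone the value of `φ` in the statement is at least `φ(y)` for `P ∈ GI k`, and for `P ∈ GT i k` at least `φ(y⁺)`, and at least `φ(y⁻)` if `P ∉ T_i` (see (STI); `y = (log₂ M j S U Δ e)_j`, `T_i` the set of `cntU` for the class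
`(U, Δ)`).  Sum over all classes `(U, Δ)`, `U ⊆ S`, `Δ ⊆ B`, the sum over the `P` with this class: by `sgI`, `sgT` and `cntU` (last part) for each class (as in (STI)) it is at least
`2^(-card S - card B) ((q^k / k) κ (Kn a b φ)(y) - (2 #ι + 1) C (dgS S + 1) 2^(card S) √q^k)`; there are `2^(card S + card B)` classes, so the total is at least
`(q^k / k) κ AV (Kn a b φ) S - (2 #ι + 1) C (dgS S + 1) 2^(card S) √q^k`. -/
def StSTL : Prop :=
  ∀ (F : Type) [Field F] [Fintype F] (ι : Type) [Fintype ι] [DecidableEq ι] (B : Finset (Prm F))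
    (Gp : Prm F → Prop) (GI : ℕ → Finset (Prm F)) (GT : ι → ℕ → Finset (Prm F)) (kI : ℝ)
    (kT : ι → ℝ) (M : ι → Finset (Prm F) → Finset (Prm F) → Finset (Prm F) → ℕ → ℕ)
    (C ρ : ℝ), LawH B Gp GI GT kI kT M C ρ → ∃ C' : ℝ, 0 ≤ C' ∧
      ∀ φ : (ι → ℕ) → ℝ, (∀ x, 0 ≤ φ x ∧ φ x ≤ 1) → Antitone φ →
      ∀ (S : Finset (Prm F)) (e k : ℕ), 1 ≤ k → (∀ P ∈ S, Gp P) → (∀ P ∈ S, P ∉ GG GI GT k) →
        ((GG GI GT k).card : ℝ) *
          AV B M (Kn (kI / (kI + ∑ i, kT i)) (fun i => kT i / (kI + ∑ i, kT i)) φ) S e -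
            C' * (dgS S + 1) * 2 ^ S.card * Real.sqrt (Fintype.card F) ^ k ≤
          ∑ P ∈ GG GI GT k,
            φ (fun i => Nat.log 2 (M i (insert P S) (UU (insert P S)) (DD B (insert P S)) e))

open Classical in
/-- (IT) All the primes of the window.  PROOF.  Write `G = GG GI GT`, `K' = Kn ...`, `n = card Π`; `K'` preserves the functions with values in `[0, 1]` and (KF, use it as a hypothesis `StKF`; `kT i ≤ 2 kI`) the antitone functions.  The sets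
`G k` for different `k` are disjoint (degrees).  `Sec G (insert k Π)` is in bijection with `G k × Sec G Π` by `(P, T) ↦ insert P T`, so `card (Sec G Π) = ∏ card (G k)`.  (1) For every finite set `Π` of degrees `≥ 1`, every antitone `φ` with values in `[0, 1]` and every `E` as in the statement
`∑_{T ∈ Sec G Π} AV φ (E ∪ T) ≥ card (Sec G Π) AV (K'^[n] φ) E - n η card (Sec G Π)`, if `C' (dgS (E ∪ T) + 1) √q^k ≤ η card (G k)` for all `k ∈ Π` and all `T ∈ Sec G Π` (degrees at most `m`): induction on `Π` with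
(STI): `∑_{T} ∑_{P ∈ G k} AV φ (insert P (E ∪ T)) ≥ ∑_T (card (G k) AV (K' φ) (E ∪ T) - η card (G k))`, and the induction hypothesis for `K' φ`.  (2) For the statement: let `k ∈ Π`; use (STL)
for the prime of degree `k` and then (1) for `Π \ {k}` and `K' φ`.  (Hypothesis on `η`: `dgS (E ∪ T) ≤ m`, `card (E ∪ T) ≤ w`.) -/
def StIT : Prop :=
  ∀ (F : Type) [Field F] [Fintype F] (ι : Type) [Fintype ι] [DecidableEq ι] (B : Finset (Prm F))
    (Gp : Prm F → Prop) (GI : ℕ → Finset (Prm F)) (GT : ι → ℕ → Finset (Prm F)) (kI : ℝ)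
    (kT : ι → ℝ) (M : ι → Finset (Prm F) → Finset (Prm F) → Finset (Prm F) → ℕ → ℕ)
    (C ρ : ℝ), LawH B Gp GI GT kI kT M C ρ → ∃ C' : ℝ, 0 ≤ C' ∧
      ∀ φ : (ι → ℕ) → ℝ, (∀ x, 0 ≤ φ x ∧ φ x ≤ 1) → Antitone φ →
      ∀ (m w e : ℕ) (η : ℝ) (Pi : Finset ℕ) (E : Finset (Prm F)), Pi.Nonempty → 0 ≤ η →
        (∀ P ∈ E, Gp P) → dgS E + ∑ k ∈ Pi, k = m → E.card + Pi.card ≤ w →
        (∀ k ∈ Pi, 1 ≤ k ∧ (∀ P ∈ E, P ∉ GG GI GT k) ∧
          C' * (m + 1) * 2 ^ w * Real.sqrt (Fintype.card F) ^ k ≤ η * ((GG GI GT k).card : ℝ)) →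
        ((Sec (GG GI GT) Pi).card : ℝ) *
            AV B M ((Kn (kI / (kI + ∑ i, kT i)) (fun i => kT i / (kI + ∑ i, kT i)))^[Pi.card] φ)
              E e - Pi.card * η * ((Sec (GG GI GT) Pi).card : ℝ) ≤
          ∑ T ∈ Sec (GG GI GT) Pi,
            φ (fun i => Nat.log 2 (M i (E ∪ T) (UU (E ∪ T)) (DD B (E ∪ T)) e))

/-- Regular sets. -/
def Reg {F : Type} [Field F] (G : ℕ → Finset (Prm F)) (H m n₀ : ℕ) (S : Finset (Prm F)) : Prop :=
  (¬ ∃ P ∈ S, ∃ P' ∈ S, P ≠ P' ∧ P.1.natDegree = P'.1.natDegree ∧ KK m ≤ P.1.natDegree) ∧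
    S.card ≤ 3 * (Nat.log 2 m + 1) ∧ n₀ ≤ (Win G H m S).card

open Classical in
/-- (NRG) Most sets are regular.  PROOF.  `κ = kI + ∑ kT i > 0`, `G = GG GI GT`.  Choose `H ≥ 1` such that `λ₀ = (κ / 4) log H` satisfies `λ₀ ≥ 2 n₀ + 1` and `4 / λ₀ ≤ ε / 4`.  Let `m` be large,
`K = KK m`, so `2 H K ≤ m`.  The sets which are not regular: (DUP) at most `q^m / (K - 1)`; (OM) with `j = 3 (log₂ m + 1) + 1`, `2^j ≥ m^3`: at most `(m + 1) q^m / m^3`; (TK) with `Q` the set of the `P ∈ G k`,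
`K ≤ k ≤ H K` (then `Win G H m S = S ∩ Q`), `λ = ∑_{k=K}^{HK} #(G k) q^(-k) ≥ ∑ κ / (2 k) ≥ (κ / 2) log H ≥ λ₀` (`cntI`, `cntT`, disjointness; for large `k` the error is at most half of the main term;
`∑_{k=K}^{HK} 1/k ≥ log ((HK + 1) / K)`): `card (Win) < n₀` implies `2 card (S ∩ Q) < λ`: at most `4 q^m / λ`.  Total `≤ ε q^m` for large `m`. -/
def StNRG : Prop :=
  ∀ (F : Type) [Field F] [Fintype F] (ι : Type) [Fintype ι] (B : Finset (Prm F))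
    (Gp : Prm F → Prop) (GI : ℕ → Finset (Prm F)) (GT : ι → ℕ → Finset (Prm F)) (kI : ℝ)
    (kT : ι → ℝ) (M : ι → Finset (Prm F) → Finset (Prm F) → Finset (Prm F) → ℕ → ℕ)
    (C ρ : ℝ), LawH B Gp GI GT kI kT M C ρ → ∀ (ε : ℝ) (n₀ : ℕ), 0 < ε → ∃ H : ℕ, 1 ≤ H ∧
      ∀ᶠ m : ℕ in atTop, (((SmF F m).filter fun S => ¬ Reg (GG GI GT) H m n₀ S).card : ℝ) ≤
        ε * (Fintype.card F : ℝ) ^ m

open Classical in
/-- (GRP) PROOF.  `G = GG GI GT`, `K = KK m`, `w = 3 (log₂ m + 1)`.  Group the regular sets `S` (all `P ∈ S` allowed) by `E = S \ Win G H m S` and `Π` = the set of the degrees of the elements of `Win G H m S` (`card Π = card (Win)`, since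
the degrees `≥ K` in `S` are distinct).  Let `S` be in the group of `(E, Π)`.  `E` has no element in `G k` for `k ∈ Π` (such an element would have degree `k` in the window and belong to `Win`).  For `T ∈ Sec G Π` the set
`E ∪ T` is again regular and in the same group: `Win G H m (E ∪ T) = T` (being in the window does not depend on the set), no prime of `E` has a degree in `Π` (regularity of `S`), `dgS (E ∪ T) = dgS E + ∑_{k ∈ Π} k = m`,
`card (E ∪ T) = card E + card Π`, and all `P ∈ T` are allowed; conversely the members of the group are these sets (`Win ∈ Sec G Π`).  So the sum over the group is `∑_{T ∈ Sec G Π} φ(...)` and (IT) with `η = 1/m` gives that it is at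
least `card (Sec G Π) (AV (K'^[card Π] φ) E - card Π / m)`, `card Π ≤ w`.  Hypothesis of (IT): `#(G k) ≥ κ q^k / (2 k)` for `k ≥ K` (`cntI`, `cntT`, `m` large), `k ≤ m`, `2^w ≤ (2 m)^3`, and
`√q^k ≥ √3^k ≥ 3^(8 (log₂ m + 1)) ≥ m^(12)` for `k ≥ K`, so `C' (m + 1) 2^w √q^k ≤ (1/m) κ q^k / (2 m)`.  Sum over the groups (there are at most `q^m` sets `S`). -/
def StGRP : Prop :=
  ∀ (F : Type) [Field F] [Fintype F] (ι : Type) [Fintype ι] [DecidableEq ι] (B : Finset (Prm F))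
    (Gp : Prm F → Prop) (GI : ℕ → Finset (Prm F)) (GT : ι → ℕ → Finset (Prm F)) (kI : ℝ)
    (kT : ι → ℝ) (M : ι → Finset (Prm F) → Finset (Prm F) → Finset (Prm F) → ℕ → ℕ)
    (C ρ : ℝ), LawH B Gp GI GT kI kT M C ρ →
      ∀ φ : (ι → ℕ) → ℝ, (∀ x, 0 ≤ φ x ∧ φ x ≤ 1) → Antitone φ → ∀ H n₀ : ℕ, 1 ≤ H → 1 ≤ n₀ →
      ∀ᶠ m : ℕ in atTop, ∀ e : ℕ,
        ∑ S ∈ (SmF F m).filter fun S => (∀ P ∈ S, Gp P) ∧ Reg (GG GI GT) H m n₀ S,
            AV B M ((Kn (kI / (kI + ∑ i, kT i)) (fun i => kT i / (kI + ∑ i, kT i)))^[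
              (Win (GG GI GT) H m S).card] φ) (S \ Win (GG GI GT) H m S) e -
          3 * (Nat.log 2 m + 1) / m * (Fintype.card F : ℝ) ^ m ≤
        ∑ S ∈ (SmF F m).filter fun S => (∀ P ∈ S, Gp P) ∧ Reg (GG GI GT) H m n₀ S,
          φ (fun i => Nat.log 2 (M i S (UU S) (DD B S) e))

open Classical in
/-- (LAW) The law.  PROOF.  Let `ε > 0`, `q = #F`, `c` from `sqf`, `κ = kI + ∑ kT i`, `a = kI / κ`, `b i = kT i / κ` (`b i ≤ 2 a`), `φ` the indicator function of `{x ≤ r}` (antitone), `π = ∏_i ∑_{j ≤ r i} pr j ≤ 1`,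
`ρ₁`, `C₁` from (KE) (for `r`), `CV` from (VS), `N` = the number of the `S` of degree `m` with all `P` allowed, `≥ c q^m`.  We may assume `ε ≤ 1`.  Choose `n₀ ≥ 1` with `C₁ ρ₁^(n₀) #ι CV ≤ ε c / 4`, then `H` from
(NRG) for `ε c / 4`, `n₀`.  For large `m` and `e = m`: by `pow` `M i S (UU S) (DD B S) m ≤ 2^(r i)` iff `log₂ ≤ r i`, so the number of good `S` is at least `∑_{S regular} φ(...)`, which by (GRP) is at least
`∑_{S regular} AV (K'^[card Win] φ) (S \ Win) - (ε c / 4) q^m`.  By (KE) pointwise `K'^[n] φ ≥ π - C₁ ρ₁^(n₀) ∑_i √2^(x i)` for `n ≥ n₀`; `AV` is linear and monotone and `AV 1 = 1`; with (VS) the sum is at least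
`π #{S regular} - C₁ ρ₁^(n₀) #ι CV q^m ≥ π (N - (ε c/4) q^m) - (ε c / 4) q^m`.  Total at least `π N - (3 ε c / 4) q^m ≥ (π - ε) N`. -/
def StLAW : Prop :=
  ∀ (F : Type) [Field F] [Fintype F] (ι : Type) [Fintype ι] (B : Finset (Prm F))
    (Gp : Prm F → Prop) (GI : ℕ → Finset (Prm F)) (GT : ι → ℕ → Finset (Prm F)) (kI : ℝ)
    (kT : ι → ℝ) (M : ι → Finset (Prm F) → Finset (Prm F) → Finset (Prm F) → ℕ → ℕ)
    (C ρ : ℝ), LawH B Gp GI GT kI kT M C ρ → ∀ (r : ι → ℕ) (ε : ℝ), 0 < ε →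
      ∀ᶠ m : ℕ in atTop,
        (∏ i, ∑ j ∈ range (r i + 1), pr j - ε) *
            (((SmF F m).filter fun S => ∀ P ∈ S, Gp P).card : ℝ) ≤
          (((SmF F m).filter fun S => (∀ P ∈ S, Gp P) ∧
            ∀ i, M i S (UU S) (DD B S) m ≤ 2 ^ r i).card : ℝ)

end Pool.Agent.Helper54.GL
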