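import Pool.Agent.Helper54.GL.StP
import Pool.Agent.Helper54.GT.StB

/-!
# GL: the explicit law.  Part Q: character sums over the primes of good type

Notation of part B of GT (`Pool/Agent/Helper54/GT/StA.lean`, `StB.lean`): `kk F` algebraic closure of `F`, `Om F` algebraic
closure of `kk F (X)`, `et t` evaluation at `t`, `av t a x = a(t, x)`, `ev a x` for `x ∈ Om F`, `em F : F[X] → Om F`.
Every `St...` is a proposition which is proved in its own module `Pool/Agent/Helper54/GL/Q_<Name>.lean`.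
-/

set_option autoImplicit false

namespace Pool.Agent.Helper54.GL

open Polynomial Finset Filter Topology
open Pool.Agent.Helper54.PT (Prm prm IsAbsP IsAbsInf)
open Pool.Agent.Helper3.HY (fK RR LL kp red TwAt selmerSet TType)
open Pool.Agent.Helper3.GT (Gd Bd GdF HypF facs TyI TyT Rp ep om SelS MS XS dgS GeoSn EvP)
open Pool.Agent.Helper54.GT (kk Om et ev av em rv Rts Hyp0 X0 X1 X2)

/-! ### Definitions -/

/-- Only the trivial sets are invariant: a cycle of length `n`. -/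
def CycI {n : ℕ} (σ : Equiv.Perm (Fin n)) : Prop :=
  ∀ T : Finset (Fin n), T.map σ.toEmbedding = T → T = ∅ ∨ T = univ

/-- `b₀` is fixed and the other elements form a cycle. -/
def CycT {n : ℕ} (σ : Equiv.Perm (Fin n)) (b₀ : Fin n) : Prop :=
  σ b₀ = b₀ ∧ ∀ T : Finset (Fin n), T.map σ.toEmbedding = T → b₀ ∉ T → T = ∅ ∨ T = {b₀}ᶜ

section defs

variable {F : Type} [Field F]

open Classical in
/-- The primes of degree `k` modulo which all `f i` are irreducible. -/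
noncomputable def GIs [Fintype F] {ι : Type} (f : ι → F[X][X]) (k : ℕ) : Finset (Prm F) :=
  (prm F k).filter fun P => GdF f P ∧ ∀ i, TyI (f i) P

open Classical in
/-- The primes of degree `k` modulo which `f i` is a linear times an irreducible polynomial, and the others are irreducible. -/
noncomputable def GTs [Fintype F] {ι : Type} (g : ι → ℕ) (f : ι → F[X][X]) (i : ι) (k : ℕ) :
    Finset (Prm F) :=
  (prm F k).filter fun P => GdF f P ∧ TyT (g i) (f i) P ∧ ∀ j, j ≠ i → TyI (f j) P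

/-- The density of `GIs`. -/
noncomputable def kIc {ι : Type} [Fintype ι] (g : ι → ℕ) : ℝ := ∏ i, (2 * (g i : ℝ) + 1)⁻¹

open Classical in
/-- The density of `GTs`. -/
noncomputable def kTc {ι : Type} [Fintype ι] (g : ι → ℕ) (i : ι) : ℝ :=
  (2 * (g i : ℝ))⁻¹ * ∏ j ∈ univ.erase i, (2 * (g j : ℝ) + 1)⁻¹

open Classical in
/-- `1` if `a` is a square modulo all factors of `f` modulo `P`, else `-1`. -/
noncomputable def chA (f a : F[X][X]) (P : Prm F) : ℝ :=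
  if ∀ ψ ∈ facs f P, IsSquare (AdjoinRoot.mk ψ (a.map (red P))) then 1 else -1

open Classical in
/-- `1` if `d` is a square modulo `P`, else `-1`. -/
noncomputable def chD (d : F[X]) (P : Prm F) : ℝ := if IsSquare (red P d) then 1 else -1

open Classical in
/-- The primes of `GTs` which do not divide `d` and modulo which `a` is invertible. -/
noncomputable def GTa [Fintype F] {ι : Type} (g : ι → ℕ) (f : ι → F[X][X]) (i : ι) (a : F[X][X])
    (d : F[X]) (k : ℕ) : Finset (Prm F) :=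
  (GTs g f i k).filter fun P => ¬ P.1 ∣ d ∧ ∀ ψ ∈ facs (f i) P, AdjoinRoot.mk ψ (a.map (red P)) ≠ 0

/-- For every `i` some simple prime of `f i` does not divide `d`. -/
def SimD {ι : Type} (f : ι → F[X][X]) (d : F[X]) : Prop :=
  ∀ i, ∃ P : Prm F, P.1 ∣ (f i).discr ∧ ¬ P.1 ^ 2 ∣ (f i).discr ∧
    (∀ j, j ≠ i → ¬ P.1 ∣ (f j).discr) ∧ ¬ P.1 ∣ d

/-- Points with Frobenius: roots of the family and square roots of the `a(τ_b)`. -/
def X3 {ι : Type} {g : ι → ℕ} (f : ι → F[X][X]) (i₀ : ι) (a : F[X][X])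
    (σ : ∀ i, Equiv.Perm (Fin (2 * g i + 1))) (ε : Fin (2 * g i₀ + 1) → ZMod 2)
    (Q : ℕ) : Set (kk F × (∀ i, Fin (2 * g i + 1) → kk F) × (Fin (2 * g i₀ + 1) → kk F)) :=
  {y | (y.1, y.2.1) ∈ X0 f σ Q ∧ (∀ b, y.2.2 b ≠ 0) ∧
    (∀ b, y.2.2 b ^ 2 = av y.1 a (y.2.1 i₀ b)) ∧
    ∀ b, y.2.2 b ^ Q = (-1) ^ (ε b).val * y.2.2 (σ i₀ b)}

/-- The bad primes of the family. -/
noncomputable def BB {ι : Type} [Fintype ι] (f : ι → F[X][X]) : Finset (Prm F) := by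
  classical exact if h : {P : Prm F | ∃ i, Bd (f i) P}.Finite then h.toFinset else ∅

/-- `D` is monic of degree `≡ e`, is exactly divisible by the primes `P` of `S`, with `D / P` not a square modulo `P` exactly for
`P ∈ U`; it is invertible modulo the primes of `B`, and a nonsquare exactly for those in `Δ`. -/
def HasB (B S U Δ : Finset (Prm F)) (e : ℕ) (D : F[X]) : Prop :=
  D.Monic ∧ D.natDegree % 2 = e % 2 ∧
    (∀ P ∈ S, ∃ E : F[X], D = P.1 * E ∧ ¬ P.1 ∣ E ∧ (IsSquare (red P E) ↔ P ∉ U)) ∧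
    ∀ P ∈ B, ¬ P.1 ∣ D ∧ (IsSquare (red P D) ↔ P ∉ Δ)

/-- The elements of `selmerSet h` lie in at most `N` classes modulo squares. -/
def SelLE {k : Type} [Field k] (h : k[X]) (N : ℕ) : Prop :=
  ∃ s : Finset (AdjoinRoot h)ˣ, s.card ≤ N ∧ ∀ z ∈ selmerSet h, ∃ y ∈ s, IsSquare (z * y)

end defs

/-! ### Permutations -/

/-- (CYC) Numbers of cycles.  PROOF.  `Equiv.Perm.card_of_cycleType` gives the number of the permutations with a given cycle type.  For `n ≥ 2` `CycI σ` holds iff the cycle type is `{n}` (the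
invariant sets are the unions of orbits; `CycI` says that there is one orbit): `n! / n` permutations.  For `n ≥ 3` `∃ b₀, CycT σ b₀` iff the cycle type is `{n - 1}`: `n! / (1! (n - 1))`.
(`n = 1`: one permutation.)  Alternatively: direct counting: a bijection between the `CycI` permutations and the enumerations `0, σ 0, σ² 0, ...`. -/
def StCYC : Prop :=
  (∀ n : ℕ, 1 ≤ n → {σ : Equiv.Perm (Fin n) | CycI σ}.ncard * n = n.factorial) ∧
    ∀ n : ℕ, 3 ≤ n → {σ : Equiv.Perm (Fin n) | ∃ b₀, CycT σ b₀}.ncard * (n - 1) = n.factorial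

/-! ### From points to primes -/

open Classical in
/-- (TRF) Transfer.  PROOF.  `q = #F`, `N = ∏ (2 g_i + 1)!`.  For given `(t, τ)` there is at most one `σ` with `(t, τ) ∈ X0 f σ (q^k)` (`τ i` injective), so each `(t, τ, r)` lies in at most one `Z σ ε`.
Let `Z' σ ε` be the set of the elements of `Z σ ε` whose `t` is a root of some `P ∈ prm F k`.  The union of the `Z σ ε \ Z' σ ε` has at most `2 √q^k N R` elements: at most `2 √q^k` values `t`
(`StRT`, proved: `Pool.Agent.Helper54.GT.hRT`), for each `t` at most `N` orderings `τ` (if there is one `τ` then every other one is `τ i ∘ π i` with permutations `π i`), for each `(t, τ)` at most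
`R` values `r`.  So `|∑ φ(σ, ε) #Z' σ ε - (∑ φ) q^k| ≤ #σ #E E₀ + 2 N R √q^k`, `#σ = N`.  On the other side `∑_{σ, ε} φ(σ, ε) #Z' σ ε` is the sum over `P ∈ prm F k`, over the roots `t` of `P` (every
`t` is a root of exactly one `P`; each `P` has `k` roots: `StRT`), over `τ` and over `r` of `φ(σ, ε)`: for `P ∉ Q` it is `0`, for `P ∈ Q` there are exactly `N` orderings `τ` (`StTP`, proved:
`Pool.Agent.Helper54.GT.hTP` in `B_TP.lean`), for each of them `R` values `r`, and all terms are `w P`: total `k N R ∑_{P ∈ Q} w P`. -/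
def StTRF : Prop :=
  ∀ (F : Type) [Field F] [Fintype F], (2 : F) ≠ 0 → ∀ (ι : Type) [Fintype ι] (g : ι → ℕ)
    (f : ι → F[X][X]), (∀ i, (f i).Monic) → (∀ i, (f i).natDegree = 2 * g i + 1) →
    ∀ (k : ℕ), 1 ≤ k → ∀ (Y E : Type) [Fintype E]
    (Z : (∀ i, Equiv.Perm (Fin (2 * g i + 1))) → E →
      Set (kk F × (∀ i, Fin (2 * g i + 1) → kk F) × Y))
    (φ : (∀ i, Equiv.Perm (Fin (2 * g i + 1))) → E → ℝ) (w : Prm F → ℝ) (Q : Finset (Prm F))
    (R : ℕ) (E₀ : ℝ), 0 ≤ E₀ → (∀ σ ε, |φ σ ε| ≤ 1) →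
    (∀ σ ε, (Z σ ε).Finite ∧ |((Z σ ε).ncard : ℝ) - (Fintype.card F : ℝ) ^ k| ≤ E₀) →
    (∀ σ ε, ∀ y ∈ Z σ ε, (y.1, y.2.1) ∈ X0 f σ (Fintype.card F ^ k)) →
    (∀ σ ε ε', ∀ y ∈ Z σ ε, y ∈ Z σ ε' → ε = ε') →
    (∀ t τ, {r : Y | ∃ σ ε, (t, τ, r) ∈ Z σ ε}.Finite ∧
      {r : Y | ∃ σ ε, (t, τ, r) ∈ Z σ ε}.ncard ≤ R) →
    (∀ P ∈ Q, P ∈ prm F k ∧ GdF f P ∧ ∀ t : kk F, et t P.1 = 0 →
      ∀ τ : (∀ i, Fin (2 * g i + 1) → kk F), (∀ i, (f i).map (et t) = ∏ b, (X - C (τ i b))) →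
        (∀ i, Function.Injective (τ i)) →
        {r : Y | ∃ σ ε, (t, τ, r) ∈ Z σ ε}.ncard = R ∧ ∀ r σ ε, (t, τ, r) ∈ Z σ ε → φ σ ε = w P) →
    (∀ P ∈ prm F k, P ∉ Q → ∀ t : kk F, et t P.1 = 0 → ∀ τ r σ ε, (t, τ, r) ∈ Z σ ε →
      φ σ ε = 0) →
    |((∏ i, (2 * g i + 1).factorial : ℕ) : ℝ) * R * k * ∑ P ∈ Q, w P -
      (∑ σ, ∑ ε, φ σ ε) * (Fintype.card F : ℝ) ^ k| ≤
        ((∏ i, (2 * g i + 1).factorial : ℕ) : ℝ) * (Fintype.card E * E₀ +
          2 * R * Real.sqrt (Fintype.card F) ^ k)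

/-- (TYP) Types of primes and cycles.  PROOF.  `StEB` (proved, `A_EB.lean`) gives `j : kp P → kk F` with `j (red P p) = et t p`, and `#(kp P) = q^k`.  For `h = (f i).map (red P)`: `h.map j = (f i).map (et t) =
∏ (X - τ_b)`, `τ_b^(q^k) = τ_(σ b)`: apply `StDIV` (proved, `A_DIV.lean`).  `TyI`: second part.  `TyT ← CycT`: third part.  `TyT → CycT`: `h = (X - C a) p`, `p` irreducible of degree `2 g ≥ 2`; `j(a) = τ_(b₀)` for some `b₀`, fixed by
the Frobenius, so `σ b₀ = b₀`; `h` has exactly two monic irreducible factors, so by the first part there are exactly `4` invariant sets, and `∅, univ, {b₀}, {b₀}ᶜ` are invariant and distinct. -/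
def StTYP : Prop :=
  ∀ (F : Type) [Field F] [Fintype F], (2 : F) ≠ 0 → ∀ (ι : Type) [Fintype ι] (g : ι → ℕ)
    (f : ι → F[X][X]), (∀ i, 1 ≤ g i) → (∀ i, (f i).Monic) →
    (∀ i, (f i).natDegree = 2 * g i + 1) → ∀ (k : ℕ), 1 ≤ k → ∀ P ∈ prm F k, ∀ t : kk F,
    et t P.1 = 0 → ∀ (τ : ∀ i, Fin (2 * g i + 1) → kk F) (σ : ∀ i, Equiv.Perm (Fin (2 * g i + 1))),
      (t, τ) ∈ X0 f σ (Fintype.card F ^ k) → ∀ i : ι,
      (TyI (f i) P ↔ CycI (σ i)) ∧ (TyT (g i) (f i) P ↔ ∃ b₀, CycT (σ i) b₀)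

/-- (SQ2) Squares modulo `h` for the type `T`.  PROOF.  (→) `StSQM` (proved, `A_SQM.lean`) gives `u` with `u_b^2 = a(τ_b)`, `u_b^Q = u_(σ b)`; `r_b = ± u_b = (-1)^(η b) u_b`, so `(-1)^(ε b) r_(σ b) = r_b^Q = (-1)^(η b) u_(σ b)`, `ε b = η b + η (σ b)`
and `ε b₀ = 2 η b₀ = 0`.  (←) `ε` is a coboundary `ε b = η b + η (σ b)`: the coboundaries form a set of `2^n / I` elements, `I` = number of the invariant sets (`StSGN`, proved, `A_SGN.lean`), contained in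
`{ε | ε b₀ = 0, ∑ ε = 0}`; `I ≤ 4` (an invariant set or its complement does not contain `b₀`), `I ≤ 2` if `n = 1`, so they are equal (`2^(n-2)` elements if `n ≥ 2`).  `u_b = (-1)^(η b) r_b` satisfies `u_b^Q = u_(σ b)`, `u_b^2 = a(τ_b)`.  Let
`B ∈ k[x]` be the Lagrange interpolation polynomial of degree `< n` with `B(τ_b) = u_b`; raising the coefficients to the power `Q` gives `B'` with `B'(τ_(σ b)) = B(τ_b)^Q = u_(σ b)`, so `B' = B`: the coefficients are roots of `X^Q - X`, so in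
`j(κ)`, `B = B₀.map j`.  `(B₀^2 - a).map j` vanishes at all `τ_b`, so `h ∣ B₀^2 - a` and `ψ ∣ B₀^2 - a`. -/
def StSQ2 : Prop :=
  ∀ (κ k : Type) [Field κ] [Fintype κ] [Field k] (j : κ →+* k), (2 : k) ≠ 0 → ∀ (n : ℕ)
    (h : κ[X]) (τ : Fin n → k) (σ : Equiv.Perm (Fin n)), h.Monic →
    h.map j = ∏ b, (X - C (τ b)) → Function.Injective τ →
    (∀ b, τ b ^ Fintype.card κ = τ (σ b)) → ∀ (a : κ[X]) (r : Fin n → k) (ε : Fin n → ZMod 2)
    (b₀ : Fin n), CycT σ b₀ → (∀ b, r b ≠ 0 ∧ r b ^ 2 = (a.map j).eval (τ b) ∧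
      r b ^ Fintype.card κ = (-1) ^ (ε b).val * r (σ b)) → ∑ b, ε b = 0 →
    ((∀ ψ : κ[X], ψ.Monic → Irreducible ψ → ψ ∣ h → IsSquare (AdjoinRoot.mk ψ a)) ↔ ε b₀ = 0)

/-- (CNI) PROOF.  (TRF) with `Y = E = Unit`, `Z σ ε = {(t, τ, r) | (t, τ) ∈ X0 f σ (q^k)}` (`E₀` from `StCN0`, proved, `B_CN0.lean`), `R = 1`, `w = 1`, `φ σ ε = 1` if all `CycI (σ i)`, else `0`, `Q = GIs f k`: (TYP); a prime `P` with some `(t, τ) ∈ X0` is good
(`StTP`, second part), and for good `P` and all `τ` there is `σ` with `(t, τ) ∈ X0 f σ`.  `∑ φ = ∏_i #{CycI} = N ∏ (2 g_i + 1)⁻¹` by (CYC).  Divide by `N`.  For `GTs g f i k`: `φ = 1` if `∃ b₀, CycT (σ i) b₀` and `CycI (σ j)` for `j ≠ i`. -/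
def StCNI : Prop :=
  ∀ (F : Type) [Field F] [Fintype F], (2 : F) ≠ 0 → ∀ (ι : Type) [Fintype ι] (g : ι → ℕ)
    (f : ι → F[X][X]), Hyp0 g f → ∃ C₀ : ℝ, 0 ≤ C₀ ∧ ∀ k : ℕ, 1 ≤ k →
      |k * ((GIs f k).card : ℝ) - kIc g * (Fintype.card F : ℝ) ^ k| ≤
        C₀ * Real.sqrt (Fintype.card F) ^ k ∧
      ∀ i, |k * ((GTs g f i k).card : ℝ) - kTc g i * (Fintype.card F : ℝ) ^ k| ≤
        C₀ * Real.sqrt (Fintype.card F) ^ k

/-! ### Square roots of `a(θ)` and of `d` together -/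

/-- (KI2) Independence.  PROOF.  `ev (C d * a) x = em F d * ev a x`; `em F d ≠ 0`; `ev a (θ i₀ b) ≠ 0` by `StKI` (proved, `A_KI.lean`).  Let `w^2 = em F d` and `ρ₁ b = ρ b / w`, `ρ₁ b ^ 2 = ev a (θ i₀ b)`;
`rv ρ v = w^(∑ (v b).val) rv ρ₁ v`.  Let `G₀` be the group of the `s` fixing all `θ i b`; every `s ∈ G₀` maps `ρ b` to `± ρ b`, so `rv ρ v` to `± rv ρ v`: it is enough that not all `s ∈ G₀` fix it.  (1) `∑ v b = 0`: the power of
`w` is even, so a power of `em F d`, fixed by all `s`; apply `StKI` to `ρ₁`, `v`.  (2) `v b = 1` for all `b`: `(∏ ρ₁ b)^2 = ∏ ev a (θ i₀ b) = (em F s)^2` (`StUN`, proved, `A_UN.lean`), so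
`∏ ρ b = ± em(d)^(g) em(s) w`, `em(s) ≠ 0`, and `StKD` (proved, `A_KD.lean`) gives `s' ∈ G₀` with `s' w = - w`.  (3) the other odd `v`: suppose that all `s ∈ G₀` fix `r = rv ρ v`.  Choose `x`, `y` with `v x = 1`, `v y = 0`, and `s₁` inducing the
transposition `(x y)` on the `θ i₀ b` and the identity on the others (`Rts.gal`).  `s₁ (ρ b) = ± ρ (swap x y b)` (squares).  For `s ∈ G₀` also `s₁⁻¹ s s₁ ∈ G₀`, so `s` fixes `s₁ r`, and `r * s₁ r = ± ρ_x ρ_y ∏_{b ≠ x, v b = 1} ρ_b^2`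
with `ρ_b^2 = ev (C d * a) (θ i₀ b) ≠ 0` fixed by `s`.  So all `s ∈ G₀` fix `ρ_x ρ_y = rv ρ (e_x + e_y)`, contradiction to (1). -/
def StKI2 : Prop :=
  ∀ (F : Type) [Field F] [Fintype F], (2 : F) ≠ 0 → ∀ (ι : Type) [Fintype ι] (g : ι → ℕ)
    (f : ι → F[X][X]) (θ : ∀ i, Fin (2 * g i + 1) → Om F), (∀ i, 1 ≤ g i) → (∀ i, (f i).Monic) →
    Rts g f θ → (∀ i, (f i).natDegree = 2 * g i + 1) →
    ∀ (i₀ : ι) [Fact (Irreducible (fK (f i₀)))] (a : F[X][X]) (d : F[X]),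
      IsSquare (Algebra.norm (RatFunc F)
        (algebraMap (RR (f i₀)) (LL (f i₀)) (AdjoinRoot.mk (f i₀) a))) →
      ¬ IsSquare (algebraMap (RR (f i₀)) (LL (f i₀)) (AdjoinRoot.mk (f i₀) a)) →
      d.Monic → Squarefree d → d ≠ 1 → SimD f d →
      (∀ b, ev (C d * a) (θ i₀ b) ≠ 0) ∧
      ∀ ρ : Fin (2 * g i₀ + 1) → Om F, (∀ b, ρ b ^ 2 = ev (C d * a) (θ i₀ b)) →
        ∀ v : Fin (2 * g i₀ + 1) → ZMod 2, v ≠ 0 →
          ∃ s : Om F ≃ₐ[Pool.Agent.Helper54.GT.KK F] Om F, (∀ i b, s (θ i b) = θ i b) ∧ s (rv ρ v) = -rv ρ v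

/-- (CN3) PROOF.  As in `B_CN1.lean` (proved: `StCN1`), but simpler.  `StGAL` gives `θ`.  `StCNT` (proved, `B_CNT.lean`) for the polynomial `C d * a`, `I = Fin n`, `n = 2 g_(i₀) + 1`, `z = id`, `pm σ = σ i₀`, `W = ⊤`, `N₀ = n`, `ρ b` a square
root of `ev (C d * a) (θ i₀ b)` (`ind` and `ne` from (KI2)), with `c + natDegree d` instead of `c` (coefficients of `C d * a`), and `χ v = ∑_b ε b * v (σ i₀ b)`.  The map `X3 → TupF`, `(t, τ, r) ↦ (t, τ, c)`, `c(v) = ∏_b r_b^(v b).val`, is a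
bijection, with inverse `r_b = c(e_b)` (`e_b = Pi.single b 1`): a tuple `c` satisfies `c(e_b)^2 = a(t, τ_b)` (relation for `v = v' = e_b`, `c 0 = 1`), `c(v) c(v') = c(v + v')` if the supports are disjoint, so `c(v) = ∏_b c(e_b)^(v b).val`.
Frobenius: with `v' = v ∘ σ i₀`: `c(v')^Q = ∏_b r_b^(Q v(σ b)) = ∏_b ((-1)^(ε b) r_(σ b))^(v(σ b)) = (-1)^χ(v) c(v)`; conversely the condition for `v = e_(σ b)` gives `r_b^Q = (-1)^(ε b) r_(σ b)`. -/
def StCN3 : Prop :=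
  ∀ (F : Type) [Field F] [Fintype F], (2 : F) ≠ 0 → ∀ (ι : Type) [Fintype ι] (g : ι → ℕ)
    (f : ι → F[X][X]), Hyp0 g f → ∀ (i₀ : ι) [Fact (Irreducible (fK (f i₀)))], ∃ C₀ : ℝ, 0 ≤ C₀ ∧
    ∀ (c : ℕ) (a : F[X][X]) (d : F[X]), Rp (f i₀) c a →
      IsSquare (Algebra.norm (RatFunc F)
        (algebraMap (RR (f i₀)) (LL (f i₀)) (AdjoinRoot.mk (f i₀) a))) →
      ¬ IsSquare (algebraMap (RR (f i₀)) (LL (f i₀)) (AdjoinRoot.mk (f i₀) a)) →
      d.Monic → Squarefree d → d ≠ 1 → SimD f d →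
    ∀ (σ : ∀ i, Equiv.Perm (Fin (2 * g i + 1))) (ε : Fin (2 * g i₀ + 1) → ZMod 2) (e : ℕ), 1 ≤ e →
      (X3 f i₀ (C d * a) σ ε (Fintype.card F ^ e)).Finite ∧
      |((X3 f i₀ (C d * a) σ ε (Fintype.card F ^ e)).ncard : ℝ) - (Fintype.card F : ℝ) ^ e| ≤
        C₀ * (c + d.natDegree + 1) * Real.sqrt ((Fintype.card F : ℝ) ^ e)

/-! ### Character sums -/

/-- (CS1) PROOF.  `StUN` gives `s`; `n = 2 g_i + 1`.  (TRF) with `Y = Fin n → kk F`, `E = {ε : Fin n → ZMod 2 // ∑ ε b = 0}`, `Z σ ε = X1 f i a s σ ε (q^k)` (`StCN1`, proved, `B_CN1.lean`, gives `E₀ = C₀ (c + 1) √(q^k)`), `R = 2^(n-1)`, `Q = GTa g f i a 1 k`,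
`w = chA (f i) a`, `φ σ ε = (-1)^(ε b₀)` if `CycT (σ i) b₀` for some `b₀` (unique as `n ≥ 3`) and `CycI (σ j)` for `j ≠ i`, and `0` otherwise.  Number of `r`: square roots `r_b` of the `a(t, τ_b) ≠ 0` with product `s(t)` (`∏ a(t, τ_b) = s(t)^2`): exactly
half of the `2^n` choices (`n ≥ 1`, `2 ≠ 0`); each has some `ε` with `r_b^Q = (-1)^(ε b) r_(σ b)` (squares of both sides agree), `∑ ε = 0` because `s(t)^Q = s(t)`; if some `a(t, τ_b) = 0` there is no `r`.  For `P ∈ Q` `a(t, τ_b) ≠ 0` for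
all `b`: `τ_b` is a root of `j(ψ)` for some `ψ ∈ facs (f i) P` (`StFAC`) and `ψ ∤ a` (coprime).  For `P ∈ prm F k`, `P ∉ Q`, with a tuple above: `P` is good, all residues of `a` are nonzero (`StSQM`, second part), so `P ∉ GTs`, and `φ = 0` by (TYP).  `φ = w P` for
`P ∈ Q`: (SQ2) and `StFAC`.  `∑_{σ, ε} φ = 0`: for fixed `σ` and `b₀` `∑_{∑ ε = 0} (-1)^(ε b₀) = 0` (change `ε` at `b₀` and at another place).  Divide by `N R`. -/
def StCS1 : Prop :=
  ∀ (F : Type) [Field F] [Fintype F], (2 : F) ≠ 0 → ∀ (ι : Type) [Fintype ι] (g : ι → ℕ)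
    (f : ι → F[X][X]), HypF g f → ∀ (i : ι) [Fact (Irreducible (fK (f i)))], ∃ C₀ : ℝ, 0 ≤ C₀ ∧
    ∀ (c : ℕ) (a : F[X][X]), Rp (f i) c a →
      IsSquare (Algebra.norm (RatFunc F)
        (algebraMap (RR (f i)) (LL (f i)) (AdjoinRoot.mk (f i) a))) →
      ¬ IsSquare (algebraMap (RR (f i)) (LL (f i)) (AdjoinRoot.mk (f i) a)) → ∀ k : ℕ, 1 ≤ k →
      |k * ∑ P ∈ GTa g f i a 1 k, chA (f i) a P| ≤
        C₀ * (c + 1) * Real.sqrt (Fintype.card F) ^ k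

open Classical in
/-- (CS2) PROOF.  (TRF) with `Y = kk F`, `E = ZMod 2`, `Z σ ε = X2 f d σ ε (q^k)` (`StCN2`, proved, `B_CN2.lean`), `R = 2`, `Q` the set of the statement, `w = chD d`, `φ σ ε = (-1)^ε` if `∃ b₀, CycT (σ i) b₀` and `CycI (σ j)` for `j ≠ i`, `0` otherwise ((TYP)): see the proof
of `StA2` in `B_A2.lean`: for a root `t` of `P`, `P ∤ d`, the two square roots `r` of `d(t) ≠ 0` satisfy `r^Q = r` iff `r ∈ j(kp P)` iff `red P d` is a square.  `∑ φ = 0`.  The second part (type `I`) is the same, with `φ σ ε = (-1)^ε` if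
`CycI (σ j)` for all `j`. -/
def StCS2 : Prop :=
  ∀ (F : Type) [Field F] [Fintype F], (2 : F) ≠ 0 → ∀ (ι : Type) [Fintype ι] [Nonempty ι]
    (g : ι → ℕ) (f : ι → F[X][X]), HypF g f → ∃ C₀ : ℝ, 0 ≤ C₀ ∧
    ∀ d : F[X], d.Monic → Squarefree d → d ≠ 1 → SimD f d → ∀ k : ℕ, 1 ≤ k →
      (∀ i : ι, |k * ∑ P ∈ (GTs g f i k).filter fun P => ¬ P.1 ∣ d, chD d P| ≤
        C₀ * (d.natDegree + 1) * Real.sqrt (Fintype.card F) ^ k) ∧
      |k * ∑ P ∈ (GIs f k).filter fun P => ¬ P.1 ∣ d, chD d P| ≤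
        C₀ * (d.natDegree + 1) * Real.sqrt (Fintype.card F) ^ k

/-- (CS3) PROOF.  (TRF) with `Y = Fin n → kk F`, `n = 2 g_i + 1`, `E = Fin n → ZMod 2`, `Z σ ε = X3 f i (C d * a) σ ε (q^k)` ((CN3)), `R = 2^n`, `Q = GTa g f i a d k`, `w = chA (f i) a * chD d`, `φ σ ε = (-1)^(ε b₀)` if `CycT (σ i) b₀` for some `b₀` and `CycI (σ j)` for
`j ≠ i`, and `0` otherwise.  Number of `r`: all choices of square roots of the `d(t) a(t, τ_b) ≠ 0`.  If there is a tuple above `P` then `P` is good, `P ∤ d` and the residues of `a` are nonzero.  `φ = w P` for `P ∈ Q`: let `u^2 = d(t)`, `u^Q = (-1)^η u`;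
`chD d P = (-1)^η` (`u ∈ j(kp P)` iff `η = 0`), and `r'_b = r_b / u` satisfies `r'_b^2 = a(t, τ_b)`, `r'_b^Q = (-1)^(ε b + η) r'_(σ b)`.  `∏ r'_b = ± s(t)`, `s` from `StUN`, is fixed by the Frobenius, so `∑ (ε b + η) = 0`; (SQ2) gives
`chA (f i) a P = (-1)^(ε b₀ + η)`.  The product is `(-1)^(ε b₀)`.  `∑ φ = 0`.  Divide by `N R`. -/
def StCS3 : Prop :=
  ∀ (F : Type) [Field F] [Fintype F], (2 : F) ≠ 0 → ∀ (ι : Type) [Fintype ι] (g : ι → ℕ)
    (f : ι → F[X][X]), HypF g f → ∀ (i : ι) [Fact (Irreducible (fK (f i)))], ∃ C₀ : ℝ, 0 ≤ C₀ ∧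
    ∀ (c : ℕ) (a : F[X][X]) (d : F[X]), Rp (f i) c a →
      IsSquare (Algebra.norm (RatFunc F)
        (algebraMap (RR (f i)) (LL (f i)) (AdjoinRoot.mk (f i) a))) →
      ¬ IsSquare (algebraMap (RR (f i)) (LL (f i)) (AdjoinRoot.mk (f i) a)) →
      d.Monic → Squarefree d → d ≠ 1 → SimD f d → ∀ k : ℕ, 1 ≤ k →
      |k * ∑ P ∈ GTa g f i a d k, chA (f i) a P * chD d P| ≤
        C₀ * (c + d.natDegree + 1) * Real.sqrt (Fintype.card F) ^ k

open Classical in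
/-- (CST) PROOF.  If `mk a` is not a square in `L = LL (f i)`: (CS1) for `d = 1` (`chD 1 P = 1`), (CS3) for `d ≠ 1`.  If it is a square then `d ≠ 1` and `chA (f i) a P = 1` for the `P ∈ GTa` (`StOE`: `ep` of a square is `0`, and
`ep P ψ (mk a) = 0` iff the residue is a square).  So the sum is that of (CS2) up to the primes modulo which some residue of `a` is `0`; these divide the norm of `mk a` (a nonzero polynomial of degree at most a constant times `c + 1`), so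
their number times `k` is at most `C (c + 1)`: the lemmas `card_bad`, `card_dvd` at the beginning of `Pool/Agent/Helper3/GT/M_CTR.lean`. -/
def StCST : Prop :=
  ∀ (F : Type) [Field F] [Fintype F], (2 : F) ≠ 0 → ∀ (ι : Type) [Fintype ι] [Nonempty ι]
    (g : ι → ℕ) (f : ι → F[X][X]), HypF g f → ∀ (i : ι) [Fact (Irreducible (fK (f i)))],
    ∃ C₀ : ℝ, 0 ≤ C₀ ∧
    ∀ (c : ℕ) (a : F[X][X]) (d : F[X]), Rp (f i) c a → a ≠ 0 →
      IsSquare (Algebra.norm (RatFunc F)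
        (algebraMap (RR (f i)) (LL (f i)) (AdjoinRoot.mk (f i) a))) →
      d.Monic → Squarefree d → SimD f d →
      (IsSquare (algebraMap (RR (f i)) (LL (f i)) (AdjoinRoot.mk (f i) a)) → d ≠ 1) →
      ∀ k : ℕ, 1 ≤ k → |k * ∑ P ∈ GTa g f i a d k, chA (f i) a P * chD d P| ≤
        C₀ * (c + d.natDegree + 1) * Real.sqrt (Fintype.card F) ^ k

/-! ### Classes of products -/

open Classical in
/-- (EXPN) The indicator function of a class.  PROOF.  Let `χ_v(x) = ± 1` be the quadratic character modulo `v` (`x` prime to `v`; multiplicative: finite field of odd order).  For `P ∈ prm F k`, `P ∉ S ∪ B`: for `v ∈ S` `v ∈ UU (insert P S)` iff `χ_v((∏_{S - v} R) P) = -1`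
(`(insert P S).erase v = insert P (S.erase v)`), for `b ∈ B` `b ∈ DD B (insert P S)` iff `χ_b((∏_S R) P) = -1`.  `StREC` (proved, `Pool/Agent/Helper3/GT/M_REC.lean`): `χ_v(P) = χ_P(v) s_v`, `s_v = ± 1` depending on `v` and `k` only.  So the condition
`UU (insert P S) ∩ S = U`, `DD B (insert P S) = Δ` says `χ_P(v) = c_v` for all `v ∈ S ∪ B` (disjoint), `c_v = ± 1` depending on `v, S, U, Δ, k`; its indicator function is `∏_{v ∈ S ∪ B} (1 + c_v χ_P(v)) / 2`; expand (`Finset.prod_one_add`-type lemma),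
`c W = ∏_{v ∈ W} c_v`, `χ_P(∏ W) = ∏ χ_P(v) = chD (∏ W) P`. -/
def StEXPN : Prop :=
  ∀ (F : Type) [Field F] [Fintype F], (2 : F) ≠ 0 → ∀ (B S U Δ : Finset (Prm F)) (k : ℕ),
    Disjoint S B → U ⊆ S → Δ ⊆ B → ∃ c : Finset (Prm F) → ℝ, (∀ W, |c W| ≤ 1) ∧ c ∅ = 1 ∧
      ∀ P ∈ prm F k, P ∉ S → P ∉ B →
        (2 ^ S.card * 2 ^ B.card * (if UU (insert P S) ∩ S = U ∧ DD B (insert P S) = Δ then 1 else 0)
          : ℝ) = ∑ W ∈ (S ∪ B).powerset, c W * chD (∏ v ∈ W, v.1) P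

/-- (BBF) The bad primes.  PROOF.  `Bd (f i) P` means `P.1 ^ 2 ∣ (f i).discr`, `≠ 0` by `StIRR` (proved, `Pool/Agent/Helper3/GT/M_IRR.lean`): finitely many `P`.  A good prime is not bad.  For `S` a set of good primes and `W ⊆ S ∪ BB f`, `d = ∏ W` is monic squarefree, of
degree at most `dgS S + C` (`C = dgS (BB f)`), `≠ 1` for `W ≠ ∅`, and `SimD f d`: let `P` be the simple prime for `i` (`HypF.simple`); if `P ∣ d` then `P ∈ W`; `P ∉ S` because `P ∣ (f i).discr`; `P ∉ BB f` because `P^2` does not divide `(f i).discr` and `P` does not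
divide the others. -/
def StBBF : Prop :=
  ∀ (F : Type) [Field F] [Fintype F], (2 : F) ≠ 0 → ∀ (ι : Type) [Fintype ι] (g : ι → ℕ)
    (f : ι → F[X][X]), HypF g f → (∀ P : Prm F, P ∈ BB f ↔ ∃ i, Bd (f i) P) ∧
      (∀ P : Prm F, GdF f P → P ∉ BB f) ∧
      ∀ S W : Finset (Prm F), (∀ P ∈ S, GdF f P) → W ⊆ S ∪ BB f →
        (∏ v ∈ W, v.1).Monic ∧ Squarefree (∏ v ∈ W, v.1) ∧ (W.Nonempty → ∏ v ∈ W, v.1 ≠ 1) ∧
          SimD f (∏ v ∈ W, v.1) ∧ (∏ v ∈ W, v.1).natDegree ≤ dgS S + dgS (BB f) ∧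
          ∀ P : Prm F, P.1 ∣ ∏ v ∈ W, v.1 → P ∈ W

open Classical in
/-- (SGI) PROOF.  `B = BB f`, (BBF); (EXPN) with `c`.  The elements of `GIs f k`, `GTs g f i k` are good, so not in `B`.  Sum (EXPN) over the `P ∈ GIs f k`, `P ∉ S`: the left side of the claim is
`k ∑_W c W ∑_{P ∈ GIs f k, P ∉ S} chD (∏ W) P`.  `W = ∅`: `k #(GIs f k \ S) = kIc g q^k + O(C √q^k + dgS S)` by (CNI) (`k` times the number of the elements of degree `k` of `S` is at most `dgS S`).  `W ≠ ∅`, `d = ∏ W`: (CS2) bounds `k` times the sum over the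
`P ∈ GIs f k` with `P ∤ d` by `C (deg d + 1) √q^k`; the sum over `P ∉ S` differs from it by elements of `S` of degree `k` (`P ∣ d` implies `P ∈ W`, so `P ∈ S`): at most `dgS S` after multiplication by `k`.  There are `2^(card S + card B)` sets `W`; `1 ≤ √q^k`;
`2^(card B)` is a constant.  The same for `GTs g f i k`. -/
def StSGI : Prop :=
  ∀ (F : Type) [Field F] [Fintype F], (2 : F) ≠ 0 → ∀ (ι : Type) [Fintype ι] [Nonempty ι]
    (g : ι → ℕ) (f : ι → F[X][X]), HypF g f → ∃ C₀ : ℝ, 0 ≤ C₀ ∧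
    ∀ (S U Δ : Finset (Prm F)) (k : ℕ), 1 ≤ k → (∀ P ∈ S, GdF f P) → U ⊆ S → Δ ⊆ BB f →
      |k * (2 ^ S.card * 2 ^ (BB f).card * (((GIs f k).filter fun P => P ∉ S ∧
        UU (insert P S) ∩ S = U ∧ DD (BB f) (insert P S) = Δ).card : ℝ)) -
        kIc g * (Fintype.card F : ℝ) ^ k| ≤
          C₀ * (dgS S + 1) * 2 ^ S.card * Real.sqrt (Fintype.card F) ^ k ∧
      ∀ i, |k * (2 ^ S.card * 2 ^ (BB f).card * (((GTs g f i k).filter fun P => P ∉ S ∧
        UU (insert P S) ∩ S = U ∧ DD (BB f) (insert P S) = Δ).card : ℝ)) -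
        kTc g i * (Fintype.card F : ℝ) ^ k| ≤
          C₀ * (dgS S + 1) * 2 ^ S.card * Real.sqrt (Fintype.card F) ^ k

end Pool.Agent.Helper54.GL
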